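import Pool.Agent.Work.MP_1b9dce_gt.Stmt
import Mathlib

-- merged part: Pool.Agent.Work.MP_1b9dce_gt.Defs
section
/-! Bundled versions of the definitions of the statement. -/

namespace Pool.Agent.Work.MP_1b9dce_gt

section Grp

variable {G : Type} [Group G]

/-- The kernel of a class. -/
def ker (α : H1 G) : Subgroup G where
  carrier := {g | α.1 g = 0}
  mul_mem' := by
    intro a b ha hb
    have := α.2 a b
    simp only [Set.mem_ofPred_eq] at *
    rw [this, ha, hb, add_zero]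
  one_mem' := by
    have := α.2 1 1
    simp only [mul_one] at this
    simp only [Set.mem_ofPred_eq]; linarith
  inv_mem' := by
    intro a ha
    have h1 := α.2 1 1
    have h2 := α.2 a a⁻¹
    simp only [mul_one, mul_inv_cancel, Set.mem_ofPred_eq] at *
    linarith

/-- Primitive integral classes: the image is exactly `ℤ`. -/
def Prim (α : H1 G) : Prop := Set.range α.1 = Set.range ((↑) : ℤ → ℝ)

/-- The monodromy (conjugation by any `t` with `α t = 1`) of `ker α` has growth rate `L`. -/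
def Grow (α : H1 G) (L : ℝ) : Prop :=
  ∀ B : Finset G, Subgroup.closure (B : Set G) = ker α → ∀ t : G, α.1 t = 1 →
    (∀ k ∈ ker α, ∃ c : ℝ, ∀ n : ℕ, (wl B (t ^ n * k * (t ^ n)⁻¹) : ℝ) ≤ c * L ^ n) ∧
    ∃ k ∈ ker α, ∃ c : ℝ, 0 < c ∧ ∀ n : ℕ, c * L ^ n ≤ wl B (t ^ n * k * (t ^ n)⁻¹)

/-- An open convex cone through `α₀` whose primitive integral classes have finitely generated
kernel. -/
def Cone (α₀ : H1 G) (C : Set (H1 G)) : Prop :=
  IsOpen C ∧ Convex ℝ C ∧ (∀ α ∈ C, ∀ r : ℝ, 0 < r → r • α ∈ C) ∧ α₀ ∈ C ∧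
    ∀ α ∈ C, Prim α → (ker α).FG

/-- `m` is the unique minimum point of the dilatation on the fibered face of the class with
kernel `F`. -/
def MinPt (F : Subgroup G) (m : H1 G) : Prop :=
  ∃ (α₀ : H1 G) (C : Set (H1 G)) (x : H1 G →ₗ[ℝ] ℝ) (lam : H1 G → ℝ),
    Prim α₀ ∧ ker α₀ = F ∧ IsGreatest {C' | Cone α₀ C'} C ∧
    (∀ α ∈ C, Prim α → x α = (Module.finrank ℝ (H1 (ker α)) : ℝ) - 1 ∧ Grow α (lam α)) ∧
    ContinuousOn lam C ∧ (∀ α ∈ C, ∀ r : ℝ, 0 < r → lam (r • α) = lam α ^ r⁻¹) ∧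
    m ∈ C ∧ x m = 1 ∧ ∀ α ∈ C, x α = 1 → α ≠ m → lam m < lam α

end Grp

end Pool.Agent.Work.MP_1b9dce_gt
end

-- merged part: Pool.Agent.Work.MP_1b9dce_gt.Ori
section
/-! Square tiled surfaces, combinatorially: a set `V` of squares with two permutations
`p false` (right) and `p true` (up).  Words of `F2` are read from left to right as edge paths.
Cocycles, groupoid automorphisms, Dehn twists, the group `F ⋊ ℤ`. -/

namespace Pool.Agent.Work.MP_1b9dce_gt

open Equiv
open FreeGroup (of)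

abbrev F2 : Type := FreeGroup Bool

section Act
variable {V : Type} (p : Bool → Perm V)

/-- End point of the path `w` starting from the square `s` (a right action). -/
def act (s : V) (w : F2) : V := (FreeGroup.lift (fun e => (p e)⁻¹) w)⁻¹ s

@[simp] theorem act_one (s : V) : act p s 1 = s := by simp [act]
theorem act_mul (s : V) (w w' : F2) : act p s (w * w') = act p (act p s w) w' := by simp [act]
@[simp] theorem act_of (s : V) (e : Bool) : act p s (of e) = p e s := by simp [act]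
@[simp] theorem act_inv_of (s : V) (e : Bool) : act p s (of e)⁻¹ = (p e)⁻¹ s := by simp [act]
@[simp] theorem act_act_inv (s : V) (w : F2) : act p (act p s w) w⁻¹ = s := by
  rw [← act_mul]; simp
@[simp] theorem act_inv_act (s : V) (w : F2) : act p (act p s w⁻¹) w = s := by
  rw [← act_mul]; simp
theorem act_of_zpow (s : V) (e : Bool) (n : ℤ) : act p s (of e ^ n) = (p e ^ n) s := by
  simp [act]
theorem act_of_pow (s : V) (e : Bool) (n : ℕ) : act p s (of e ^ n) = (p e ^ n) s := by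
  simp [act]
theorem act_inj (w : F2) : Function.Injective fun s => act p s w := by
  intro s t h
  have := congrArg (fun x => act p x w⁻¹) h
  simpa using this

/-- Equivariant maps commute with `act`. -/
theorem act_map {V' : Type} (p' : Bool → Perm V') (π : V → V')
    (hπ : ∀ e s, π (p e s) = p' e (π s)) (s : V) (w : F2) :
    π (act p s w) = act p' (π s) w := by
  induction w using FreeGroup.induction_on generalizing s with
  | C1 => simp
  | of e => simp [hπ]
  | inv_of e _ =>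
    simp only [act_inv_of]
    apply (p' e).injective
    rw [← hπ]; simp
  | mul a b ha hb => rw [act_mul, act_mul, hb, ha]

/-- Loops at `s₀`. -/
def stab (s₀ : V) : Subgroup F2 where
  carrier := {w | act p s₀ w = s₀}
  mul_mem' := by
    intro a b ha hb
    simp only [Set.mem_ofPred_eq] at *
    rw [act_mul, ha, hb]
  one_mem' := act_one p s₀
  inv_mem' := by
    intro a ha
    simp only [Set.mem_ofPred_eq] at *
    conv_lhs => rw [← ha]
    simp

theorem mem_stab {s₀ : V} {w : F2} : w ∈ stab p s₀ ↔ act p s₀ w = s₀ := Iff.rfl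

/-- Transitivity. -/
def Trans (s₀ : V) : Prop := ∀ s, ∃ w, act p s₀ w = s

/-! ### Multiplicative cocycles -/

variable {M : Type} [Group M]

/-- The extension of `p` by edge labels in a group. -/
def extP (σ : V → Bool → M) : Bool → Perm (V × M) := fun e =>
  { toFun := fun x => (p e x.1, x.2 * σ x.1 e)
    invFun := fun x => ((p e)⁻¹ x.1, x.2 * (σ ((p e)⁻¹ x.1) e)⁻¹)
    left_inv := by intro x; simp
    right_inv := by intro x; simp }

/-- The cocycle with edge labels `σ`: the product of the labels along the path. -/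
def coc (σ : V → Bool → M) (s : V) (w : F2) : M := (act (extP p σ) (s, 1) w).2

theorem act_extP (σ : V → Bool → M) (s : V) (g : M) (w : F2) :
    act (extP p σ) (s, g) w = (act p s w, g * coc p σ s w) := by
  have h1 : ∀ x : V × M, (act (extP p σ) x w).1 = act p x.1 w := fun x =>
    act_map (extP p σ) p Prod.fst (fun _ _ => rfl) x w
  have h2 := act_map (extP p σ) (extP p σ) (fun x : V × M => (x.1, g * x.2))
    (fun e x => by simp [extP, mul_assoc]) (s, 1) w
  simp only [mul_one] at h2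
  rw [← h2, h1]; rfl

/-- The cocycle identity. -/
def IsCoc (θ : V → F2 → M) : Prop := ∀ s w w', θ s (w * w') = θ s w * θ (act p s w) w'

theorem coc_isCoc (σ : V → Bool → M) : IsCoc p (coc p σ) := by
  intro s w w'
  have := act_extP p σ s 1 (w * w')
  rw [act_mul, act_extP, act_extP] at this
  simpa using (congrArg Prod.snd this).symm

@[simp] theorem coc_of (σ : V → Bool → M) (s : V) (e : Bool) : coc p σ s (of e) = σ s e := by
  simp [coc, extP]

variable {p}

theorem IsCoc.one {θ : V → F2 → M} (h : IsCoc p θ) (s : V) : θ s 1 = 1 := by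
  have := h s 1 1
  simpa using this

theorem IsCoc.inv {θ : V → F2 → M} (h : IsCoc p θ) (s : V) (w : F2) :
    θ (act p s w) w⁻¹ = (θ s w)⁻¹ := by
  have := h s w w⁻¹
  rw [mul_inv_cancel, h.one] at this
  exact (eq_inv_of_mul_eq_one_right this.symm)

theorem IsCoc.inv' {θ : V → F2 → M} (h : IsCoc p θ) (s : V) (w : F2) :
    θ s w⁻¹ = (θ (act p s w⁻¹) w)⁻¹ := by
  have := h.inv (act p s w⁻¹) w
  simpa using this

/-- Cocycles are determined by their values on edges. -/
theorem IsCoc.ext {θ θ' : V → F2 → M} (h : IsCoc p θ) (h' : IsCoc p θ')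
    (he : ∀ s e, θ s (of e) = θ' s (of e)) (s : V) (w : F2) : θ s w = θ' s w := by
  induction w using FreeGroup.induction_on generalizing s with
  | C1 => rw [h.one, h'.one]
  | of e => exact he s e
  | inv_of e ih => rw [h.inv', h'.inv', ih]
  | mul a b ha hb => rw [h, h', ha, hb]

/-- Pull back of a cocycle along an equivariant map. -/
theorem IsCoc.comp {V' : Type} {p' : Bool → Perm V'} {θ : V' → F2 → M} (h : IsCoc p' θ)
    (π : V → V') (hπ : ∀ e s, π (p e s) = p' e (π s)) : IsCoc p fun s => θ (π s) := by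
  intro s w w'
  simp only
  rw [h, act_map p p' π hπ]

/-! ### Additive cocycles -/

variable (p)
variable {A : Type} [AddCommGroup A]

/-- The extension of `p` by edge labels in an abelian group (levels). -/
def lev (δ : V → Bool → A) : Bool → Perm (V × A) := fun e =>
  { toFun := fun x => (p e x.1, x.2 + δ x.1 e)
    invFun := fun x => ((p e)⁻¹ x.1, x.2 - δ ((p e)⁻¹ x.1) e)
    left_inv := by intro x; simp
    right_inv := by intro x; simp }

@[simp] theorem lev_apply (δ : V → Bool → A) (e : Bool) (x : V × A) :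
    lev p δ e x = (p e x.1, x.2 + δ x.1 e) := rfl

/-- The sum of the edge labels along the path. -/
def acoc (δ : V → Bool → A) (s : V) (w : F2) : A := (act (lev p δ) (s, 0) w).2

theorem act_lev (δ : V → Bool → A) (x : V × A) (w : F2) :
    act (lev p δ) x w = (act p x.1 w, x.2 + acoc p δ x.1 w) := by
  have h1 : ∀ x : V × A, (act (lev p δ) x w).1 = act p x.1 w := fun x =>
    act_map (lev p δ) p Prod.fst (fun _ _ => rfl) x w
  have h2 := act_map (lev p δ) (lev p δ) (fun y : V × A => (y.1, x.2 + y.2))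
    (fun e y => by simp [add_assoc]) (x.1, 0) w
  simp only [add_zero] at h2
  rw [show x = (x.1, x.2) from rfl, ← h2, h1]; rfl

/-- The additive cocycle identity. -/
def IsAC (θ : V → F2 → A) : Prop := ∀ s w w', θ s (w * w') = θ s w + θ (act p s w) w'

theorem acoc_isAC (δ : V → Bool → A) : IsAC p (acoc p δ) := by
  intro s w w'
  have := act_lev p δ (s, 0) (w * w')
  rw [act_mul, act_lev, act_lev] at this
  simpa using (congrArg Prod.snd this).symm

@[simp] theorem acoc_of (δ : V → Bool → A) (s : V) (e : Bool) : acoc p δ s (of e) = δ s e := by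
  simp [acoc]

variable {p}

theorem IsAC.one {θ : V → F2 → A} (h : IsAC p θ) (s : V) : θ s 1 = 0 := by
  have := h s 1 1
  simpa using this

theorem IsAC.inv {θ : V → F2 → A} (h : IsAC p θ) (s : V) (w : F2) :
    θ (act p s w) w⁻¹ = -θ s w := by
  have := h s w w⁻¹
  rw [mul_inv_cancel, h.one] at this
  exact eq_neg_of_add_eq_zero_right this.symm

theorem IsAC.inv' {θ : V → F2 → A} (h : IsAC p θ) (s : V) (w : F2) :
    θ s w⁻¹ = -θ (act p s w⁻¹) w := by
  have := h.inv (act p s w⁻¹) w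
  simpa using this

theorem IsAC.ext {θ θ' : V → F2 → A} (h : IsAC p θ) (h' : IsAC p θ')
    (he : ∀ s e, θ s (of e) = θ' s (of e)) (s : V) (w : F2) : θ s w = θ' s w := by
  induction w using FreeGroup.induction_on generalizing s with
  | C1 => rw [h.one, h'.one]
  | of e => exact he s e
  | inv_of e ih => rw [h.inv', h'.inv', ih]
  | mul a b ha hb => rw [h, h', ha, hb]

theorem IsAC.comp {V' : Type} {p' : Bool → Perm V'} {θ : V' → F2 → A} (h : IsAC p' θ)
    (π : V → V') (hπ : ∀ e s, π (p e s) = p' e (π s)) : IsAC p fun s => θ (π s) := by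
  intro s w w'
  simp only
  rw [h, act_map p p' π hπ]

theorem IsAC.of_pow {θ : V → F2 → A} (h : IsAC p θ) (s : V) (d : Bool) (n : ℕ) :
    θ s (of d ^ n) = ∑ i ∈ Finset.range n, θ ((p d ^ i) s) (of d) := by
  induction n with
  | zero => simp [h.one]
  | succ n ih => rw [pow_succ, h, ih, Finset.sum_range_succ, act_of_pow]

end Act

/-! ### Automorphisms of the groupoid of paths which fix the squares -/

section GAut
variable {V : Type} (p : Bool → Perm V)

/-- Automorphisms of the groupoid `V ⋊ F2` fixing all objects. -/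
def GAut : Subgroup (Perm (V × F2)) where
  carrier := {θ | (∀ s w, (θ (s, w)).1 = s) ∧ (∀ s w, act p s (θ (s, w)).2 = act p s w) ∧
    IsCoc p fun s w => (θ (s, w)).2}
  mul_mem' := by
    rintro a b ⟨a1, a2, a3⟩ ⟨b1, b2, b3⟩
    have hb : ∀ s w, b (s, w) = (s, (b (s, w)).2) := fun s w => Prod.ext (b1 s w) rfl
    refine ⟨fun s w => ?_, fun s w => ?_, fun s w w' => ?_⟩
    · rw [Perm.mul_apply, hb, a1]
    · rw [Perm.mul_apply, hb, a2, b2]
    · simp only [Perm.mul_apply]
      rw [hb s (w * w'), hb s w, hb (act p s w) w']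
      have := b3 s w w'
      simp only at this
      rw [this]
      have := a3 s (b (s, w)).2 (b (act p s w, w')).2
      simp only at this
      rw [this, b2]
  one_mem' := ⟨fun _ _ => rfl, fun _ _ => rfl, fun _ _ _ => rfl⟩
  inv_mem' := by
    rintro a ⟨a1, a2, a3⟩
    have ha : ∀ s w, a (s, w) = (s, (a (s, w)).2) := fun s w => Prod.ext (a1 s w) rfl
    have b1 : ∀ s w, (a⁻¹ (s, w)).1 = s := by
      intro s w
      have := a1 (a⁻¹ (s, w)).1 (a⁻¹ (s, w)).2
      simpa using this.symm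
    have hb : ∀ s w, a (s, (a⁻¹ (s, w)).2) = (s, w) := by
      intro s w
      have : (s, (a⁻¹ (s, w)).2) = a⁻¹ (s, w) := Prod.ext (b1 s w).symm rfl
      rw [this]; simp
    have b2 : ∀ s w, act p s (a⁻¹ (s, w)).2 = act p s w := by
      intro s w
      rw [← a2, hb]
    refine ⟨b1, b2, fun s w w' => ?_⟩
    have h1 : a (s, (a⁻¹ (s, w)).2 * (a⁻¹ (act p s w, w')).2) = (s, w * w') := by
      rw [ha]
      have := a3 s (a⁻¹ (s, w)).2 (a⁻¹ (act p s w, w')).2
      simp only at this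
      rw [this, b2, hb, hb]
    have h2 : a⁻¹ (s, w * w') = (s, (a⁻¹ (s, w)).2 * (a⁻¹ (act p s w, w')).2) := by
      rw [← h1]; simp
    simp only [h2]

variable {p}

/-- The image of the path `w` from `s`. -/
def ap (θ : GAut p) (s : V) (w : F2) : F2 := (θ.1 (s, w)).2

theorem ap_pair (θ : GAut p) (s : V) (w : F2) : θ.1 (s, w) = (s, ap θ s w) :=
  Prod.ext (θ.2.1 s w) rfl
@[simp] theorem act_ap (θ : GAut p) (s : V) (w : F2) : act p s (ap θ s w) = act p s w :=
  θ.2.2.1 s w
theorem ap_isCoc (θ : GAut p) : IsCoc p (ap θ) := θ.2.2.2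
@[simp] theorem ap_one (s : V) (w : F2) : ap (1 : GAut p) s w = w := rfl
theorem ap_mul (θ θ' : GAut p) (s : V) (w : F2) : ap (θ * θ') s w = ap θ s (ap θ' s w) := by
  change (θ.1 (θ'.1 (s, w))).2 = _
  rw [ap_pair θ']; rfl
@[simp] theorem ap_inv_ap (θ : GAut p) (s : V) (w : F2) : ap θ⁻¹ s (ap θ s w) = w := by
  rw [← ap_mul]; simp
@[simp] theorem ap_ap_inv (θ : GAut p) (s : V) (w : F2) : ap θ s (ap θ⁻¹ s w) = w := by
  rw [← ap_mul]; simp
theorem ap_injective (θ : GAut p) (s : V) : Function.Injective (ap θ s) :=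
  Function.LeftInverse.injective (ap_inv_ap θ s)
theorem IsAC.ap {A : Type} [AddCommGroup A] {L : V → F2 → A} (h : IsAC p L) (θ : GAut p) :
    IsAC p fun s w => L s (ap θ s w) := by
  intro s w w'
  simp only
  rw [ap_isCoc, h, act_ap]

/-- Restriction to the loops at `s₀`. -/
def res (s₀ : V) : GAut p →* MulAut (stab p s₀) where
  toFun θ :=
    { toFun := fun k => ⟨ap θ s₀ k, by rw [mem_stab, act_ap]; exact k.2⟩
      invFun := fun k => ⟨ap θ⁻¹ s₀ k, by rw [mem_stab, act_ap]; exact k.2⟩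
      left_inv := fun k => Subtype.ext (ap_inv_ap θ s₀ k)
      right_inv := fun k => Subtype.ext (ap_ap_inv θ s₀ k)
      map_mul' := fun a b => Subtype.ext (by
        have := ap_isCoc θ s₀ a b
        rw [show act p s₀ a = s₀ from a.2] at this
        exact this) }
  map_one' := by ext k; rfl
  map_mul' θ θ' := by ext k; exact ap_mul θ θ' s₀ k

@[simp] theorem coe_res (s₀ : V) (θ : GAut p) (k : stab p s₀) :
    (res s₀ θ k : F2) = ap θ s₀ k := rfl

/-- The image of the edge `e` at `s` under the twist in direction `d` with exponents `c`. -/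
def twE (d : Bool) (c : V → ℤ) (s : V) (e : Bool) : F2 :=
  if e = d then of e else of d ^ c s * of e

theorem act_twE {d : Bool} {c : V → ℤ} (hc : ∀ s, (p d ^ c s) s = s) (s : V) (e : Bool) :
    act p s (twE d c s e) = p e s := by
  unfold twE
  split_ifs
  · simp
  · rw [act_mul, act_of_zpow, hc, act_of]

theorem act_coc {σ : V → Bool → F2} (hσ : ∀ s e, act p s (σ s e) = p e s) (s : V) (w : F2) :
    act p s (coc p σ s w) = act p s w := by
  induction w using FreeGroup.induction_on generalizing s with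
  | C1 => rw [(coc_isCoc p σ).one]
  | of e => simp [hσ]
  | inv_of e ih =>
    rw [(coc_isCoc p σ).inv']
    have := ih (act p s (of e)⁻¹)
    rw [act_inv_act] at this
    conv_lhs => enter [2]; rw [← this]
    rw [act_act_inv]
  | mul a b ha hb => rw [coc_isCoc, act_mul, ha, hb, act_mul]

theorem IsCoc.of_zpow_of_fix {θ : V → F2 → F2} (h : IsCoc p θ) {d : Bool}
    (hd : ∀ s, θ s (of d) = of d) (s : V) (n : ℤ) : θ s (of d ^ n) = of d ^ n := by
  induction n using Int.induction_on generalizing s with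
  | zero => simp [h.one]
  | succ n ih => rw [zpow_add_one, h, ih, hd]
  | pred n ih => rw [zpow_sub_one, h, ih, h.inv', hd]

theorem coc_twE_neg {d : Bool} {c : V → ℤ} (hc : ∀ s, (p d ^ c s) s = s) (s : V) (w : F2) :
    coc p (twE d c) s (coc p (twE d fun s => -c s) s w) = w := by
  have hc' : ∀ s, (p d ^ (-c s)) s = s := by
    intro s
    rw [zpow_neg]
    conv_lhs => enter [2]; rw [← hc s]
    simp
  have h1 : IsCoc p fun s w => coc p (twE d c) s (coc p (twE d fun s => -c s) s w) := by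
    intro s w w'
    simp only
    rw [coc_isCoc, coc_isCoc, act_coc (act_twE hc')]
  have h2 : IsCoc p fun (_ : V) (w : F2) => w := fun _ _ _ => rfl
  refine h1.ext h2 (fun s e => ?_) s w
  simp only [coc_of]
  by_cases he : e = d
  · simp [twE, he]
  · rw [twE, if_neg he, coc_isCoc, (coc_isCoc p _).of_zpow_of_fix (by simp [twE]),
      act_of_zpow, hc', coc_of, twE, if_neg he, ← mul_assoc, ← zpow_add]
    simp

/-- The (multi) Dehn twist in direction `d` with exponents `c`: edges in direction `d` are fixed,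
the other edge `e` at `s` goes to `d ^ (c s) * e`. -/
def tw (d : Bool) (c : V → ℤ) (hc : ∀ s, (p d ^ c s) s = s) : GAut p :=
  ⟨{ toFun := fun x => (x.1, coc p (twE d c) x.1 x.2)
     invFun := fun x => (x.1, coc p (twE d fun s => -c s) x.1 x.2)
     left_inv := fun x => by
       have hc' : ∀ s, (p d ^ (-c s)) s = s := by
         intro s
         rw [zpow_neg]
         conv_lhs => enter [2]; rw [← hc s]
         simp
       have := coc_twE_neg (c := fun s => -c s) hc' x.1 x.2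
       simp only [neg_neg] at this
       simp [this]
     right_inv := fun x => by simp [coc_twE_neg hc] },
   fun _ _ => rfl, fun s w => act_coc (act_twE hc) s w, coc_isCoc p _⟩

theorem ap_tw (d : Bool) (c : V → ℤ) (hc : ∀ s, (p d ^ c s) s = s) (s : V) (w : F2) :
    ap (tw d c hc) s w = coc p (twE d c) s w := rfl

@[simp] theorem ap_tw_of (d : Bool) (c : V → ℤ) (hc : ∀ s, (p d ^ c s) s = s) (s : V)
    (e : Bool) : ap (tw d c hc) s (of e) = twE d c s e := by
  rw [ap_tw, coc_of]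

end GAut

/-! ### Products indexed by the integers -/

/-- `prodZ a 0 = 1`, `prodZ a (j + 1) = prodZ a j * a j`. -/
def prodZ {M : Type} [Group M] (a : ℤ → M) : ℤ → M
  | (n : ℕ) => ((List.range n).map fun i : ℕ => a i).prod
  | Int.negSucc n => ((List.range (n + 1)).map fun i : ℕ => (a (-(i + 1)))⁻¹).prod

@[simp] theorem prodZ_zero {M : Type} [Group M] (a : ℤ → M) : prodZ a 0 = 1 := rfl

theorem prodZ_succ {M : Type} [Group M] (a : ℤ → M) (j : ℤ) :
    prodZ a (j + 1) = prodZ a j * a j := by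
  rcases j with n | n
  · change prodZ a ((n + 1 : ℕ) : ℤ) = prodZ a (n : ℤ) * a n
    simp [prodZ, List.range_succ]
  · rcases n with _ | n
    · change (1 : M) = ((List.range 1).map fun i : ℕ => (a (-(i + 1)))⁻¹).prod * a (-1)
      simp
    · change prodZ a (Int.negSucc n) = prodZ a (Int.negSucc (n + 1)) * a (Int.negSucc (n + 1))
      simp only [prodZ]
      rw [List.range_succ (n := n + 1)]
      simp [Int.negSucc_eq]

theorem prodZ_add_period {M : Type} [Group M] {a : ℤ → M} {q : ℤ} (h : ∀ j, a (j + q) = a j)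
    (j : ℤ) : prodZ a (q + j) = prodZ a q * prodZ a j := by
  induction j using Int.induction_on with
  | zero => simp
  | succ n ih => rw [← add_assoc, prodZ_succ, prodZ_succ, ih, add_comm q, h, mul_assoc]
  | pred n ih =>
    have h1 := prodZ_succ a (q + (-n - 1))
    have h2 := prodZ_succ a (-n - 1)
    rw [show q + (-n - 1) + 1 = q + -n by ring, ih, add_comm q (-n - 1), h] at h1
    rw [show -(n : ℤ) - 1 + 1 = -n by ring] at h2
    rw [h2, ← mul_assoc] at h1
    rw [add_comm q]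
    exact (mul_right_cancel h1).symm

/-! ### Twist data -/

/-- Direction of the twist at time `j`: horizontal (`false`) at even times. -/
def dir (j : ℤ) : Bool := decide (j % 2 = 1)

/-- A square tiled surface with a `4`-periodic sequence of positive multi twists. -/
structure TD (V : Type) where
  p : Bool → Perm V
  c : ℤ → V → ℕ
  per : ∀ j, c (j + 4) = c j
  const : ∀ j s, c j (p (dir j) s) = c j s
  cyc : ∀ j s, (p (dir j) ^ c j s) s = s

namespace TD
variable {V : Type} (D : TD V)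

/-- The twist at time `j`. -/
def T (j : ℤ) : GAut D.p :=
  tw (dir j) (fun s => (D.c j s : ℤ)) fun s => by rw [zpow_natCast]; exact D.cyc j s

theorem ap_T_of (j : ℤ) (s : V) (e : Bool) :
    ap (D.T j) s (of e) = if e = dir j then of e else of (dir j) ^ D.c j s * of e := by
  simp [T, twE]

theorem T_per (j : ℤ) : D.T (j + 4) = D.T j := by
  have : dir (j + 4) = dir j := by simp only [dir]; congr 1; apply propext; omega
  apply Subtype.ext
  ext x
  · rfl
  · change coc D.p (twE (dir (j + 4)) fun s => (D.c (j + 4) s : ℤ)) x.1 x.2 = _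
    rw [this, D.per]; rfl

/-- The partial compositions `Φ j = T 0 * T 1 * ⋯ * T (j - 1)`. -/
def Φ : ℤ → GAut D.p := prodZ D.T

@[simp] theorem Φ_zero : D.Φ 0 = 1 := rfl
theorem Φ_succ (j : ℤ) : D.Φ (j + 1) = D.Φ j * D.T j := prodZ_succ _ j
theorem Φ_four : D.Φ 4 = D.T 0 * D.T 1 * D.T 2 * D.T 3 := by
  rw [show (4 : ℤ) = 0 + 1 + 1 + 1 + 1 by norm_num, Φ_succ, Φ_succ, Φ_succ, Φ_succ]
  norm_num
theorem Φ_add_four (j : ℤ) : D.Φ (4 + j) = D.Φ 4 * D.Φ j := prodZ_add_period D.T_per j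
theorem Φ_four_mul_add (m j : ℤ) : D.Φ (4 * m + j) = D.Φ 4 ^ m * D.Φ j := by
  induction m using Int.induction_on with
  | zero => simp
  | succ n ih =>
    rw [show 4 * ((n : ℤ) + 1) + j = 4 + (4 * n + j) by ring, Φ_add_four, ih, ← mul_assoc,
      add_comm, zpow_one_add]
  | pred n ih =>
    have := D.Φ_add_four (4 * (-(n : ℤ) - 1) + j)
    rw [show 4 + (4 * (-(n : ℤ) - 1) + j) = 4 * -n + j by ring, ih] at this
    rw [eq_inv_mul_of_mul_eq this.symm, ← mul_assoc, sub_eq_neg_add, zpow_add]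
    simp

/-- The monodromy on `F = π₁(S)`. -/
def phi (s₀ : V) : MulAut (stab D.p s₀) := res s₀ (D.Φ 4)

/-- `G = F ⋊ ℤ`, the fundamental group of the mapping torus. -/
abbrev G (s₀ : V) : Type := stab D.p s₀ ⋊[zpowersHom _ (D.phi s₀)] Multiplicative ℤ

variable {D}

/-- The fibre coordinate, as a word. -/
def kf {s₀ : V} (g : D.G s₀) : F2 := g.left
/-- The time coordinate. -/
def jf {s₀ : V} (g : D.G s₀) : ℤ := Multiplicative.toAdd g.right

theorem act_kf {s₀ : V} (g : D.G s₀) : act D.p s₀ (kf g) = s₀ := g.left.2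
theorem jf_mul {s₀ : V} (g g' : D.G s₀) : jf (g * g') = jf g + jf g' := rfl
theorem kf_mul {s₀ : V} (g g' : D.G s₀) :
    kf (g * g') = kf g * ap (D.Φ 4 ^ jf g) s₀ (kf g') := by
  simp only [kf, SemidirectProduct.mul_left, Subgroup.coe_mul, zpowersHom_apply, phi,
    ← map_zpow, coe_res]
  rfl
theorem G_ext {s₀ : V} {g g' : D.G s₀} (h1 : kf g = kf g') (h2 : jf g = jf g') : g = g' :=
  SemidirectProduct.ext (Subtype.ext h1) (Multiplicative.toAdd.injective h2)
/-- The element with given coordinates. -/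
def mkG {s₀ : V} (k : F2) (hk : act D.p s₀ k = s₀) (j : ℤ) : D.G s₀ :=
  ⟨⟨k, hk⟩, Multiplicative.ofAdd j⟩
@[simp] theorem kf_mkG {s₀ : V} (k : F2) (hk : act D.p s₀ k = s₀) (j : ℤ) :
    kf (mkG k hk j) = k := rfl
@[simp] theorem jf_mkG {s₀ : V} (k : F2) (hk : act D.p s₀ k = s₀) (j : ℤ) :
    jf (mkG k hk j) = j := rfl

end TD

/-! ### Classes vanishing on all rows and columns -/

section Tau
variable {V : Type} (p : Bool → Perm V) {A : Type} [AddCommGroup A]

/-- Level change along an edge: `0` horizontally, `f (up s) - f s` vertically. -/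
def dl (f : V → A) (s : V) (e : Bool) : A := if e then f (p true s) - f s else 0

/-- The class of the potential `f`. -/
def tau (f : V → A) : V → F2 → A := acoc p (dl p f)

theorem tau_isAC (f : V → A) : IsAC p (tau p f) := acoc_isAC p _

theorem tau_of_pow (f : V → A) (s : V) (d : Bool) (n : ℕ) :
    tau p f s (of d ^ n) = if d then f ((p true ^ n) s) - f s else 0 := by
  rw [(tau_isAC p f).of_pow]
  cases d
  · simp [tau, dl]
  · simp only [tau, acoc_of, dl, if_true]
    induction n with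
    | zero => simp
    | succ n ih => rw [Finset.sum_range_succ, ih, pow_succ', Perm.mul_apply]; abel

theorem tau_map {B : Type} [AddCommGroup B] (ψ : A →+ B) (f : V → A) (s : V) (w : F2) :
    tau p (fun s => ψ (f s)) s w = ψ (tau p f s w) := by
  have h : IsAC p fun s w => ψ (tau p f s w) := by
    intro s w w'
    simp only
    rw [tau_isAC, map_add]
  refine (tau_isAC p _).ext h (fun s e => ?_) s w
  cases e <;> simp [tau, dl]

end Tau

namespace TD
variable {V : Type} (D : TD V) {A : Type} [AddCommGroup A]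

theorem tau_T (f : V → A) (j : ℤ) (s : V) (w : F2) :
    tau D.p f s (ap (D.T j) s w) = tau D.p f s w := by
  refine ((tau_isAC D.p f).ap (D.T j)).ext (tau_isAC D.p f) (fun s e => ?_) s w
  simp only [ap_T_of]
  split_ifs with h
  · rfl
  · rw [tau_isAC, tau_of_pow, act_of_pow, D.cyc]
    have := D.cyc j s
    cases hd : dir j
    · simp
    · rw [hd] at this; simp [this]

theorem tau_Φ (f : V → A) (j : ℤ) (s : V) (w : F2) :
    tau D.p f s (ap (D.Φ j) s w) = tau D.p f s w := by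
  induction j using Int.induction_on generalizing w with
  | zero => simp
  | succ n ih => rw [Φ_succ, ap_mul, ih, tau_T]
  | pred n ih =>
    have h := D.Φ_succ (-(n : ℤ) - 1)
    rw [show -(n : ℤ) - 1 + 1 = -n by ring] at h
    have := ih (ap (D.T (-(n : ℤ) - 1))⁻¹ s w)
    rw [h, ap_mul, ap_ap_inv] at this
    rw [this, ← D.tau_T f (-(n : ℤ) - 1) s (ap _ s w), ap_ap_inv]

theorem tau_Φ_zpow (f : V → A) (m : ℤ) (s : V) (w : F2) :
    tau D.p f s (ap (D.Φ 4 ^ m) s w) = tau D.p f s w := by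
  have := D.tau_Φ f (4 * m + 0) s w
  rwa [Φ_four_mul_add, Φ_zero, mul_one] at this

/-- The class `g ↦ U * jf g + tau f (kf g)`. -/
def cls (s₀ : V) (U : ℝ) (f : V → ℝ) : H1 (D.G s₀) :=
  ⟨fun g => U * jf g + tau D.p f s₀ (kf g), by
    intro a b
    simp only
    rw [jf_mul, kf_mul, tau_isAC, act_kf, tau_Φ_zpow]
    push_cast; ring⟩

theorem cls_apply (s₀ : V) (U : ℝ) (f : V → ℝ) (g : D.G s₀) :
    (D.cls s₀ U f).1 g = U * jf g + tau D.p f s₀ (kf g) := rfl

theorem cls_int (s₀ : V) (U : ℤ) (f : V → ℤ) (g : D.G s₀) :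
    (D.cls s₀ U fun s => (f s : ℝ)).1 g = ((U * jf g + tau D.p f s₀ (kf g) : ℤ) : ℝ) := by
  rw [cls_apply]
  have := tau_map D.p (Int.castAddHom ℝ) f s₀ (kf g)
  simp only [Int.coe_castAddHom] at this
  rw [this]; push_cast; rfl

end TD

/-- The commutator going once around a puncture. -/
def kap : F2 := (of false)⁻¹ * (of true)⁻¹ * of false * of true

end Pool.Agent.Work.MP_1b9dce_gt
end

-- merged part: Pool.Agent.Work.MP_1b9dce_gt.Cut
section
/-! The `ℤ`-cover, heights of twist events, systems of cuts, eigen-cocycles (definitions and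
basic facts). -/

namespace Pool.Agent.Work.MP_1b9dce_gt

open Equiv
open FreeGroup (of)

namespace TD
variable {V : Type} (D : TD V)

/-- The `ℤ`-cover defined by an integral potential. -/
abbrev pc (f : V → ℤ) : Bool → Perm (V × ℤ) := lev D.p (dl D.p f)

/-- The `ℤ / U`-cover defined by an integral potential. -/
abbrev pm (f : V → ℤ) (U : ℕ) : Bool → Perm (V × ZMod U) :=
  lev D.p (dl D.p fun s => (f s : ZMod U))

theorem act_pc (f : V → ℤ) (x : V × ℤ) (w : F2) :
    act (D.pc f) x w = (act D.p x.1 w, x.2 + tau D.p f x.1 w) := act_lev _ _ x w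

theorem act_pm (f : V → ℤ) (U : ℕ) (x : V × ZMod U) (w : F2) :
    act (D.pm f U) x w = (act D.p x.1 w, x.2 + (tau D.p f x.1 w : ℤ)) := by
  rw [act_lev]
  have := tau_map D.p (Int.castAddHom (ZMod U)) f x.1 w
  simp only [Int.coe_castAddHom] at this
  rw [← this]; rfl

theorem act_pc_Φ (f : V → ℤ) (j : ℤ) (x : V × ℤ) (w : F2) :
    act (D.pc f) x (ap (D.Φ j) x.1 w) = act (D.pc f) x w := by
  rw [act_pc, act_pc, act_ap, tau_Φ]

theorem isCoc_pc_Φ (f : V → ℤ) (j : ℤ) : IsCoc (D.pc f) fun x => ap (D.Φ j) x.1 :=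
  (ap_isCoc (D.Φ j)).comp Prod.fst fun _ _ => rfl

/-- Heights: the twist event at time `j` on the square `(s, n)` of the `ℤ`-cover happens at
height `4 * n + η j s`. -/
structure Heights (U : ℕ) (f : V → ℤ) where
  η : ℤ → V → ℤ
  per : ∀ j s, η (j + 4) s = η j s + 4 * U
  mono : ∀ j s, η j s < η (j + 1) s
  par : ∀ j s, dir (η j s) = dir j
  const : ∀ j s, 0 < D.c j s → η j (D.p (dir j) s) + 4 * dl D.p f s (dir j) = η j s

/-- The markings of the level sets `σ` of the height function. -/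
structure CutSys (U : ℕ) (f : V → ℤ) where
  E : ℤ → V × ℤ → F2 → F2
  coc : ∀ σ, IsCoc (D.pc f) (E σ)
  act_E : ∀ σ x w, act (D.pc f) x (E σ x w) = act (D.pc f) x w
  bij : ∀ σ x, Function.Bijective (E σ x)
  shift : ∀ σ s n w, E (σ + 4) (s, n + 1) w = E σ (s, n) w
  time : ∀ σ x w, E (σ + 4 * U) x w = ap (D.Φ 4) x.1 (E σ x w)
  step : ∀ σ, ∃ (d : Bool) (c : V × ℤ → ℕ), (∀ x, (D.pc f d ^ c x) x = x) ∧
    ∀ x e, E (σ + 1) x (of e) = E σ x (if e = d then of e else of d ^ c x * of e)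
  edge : ∀ σ x e, ∃ j, E σ x (of e) = ap (D.Φ j) x.1 (of e)

/-- The length cocycle on the `ℤ`-cover with weights `θ ^ n * l s e`. -/
noncomputable def Lc (f : V → ℤ) (θ : ℝ) (l : V → Bool → ℝ) : V × ℤ → F2 → ℝ :=
  acoc (D.pc f) fun x e => θ ^ x.2 * l x.1 e

theorem Lc_isAC (f : V → ℤ) (θ : ℝ) (l : V → Bool → ℝ) : IsAC (D.pc f) (D.Lc f θ l) :=
  acoc_isAC _ _

@[simp] theorem Lc_of (f : V → ℤ) (θ : ℝ) (l : V → Bool → ℝ) (x : V × ℤ) (e : Bool) :
    D.Lc f θ l x (of e) = θ ^ x.2 * l x.1 e := acoc_of _ _ _ _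

theorem Lc_isAC_Φ (f : V → ℤ) (θ : ℝ) (l : V → Bool → ℝ) (j : ℤ) :
    IsAC (D.pc f) fun x w => D.Lc f θ l x (ap (D.Φ j) x.1 w) := by
  intro x w w'
  simp only
  rw [ap_isCoc, Lc_isAC, act_pc_Φ, act_pc]

theorem Lc_shift (f : V → ℤ) {θ : ℝ} (hθ : θ ≠ 0) (l : V → Bool → ℝ) (s : V) (n m : ℤ)
    (w : F2) : D.Lc f θ l (s, n + m) w = θ ^ m * D.Lc f θ l (s, n) w := by
  have h1 : IsAC (D.pc f) fun x => D.Lc f θ l (x.1, x.2 + m) :=
    (D.Lc_isAC f θ l).comp (fun x : V × ℤ => (x.1, x.2 + m)) fun e x => by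
      simp only [lev_apply]; congr 1; ring
  have h2 : IsAC (D.pc f) fun x w => θ ^ m * D.Lc f θ l x w := by
    intro x w w'
    simp only
    rw [Lc_isAC]; ring
  exact h1.ext h2 (fun x e => by simp only [Lc_of]; rw [zpow_add₀ hθ]; ring) (s, n) w

/-- Positive weights which are multiplied by `u` by the monodromy. -/
def Eig (f : V → ℤ) (θ u : ℝ) (l : V → Bool → ℝ) : Prop :=
  (∀ s e, 0 < l s e) ∧ ∀ x w, D.Lc f θ l x (ap (D.Φ 4) x.1 w) = u * D.Lc f θ l x w

variable {D}

theorem Eig.zpow {f : V → ℤ} {θ u : ℝ} {l : V → Bool → ℝ} (h : D.Eig f θ u l) (hu : u ≠ 0)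
    (m : ℤ) (x : V × ℤ) (w : F2) :
    D.Lc f θ l x (ap (D.Φ 4 ^ m) x.1 w) = u ^ m * D.Lc f θ l x w := by
  induction m using Int.induction_on generalizing w with
  | zero => simp
  | succ n ih => rw [zpow_add_one, ap_mul, ih, h.2, zpow_add_one₀ hu, mul_assoc]
  | pred n ih =>
    have := h.2 x (ap (D.Φ 4)⁻¹ x.1 w)
    rw [ap_ap_inv] at this
    rw [zpow_sub_one, ap_mul, ih, this, zpow_sub_one₀ hu]
    field_simp

/-- All timed edges have positive length. -/
theorem Eig.pos {f : V → ℤ} {θ u : ℝ} {l : V → Bool → ℝ} (h : D.Eig f θ u l) (hθ : 0 < θ)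
    (hu : 0 < u) (j : ℤ) (x : V × ℤ) (e : Bool) :
    0 < D.Lc f θ l x (ap (D.Φ j) x.1 (of e)) := by
  have key : ∀ n : ℕ, ∀ x e, 0 < D.Lc f θ l x (ap (D.Φ n) x.1 (of e)) := by
    intro n
    induction n with
    | zero => intro x e; simpa using mul_pos (zpow_pos hθ _) (h.1 _ _)
    | succ n ih =>
      intro x e
      push_cast
      rw [Φ_succ, ap_mul, ap_T_of]
      split_ifs
      · exact ih x e
      · have h1 := D.Lc_isAC_Φ f θ l n
        have h2 := h1 x (of (dir n) ^ D.c n x.1) (of e)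
        simp only at h2
        rw [h2, h1.of_pow]
        exact add_pos_of_nonneg_of_pos (Finset.sum_nonneg fun i _ => (ih _ _).le) (ih _ _)
  have hj : j = 4 * (j / 4) + ((j % 4).toNat : ℤ) := by omega
  rw [hj, Φ_four_mul_add, ap_mul, h.zpow hu.ne']
  exact mul_pos (zpow_pos hu _) (key _ x e)

variable (D)

/-- The multiplier of the affine representation. -/
noncomputable def chi (s₀ : V) (f : V → ℤ) (θ u : ℝ) (g : D.G s₀) : ℝ :=
  θ ^ tau D.p f s₀ (kf g) * u ^ jf g

/-- The translation part of the affine representation. -/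
noncomputable def Lg (s₀ : V) (f : V → ℤ) (θ : ℝ) (l : V → Bool → ℝ) (g : D.G s₀) : ℝ :=
  D.Lc f θ l (s₀, 0) (kf g)

theorem chi_mul (s₀ : V) (f : V → ℤ) {θ u : ℝ} (hθ : θ ≠ 0) (hu : u ≠ 0) (g g' : D.G s₀) :
    D.chi s₀ f θ u (g * g') = D.chi s₀ f θ u g * D.chi s₀ f θ u g' := by
  simp only [chi]
  rw [kf_mul, jf_mul, tau_isAC, act_kf, tau_Φ_zpow, zpow_add₀ hθ, zpow_add₀ hu]; ring

variable {D}

theorem Eig.Lg_mul {f : V → ℤ} {θ u : ℝ} {l : V → Bool → ℝ} (h : D.Eig f θ u l) (hθ : θ ≠ 0)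
    (hu : u ≠ 0) (s₀ : V) (g g' : D.G s₀) :
    D.Lg s₀ f θ l (g * g') = D.Lg s₀ f θ l g + D.chi s₀ f θ u g * D.Lg s₀ f θ l g' := by
  simp only [Lg, chi]
  rw [kf_mul, Lc_isAC, act_pc, act_kf, D.Lc_shift f hθ, h.zpow hu _ (s₀, 0)]; ring

/-- A horizontal loop: it has time `0`, level `0` and positive length. -/
theorem exists_row [Finite V] (s₀ : V) : ∃ k : D.G s₀, jf k = 0 ∧
    (∀ f : V → ℤ, tau D.p f s₀ (kf k) = 0) ∧
    ∀ (f : V → ℤ) (θ : ℝ) (l : V → Bool → ℝ), 0 < θ → (∀ s e, 0 < l s e) →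
      0 < D.Lg s₀ f θ l k := by
  have hN := orderOf_pos (D.p false)
  refine ⟨mkG (of false ^ orderOf (D.p false)) (by rw [act_of_pow, pow_orderOf_eq_one]; rfl) 0,
    rfl, fun f => by simp [tau_of_pow], fun f θ l hθ hl => ?_⟩
  simp only [Lg, kf_mkG]
  rw [(D.Lc_isAC f θ l).of_pow]
  refine Finset.sum_pos (fun i _ => ?_) ⟨0, Finset.mem_range.2 hN⟩
  rw [Lc_of]
  exact mul_pos (zpow_pos hθ _) (hl _ _)

end TD

end Pool.Agent.Work.MP_1b9dce_gt
end

-- merged part: Pool.Agent.Work.MP_1b9dce_gt.CutEx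
section
namespace Pool.Agent.Work.MP_1b9dce_gt

open Equiv
open FreeGroup (of)

theorem CutEx_exists_time (g : ℤ → ℤ) (hg : ∀ j, g j < g (j + 1)) (σ : ℤ) :
    ∃ J : ℤ, ∀ j, J ≤ j ↔ σ ≤ g j := by
  have hm : StrictMono g := strictMono_int_of_lt_succ hg
  have hk : ∀ (k : ℕ) (j : ℤ), g j + k ≤ g (j + k) := by
    intro k
    induction k with
    | zero => intro j; simp
    | succ k ih =>
      intro j
      have h1 := ih j
      have h2 := hg (j + k)
      push_cast
      rw [← add_assoc j]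
      omega
  obtain ⟨J, hJ, hmin⟩ := Int.exists_least_of_bdd (P := fun j => σ ≤ g j)
    ⟨-((g 0 - σ).natAbs : ℤ), fun z hz => by
      by_contra hlt
      have h1 := hk (g 0 - σ).natAbs (-((g 0 - σ).natAbs : ℤ))
      have h2 := hm (not_le.1 hlt)
      simp only [neg_add_cancel] at h1
      omega⟩
    ⟨((σ - g 0).natAbs : ℤ), by
      have h1 := hk (σ - g 0).natAbs 0
      simp only [zero_add] at h1
      omega⟩
  exact ⟨J, fun j => ⟨fun h => hJ.trans (hm.monotone h), hmin j⟩⟩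

namespace TD
variable {V : Type} (D : TD V) (f : V → ℤ)

/-- The marking attached to a time function. -/
def CutEx_EJ (J : V × ℤ → ℤ) : V × ℤ → F2 → F2 :=
  coc (D.pc f) fun x e => ap (D.Φ (J x)) x.1 (of e)

theorem CutEx_EJ_coc (J : V × ℤ → ℤ) : IsCoc (D.pc f) (D.CutEx_EJ f J) := coc_isCoc _ _

theorem CutEx_EJ_of (J : V × ℤ → ℤ) (x : V × ℤ) (e : Bool) :
    D.CutEx_EJ f J x (of e) = ap (D.Φ (J x)) x.1 (of e) := coc_of _ _ _ _

theorem CutEx_act_EJ (J : V × ℤ → ℤ) (x : V × ℤ) (w : F2) :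
    act (D.pc f) x (D.CutEx_EJ f J x w) = act (D.pc f) x w :=
  act_coc (fun y e => by rw [act_pc_Φ, act_of]) x w

theorem CutEx_cyc (j : ℤ) (x : V × ℤ) : (D.pc f (dir j) ^ D.c j x.1) x = x := by
  rw [← act_of_pow, act_pc, act_of_pow, D.cyc, tau_of_pow]
  have := D.cyc j x.1
  cases hd : dir j
  · simp
  · rw [hd] at this
    simp [this]

open Classical in
theorem CutEx_step (J J' : V × ℤ → ℤ) (A : V × ℤ → Prop) (d : Bool)
    (hd : ∀ x, A x → dir (J x) = d)
    (hA : ∀ x, A x → 0 < D.c (J x) x.1 → A (D.pc f d x) ∧ J (D.pc f d x) = J x)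
    (hJ : ∀ x, J' x = if A x then J x + 1 else J x) :
    ∃ c : V × ℤ → ℕ, (∀ x, (D.pc f d ^ c x) x = x) ∧ ∀ x e, D.CutEx_EJ f J' x (of e) =
      D.CutEx_EJ f J x (if e = d then of e else of d ^ c x * of e) := by
  have claim : ∀ (n : ℕ) (x : V × ℤ), A x → 0 < D.c (J x) x.1 →
      D.CutEx_EJ f J x (of d ^ n) = ap (D.Φ (J x)) x.1 (of d ^ n) := by
    intro n
    induction n with
    | zero =>
      intro x _ _
      rw [pow_zero, (D.CutEx_EJ_coc f J).one, (ap_isCoc _).one]
    | succ n ih =>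
      intro x hx hc
      obtain ⟨h1, h2⟩ := hA x hx hc
      have h3 : 0 < D.c (J (D.pc f d x)) (D.pc f d x).1 := by
        rw [h2]
        have := D.const (J x) x.1
        rw [hd x hx] at this
        change 0 < D.c (J x) (D.p d x.1)
        rw [this]
        exact hc
      rw [pow_succ', D.CutEx_EJ_coc f J, ap_isCoc, act_of, act_of, ih _ h1 h3, h2, CutEx_EJ_of]
      rfl
  have hcyc : ∀ x, (D.pc f d ^ (if A x then D.c (J x) x.1 else 0)) x = x := by
    intro x
    split_ifs with hx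
    · rw [← hd x hx]
      exact D.CutEx_cyc f _ x
    · simp
  refine ⟨fun x => if A x then D.c (J x) x.1 else 0, hcyc, fun x e => ?_⟩
  rw [CutEx_EJ_of, hJ]
  by_cases hx : A x
  · simp only [if_pos hx]
    rw [Φ_succ, ap_mul, ap_T_of, hd x hx]
    by_cases he : e = d
    · rw [if_pos he, CutEx_EJ_of]
    · rw [if_neg he]
      rcases Nat.eq_zero_or_pos (D.c (J x) x.1) with h0 | h0
      · rw [h0, pow_zero, one_mul, CutEx_EJ_of]
      · have h1 := hcyc x
        rw [if_pos hx] at h1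
        have h2 := D.cyc (J x) x.1
        rw [hd x hx] at h2
        rw [D.CutEx_EJ_coc f J, ap_isCoc, claim _ x hx h0, act_of_pow, act_of_pow, h1, h2,
          CutEx_EJ_of]
  · simp only [if_neg hx]
    by_cases he : e = d
    · rw [if_pos he, CutEx_EJ_of]
    · rw [if_neg he, pow_zero, one_mul, CutEx_EJ_of]

theorem CutEx_step_aut {θ θ' : V × ℤ → F2 → F2} (h : IsCoc (D.pc f) θ) (h' : IsCoc (D.pc f) θ')
    {d : Bool} {c : V × ℤ → ℕ} (hc : ∀ x, (D.pc f d ^ c x) x = x)
    (he : ∀ x e, θ' x (of e) = θ x (if e = d then of e else of d ^ c x * of e)) :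
    ∃ t : GAut (D.pc f), ∀ x w, θ' x w = θ x (ap t x w) := by
  refine ⟨tw d (fun x => (c x : ℤ)) fun x => by rw [zpow_natCast]; exact hc x, fun x w => ?_⟩
  refine h'.ext (θ' := fun x w => θ x (ap _ x w)) ?_ (fun x e => ?_) x w
  · intro x w w'
    simp only
    rw [ap_isCoc, h, act_ap]
  · rw [he, ap_tw_of, twE, zpow_natCast]

theorem CutEx_local (J : V × ℤ → ℤ) (w : F2) (x : V × ℤ) : ∃ N : ℕ, ∀ J2 : V × ℤ → ℤ,
    (∀ y, |J y| ≤ N → J2 y = J y) → D.CutEx_EJ f J2 x w = D.CutEx_EJ f J x w := by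
  induction w using FreeGroup.induction_on generalizing x with
  | C1 => exact ⟨0, fun J2 _ => by rw [(D.CutEx_EJ_coc f J2).one, (D.CutEx_EJ_coc f J).one]⟩
  | of e =>
    refine ⟨(J x).natAbs, fun J2 h => ?_⟩
    rw [CutEx_EJ_of, CutEx_EJ_of, h x (by simp)]
  | inv_of e ih =>
    obtain ⟨N, hN⟩ := ih (act (D.pc f) x (of e)⁻¹)
    refine ⟨N, fun J2 h => ?_⟩
    rw [(D.CutEx_EJ_coc f J2).inv', (D.CutEx_EJ_coc f J).inv', hN J2 h]
  | mul a b ha hb =>
    obtain ⟨N₁, hN₁⟩ := ha x
    obtain ⟨N₂, hN₂⟩ := hb (act (D.pc f) x a)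
    refine ⟨max N₁ N₂, fun J2 h => ?_⟩
    rw [D.CutEx_EJ_coc f J2, D.CutEx_EJ_coc f J,
      hN₁ J2 fun y hy => h y (hy.trans (by exact_mod_cast le_max_left _ _)),
      hN₂ J2 fun y hy => h y (hy.trans (by exact_mod_cast le_max_right _ _))]

theorem CutEx_surj {θ : V × ℤ → F2 → F2} (h : IsCoc (D.pc f) θ)
    (ha : ∀ x w, act (D.pc f) x (θ x w) = act (D.pc f) x w)
    (he : ∀ x e, ∃ u, θ x u = of e) (w : F2) (x : V × ℤ) : ∃ u, θ x u = w := by
  induction w using FreeGroup.induction_on generalizing x with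
  | C1 => exact ⟨1, h.one x⟩
  | of e => exact he x e
  | inv_of e ih =>
    obtain ⟨u, hu⟩ := ih (act (D.pc f) x (of e)⁻¹)
    have h1 : act (D.pc f) (act (D.pc f) x (of e)⁻¹) u = x := by
      rw [← ha, hu, act_inv_act]
    refine ⟨u⁻¹, ?_⟩
    have h2 := h.inv (act (D.pc f) x (of e)⁻¹) u
    rw [h1, hu] at h2
    exact h2
  | mul a b iha ihb =>
    obtain ⟨u, hu⟩ := iha x
    obtain ⟨v, hv⟩ := ihb (act (D.pc f) x a)
    refine ⟨u * v, ?_⟩
    rw [h, ← ha x u, hu, hv]

end TD

theorem CutEx_dir_add (n j : ℤ) : dir (4 * n + j) = dir j := by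
  simp only [dir]
  congr 1
  apply propext
  omega

theorem TD.cut_exists {V : Type} {D : TD V} {U : ℕ} {f : V → ℤ} (H : D.Heights U f)
    (hU : 0 < U) : Nonempty (D.CutSys U f) := by
  classical
  let h : ℤ → V × ℤ → ℤ := fun j x => 4 * x.2 + H.η j x.1
  have hmono : ∀ x j, h j x < h (j + 1) x := fun x j => by
    have := H.mono j x.1
    simp only [h]
    omega
  have hconst : ∀ j (x : V × ℤ), 0 < D.c j x.1 → h j (D.pc f (dir j) x) = h j x := by
    intro j x hc
    have := H.const j x.1 hc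
    simp only [h, lev_apply]
    omega
  choose J hJ using fun (σ : ℤ) (x : V × ℤ) => CutEx_exists_time (fun j => h j x) (hmono x) σ
  have hJeq : ∀ σ x j, h j x = σ → J σ x = j := by
    intro σ x j hj
    have h1 := (hJ σ x j).2 hj.ge
    have h2 := (hJ σ x (j - 1)).1
    have h3 := hmono x (j - 1)
    rw [sub_add_cancel] at h3
    omega
  have hstep : ∀ σ, ∃ c : V × ℤ → ℕ, (∀ x, (D.pc f (dir σ) ^ c x) x = x) ∧
      ∀ x e, D.CutEx_EJ f (J (σ + 1)) x (of e) =
        D.CutEx_EJ f (J σ) x (if e = dir σ then of e else of (dir σ) ^ c x * of e) := by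
    intro σ
    have hd : ∀ x, h (J σ x) x = σ → dir (J σ x) = dir σ := by
      intro x hx
      rw [← H.par (J σ x) x.1, ← CutEx_dir_add x.2]
      exact congrArg dir hx
    refine D.CutEx_step f (J σ) (J (σ + 1)) (fun x => h (J σ x) x = σ) (dir σ) hd
      (fun x hx hc => ?_) (fun x => ?_)
    · have h1 := hconst (J σ x) x hc
      rw [hd x hx, hx] at h1
      have h2 := hJeq σ _ _ h1
      exact ⟨by rw [h2, h1], h2⟩
    · have h1 := (hJ σ x (J σ x)).1 le_rfl
      have h2 := hJ (σ + 1) x (J σ x)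
      have h3 := hJ (σ + 1) x (J σ x + 1)
      have h4 := hJ σ x (J (σ + 1) x)
      have h5 := (hJ (σ + 1) x (J (σ + 1) x)).1 le_rfl
      have h6 := hmono x (J σ x)
      split_ifs with hx <;> omega
  have haut : ∀ σ, ∃ t : GAut (D.pc f), ∀ x w,
      D.CutEx_EJ f (J (σ + 1)) x w = D.CutEx_EJ f (J σ) x (ap t x w) := by
    intro σ
    obtain ⟨c, hc, he⟩ := hstep σ
    exact D.CutEx_step_aut f (D.CutEx_EJ_coc f _) (D.CutEx_EJ_coc f _) hc he
  have hrange1 : ∀ σ x w, (∃ u, D.CutEx_EJ f (J (σ + 1)) x u = w) ↔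
      ∃ u, D.CutEx_EJ f (J σ) x u = w := by
    intro σ x w
    obtain ⟨t, ht⟩ := haut σ
    constructor
    · rintro ⟨u, hu⟩
      exact ⟨_, (ht x u).symm.trans hu⟩
    · rintro ⟨u, hu⟩
      exact ⟨ap t⁻¹ x u, by rw [ht, ap_ap_inv, hu]⟩
  have hrange : ∀ σ x w, (∃ u, D.CutEx_EJ f (J σ) x u = w) ↔
      ∃ u, D.CutEx_EJ f (J 0) x u = w := by
    intro σ x w
    induction σ using Int.induction_on with
    | zero => rfl
    | succ n ih => rw [hrange1, ih]
    | pred n ih => rw [← hrange1, sub_add_cancel, ih]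
  have hsurj : ∀ σ x, Function.Surjective (D.CutEx_EJ f (J σ) x) := by
    intro σ x w
    refine D.CutEx_surj f (D.CutEx_EJ_coc f _) (D.CutEx_act_EJ f _) (fun y e => ?_) w x
    rw [hrange, ← hrange (h 0 y)]
    exact ⟨of e, by rw [CutEx_EJ_of, hJeq _ y 0 rfl, Φ_zero, ap_one]⟩
  have htrunc : ∀ (σ lo : ℤ) (k : ℕ) (x : V × ℤ), Function.Injective
      (D.CutEx_EJ f (fun y => max lo (min (J σ y) (lo + k))) x) := by
    intro σ lo k
    induction k with
    | zero =>
      intro x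
      have : D.CutEx_EJ f (fun y => max lo (min (J σ y) (lo + (0 : ℕ)))) x = ap (D.Φ lo) x.1 := by
        funext w
        refine (D.CutEx_EJ_coc f _).ext (D.isCoc_pc_Φ f lo) (fun y e => ?_) x w
        rw [CutEx_EJ_of]
        congr 2
        omega
      rw [this]
      exact ap_injective _ _
    | succ k ih =>
      intro x
      have e1 : ∀ y, lo + k < J σ y → max lo (min (J σ y) (lo + k)) = lo + k := by
        intro y hy
        omega
      obtain ⟨c, hc, he⟩ := D.CutEx_step f (fun y => max lo (min (J σ y) (lo + k)))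
        (fun y => max lo (min (J σ y) (lo + (k + 1 : ℕ)))) (fun y => lo + k < J σ y)
        (dir (lo + k)) (fun y hy => by simp only [e1 y hy])
        (fun y hy hc => by
          simp only [e1 y hy] at hc ⊢
          have h1 := hconst (lo + k) y hc
          have h2 := hJ σ y (lo + k)
          have h3 := hJ σ (D.pc f (dir (lo + k)) y) (lo + k)
          have h4 : lo + k < J σ (D.pc f (dir (lo + k)) y) := by omega
          exact ⟨h4, e1 _ h4⟩)
        (fun y => by
          push_cast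
          split_ifs with hy <;> omega)
      obtain ⟨t, ht⟩ := D.CutEx_step_aut f (D.CutEx_EJ_coc f _) (D.CutEx_EJ_coc f _) hc he
      intro w w' hw
      rw [ht, ht] at hw
      exact ap_injective t x (ih x hw)
  have hinj : ∀ σ x, Function.Injective (D.CutEx_EJ f (J σ) x) := by
    intro σ x w w' hw
    obtain ⟨N₁, hN₁⟩ := D.CutEx_local f (J σ) w x
    obtain ⟨N₂, hN₂⟩ := D.CutEx_local f (J σ) w' x
    apply htrunc σ (-((N₁ + N₂ : ℕ) : ℤ)) (2 * (N₁ + N₂)) x
    rw [hN₁, hN₂, hw]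
    · intro y hy
      rw [abs_le] at hy
      push_cast
      omega
    · intro y hy
      rw [abs_le] at hy
      push_cast
      omega
  refine ⟨⟨fun σ => D.CutEx_EJ f (J σ), fun σ => D.CutEx_EJ_coc f _,
    fun σ => D.CutEx_act_EJ f _, fun σ x => ⟨hinj σ x, hsurj σ x⟩, ?_, ?_,
    fun σ => ⟨dir σ, hstep σ⟩, fun σ x e => ⟨_, D.CutEx_EJ_of f _ x e⟩⟩⟩
  · intro σ s n w
    have h1 : IsCoc (D.pc f) fun x => D.CutEx_EJ f (J (σ + 4)) (x.1, x.2 + 1) :=
      (D.CutEx_EJ_coc f _).comp (fun x : V × ℤ => (x.1, x.2 + 1)) fun e x => by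
        simp only [lev_apply]; congr 1; ring
    refine h1.ext (D.CutEx_EJ_coc f (J σ)) (fun x e => ?_) (s, n) w
    have h2 : J (σ + 4) (x.1, x.2 + 1) = J σ x := by
      have e : ∀ j, h j (x.1, x.2 + 1) = h j x + 4 := fun j => by simp only [h]; ring
      have h3 := hJ (σ + 4) (x.1, x.2 + 1) (J σ x)
      have h4 := hJ σ x (J (σ + 4) (x.1, x.2 + 1))
      have h5 := (hJ σ x _).1 le_rfl
      have h6 := (hJ (σ + 4) (x.1, x.2 + 1) _).1 le_rfl
      rw [e] at h3 h6
      omega
    simp only [CutEx_EJ_of, h2]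
  · intro σ x w
    have h1 : IsCoc (D.pc f) fun x w => ap (D.Φ 4) x.1 (D.CutEx_EJ f (J σ) x w) := by
      intro x w w'
      simp only
      have h2 := D.isCoc_pc_Φ f 4 x (D.CutEx_EJ f (J σ) x w)
        (D.CutEx_EJ f (J σ) (act (D.pc f) x w) w')
      simp only at h2
      rw [D.CutEx_EJ_coc f, h2, CutEx_act_EJ]
    refine (D.CutEx_EJ_coc f _).ext h1 (fun x e => ?_) x w
    have h2 : J (σ + 4 * U) x = 4 + J σ x := by
      have e : ∀ j, h (j + 4) x = h j x + 4 * U := fun j => by simp only [h, H.per]; ring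
      have h3 := hJ (σ + 4 * U) x (J σ x + 4)
      have h4 := hJ σ x (J (σ + 4 * U) x - 4)
      have h5 := (hJ σ x _).1 le_rfl
      have h6 := (hJ (σ + 4 * U) x _).1 le_rfl
      have h7 := e (J (σ + 4 * U) x - 4)
      rw [sub_add_cancel] at h7
      rw [e] at h3
      omega
    simp only [CutEx_EJ_of, h2, Φ_add_four, ap_mul]

end Pool.Agent.Work.MP_1b9dce_gt
end

-- merged part: Pool.Agent.Work.MP_1b9dce_gt.TE
section
/-! The Teichmüller equation of the examples (definitions). -/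

namespace Pool.Agent.Work.MP_1b9dce_gt

variable {I : Type} [Fintype I]

noncomputable def Pp (c : ℝ) (r : I → ℝ) (u : ℝ) : ℝ :=
  (u - 1) ^ 2 - c * u * (Fintype.card I + 1 + ∑ i, r i)

noncomputable def Qp (r : I → ℝ) (u : ℝ) : ℝ := (u - 1) ^ 2 - u * (Fintype.card I + ∑ i, r i)

/-- `(u, t)` is the Perron-Frobenius solution of the Teichmüller equation. -/
def TE (c : ℝ) (r : I → ℝ) (u : ℝ) (t : I → ℝ) : Prop :=
  1 < u ∧ (∀ i, 0 < t i) ∧ 0 < Pp c r u ∧ 0 < Qp r u ∧
    Pp c r u * Qp r u = c * u * (∑ i, t i * (1 + r i * u)) * ∑ i, (u + r i) / t i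

/-- The cone in the coordinates `(U, τ)`. -/
def Cn (I : Type) : Set (ℝ × (I → ℝ)) := {a | ∀ i j, a.2 i - a.2 j < a.1}

/-- The equation for the entropy `Λ` of the class `a = (U, τ)`. -/
def TEa (c : ℝ) (r : I → ℝ) (Λ : ℝ) (a : ℝ × (I → ℝ)) : Prop :=
  TE c r (Real.exp (Λ * a.1)) fun i => Real.exp (Λ * a.2 i)

/-- The squares of the optimal `t i`. -/
noncomputable def wv (r : I → ℝ) (u : ℝ) (i : I) : ℝ := (u + r i) / (1 + r i * u)

end Pool.Agent.Work.MP_1b9dce_gt
end

-- merged part: Pool.Agent.Work.MP_1b9dce_gt.Ex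
section
/-! The examples: two rows `b` (squares `Option I`) and `d` (squares `I`), columns `a i` through
`inl (some i)` and `inr i`, and the column `a *` consisting of the square `inl none`.
The monodromy is `b ^ cc * (all columns) * d * ∏ (a i) ^ (r i)`. -/

set_option linter.unusedSectionVars false

namespace Pool.Agent.Work.MP_1b9dce_gt

open Equiv
open FreeGroup (of)

/-- A cyclic permutation of the whole type. -/
def Cyc {X : Type} (π : Perm X) : Prop := ∀ s t, ∃ k : ℕ, (π ^ k) s = t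

theorem Cyc.isCycleOn {X : Type} [Fintype X] {π : Perm X} (h : Cyc π) :
    π.IsCycleOn (Finset.univ : Finset X) := by
  refine ⟨by simp, fun a _ b _ => ?_⟩
  obtain ⟨k, hk⟩ := h a b
  exact ⟨k, by simpa using hk⟩

theorem Cyc.pow_card {X : Type} [Fintype X] {π : Perm X} (h : Cyc π) (s : X) :
    (π ^ Fintype.card X) s = s :=
  h.isCycleOn.pow_card_apply (Finset.mem_univ s)

structure ExD (I : Type) where
  nb : Perm (Option I)
  nd : Perm I
  hb : Cyc nb
  hd : Cyc nd
  conn : ∀ f : Option I → ℝ, (∀ i, f (nb (some i)) = f (some (nd i))) →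
    ∀ i j, f (some i) = f (some j)
  cc : ℕ
  r : I → ℕ
  cc_pos : 1 ≤ cc
  r_pos : ∀ i, 1 ≤ r i

/-- The squares. -/
abbrev Sq (I : Type) : Type := Option I ⊕ I

/-- The vertical permutation, as a function. -/
def upF {I : Type} : Sq I → Sq I
  | .inl none => .inl none
  | .inl (some i) => .inr i
  | .inr i => .inl (some i)

theorem upF_upF {I : Type} (s : Sq I) : upF (upF s) = s := by
  rcases s with (_ | i) | i <;> rfl

/-- The vertical permutation. -/
def up (I : Type) : Perm (Sq I) := ⟨upF, upF, upF_upF, upF_upF⟩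

@[simp] theorem up_none {I : Type} : up I (.inl none) = .inl none := rfl
@[simp] theorem up_some {I : Type} (i : I) : up I (.inl (some i)) = .inr i := rfl
@[simp] theorem up_inr {I : Type} (i : I) : up I (.inr i) = .inl (some i) := rfl
theorem up_sq {I : Type} : up I ^ 2 = 1 := by
  ext s : 1
  exact upF_upF s

/-- The potential of `τ`. -/
def pot {I A : Type} [Zero A] (τ : I → A) : Sq I → A := Sum.elim (fun _ => 0) τ

@[simp] theorem pot_inl {I A : Type} [Zero A] (τ : I → A) (o : Option I) :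
    pot τ (.inl o) = 0 := rfl
@[simp] theorem pot_inr {I A : Type} [Zero A] (τ : I → A) (i : I) : pot τ (.inr i) = τ i := rfl

namespace ExD
variable {I : Type} [Fintype I] (X : ExD I)

/-- The two permutations. -/
def p : Bool → Perm (Sq I) := fun e => if e then up I else Perm.sumCongr X.nb X.nd

@[simp] theorem p_true : X.p true = up I := rfl
@[simp] theorem p_false : X.p false = Perm.sumCongr X.nb X.nd := rfl

theorem p_false_pow_inl (k : ℕ) (o : Option I) :
    (X.p false ^ k) (.inl o) = .inl ((X.nb ^ k) o) := by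
  induction k with
  | zero => rfl
  | succ k ih => rw [pow_succ', pow_succ', Perm.mul_apply, ih]; rfl

theorem p_false_pow_inr (k : ℕ) (i : I) : (X.p false ^ k) (.inr i) = .inr ((X.nd ^ k) i) := by
  induction k with
  | zero => rfl
  | succ k ih => rw [pow_succ', pow_succ', Perm.mul_apply, ih]; rfl

/-- The exponents at the times `0, 1, 2, 3`. -/
def c0 : Sq I → ℕ := Sum.elim (fun _ => (Fintype.card I + 1) * X.cc) fun _ => 0
def c1 : Sq I → ℕ := Sum.elim (fun o => o.elim 1 fun _ => 2) fun _ => 2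
def c2 : Sq I → ℕ := Sum.elim (fun _ => 0) fun _ => Fintype.card I
def c3 : Sq I → ℕ := Sum.elim (fun o => o.elim 0 fun i => 2 * X.r i) fun i => 2 * X.r i

def c (j : ℤ) : Sq I → ℕ :=
  if j % 4 = 0 then X.c0 else if j % 4 = 1 then c1 else if j % 4 = 2 then c2 else X.c3

theorem dir_cases (j : ℤ) : (j % 4 = 0 ∧ dir j = false) ∨ (j % 4 = 1 ∧ dir j = true) ∨
    (j % 4 = 2 ∧ dir j = false) ∨ (j % 4 = 3 ∧ dir j = true) := by
  simp only [dir, decide_eq_false_iff_not, decide_eq_true_eq]; omega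

/-- The twist data of the example. -/
def D : TD (Sq I) where
  p := X.p
  c := X.c
  per j := by simp only [c, show (j + 4) % 4 = j % 4 by omega]
  const j s := by
    rcases dir_cases j with h | h | h | h <;> rw [h.2] <;> simp only [c, h.1] <;>
      rcases s with (_ | i) | i <;> simp [c0, c1, c2, c3]
  cyc j s := by
    rcases dir_cases j with h | h | h | h <;> rw [h.2] <;> simp only [c, h.1]
    · rcases s with o | i
      · have := X.hb.pow_card
        rw [Fintype.card_option] at this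
        simp only [if_true, c0, Sum.elim_inl]
        rw [p_false_pow_inl, pow_mul, Perm.pow_apply_eq_self_of_apply_eq_self (this o)]
      · simp [c0]
    · rcases s with (_ | i) | i <;> simp [c1, up_sq]
    · rcases s with o | i
      · simp [c2]
      · simp only [c2, Sum.elim_inr, p_false_pow_inr, X.hd.pow_card, OfNat.ofNat_ne_zero,
          OfNat.ofNat_ne_one, if_false, if_true]
    · rcases s with (_ | i) | i <;> simp [c3, pow_mul, up_sq]

@[simp] theorem D_p : X.D.p = X.p := rfl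
theorem D_c0 : X.D.c 0 = X.c0 := rfl
theorem D_c1 : X.D.c 1 = c1 := rfl
theorem D_c2 : X.D.c 2 = c2 := rfl
theorem D_c3 : X.D.c 3 = X.c3 := rfl

/-- The base square. -/
def s0 (I : Type) : Sq I := .inl none

/-- The group. -/
abbrev G : Type := X.D.G (s0 I)

/-- The classes. -/
def cl (a : ℝ × (I → ℝ)) : H1 X.G := X.D.cls (s0 I) a.1 (pot a.2)

theorem trans : Trans X.D.p (s0 I) := by
  have h : ∀ o, ∃ w, act X.D.p (s0 I) w = .inl o := by
    intro o
    obtain ⟨k, hk⟩ := X.hb none o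
    exact ⟨of false ^ k, by rw [act_of_pow, D_p, s0, p_false_pow_inl, hk]⟩
  rintro (o | i)
  · exact h o
  · obtain ⟨w, hw⟩ := h (some i)
    exact ⟨w * of true, by rw [act_mul, hw]; simp⟩

theorem hpos [Nonempty I] (s : Sq I) (d : Bool) : ∃ j, dir j = d ∧ 0 < X.D.c j s := by
  have h1 := X.cc_pos
  have h2 : 0 < Fintype.card I := Fintype.card_pos
  cases d
  · rcases s with o | i
    · exact ⟨0, rfl, by rw [D_c0]; simp only [c0, Sum.elim_inl]; positivity⟩
    · exact ⟨2, rfl, by rw [D_c2]; exact h2⟩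
  · exact ⟨1, rfl, by rw [D_c1]; rcases s with (_ | i) | i <;> simp [c1]⟩

end ExD

end Pool.Agent.Work.MP_1b9dce_gt
end

-- merged part: Pool.Agent.Work.MP_1b9dce_gt.ExHt
section
namespace Pool.Agent.Work.MP_1b9dce_gt

open Equiv
open FreeGroup (of)

/-- the heights during the first period -/
def ExHt_η {I : Type} (τ : I → ℤ) (μ k : ℤ) : Sq I → ℤ
  | .inl none => k
  | .inl (some i) => if k = 3 then 3 + 4 * (τ i - μ) else k
  | .inr i => if k ≤ 1 then k - 4 * τ i else k - 4 * μ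

theorem ExHt_dir {a b : ℤ} (h : a % 2 = b % 2) : dir a = dir b := by
  simp only [dir, h]

theorem ExD.heights {I : Type} [Fintype I] [Nonempty I] (X : ExD I) (U : ℕ) (τ : I → ℤ)
    (h : ∀ i j, τ i - τ j < U) : Nonempty (X.D.Heights U (pot τ)) := by
  obtain ⟨i0, -, hi0⟩ := Finset.exists_min_image Finset.univ τ Finset.univ_nonempty
  have h1 : ∀ i, τ i0 ≤ τ i := fun i => hi0 i (Finset.mem_univ _)
  have h2 : ∀ i, τ i - τ i0 < U := fun i => h i i0
  have h3 : (0 : ℤ) < U := by simpa using h i0 i0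
  refine ⟨⟨fun j s => ExHt_η τ (τ i0) (j % 4) s + 4 * (U * (j / 4)), fun j s => ?_, fun j s => ?_,
    fun j s => ?_, fun j s hc => ?_⟩⟩
  · rw [show (j + 4) % 4 = j % 4 by omega, show (j + 4) / 4 = j / 4 + 1 by omega]
    ring
  · by_cases hj : j % 4 = 3
    · rw [show (j + 1) % 4 = 0 by omega, show (j + 1) / 4 = j / 4 + 1 by omega, hj, mul_add,
        mul_one]
      rcases s with (_ | i) | i
      · simp only [ExHt_η]
        omega
      · have := h2 i
        simp only [ExHt_η]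
        split_ifs <;> omega
      · have := h2 i
        simp only [ExHt_η]
        split_ifs <;> omega
    · rw [show (j + 1) % 4 = j % 4 + 1 by omega, show (j + 1) / 4 = j / 4 by omega]
      rcases s with (_ | i) | i
      · simp only [ExHt_η]
        omega
      · have := h1 i
        simp only [ExHt_η]
        split_ifs <;> omega
      · have := h1 i
        simp only [ExHt_η]
        split_ifs <;> omega
  · apply ExHt_dir
    rcases s with (_ | i) | i <;> simp only [ExHt_η]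
    · omega
    · split_ifs <;> omega
    · split_ifs <;> omega
  · have hc' : 0 < X.c j s := hc
    rcases ExD.dir_cases j with k | k | k | k <;> rw [k.2] <;> simp only [ExD.c, k.1] at hc' ⊢
    · rcases s with o | i
      · have : ∀ o : Option I, ExHt_η τ (τ i0) 0 (.inl o) = 0 := by
          rintro (_ | i) <;> simp [ExHt_η]
        simp [dl, this]
      · simp [ExD.c0] at hc'
    · rcases s with (_ | i) | i <;> simp [dl, ExHt_η] <;> ring
    · rcases s with o | i
      · simp [ExD.c2] at hc'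
      · simp [dl, ExHt_η]
    · rcases s with (_ | i) | i <;> simp [dl, ExHt_η] <;> ring

theorem ExHt_cyc {Y : Type} [Finite Y] {π : Perm Y} (s₀ : Y) (h : ∀ t, ∃ k : ℕ, (π ^ k) s₀ = t) :
    Cyc π := by
  intro s t
  obtain ⟨a, ha⟩ := h s
  obtain ⟨b, hb⟩ := h t
  have h1 : π.SameCycle s₀ s := ⟨a, by simpa using ha⟩
  have h2 : π.SameCycle s₀ t := ⟨b, by simpa using hb⟩
  obtain ⟨k, -, hk⟩ := (h1.symm.trans h2).exists_pow_eq'
  exact ⟨k, hk⟩

theorem ExHt_ne {n k : ℕ} (h0 : 0 < k) (h : k < n) : (k : ZMod n) ≠ 0 := by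
  rw [Ne, ZMod.natCast_eq_zero_iff]
  intro hd
  have := Nat.le_of_dvd h0 hd
  omega

theorem exists_ExD (m cc : ℕ) (hcc : 1 ≤ cc) (r : ZMod (2 * m + 1) → ℕ) (hr : ∀ i, 1 ≤ r i) :
    ∃ X : ExD (ZMod (2 * m + 1)), X.cc = cc ∧ X.r = r := by
  classical
  let nb : Perm (Option (ZMod (2 * m + 1))) :=
    swap none (some 0) * Equiv.optionCongr (Equiv.addRight 1)
  let nd : Perm (ZMod (2 * m + 1)) := Equiv.addRight 2
  have b0 : nb none = some 0 := by simp [nb]
  have b1 : ∀ i, i + 1 ≠ 0 → nb (some i) = some (i + 1) := by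
    intro i hi
    simp only [nb, Perm.mul_apply, optionCongr_apply, Option.map_some, coe_addRight]
    exact swap_apply_of_ne_of_ne (by simp) (by simpa using hi)
  have b2 : ∀ k : ℕ, k < 2 * m + 1 → (nb ^ (k + 1)) none = some (k : ZMod (2 * m + 1)) := by
    intro k
    induction k with
    | zero => intro _; simpa using b0
    | succ k ih =>
      intro hk
      have := ExHt_ne (Nat.succ_pos k) hk
      rw [pow_succ', Perm.mul_apply, ih (by omega), b1 _ (by exact_mod_cast this)]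
      push_cast
      rfl
  have d1 : ∀ k : ℕ, (nd ^ k) 0 = 2 * (k : ZMod (2 * m + 1)) := by
    intro k
    induction k with
    | zero => simp
    | succ k ih =>
      rw [pow_succ', Perm.mul_apply, ih]
      simp only [nd, coe_addRight]
      push_cast
      ring
  have hn : (2 * m + 1 : ZMod (2 * m + 1)) = 0 := by
    exact_mod_cast ZMod.natCast_self (2 * m + 1)
  refine ⟨⟨nb, nd, ExHt_cyc none ?_, ExHt_cyc 0 fun t => ⟨(m + 1) * t.val, ?_⟩, ?_, cc, r, hcc, hr⟩,
    rfl, rfl⟩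
  · rintro (_ | t)
    · exact ⟨0, rfl⟩
    · exact ⟨t.val + 1, by rw [b2 _ (ZMod.val_lt t), ZMod.natCast_zmod_val]⟩
  · rw [d1]
    push_cast
    rw [ZMod.natCast_zmod_val]
    linear_combination t * hn
  · intro f hf
    have c1 : ∀ j : ZMod (2 * m + 1), j ≠ 0 → f (some j) = f (some (j + 1)) := by
      intro j hj
      have := hf (j - 1)
      rw [b1 _ (by simpa using hj)] at this
      simp only [nd, coe_addRight] at this
      rw [show j - 1 + 1 = j by ring, show j - 1 + 2 = j + 1 by ring] at this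
      exact this
    have c2 : ∀ k : ℕ, k < 2 * m + 1 → f (some ((k : ZMod (2 * m + 1)) + 1)) = f (some 1) := by
      intro k
      induction k with
      | zero => intro _; simp
      | succ k ih =>
        intro hk
        have := ExHt_ne (Nat.succ_pos k) hk
        rw [← c1 _ this, ← ih (by omega)]
        push_cast
        rfl
    have c3 : ∀ i, f (some i) = f (some 1) := by
      intro i
      have := c2 _ (ZMod.val_lt (i - 1))
      rwa [ZMod.natCast_zmod_val, sub_add_cancel] at this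
    intro i j
    rw [c3 i, c3 j]

end Pool.Agent.Work.MP_1b9dce_gt
end

-- merged part: Pool.Agent.Work.MP_1b9dce_gt.Lam
section
namespace Pool.Agent.Work.MP_1b9dce_gt

open Equiv
open FreeGroup (of)

theorem Lam_root_cont {X : Type} [TopologicalSpace X] (W : ℝ → X → ℝ) (S : Set X)
    (hW : ∀ t, Continuous (W t)) (hm : ∀ a ∈ S, StrictAntiOn (fun t => W t a) (Set.Ici 0))
    (L : X → ℝ) (hL : ∀ a ∈ S, 0 < L a ∧ W (L a) a = 0) : ContinuousOn L S := by
  intro a₀ ha₀
  have h0 := hL a₀ ha₀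
  refine tendsto_order.2 ⟨fun b hb => ?_, fun b hb => ?_⟩
  · have hb' : max b 0 < L a₀ := max_lt hb h0.1
    have h1 : 0 < W (max b 0) a₀ := by
      have := hm a₀ ha₀ (show max b 0 ∈ Set.Ici (0 : ℝ) from Set.mem_Ici.2 (le_max_right _ _))
        (show L a₀ ∈ Set.Ici (0 : ℝ) from h0.1.le) hb'
      simpa [h0.2] using this
    have h2 : ∀ᶠ a in nhdsWithin a₀ S, 0 < W (max b 0) a :=
      nhdsWithin_le_nhds (((hW (max b 0)).tendsto a₀).eventually (lt_mem_nhds h1))
    filter_upwards [h2, self_mem_nhdsWithin] with a ha haS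
    have h3 := hL a haS
    by_contra hcon
    have hle : L a ≤ max b 0 := le_trans (not_lt.1 hcon) (le_max_left _ _)
    have := (hm a haS).antitoneOn (show L a ∈ Set.Ici (0 : ℝ) from h3.1.le)
      (show max b 0 ∈ Set.Ici (0 : ℝ) from Set.mem_Ici.2 (le_max_right _ _)) hle
    simp only [h3.2] at this
    linarith
  · have hb0 : (0 : ℝ) ≤ b := (h0.1.trans hb).le
    have h1 : W b a₀ < 0 := by
      have := hm a₀ ha₀ (show L a₀ ∈ Set.Ici (0 : ℝ) from h0.1.le)
        (show b ∈ Set.Ici (0 : ℝ) from hb0) hb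
      simpa [h0.2] using this
    have h2 : ∀ᶠ a in nhdsWithin a₀ S, W b a < 0 :=
      nhdsWithin_le_nhds (((hW b).tendsto a₀).eventually (gt_mem_nhds h1))
    filter_upwards [h2, self_mem_nhdsWithin] with a ha haS
    have h3 := hL a haS
    by_contra hcon
    have hle : b ≤ L a := not_lt.1 hcon
    have := (hm a haS).antitoneOn (show b ∈ Set.Ici (0 : ℝ) from hb0)
      (show L a ∈ Set.Ici (0 : ℝ) from h3.1.le) hle
    simp only [h3.2] at this
    linarith

noncomputable def Lam_p (A z : ℝ) : ℝ := (1 - z) ^ 2 - A * z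

theorem Lam_p_anti {A z z' : ℝ} (hA : 0 ≤ A) (h : z' ≤ z) (h1 : z ≤ 1) :
    Lam_p A z ≤ Lam_p A z' := by
  unfold Lam_p
  have h2 : (1 - z) ^ 2 ≤ (1 - z') ^ 2 := pow_le_pow_left₀ (by linarith) (by linarith) 2
  have h3 : A * z' ≤ A * z := mul_le_mul_of_nonneg_left h hA
  linarith

noncomputable def Lam_S {I : Type} [Fintype I] (r : I → ℝ) (t : ℝ) (a : ℝ × (I → ℝ)) : ℝ :=
  ∑ i, ∑ j, (Real.exp (-(t * a.1)) + r i) * (1 + r j * Real.exp (-(t * a.1))) *
    Real.exp (t * (a.2 i - a.2 j - a.1))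

noncomputable def Lam_W {I : Type} [Fintype I] (c : ℝ) (r : I → ℝ) (t : ℝ)
    (a : ℝ × (I → ℝ)) : ℝ :=
  c * Lam_S r t a -
    max (Lam_p (c * (Fintype.card I + 1 + ∑ i, r i)) (Real.exp (-(t * a.1)))) 0 *
      max (Lam_p (Fintype.card I + ∑ i, r i) (Real.exp (-(t * a.1)))) 0

theorem Lam_W_cont {I : Type} [Fintype I] (c : ℝ) (r : I → ℝ) (t : ℝ) :
    Continuous (Lam_W c r t) := by
  unfold Lam_W Lam_S Lam_p
  fun_prop

theorem Lam_W_cont' {I : Type} [Fintype I] (c : ℝ) (r : I → ℝ) (a : ℝ × (I → ℝ)) :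
    Continuous (fun t => Lam_W c r t a) := by
  unfold Lam_W Lam_S Lam_p
  fun_prop

theorem Lam_U_pos {I : Type} [Nonempty I] {a : ℝ × (I → ℝ)} (ha : a ∈ Cn I) : 0 < a.1 := by
  obtain ⟨i⟩ := ‹Nonempty I›
  have := ha i i
  simpa using this

theorem Lam_S_pos {I : Type} [Fintype I] [Nonempty I] {r : I → ℝ} (hr : ∀ i, 1 ≤ r i) (t : ℝ)
    (a : ℝ × (I → ℝ)) : 0 < Lam_S r t a := by
  unfold Lam_S
  refine Finset.sum_pos (fun i _ => Finset.sum_pos (fun j _ => ?_) Finset.univ_nonempty)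
    Finset.univ_nonempty
  have h1 := hr i
  have h2 := hr j
  have h3 := Real.exp_pos (-(t * a.1))
  have h4 : 0 < r j * Real.exp (-(t * a.1)) := mul_pos (by linarith) h3
  exact mul_pos (mul_pos (by linarith) (by linarith)) (Real.exp_pos _)

theorem Lam_S_anti {I : Type} [Fintype I] [Nonempty I] {r : I → ℝ} (hr : ∀ i, 1 ≤ r i)
    {a : ℝ × (I → ℝ)} (ha : a ∈ Cn I) {s t : ℝ} (hst : s < t) :
    Lam_S r t a < Lam_S r s a := by
  unfold Lam_S
  have hU := Lam_U_pos ha
  have hz : Real.exp (-(t * a.1)) ≤ Real.exp (-(s * a.1)) := by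
    apply Real.exp_le_exp.2
    have := mul_lt_mul_of_pos_right hst hU
    linarith
  refine Finset.sum_lt_sum_of_nonempty Finset.univ_nonempty (fun i _ =>
    Finset.sum_lt_sum_of_nonempty Finset.univ_nonempty (fun j _ => ?_))
  have h1 := hr i
  have h2 := hr j
  have h3 := Real.exp_pos (-(t * a.1))
  have h4 : 0 < r j * Real.exp (-(t * a.1)) := mul_pos (by linarith) h3
  have h5 : r j * Real.exp (-(t * a.1)) ≤ r j * Real.exp (-(s * a.1)) :=
    mul_le_mul_of_nonneg_left hz (by linarith)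
  have h6 : Real.exp (t * (a.2 i - a.2 j - a.1)) < Real.exp (s * (a.2 i - a.2 j - a.1)) := by
    apply Real.exp_lt_exp.2
    have h7 : a.2 i - a.2 j - a.1 < 0 := by have := ha i j; linarith
    exact mul_lt_mul_of_neg_right hst h7
  have h8 : (Real.exp (-(t * a.1)) + r i) * (1 + r j * Real.exp (-(t * a.1))) ≤
      (Real.exp (-(s * a.1)) + r i) * (1 + r j * Real.exp (-(s * a.1))) :=
    mul_le_mul (by linarith) (by linarith) (by linarith) (by linarith)
  have h9 : 0 < (Real.exp (-(t * a.1)) + r i) * (1 + r j * Real.exp (-(t * a.1))) :=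
    mul_pos (by linarith) (by linarith)
  calc _ < (Real.exp (-(t * a.1)) + r i) * (1 + r j * Real.exp (-(t * a.1))) *
        Real.exp (s * (a.2 i - a.2 j - a.1)) := mul_lt_mul_of_pos_left h6 h9
    _ ≤ _ := mul_le_mul_of_nonneg_right h8 (Real.exp_pos _).le

theorem Lam_sum_nonneg {I : Type} [Fintype I] {r : I → ℝ} (hr : ∀ i, 1 ≤ r i) :
    0 ≤ ∑ i, r i := Finset.sum_nonneg fun i _ => by have := hr i; linarith

theorem Lam_W_anti {I : Type} [Fintype I] [Nonempty I] {c : ℝ} {r : I → ℝ} (hc : 1 ≤ c)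
    (hr : ∀ i, 1 ≤ r i) {a : ℝ × (I → ℝ)} (ha : a ∈ Cn I) :
    StrictAntiOn (fun t => Lam_W c r t a) (Set.Ici 0) := by
  intro s hs t _ hst
  have hU := Lam_U_pos ha
  have hs0 : (0 : ℝ) ≤ s := hs
  have hz : Real.exp (-(t * a.1)) ≤ Real.exp (-(s * a.1)) := by
    apply Real.exp_le_exp.2
    have := mul_lt_mul_of_pos_right hst hU
    linarith
  have hz1 : Real.exp (-(s * a.1)) ≤ 1 := by
    apply Real.exp_le_one_iff.2
    have := mul_nonneg hs0 hU.le
    linarith
  have hsum := Lam_sum_nonneg hr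
  have hn : (0 : ℝ) ≤ Fintype.card I := Nat.cast_nonneg _
  have hA : 0 ≤ c * (Fintype.card I + 1 + ∑ i, r i) := mul_nonneg (by linarith) (by linarith)
  have hB : (0 : ℝ) ≤ Fintype.card I + ∑ i, r i := by linarith
  have h1 := Lam_p_anti hA hz hz1
  have h2 := Lam_p_anti hB hz hz1
  have h3 := mul_lt_mul_of_pos_left (Lam_S_anti hr ha hst) (show 0 < c by linarith)
  have h4 : max (Lam_p (c * (Fintype.card I + 1 + ∑ i, r i)) (Real.exp (-(s * a.1)))) 0 *
      max (Lam_p (Fintype.card I + ∑ i, r i) (Real.exp (-(s * a.1)))) 0 ≤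
      max (Lam_p (c * (Fintype.card I + 1 + ∑ i, r i)) (Real.exp (-(t * a.1)))) 0 *
      max (Lam_p (Fintype.card I + ∑ i, r i) (Real.exp (-(t * a.1)))) 0 :=
    mul_le_mul (max_le_max_right 0 h1) (max_le_max_right 0 h2) (le_max_right _ _)
      (le_max_right _ _)
  show Lam_W c r t a < Lam_W c r s a
  unfold Lam_W
  linarith

theorem Lam_W_zero {I : Type} [Fintype I] [Nonempty I] {c : ℝ} {r : I → ℝ} (hc : 1 ≤ c)
    (hr : ∀ i, 1 ≤ r i) (a : ℝ × (I → ℝ)) : 0 < Lam_W c r 0 a := by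
  have hsum := Lam_sum_nonneg hr
  have hn : (0 : ℝ) ≤ Fintype.card I := Nat.cast_nonneg _
  have hB : (0 : ℝ) ≤ Fintype.card I + ∑ i, r i := by linarith
  have h1 : max (Lam_p (Fintype.card I + ∑ i, r i) (Real.exp (-(0 * a.1)))) 0 = 0 := by
    apply max_eq_right
    simp only [Lam_p, zero_mul, neg_zero, Real.exp_zero]
    linarith
  unfold Lam_W
  rw [h1, mul_zero, sub_zero]
  exact mul_pos (by linarith) (Lam_S_pos hr 0 a)

theorem Lam_exp_lim {k : ℝ} (hk : k < 0) :
    Filter.Tendsto (fun t : ℝ => Real.exp (t * k)) Filter.atTop (nhds 0) :=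
  Real.tendsto_exp_atBot.comp (Filter.tendsto_id.atTop_mul_const_of_neg hk)

theorem Lam_W_lim {I : Type} [Fintype I] [Nonempty I] (c : ℝ) (r : I → ℝ)
    {a : ℝ × (I → ℝ)} (ha : a ∈ Cn I) :
    Filter.Tendsto (fun t => Lam_W c r t a) Filter.atTop (nhds (-1)) := by
  have hU := Lam_U_pos ha
  have hz : Filter.Tendsto (fun t : ℝ => Real.exp (-(t * a.1))) Filter.atTop (nhds 0) := by
    have := Lam_exp_lim (k := -a.1) (by linarith)
    simpa only [mul_neg] using this
  have hS : Filter.Tendsto (fun t => Lam_S r t a) Filter.atTop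
      (nhds (∑ i : I, ∑ j : I, (0 + r i) * (1 + r j * 0) * 0)) := by
    unfold Lam_S
    refine tendsto_finsetSum _ fun i _ => tendsto_finsetSum _ fun j _ => ?_
    have h7 : a.2 i - a.2 j - a.1 < 0 := by have := ha i j; linarith
    exact ((hz.add_const _).mul ((hz.const_mul _).const_add _)).mul (Lam_exp_lim h7)
  have hp : ∀ A : ℝ, Filter.Tendsto (fun t : ℝ => max (Lam_p A (Real.exp (-(t * a.1)))) 0)
      Filter.atTop (nhds 1) := by
    intro A
    have hc : Continuous fun z : ℝ => max (Lam_p A z) 0 := by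
      unfold Lam_p
      fun_prop
    have := (hc.tendsto 0).comp hz
    simpa [Lam_p, Function.comp_def] using this
  have := (hS.const_mul c).sub ((hp (c * (Fintype.card I + 1 + ∑ i, r i))).mul
    (hp (Fintype.card I + ∑ i, r i)))
  simpa [Lam_W] using this

theorem Lam_root {I : Type} [Fintype I] [Nonempty I] {c : ℝ} {r : I → ℝ} (hc : 1 ≤ c)
    (hr : ∀ i, 1 ≤ r i) {a : ℝ × (I → ℝ)} (ha : a ∈ Cn I) :
    ∃ t, 0 < t ∧ Lam_W c r t a = 0 := by
  have h1 := (Lam_W_lim c r ha).eventually (gt_mem_nhds (show (-1 : ℝ) < 0 by norm_num))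
  obtain ⟨T, hT, hT0⟩ := (h1.and (Filter.eventually_ge_atTop (0 : ℝ))).exists
  have h0 := Lam_W_zero hc hr a
  obtain ⟨t, ht, ht0⟩ := intermediate_value_Icc' hT0 (Lam_W_cont' c r a).continuousOn
    (show (0 : ℝ) ∈ Set.Icc (Lam_W c r T a) (Lam_W c r 0 a) from ⟨hT.le, h0.le⟩)
  refine ⟨t, lt_of_le_of_ne ht.1 ?_, ht0⟩
  rintro rfl
  simp only at ht0
  linarith

theorem Lam_P_eq (A u : ℝ) (hu : u ≠ 0) :
    (u - 1) ^ 2 - A * u = u ^ 2 * Lam_p A u⁻¹ := by
  unfold Lam_p
  field_simp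

theorem Lam_S_eq {I : Type} [Fintype I] (r : I → ℝ) (t : ℝ) (a : ℝ × (I → ℝ)) :
    Real.exp (t * a.1) * (∑ i, Real.exp (t * a.2 i) * (1 + r i * Real.exp (t * a.1))) *
      ∑ i, (Real.exp (t * a.1) + r i) / Real.exp (t * a.2 i) =
      Real.exp (t * a.1) ^ 4 * Lam_S r t a := by
  unfold Lam_S
  rw [mul_assoc, Finset.sum_mul_sum, Finset.mul_sum, Finset.mul_sum]
  refine Finset.sum_congr rfl fun i _ => ?_
  rw [Finset.mul_sum, Finset.mul_sum]
  refine Finset.sum_congr rfl fun j _ => ?_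
  have e1 : Real.exp (t * (a.2 i - a.2 j - a.1)) =
      Real.exp (t * a.2 i) / Real.exp (t * a.2 j) / Real.exp (t * a.1) := by
    rw [← Real.exp_sub, ← Real.exp_sub]
    congr 1
    ring
  rw [e1, Real.exp_neg]
  have h1 := Real.exp_ne_zero (t * a.1)
  have h2 := Real.exp_ne_zero (t * a.2 j)
  field_simp

theorem Lam_iff {I : Type} [Fintype I] [Nonempty I] {c : ℝ} {r : I → ℝ} (hc : 1 ≤ c)
    (hr : ∀ i, 1 ≤ r i) {a : ℝ × (I → ℝ)} (ha : a ∈ Cn I) {t : ℝ} (ht : 0 < t) :
    TEa c r t a ↔ Lam_W c r t a = 0 := by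
  have hU := Lam_U_pos ha
  have hu0 := Real.exp_pos (t * a.1)
  have hu1 : 1 < Real.exp (t * a.1) := Real.one_lt_exp_iff.2 (mul_pos ht hU)
  have hP : Pp c r (Real.exp (t * a.1)) = Real.exp (t * a.1) ^ 2 *
      Lam_p (c * (Fintype.card I + 1 + ∑ i, r i)) (Real.exp (-(t * a.1))) := by
    rw [Real.exp_neg, ← Lam_P_eq _ _ hu0.ne']
    unfold Pp
    ring
  have hQ : Qp r (Real.exp (t * a.1)) = Real.exp (t * a.1) ^ 2 *
      Lam_p (Fintype.card I + ∑ i, r i) (Real.exp (-(t * a.1))) := by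
    rw [Real.exp_neg, ← Lam_P_eq _ _ hu0.ne']
    unfold Qp
    ring
  have hS := Lam_S_eq r t a
  have hSp := Lam_S_pos hr t a
  have hu2 : 0 < Real.exp (t * a.1) ^ 2 := pow_pos hu0 2
  have hu4 : 0 < Real.exp (t * a.1) ^ 4 := pow_pos hu0 4
  have hR : c * Real.exp (t * a.1) *
      (∑ i, Real.exp (t * a.2 i) * (1 + r i * Real.exp (t * a.1))) *
      ∑ i, (Real.exp (t * a.1) + r i) / Real.exp (t * a.2 i) =
      Real.exp (t * a.1) ^ 4 * (c * Lam_S r t a) := by
    rw [mul_left_comm, ← hS]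
    ring
  unfold TEa TE Lam_W
  rw [hP, hQ, hR]
  generalize Lam_p (c * (Fintype.card I + 1 + ∑ i, r i)) (Real.exp (-(t * a.1))) = p
  generalize Lam_p (Fintype.card I + ∑ i, r i) (Real.exp (-(t * a.1))) = q
  have hcS : 0 < c * Lam_S r t a := mul_pos (by linarith) hSp
  generalize c * Lam_S r t a = s at hcS
  generalize Real.exp (t * a.1) = u at hu0 hu1 hu2 hu4
  constructor
  · rintro ⟨-, -, h1, h2, h3⟩
    have hp : 0 < p := (mul_pos_iff_of_pos_left hu2).1 h1
    have hq : 0 < q := (mul_pos_iff_of_pos_left hu2).1 h2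
    rw [max_eq_left hp.le, max_eq_left hq.le]
    have h4 : u ^ 4 * (s - p * q) = 0 := by linear_combination -h3
    exact (mul_eq_zero.1 h4).resolve_left hu4.ne'
  · intro h
    have hp : 0 < p := by
      by_contra hcon
      rw [max_eq_right (not_lt.1 hcon), zero_mul] at h
      linarith
    have hq : 0 < q := by
      by_contra hcon
      rw [max_eq_right (not_lt.1 hcon), mul_zero] at h
      linarith
    rw [max_eq_left hp.le, max_eq_left hq.le] at h
    refine ⟨hu1, fun i => Real.exp_pos _, mul_pos hu2 hp, mul_pos hu2 hq, ?_⟩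
    linear_combination -(u ^ 4) * h

theorem exists_Lam {I : Type} [Fintype I] [Nonempty I] {c : ℝ} {r : I → ℝ} (hc : 1 ≤ c)
    (hr : ∀ i, 1 ≤ r i) : ∃ Λ : ℝ × (I → ℝ) → ℝ, ContinuousOn Λ (Cn I) ∧
      (∀ a ∈ Cn I, 0 < Λ a ∧ TEa c r (Λ a) a) ∧
      ∀ a ∈ Cn I, ∀ Λ' : ℝ, 0 < Λ' → TEa c r Λ' a → Λ' = Λ a := by
  have h : ∀ a : ℝ × (I → ℝ), ∃ t : ℝ, a ∈ Cn I → 0 < t ∧ Lam_W c r t a = 0 := by
    intro a
    by_cases ha : a ∈ Cn I
    · obtain ⟨t, ht⟩ := Lam_root hc hr ha
      exact ⟨t, fun _ => ht⟩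
    · exact ⟨0, fun h => absurd h ha⟩
  choose L hL using h
  refine ⟨L, Lam_root_cont (Lam_W c r) (Cn I) (Lam_W_cont c r)
    (fun a ha => Lam_W_anti hc hr ha) L hL, fun a ha => ⟨(hL a ha).1,
      (Lam_iff hc hr ha (hL a ha).1).2 (hL a ha).2⟩, fun a ha t ht hT => ?_⟩
  have h1 := (Lam_iff hc hr ha ht).1 hT
  refine (Lam_W_anti hc hr ha).injOn (show t ∈ Set.Ici (0 : ℝ) from ht.le)
    (show L a ∈ Set.Ici (0 : ℝ) from (hL a ha).1.le) ?_
  show Lam_W c r t a = Lam_W c r (L a) a
  rw [h1, (hL a ha).2]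

end Pool.Agent.Work.MP_1b9dce_gt
end

-- merged part: Pool.Agent.Work.MP_1b9dce_gt.Deg
section
namespace Pool.Agent.Work.MP_1b9dce_gt

open Equiv
open FreeGroup (of)

section Deg_aux

variable {I : Type} (u : ℝ) (s : I → ℝ)

/-- monomials in `u` and square-free in the `s i` -/
noncomputable def Deg_mon (a : ℕ) (S : Finset I) : ℝ := u ^ a * ∏ i ∈ S, s i

/-- the span of the monomials of weight at most `w` -/
noncomputable def Deg_W (w : ℕ) : Submodule ℚ ℝ :=
  Submodule.span ℚ {x | ∃ (a : ℕ) (S : Finset I), a + S.card ≤ w ∧ x = Deg_mon u s a S}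

/-- multiplication by `x` raises the weight by at most `k` -/
def Deg_P (x : ℝ) (k : ℕ) : Prop := ∀ w, ∀ m ∈ Deg_W u s w, x * m ∈ Deg_W u s (w + k)

variable {u s}

lemma Deg_mem {a w : ℕ} {S : Finset I} (h : a + S.card ≤ w) : Deg_mon u s a S ∈ Deg_W u s w :=
  Submodule.subset_span ⟨a, S, h, rfl⟩

lemma Deg_W_mono {w w' : ℕ} (h : w ≤ w') : Deg_W u s w ≤ Deg_W u s w' :=
  Submodule.span_mono fun _ ⟨a, S, h1, h2⟩ => ⟨a, S, h1.trans h, h2⟩

lemma Deg_P_of {x : ℝ} {k : ℕ}
    (h : ∀ a S, x * Deg_mon u s a S ∈ Deg_W u s (a + S.card + k)) : Deg_P u s x k := by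
  intro w m hm
  induction hm using Submodule.span_induction with
  | mem m hm =>
    obtain ⟨a, S, h1, rfl⟩ := hm
    exact Deg_W_mono (by omega) (h a S)
  | zero => simp
  | add m m' _ _ h1 h2 => rw [mul_add]; exact add_mem h1 h2
  | smul q m _ h1 => rw [mul_smul_comm]; exact Submodule.smul_mem _ _ h1

lemma Deg_P.mono {x : ℝ} {k l : ℕ} (h : Deg_P u s x k) (hl : k ≤ l) : Deg_P u s x l :=
  fun w m hm => Deg_W_mono (by omega) (h w m hm)

lemma Deg_P.add {x y : ℝ} {k : ℕ} (h : Deg_P u s x k) (h' : Deg_P u s y k) :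
    Deg_P u s (x + y) k := fun w m hm => by
  rw [add_mul]; exact add_mem (h w m hm) (h' w m hm)

lemma Deg_P.sub {x y : ℝ} {k : ℕ} (h : Deg_P u s x k) (h' : Deg_P u s y k) :
    Deg_P u s (x - y) k := fun w m hm => by
  rw [sub_mul]; exact sub_mem (h w m hm) (h' w m hm)

lemma Deg_P.mul {x y : ℝ} {k l : ℕ} (h : Deg_P u s x k) (h' : Deg_P u s y l) :
    Deg_P u s (x * y) (l + k) := fun w m hm => by
  rw [mul_assoc, ← add_assoc]; exact h _ _ (h' w m hm)

lemma Deg_P_nat (n : ℕ) : Deg_P u s (n : ℝ) 0 := fun w m hm => by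
  rw [← nsmul_eq_mul]; exact nsmul_mem hm n

lemma Deg_P_sum {T : Finset I} {f : I → ℝ} {k : ℕ} (h : ∀ i ∈ T, Deg_P u s (f i) k) :
    Deg_P u s (∑ i ∈ T, f i) k := fun w m hm => by
  rw [Finset.sum_mul]; exact Submodule.sum_mem _ fun i hi => h i hi w m hm

lemma Deg_P_u : Deg_P u s u 1 := Deg_P_of fun a S => by
  have : u * Deg_mon u s a S = Deg_mon u s (a + 1) S := by simp only [Deg_mon]; ring
  rw [this]
  exact Deg_mem (by omega)

lemma Deg_P_s {r : I → ℕ} (hs : ∀ i, s i * s i = (r i * u + 1) * (u + r i)) (i : I) :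
    Deg_P u s (s i) 1 := Deg_P_of fun a S => by
  classical
  by_cases hi : i ∈ S
  · have e : s i * Deg_mon u s a S = (r i * u + 1) * (u + r i) * Deg_mon u s a (S.erase i) := by
      rw [← hs i, Deg_mon, Deg_mon, ← Finset.mul_prod_erase S s hi]; ring
    have h1 : Deg_P u s ((r i : ℝ) * u + (1 : ℕ)) 1 :=
      ((Deg_P_nat (r i)).mul Deg_P_u).add ((Deg_P_nat 1).mono zero_le_one)
    have h2 : Deg_P u s (u + r i) 1 := Deg_P_u.add ((Deg_P_nat (r i)).mono zero_le_one)
    have h3 := h1.mul h2 _ _ (Deg_mem (a := a) (S := S.erase i) le_rfl)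
    rw [Nat.cast_one] at h3
    rw [e]
    have := Finset.card_erase_add_one hi
    exact Deg_W_mono (by omega) h3
  · have e : s i * Deg_mon u s a S = Deg_mon u s a (insert i S) := by
      rw [Deg_mon, Deg_mon, Finset.prod_insert hi]; ring
    rw [e]
    exact Deg_mem (by rw [Finset.card_insert_of_notMem hi]; omega)

lemma Deg_le (h4 : Deg_P u s (u ^ 4) 3) (w : ℕ) : Deg_W u s w ≤
    Submodule.span ℚ (Set.range fun p : Fin 4 × Finset I => Deg_mon u s p.1 p.2) := by
  induction w using Nat.strong_induction_on with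
  | _ w ih =>
    refine Submodule.span_le.2 ?_
    rintro _ ⟨a, S, h, rfl⟩
    by_cases ha : a < 4
    · exact Submodule.subset_span ⟨(⟨a, ha⟩, S), rfl⟩
    · obtain ⟨b, rfl⟩ : ∃ b, a = b + 4 := ⟨a - 4, by omega⟩
      have e : Deg_mon u s (b + 4) S = u ^ 4 * Deg_mon u s b S := by simp only [Deg_mon]; ring
      rw [e]
      exact ih (b + S.card + 3) (by omega) (h4 _ _ (Deg_mem le_rfl))

lemma Deg_fin [Fintype I] (h4 : Deg_P u s (u ^ 4) 3) :
    IsAlgebraic ℚ u ∧ (minpoly ℚ u).natDegree ≤ 4 * 2 ^ Fintype.card I := by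
  set N := Submodule.span ℚ (Set.range fun p : Fin 4 × Finset I => Deg_mon u s p.1 p.2) with hN
  have hpow : ∀ k : ℕ, u ^ k ∈ N := fun k => by
    have := Deg_le h4 k (Deg_mem (a := k) (S := ∅) (by simp))
    rwa [Deg_mon, Finset.prod_empty, mul_one] at this
  have hfg : N.FG := Submodule.fg_span (Set.finite_range _)
  have hle : N ≤ Deg_W u s (4 + Fintype.card I) := Submodule.span_le.2 (by
    rintro _ ⟨p, rfl⟩
    exact Deg_mem (add_le_add p.1.2.le (Finset.card_le_univ _)))
  have hint : IsIntegral ℚ u := by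
    refine isIntegral_of_smul_mem_submodule N (fun h => ?_) hfg u fun n hn =>
      Deg_le h4 _ (Deg_P_u _ _ (hle hn))
    have := hpow 0
    rw [h] at this
    simp at this
  refine ⟨hint.isAlgebraic, ?_⟩
  have : Module.Finite ℚ N := Module.Finite.iff_fg.2 hfg
  have h1 : LinearIndependent ℚ fun i : Fin (minpoly ℚ u).natDegree => (⟨u ^ (i : ℕ), hpow i⟩ : N) :=
    LinearIndependent.of_comp N.subtype (linearIndependent_pow u)
  have h2 := h1.fintype_card_le_finrank
  have h3 := finrank_range_le_card (R := ℚ) fun p : Fin 4 × Finset I => Deg_mon u s p.1 p.2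
  rw [Fintype.card_fin] at h2
  rw [Fintype.card_prod, Fintype.card_fin, Fintype.card_finset] at h3
  exact h2.trans h3

end Deg_aux

theorem deg_bound {I : Type} [Fintype I] (c : ℕ) (r : I → ℕ) {u : ℝ}
    (h : TE (c : ℝ) (fun i => (r i : ℝ)) u fun i => √(wv (fun i => (r i : ℝ)) u i)) :
    IsAlgebraic ℚ u ∧ (minpoly ℚ u).natDegree ≤ 4 * 2 ^ Fintype.card I := by
  obtain ⟨hu, ht, -, -, he⟩ := h
  set t : I → ℝ := fun i => √(wv (fun i => (r i : ℝ)) u i) with htd
  have hpos : ∀ i, 0 < 1 + (r i : ℝ) * u := fun i => by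
    have : 0 ≤ (r i : ℝ) * u := mul_nonneg (Nat.cast_nonneg _) (by linarith)
    linarith
  have htt : ∀ i, t i * t i * (1 + r i * u) = u + r i := fun i => by
    have h1 : 0 ≤ wv (fun i => (r i : ℝ)) u i :=
      div_nonneg (add_nonneg (by linarith) (Nat.cast_nonneg _)) (hpos i).le
    rw [htd, Real.mul_self_sqrt h1, wv, div_mul_cancel₀ _ (hpos i).ne']
  set s : I → ℝ := fun i => t i * (1 + r i * u) with hsd
  have hs : ∀ i, s i * s i = (r i * u + 1) * (u + r i) := fun i => by
    rw [← htt i, hsd]; ring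
  have hs' : ∀ i, (u + r i) / t i = s i := fun i => by
    rw [div_eq_iff (ht i).ne', ← htt i, hsd]; ring
  simp only [hs'] at he
  set B : ℕ := Fintype.card I + ∑ i, r i with hB
  set A : ℕ := c * (B + 1) with hA
  have e : u ^ 4 = (c : ℝ) * u * (∑ i, s i) * (∑ i, s i) + ((4 + A + B : ℕ) : ℝ) * (u * u * u) -
      ((2 + (2 + A) * (2 + B) : ℕ) : ℝ) * (u * u) + ((4 + A + B : ℕ) : ℝ) * u - ((1 : ℕ) : ℝ) := by
    rw [← he, hA, hB, Pp, Qp]
    push_cast
    ring
  have hS : Deg_P u s (∑ i, s i) 1 := Deg_P_sum fun i _ => Deg_P_s hs i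
  refine Deg_fin (s := s) ?_
  rw [e]
  exact ((((((Deg_P_nat c).mul Deg_P_u).mul hS).mul hS).add
    ((Deg_P_nat _).mul ((Deg_P_u.mul Deg_P_u).mul Deg_P_u))).sub
    (((Deg_P_nat _).mul (Deg_P_u.mul Deg_P_u)).mono (by norm_num))).add
    (((Deg_P_nat _).mul Deg_P_u).mono (by norm_num)) |>.sub ((Deg_P_nat 1).mono (by norm_num))

end Pool.Agent.Work.MP_1b9dce_gt
end

-- merged part: Pool.Agent.Work.MP_1b9dce_gt.PA0
section
namespace Pool.Agent.Work.MP_1b9dce_gt

open Equiv
open FreeGroup (of)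

/-- The element of a positive word. -/
def pw (a : List Bool) : F2 := (a.map of).prod

@[simp] theorem pw_nil : pw [] = 1 := rfl
@[simp] theorem pw_cons (e : Bool) (a : List Bool) : pw (e :: a) = of e * pw a := by simp [pw]
@[simp] theorem pw_append (a b : List Bool) : pw (a ++ b) = pw a * pw b := by simp [pw]

/-- One word is an initial segment of the other. -/
def Cmp (a b : List Bool) : Prop := a <+: b ∨ b <+: a

/-- The action of a groupoid automorphism `θ` on positive words, and the folding of the illegal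
turn. -/
structure PairData {V : Type} {p : Bool → Perm V} (θ : GAut p) where
  ph : V → List Bool → List Bool
  gm : V → List Bool
  ap_pw : ∀ s a, ap θ s (pw a) = pw (ph s a)
  act_gm : ∀ s, act p s (pw (gm s)) = s
  last : ∀ s a, (ph s a).getLast? = a.getLast?
  fold : ∀ s a b, Cmp (ph s (true :: a)) (ph s (false :: b)) ∨
    ∃ a' b', ph s (true :: a) = gm s ++ true :: a' ∧ ph s (false :: b) = gm s ++ false :: b'
  comm : ∀ s d, ph s [d, !d] = gm s ++ [d, !d]
  van : ∀ s d a, Cmp (ph s [!d]) (ph s (d :: a))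

end Pool.Agent.Work.MP_1b9dce_gt
end

-- merged part: Pool.Agent.Work.MP_1b9dce_gt.PA1
section
namespace Pool.Agent.Work.MP_1b9dce_gt

open Equiv
open FreeGroup (of)

theorem PA1_pw_rep (n : ℕ) (d : Bool) : pw (List.replicate n d) = of d ^ n := by
  induction n with
  | zero => simp
  | succ n ih => rw [List.replicate_succ, pw_cons, ih, pow_succ']

theorem PA1_cmp_app {g x y : List Bool} (h : Cmp x y) : Cmp (g ++ x) (g ++ y) := by
  rcases h with h | h
  · exact Or.inl ((List.prefix_append_right_inj g).2 h)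
  · exact Or.inr ((List.prefix_append_right_inj g).2 h)

theorem PA1_cons_rep (n : ℕ) (d : Bool) :
    d :: List.replicate n d = List.replicate n d ++ [d] := by
  rw [← List.replicate_succ, List.replicate_succ']

/-- The strengthened data. -/
structure PA1_Data {V : Type} {p : Bool → Perm V} (θ : GAut p) where
  ph : V → List Bool → List Bool
  gm : V → List Bool
  ap_pw : ∀ s a, ap θ s (pw a) = pw (ph s a)
  act_gm : ∀ s, act p s (pw (gm s)) = s
  last : ∀ s a, (ph s a).getLast? = a.getLast?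
  ph_append : ∀ s a b, ph s (a ++ b) = ph s a ++ ph (act p s (pw a)) b
  fold : ∀ s a b, Cmp (ph s (true :: a)) (ph s (false :: b)) ∨
    ∃ a' b', ph s (true :: a) = gm s ++ true :: a' ∧ ph s (false :: b) = gm s ++ false :: b'
  comm : ∀ s d, ph s [d, !d] = gm s ++ [d, !d]
  van' : ∀ s d a, Cmp (ph s [!d]) (ph s (d :: a)) ∨
    ∃ a', ph s [!d] = gm s ++ [!d] ∧ ph s (d :: a) = gm s ++ d :: a'

namespace PA1_Data
variable {V : Type} {p : Bool → Perm V} {θ θ' : GAut p}

/-- The turn at `s` is folded completely. -/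
def Van (X : PA1_Data θ) (s : V) (d : Bool) : Prop := ∀ a, Cmp (X.ph s [!d]) (X.ph s (d :: a))

theorem ph_cmp (X : PA1_Data θ) (s : V) {a b : List Bool} (h : Cmp a b) :
    Cmp (X.ph s a) (X.ph s b) := by
  rcases h with ⟨z, rfl⟩ | ⟨z, rfl⟩
  · exact Or.inl ⟨_, (X.ph_append s a z).symm⟩
  · exact Or.inr ⟨_, (X.ph_append s b z).symm⟩

theorem ph_gm (X : PA1_Data θ) (Y : PA1_Data θ') (s : V) (z : List Bool) :
    X.ph s (Y.gm s ++ z) = X.ph s (Y.gm s) ++ X.ph s z := by
  rw [X.ph_append, Y.act_gm]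

/-- Composition. -/
def mul (X : PA1_Data θ) (Y : PA1_Data θ') : PA1_Data (θ * θ') where
  ph s a := X.ph s (Y.ph s a)
  gm s := X.ph s (Y.gm s) ++ X.gm s
  ap_pw s a := by rw [ap_mul, Y.ap_pw, X.ap_pw]
  act_gm s := by rw [pw_append, act_mul, ← X.ap_pw, act_ap, Y.act_gm, X.act_gm]
  last s a := by rw [X.last, Y.last]
  ph_append s a b := by rw [Y.ph_append, X.ph_append, ← Y.ap_pw, act_ap]
  fold s a b := by
    rcases Y.fold s a b with h | ⟨a', b', h1, h2⟩
    · exact Or.inl (X.ph_cmp s h)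
    · rw [h1, h2, X.ph_gm, X.ph_gm]
      rcases X.fold s a' b' with h | ⟨a'', b'', h3, h4⟩
      · exact Or.inl (PA1_cmp_app h)
      · exact Or.inr ⟨a'', b'', by rw [h3, List.append_assoc], by rw [h4, List.append_assoc]⟩
  comm s d := by rw [Y.comm, X.ph_gm, X.comm, List.append_assoc]
  van' s d a := by
    rcases Y.van' s d a with h | ⟨a', h1, h2⟩
    · exact Or.inl (X.ph_cmp s h)
    · rw [h1, h2, X.ph_gm, X.ph_gm]
      rcases X.van' s d a' with h | ⟨a'', h3, h4⟩
      · exact Or.inl (PA1_cmp_app h)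
      · exact Or.inr ⟨a'', by rw [h3, List.append_assoc], by rw [h4, List.append_assoc]⟩

theorem van_left (X : PA1_Data θ) (Y : PA1_Data θ') {s : V} {d : Bool} (h : X.Van s d) :
    (X.mul Y).Van s d := by
  intro a
  change Cmp (X.ph s (Y.ph s [!d])) (X.ph s (Y.ph s (d :: a)))
  rcases Y.van' s d a with h' | ⟨a', h1, h2⟩
  · exact X.ph_cmp s h'
  · rw [h1, h2, X.ph_gm, X.ph_gm]
    exact PA1_cmp_app (h a')

theorem van_right (X : PA1_Data θ) (Y : PA1_Data θ') {s : V} {d : Bool} (h : Y.Van s d) :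
    (X.mul Y).Van s d := fun a => X.ph_cmp s (h a)

end PA1_Data

section Twist
variable {V : Type} (p : Bool → Perm V) (d : Bool) (c : V → ℕ)

/-- One twist on positive words. -/
def PA1_twl : V → List Bool → List Bool
  | _, [] => []
  | s, e :: a => (if e = d then [e] else List.replicate (c s) d ++ [e]) ++ PA1_twl (p e s) a

theorem PA1_twl_same (s : V) (a : List Bool) :
    PA1_twl p d c s (d :: a) = d :: PA1_twl p d c (p d s) a := by
  simp [PA1_twl]

theorem PA1_twl_other (s : V) (a : List Bool) :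
    PA1_twl p d c s ((!d) :: a) =
      List.replicate (c s) d ++ (!d) :: PA1_twl p d c (p (!d) s) a := by
  simp [PA1_twl]

theorem PA1_twl_append (s : V) (a b : List Bool) :
    PA1_twl p d c s (a ++ b) = PA1_twl p d c s a ++ PA1_twl p d c (act p s (pw a)) b := by
  induction a generalizing s with
  | nil => simp [PA1_twl]
  | cons e a ih =>
    rw [List.cons_append, PA1_twl, PA1_twl, ih, pw_cons, act_mul, act_of, List.append_assoc]

theorem PA1_twl_last (s : V) (a : List Bool) : (PA1_twl p d c s a).getLast? = a.getLast? := by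
  induction a generalizing s with
  | nil => simp [PA1_twl]
  | cons e a ih =>
    rw [PA1_twl, List.getLast?_append, ih, show e :: a = [e] ++ a from rfl,
      List.getLast?_append]
    congr 1
    split_ifs
    · rfl
    · simp

variable {p d c}

theorem PA1_key (hc : ∀ s, c (p d s) = c s) (b : List Bool) (s : V) :
    List.replicate (c s) d <+: PA1_twl p d c s b ∨
      PA1_twl p d c s b <+: List.replicate (c s) d := by
  induction b generalizing s with
  | nil => exact Or.inr (by simp [PA1_twl])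
  | cons e a ih =>
    by_cases he : e = d
    · subst he
      rw [PA1_twl_same]
      have h0 : List.replicate (c s) e <+: e :: List.replicate (c s) e := by
        rw [PA1_cons_rep]; exact List.prefix_append _ _
      rcases ih (p e s) with h | h
      · rw [hc] at h
        exact Or.inl (h0.trans ((List.prefix_cons_inj e).2 h))
      · rw [hc] at h
        exact List.prefix_or_prefix_of_prefix h0 ((List.prefix_cons_inj e).2 h)
    · have : e = !d := by cases e <;> cases d <;> simp_all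
      subst this
      rw [PA1_twl_other]
      exact Or.inl (List.prefix_append _ _)

theorem PA1_key' (hc : ∀ s, c (p d s) = c s) (a : List Bool) (s : V) :
    (∃ z, PA1_twl p d c s (d :: a) = List.replicate (c s) d ++ d :: z) ∨
      PA1_twl p d c s (d :: a) <+: List.replicate (c s) d := by
  rw [PA1_twl_same]
  rcases PA1_key hc a (p d s) with ⟨z, hz⟩ | h
  · rw [hc] at hz
    refine Or.inl ⟨z, ?_⟩
    rw [← hz, ← List.cons_append, PA1_cons_rep, List.append_assoc]
    rfl
  · rw [hc] at h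
    have h1 : d :: PA1_twl p d c (p d s) a <+: List.replicate (c s) d ++ [d] := by
      rw [← PA1_cons_rep]; exact (List.prefix_cons_inj d).2 h
    rcases List.prefix_concat_iff.1 h1 with h2 | h2
    · exact Or.inl ⟨[], h2⟩
    · exact Or.inr h2

theorem PA1_fold (hc : ∀ s, c (p d s) = c s) (s : V) (a b : List Bool) :
    PA1_twl p d c s (d :: a) <+: PA1_twl p d c s ((!d) :: b) ∨
      ∃ a', PA1_twl p d c s (d :: a) = List.replicate (c s) d ++ d :: a' := by
  rcases PA1_key' hc a s with h | h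
  · exact Or.inr h
  · rw [PA1_twl_other]
    exact Or.inl (h.trans (List.prefix_append _ _))

end Twist

/-- The data of one twist. -/
def PA1_T {V : Type} (D : TD V) (j : ℤ) : PA1_Data (D.T j) where
  ph := PA1_twl D.p (dir j) (D.c j)
  gm s := List.replicate (D.c j s) (dir j)
  ap_pw s a := by
    induction a generalizing s with
    | nil => simpa [PA1_twl] using (ap_isCoc (D.T j)).one s
    | cons e a ih =>
      rw [pw_cons, ap_isCoc, act_of, ih, PA1_twl, pw_append, D.ap_T_of]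
      congr 1
      split_ifs
      · simp
      · simp [PA1_pw_rep]
  act_gm s := by rw [PA1_pw_rep, act_of_pow, D.cyc]
  last := PA1_twl_last _ _ _
  ph_append := PA1_twl_append _ _ _
  fold s a b := by
    have hc := D.const j
    generalize dir j = d at hc ⊢
    cases d
    · rcases PA1_fold hc s b a with h | ⟨b', h⟩
      · exact Or.inl (Or.inr h)
      · exact Or.inr ⟨_, b', PA1_twl_other D.p false (D.c j) s a, h⟩
    · rcases PA1_fold hc s a b with h | ⟨a', h⟩
      · exact Or.inl (Or.inl h)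
      · exact Or.inr ⟨a', _, h, PA1_twl_other D.p true (D.c j) s b⟩
  comm s e := by
    have hc := D.const j
    generalize dir j = d at hc ⊢
    by_cases he : e = d
    · subst he
      rw [PA1_twl_same, PA1_twl_other, hc, ← List.cons_append, PA1_cons_rep, List.append_assoc]
      rfl
    · have : e = !d := by cases e <;> cases d <;> simp_all
      subst this
      rw [PA1_twl_other, Bool.not_not, PA1_twl_same]
      rfl
  van' s e a := by
    have hc := D.const j
    generalize dir j = d at hc ⊢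
    by_cases he : e = d
    · subst he
      rcases PA1_fold hc s a [] with h | ⟨a', h⟩
      · exact Or.inl (Or.inr h)
      · exact Or.inr ⟨a', PA1_twl_other D.p e (D.c j) s [], h⟩
    · have : e = !d := by cases e <;> cases d <;> simp_all
      subst this
      rw [PA1_twl_other, Bool.not_not, PA1_twl_same]
      rcases hcs : D.c j s with _ | n
      · exact Or.inr ⟨_, rfl, rfl⟩
      · exact Or.inl (Or.inl ⟨_, rfl⟩)

theorem PA1_T_van {V : Type} (D : TD V) (j : ℤ) (s : V) (h : 0 < D.c j s) :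
    (PA1_T D j).Van s (!dir j) := by
  intro a
  change Cmp (PA1_twl D.p (dir j) (D.c j) s [!!dir j]) (PA1_twl D.p (dir j) (D.c j) s ((!dir j) :: a))
  rw [PA1_twl_other, Bool.not_not, PA1_twl_same]
  obtain ⟨n, hn⟩ : ∃ n, D.c j s = n + 1 := ⟨D.c j s - 1, by omega⟩
  rw [hn]
  exact Or.inl ⟨_, rfl⟩

theorem PA1_c_per {V : Type} (D : TD V) (m j : ℤ) : D.c (j + 4 * m) = D.c j := by
  induction m using Int.induction_on with
  | zero => simp
  | succ n ih => rw [show j + 4 * ((n : ℤ) + 1) = j + 4 * n + 4 by ring, D.per, ih]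
  | pred n ih =>
    rw [← D.per, show j + 4 * (-(n : ℤ) - 1) + 4 = j + 4 * -n by ring, ih]

theorem TD.pairData {V : Type} (D : TD V) (hpos : ∀ s d, ∃ j, dir j = d ∧ 0 < D.c j s) :
    Nonempty (PairData (D.Φ 4)) := by
  rw [D.Φ_four]
  let X := (((PA1_T D 0).mul (PA1_T D 1)).mul (PA1_T D 2)).mul (PA1_T D 3)
  refine ⟨⟨X.ph, X.gm, X.ap_pw, X.act_gm, X.last, X.fold, X.comm, fun s d => ?_⟩⟩
  obtain ⟨j, hj, hc⟩ := hpos s (!d)
  have h1 : D.c (j % 4) = D.c j := by
    rw [← PA1_c_per D (j / 4) (j % 4), Int.emod_add_mul_ediv]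
  have h2 : dir (j % 4) = dir j := by
    simp only [dir]; congr 1; apply propext; omega
  have h3 : (PA1_T D (j % 4)).Van s d := by
    have := PA1_T_van D (j % 4) s (by rw [h1]; exact hc)
    rwa [h2, hj, Bool.not_not] at this
  have h4 : j % 4 = 0 ∨ j % 4 = 1 ∨ j % 4 = 2 ∨ j % 4 = 3 := by omega
  change X.Van s d
  rcases h4 with h | h | h | h <;> rw [h] at h3
  · exact PA1_Data.van_left _ _ (PA1_Data.van_left _ _ (PA1_Data.van_left _ _ h3))
  · exact PA1_Data.van_left _ _ (PA1_Data.van_left _ _ (PA1_Data.van_right _ _ h3))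
  · exact PA1_Data.van_left _ _ (PA1_Data.van_right _ _ h3)
  · exact PA1_Data.van_right _ _ h3

end Pool.Agent.Work.MP_1b9dce_gt
end

-- merged part: Pool.Agent.Work.MP_1b9dce_gt.CovMT
section
namespace Pool.Agent.Work.MP_1b9dce_gt

open Equiv
open FreeGroup (of)

theorem CovMT_zpow {A B : Type} [Group A] [Group B] (R : A → B → Prop) (h1 : R 1 1)
    (hmul : ∀ a b a' b', R a b → R a' b' → R (a * a') (b * b'))
    (hinv : ∀ a b, R a b → R a⁻¹ b⁻¹) (a : A) (b : B) (h : R a b) (j : ℤ) :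
    R (a ^ j) (b ^ j) := by
  have hn : ∀ n : ℕ, R (a ^ n) (b ^ n) := by
    intro n
    induction n with
    | zero => simpa using h1
    | succ n ih => rw [pow_succ, pow_succ]; exact hmul _ _ _ _ ih h
  cases j with
  | ofNat n => simpa using hn n
  | negSucc n => rw [zpow_negSucc, zpow_negSucc]; exact hinv _ _ (hn _)

/-- The marking of the fundamental group given by a simply connected quotient covering. -/
theorem CovMT_mark {E S F : Type} [TopologicalSpace E] [TopologicalSpace S] [Group F]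
    [MulAction F E] [SimplyConnectedSpace E] {q : E → S} (hq : IsQuotientCoveringMap q F)
    (e₀ : E) {x₀ : S} (hx₀ : q e₀ = x₀) :
    ∃ e : FundamentalGroup S x₀ ≃* F,
      (∀ (γ : Path x₀ x₀) (k : F) (a b : E) (Γ : Path a b), a = e₀ → b = k • e₀ →
        (∀ t, q (Γ t) = γ t) → e (Path.Homotopic.Quotient.mk γ) = k⁻¹) ∧
      ∀ c, ∃ (γ : Path x₀ x₀) (Γ : Path e₀ ((e c)⁻¹ • e₀)),
        c = Path.Homotopic.Quotient.mk γ ∧ ∀ t, q (Γ t) = γ t := by
  let e : FundamentalGroup S x₀ ≃* F :=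
    (hq.fundamentalGroupEquiv ⟨e₀, hx₀⟩).trans (MulEquiv.inv' F).symm
  have hA : ∀ (γ : Path x₀ x₀) (k : F) (a b : E) (Γ : Path a b), a = e₀ → b = k • e₀ →
      (∀ t, q (Γ t) = γ t) → e (Path.Homotopic.Quotient.mk γ) = k⁻¹ := by
    intro γ k a b Γ ha hb hΓ
    subst ha hb
    have h1 : hq.fundamentalGroupToMulOpposite ⟨a, hx₀⟩ (Path.Homotopic.Quotient.mk γ)
        = MulOpposite.op k := by
      rw [hq.fundamentalGroupToMulOpposite_apply_eq_Iff]
      have hk : q (k • a) = x₀ := (hq.map_smul k).trans hx₀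
      have := hq.isCoveringMap.monodromy_eq_of_map_eq (γ := Path.Homotopic.Quotient.mk γ)
        (ex := ⟨a, hx₀⟩) (ey := ⟨k • a, hk⟩) (Path.Homotopic.Quotient.mk Γ) (by
          have h0 : Γ.map hq.continuous = γ.cast hx₀ hk := by
            ext t
            exact hΓ t
          exact congrArg Path.Homotopic.Quotient.mk h0)
      rw [this]
      rfl
    show (MulEquiv.inv' F).symm (hq.fundamentalGroupToMulOpposite ⟨a, hx₀⟩ _) = _
    rw [h1]
    rfl
  refine ⟨e, hA, fun c => ?_⟩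
  let Γ : Path e₀ ((e c)⁻¹ • e₀) := PathConnectedSpace.somePath _ _
  have hk : q ((e c)⁻¹ • e₀) = x₀ := (hq.map_smul _).trans hx₀
  let γ : Path x₀ x₀ := (Γ.map hq.continuous).cast hx₀.symm hk.symm
  refine ⟨γ, Γ, ?_, fun t => rfl⟩
  apply e.injective
  rw [hA γ (e c)⁻¹ _ _ Γ rfl rfl (fun t => rfl), inv_inv]

theorem CovMT_quot {S : Type} [TopologicalSpace S] (φ : S ≃ₜ S) (a b : S × ℝ) :
    (Quot.mk _ a : MT φ) = Quot.mk _ b ↔ ∃ n : ℤ, b = ((φ ^ n) a.1, a.2 + n) := by
  constructor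
  · intro h
    rw [Quot.eq] at h
    induction h with
    | rel x y hxy => exact ⟨1, by simpa using hxy⟩
    | refl x => exact ⟨0, by simp⟩
    | symm x y _ ih =>
      obtain ⟨n, rfl⟩ := ih
      refine ⟨-n, ?_⟩
      ext
      · simp only [← Homeomorph.mul_apply, ← zpow_add]; simp
      · simp
    | trans x y z _ _ ih1 ih2 =>
      obtain ⟨n, rfl⟩ := ih1
      obtain ⟨m, rfl⟩ := ih2
      refine ⟨m + n, ?_⟩
      ext
      · simp only [← Homeomorph.mul_apply, ← zpow_add]
      · simp only; push_cast; ring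
  · rintro ⟨n, rfl⟩
    induction n using Int.induction_on with
    | zero => simp
    | succ n ih =>
      rw [ih]
      apply Quot.sound
      ext
      · simp only [add_comm (n : ℤ) 1, zpow_add, zpow_one, Homeomorph.mul_apply]
      · simp only; push_cast; ring
    | pred n ih =>
      rw [ih]
      symm
      apply Quot.sound
      ext
      · have : (-(n : ℤ)) = 1 + (-(n : ℤ) - 1) := by ring
        conv_lhs => rw [this]
        simp only [zpow_add, zpow_one, Homeomorph.mul_apply]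
      · simp only; push_cast; ring

theorem CovMT_sc (E : Type) [TopologicalSpace E] [SimplyConnectedSpace E] :
    SimplyConnectedSpace (E × ℝ) := by
  obtain ⟨h⟩ := ContractibleSpace.hequiv_unit ℝ
  exact (((ContinuousMap.HomotopyEquiv.refl E).prodCongr h).trans
    (Homeomorph.prodUnique E Unit).toHomotopyEquiv).simplyConnectedSpace

/-- The action of the semidirect product on `E × ℝ`. -/
@[reducible] def CovMT_act {E F : Type} [TopologicalSpace E] [Group F] [MulAction F E]
    (φ' : E ≃ₜ E) (ψ : MulAut F)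
    (hz : ∀ (j : ℤ) (k : F) x, (φ' ^ j) (k • x) = (ψ ^ j) k • (φ' ^ j) x) :
    MulAction (F ⋊[zpowersHom _ ψ] Multiplicative ℤ) (E × ℝ) where
  smul g p := (g.left • (φ' ^ g.right.toAdd) p.1, p.2 + (g.right.toAdd : ℤ))
  one_smul p := by
    show ((1 : F) • (φ' ^ (0 : ℤ)) p.1, p.2 + ((0 : ℤ) : ℝ)) = p
    simp
  mul_smul g h p := by
    show ((g * h).left • (φ' ^ (g * h).right.toAdd) p.1, p.2 + (((g * h).right.toAdd : ℤ) : ℝ)) =
      (g.left • (φ' ^ g.right.toAdd) (h.left • (φ' ^ h.right.toAdd) p.1),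
        p.2 + ((h.right.toAdd : ℤ) : ℝ) + ((g.right.toAdd : ℤ) : ℝ))
    ext
    · simp only [SemidirectProduct.mul_left, SemidirectProduct.mul_right, toAdd_mul, zpow_add,
        Homeomorph.mul_apply, hz, mul_smul, zpowersHom_apply]
    · simp only [SemidirectProduct.mul_right, toAdd_mul]; push_cast; ring

theorem CovMT_cov {E S F : Type} [TopologicalSpace E] [TopologicalSpace S] [Group F]
    [MulAction F E] {q : E → S} (hq : IsQuotientCoveringMap q F) (φ : S ≃ₜ S)
    (φ' : E ≃ₜ E) (ψ : MulAut F) (hc : ∀ (j : ℤ) x, q ((φ' ^ j) x) = (φ ^ j) (q x))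
    (hz : ∀ (j : ℤ) (k : F) x, (φ' ^ j) (k • x) = (ψ ^ j) k • (φ' ^ j) x) :
    letI := CovMT_act φ' ψ hz
    IsQuotientCoveringMap (fun p : E × ℝ => (Quot.mk _ (q p.1, p.2) : MT φ))
      (F ⋊[zpowersHom _ ψ] Multiplicative ℤ) := by
  let := CovMT_act φ' ψ hz
  have hs : ∀ (g : F ⋊[zpowersHom _ ψ] Multiplicative ℤ) (p : E × ℝ),
      g • p = (g.left • (φ' ^ g.right.toAdd) p.1, p.2 + (g.right.toAdd : ℤ)) := fun _ _ => rfl
  have hquot : Topology.IsQuotientMap (fun p : E × ℝ => (Quot.mk _ (q p.1, p.2) : MT φ)) :=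
    isQuotientMap_quot_mk.comp (hq.isOpenQuotientMap.prodMap IsOpenQuotientMap.id).isQuotientMap
  have := hq.toContinuousConstSMul
  refine { toIsQuotientMap := hquot, continuous_const_smul := ?_, apply_eq_iff_mem_orbit := ?_,
           disjoint := ?_ }
  · intro g
    simp only [hs]
    fun_prop
  · intro a b
    rw [eq_comm, CovMT_quot]
    constructor
    · rintro ⟨n, hn⟩
      rw [Prod.mk.injEq] at hn
      obtain ⟨h1, h2⟩ := hn
      simp only at h1 h2
      rw [← hc] at h1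
      obtain ⟨k, hk⟩ := hq.apply_eq_iff_mem_orbit.1 h1
      refine ⟨⟨k, Multiplicative.ofAdd n⟩, ?_⟩
      simp only [hs]
      ext
      · exact hk
      · exact h2.symm
    · rintro ⟨g, rfl⟩
      refine ⟨g.right.toAdd, ?_⟩
      simp only [hs, hq.map_smul, hc]
  · intro p
    obtain ⟨U, hU, hd⟩ := hq.disjoint p.1
    refine ⟨U ×ˢ Set.Ioo (p.2 - 1 / 2) (p.2 + 1 / 2),
      prod_mem_nhds hU (Ioo_mem_nhds (by linarith) (by linarith)), ?_⟩
    rintro g ⟨_, ⟨y, hy, rfl⟩, hy'⟩
    simp only [hs, Set.mem_prod, Set.mem_Ioo] at hy hy'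
    have hj : g.right.toAdd = 0 := by
      have h1 : ((g.right.toAdd : ℤ) : ℝ) < 1 := by linarith [hy.2.1, hy'.2.2]
      have h2 : (-1 : ℝ) < ((g.right.toAdd : ℤ) : ℝ) := by linarith [hy.2.2, hy'.2.1]
      have h1' : g.right.toAdd < 1 := by exact_mod_cast h1
      have h2' : -1 < g.right.toAdd := by exact_mod_cast h2
      omega
    rw [hj] at hy'
    have hk : g.left = 1 := hd g.left ⟨_, ⟨y.1, hy.1, rfl⟩, by simpa using hy'.1⟩
    ext
    · exact hk
    · exact hj

theorem cov_MT {E S F : Type} [TopologicalSpace E] [TopologicalSpace S] [Group F] [MulAction F E]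
    [SimplyConnectedSpace E] {q : E → S} (hq : IsQuotientCoveringMap q F) (φ : S ≃ₜ S)
    (φ' : E ≃ₜ E) (ψ : MulAut F) (e₀ : E) (hcomm : ∀ x, q (φ' x) = φ (q x))
    (hequiv : ∀ (k : F) x, φ' (k • x) = ψ k • φ' x) (he₀ : φ' e₀ = e₀) {x₀ : S} (hx₀ : q e₀ = x₀)
    (h : φ x₀ = x₀) :
    ∃ (e : FundamentalGroup S x₀ ≃* F)
      (Ξ : FundamentalGroup (MT φ) (fib φ x₀) ≃* F ⋊[zpowersHom _ ψ] Multiplicative ℤ),
      (∀ c, e (FundamentalGroup.mapOfEq ⟨φ, φ.continuous⟩ h c) = ψ (e c)) ∧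
      (∀ c, Ξ (FundamentalGroup.map (fib φ) x₀ c) = SemidirectProduct.inl (e c)) ∧
      ∀ c, (∀ K : Set S, IsCompact K → ∃ x : E, JoinedIn (q ⁻¹' K)ᶜ x (e c • x)) → Peri c := by
  have hc : ∀ (j : ℤ) x, q ((φ' ^ j) x) = (φ ^ j) (q x) := by
    intro j
    refine CovMT_zpow (fun (a : E ≃ₜ E) (b : S ≃ₜ S) => ∀ x, q (a x) = b (q x)) (fun x => rfl)
      ?_ ?_ φ' φ hcomm j
    · intro a b a' b' h1 h2 x
      simp only [Homeomorph.mul_apply, h1, h2]
    · intro a b h1 x
      apply b.injective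
      rw [← h1]
      simp
  have hz : ∀ (j : ℤ) (k : F) x, (φ' ^ j) (k • x) = (ψ ^ j) k • (φ' ^ j) x := by
    intro j
    refine CovMT_zpow (fun (a : E ≃ₜ E) (b : MulAut F) => ∀ (k : F) x, a (k • x) = b k • a x)
      (fun k x => rfl) ?_ ?_ φ' ψ hequiv j
    · intro a b a' b' h1 h2 k x
      simp only [Homeomorph.mul_apply, h1, h2, MulAut.mul_apply]
    · intro a b h1 k x
      apply a.injective
      rw [h1]
      simp
  let := CovMT_act φ' ψ hz
  have hs : ∀ (g : F ⋊[zpowersHom _ ψ] Multiplicative ℤ) (p : E × ℝ),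
      g • p = (g.left • (φ' ^ g.right.toAdd) p.1, p.2 + (g.right.toAdd : ℤ)) := fun _ _ => rfl
  have := CovMT_sc E
  have hQ := CovMT_cov hq φ φ' ψ hc hz
  obtain ⟨e, hA, hB⟩ := CovMT_mark hq e₀ hx₀
  have hy₀ : (fun p : E × ℝ => (Quot.mk _ (q p.1, p.2) : MT φ)) (e₀, 0) = fib φ x₀ := by
    rw [← hx₀]; rfl
  obtain ⟨Ξ, hA', -⟩ := CovMT_mark hQ (e₀, 0) hy₀
  refine ⟨e, Ξ, fun c => ?_, fun c => ?_, fun c hK K hKc => ?_⟩
  · obtain ⟨γ, Γ, hcγ, hΓ⟩ := hB c
    have h1 := hA ((γ.map φ.continuous).cast h.symm h.symm) (ψ (e c)⁻¹) _ _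
      (Γ.map φ'.continuous) he₀ (by rw [hequiv, he₀]) (fun t => by
        show q (φ' (Γ t)) = φ (γ t)
        rw [hcomm, hΓ])
    rw [map_inv, inv_inv] at h1
    rw [← h1, FundamentalGroup.mapOfEq_apply]
    congr 1
    rw [hcγ]
    rfl
  · obtain ⟨γ, Γ, hcγ, hΓ⟩ := hB c
    have h1 := hA' (γ.map (fib φ).continuous) (SemidirectProduct.inl (e c)⁻¹) _ _
      (Γ.map (Continuous.prodMk_left (0 : ℝ))) rfl (by rw [hs]; simp) (fun t => by
        show (Quot.mk _ (q (Γ t), 0) : MT φ) = Quot.mk _ (γ t, 0)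
        rw [hΓ])
    rw [map_inv, inv_inv] at h1
    rw [← h1]
    congr 1
    rw [hcγ]
    rfl
  · obtain ⟨x, γ', hγ'⟩ := hK K hKc
    have := hq.toContinuousConstSMul
    let δ' : Path e₀ (e c • x) := PathConnectedSpace.somePath _ _
    have hx : q (e c • x) = q x := hq.map_smul _
    let δ : Path x₀ (q x) := (δ'.map hq.continuous).cast hx₀.symm hx.symm
    let γ : Path (q x) (q x) := (γ'.symm.map hq.continuous).cast hx.symm rfl
    let δ'' : Path ((e c)⁻¹ • e₀) x :=
      (δ'.map (continuous_const_smul (e c)⁻¹)).cast rfl (inv_smul_smul _ _).symm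
    refine ⟨q x, δ, γ, fun t => hγ' _, ?_⟩
    apply e.injective
    have h1 := hA (δ.trans (γ.trans δ.symm)) (e c)⁻¹ _ _ (δ'.trans (γ'.symm.trans δ''.symm))
      rfl rfl (fun t => by
        simp only [Path.trans_apply]
        split_ifs
        · rfl
        · rfl
        · exact hq.map_smul _)
    rw [inv_inv] at h1
    exact h1.symm

end Pool.Agent.Work.MP_1b9dce_gt
end

-- merged part: Pool.Agent.Work.MP_1b9dce_gt.Unbundle
section
/-! From the bundled definitions to those of the statement. -/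

namespace Pool.Agent.Work.MP_1b9dce_gt

variable {G : Type} [Group G]

theorem isKer_iff {α : H1 G} {K : Subgroup G} : IsKer α.1 K ↔ ker α = K :=
  ⟨fun h => Subgroup.ext fun g => (h g).symm, fun h _ => h ▸ Iff.rfl⟩

theorem Cone.fcone {α₀ : H1 G} {C : Set (H1 G)} (h : Cone α₀ C) :
    FCone α₀.1 (Subtype.val '' C) := by
  obtain ⟨⟨O, hO, rfl⟩, h2, h3, h4, h5⟩ := h
  refine ⟨⟨O, hO, ?_⟩, h2.linear_image (H1 G).subtype, ?_, ⟨α₀, h4, rfl⟩, ?_⟩
  · ext α
    exact ⟨by rintro ⟨β, hβ, rfl⟩; exact ⟨hβ, β.2⟩, fun h => ⟨⟨α, h.2⟩, h.1, rfl⟩⟩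
  · rintro _ ⟨α, hα, rfl⟩ r hr
    exact ⟨r • α, h3 α hα r hr, rfl⟩
  · rintro _ ⟨α, hα, rfl⟩ hp K hK
    exact isKer_iff.1 hK ▸ h5 α hα hp

theorem FCone.cone {α₀ : H1 G} {C : Set (G → ℝ)} (h : FCone α₀.1 C) :
    Cone α₀ (Subtype.val ⁻¹' C) := by
  obtain ⟨⟨O, hO, rfl⟩, h2, h3, h4, h5⟩ := h
  refine ⟨⟨O, hO, ?_⟩, h2.linear_preimage (H1 G).subtype, fun α hα r hr => h3 _ hα r hr, h4,
    fun α hα hp => h5 _ hα hp _ (isKer_iff.2 rfl)⟩
  ext α
  simp

theorem MinPt.minP {F : Subgroup G} {m : H1 G} (h : MinPt F m) : MinP F m.1 := by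
  classical
  obtain ⟨α₀, C, x, lam, h1, h2, h3, h4, h5, h6, h7, h8, h9⟩ := h
  obtain ⟨x', hx'⟩ := LinearMap.exists_extend x
  have hx : ∀ α : H1 G, x' α.1 = x α := fun α => LinearMap.congr_fun hx' α
  let lam' : (G → ℝ) → ℝ := fun α => if h : α ∈ H1 G then lam ⟨α, h⟩ else 0
  have hl : ∀ α : H1 G, lam' α.1 = lam α := fun α => dif_pos α.2
  refine ⟨α₀.1, Subtype.val '' C, x', lam', h1, isKer_iff.2 h2, ⟨h3.1.fcone, ?_⟩, ?_, ?_, ?_,
    ⟨m, h7, rfl⟩, (hx m).trans h8, ?_⟩
  · intro C' hC' α hα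
    have hα' : α ∈ H1 G := by
      obtain ⟨⟨O, -, rfl⟩, -⟩ := hC'
      exact hα.2
    exact ⟨⟨α, hα'⟩, h3.2 (FCone.cone hC') hα, rfl⟩
  · rintro _ ⟨α, hα, rfl⟩ hp K hK
    obtain rfl := isKer_iff.1 hK
    rw [hx, hl]
    exact h4 α hα hp
  · rw [Topology.IsInducing.subtypeVal.continuousOn_image_iff]
    exact h5.congr fun α _ => hl α
  · rintro _ ⟨α, hα, rfl⟩ r hr
    rw [hl, ← h6 α hα r hr]
    exact hl (r • α)
  · rintro _ ⟨α, hα, rfl⟩ ha hne
    rw [hl, hl]
    exact h9 α hα (by rwa [← hx]) fun h => hne (by rw [h])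

end Pool.Agent.Work.MP_1b9dce_gt
end
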