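import Pool.Agent.Work.MP_1b9dce_gt.Unbundle

namespace Pool.Agent.Work.MP_1b9dce_gt

open Equiv
open FreeGroup (of)

section Aux

variable {I : Type} [Fintype I] {c : ℝ} {r : I → ℝ}

theorem Min_Pp (c : ℝ) (r : I → ℝ) {u : ℝ} (hu : u ≠ 0) :
    Pp c r u = u ^ 2 * ((1 - u⁻¹) ^ 2 - c * u⁻¹ * (Fintype.card I + 1 + ∑ i, r i)) := by
  unfold Pp; field_simp

theorem Min_Qp (r : I → ℝ) {u : ℝ} (hu : u ≠ 0) :
    Qp r u = u ^ 2 * ((1 - u⁻¹) ^ 2 - u⁻¹ * (Fintype.card I + ∑ i, r i)) := by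
  unfold Qp; field_simp

theorem Min_rhs (c : ℝ) (r t : I → ℝ) {u : ℝ} (hu : u ≠ 0) :
    c * u * (∑ i, t i * (1 + r i * u)) * ∑ i, (u + r i) / t i =
      u ^ 4 * (c * u⁻¹ * (∑ i, t i * (u⁻¹ + r i)) * ∑ i, (1 + r i * u⁻¹) / t i) := by
  have h1 : ∑ i, t i * (1 + r i * u) = u * ∑ i, t i * (u⁻¹ + r i) := by
    rw [Finset.mul_sum]
    exact Finset.sum_congr rfl fun i _ => by field_simp
  have h2 : ∑ i, (u + r i) / t i = u * ∑ i, (1 + r i * u⁻¹) / t i := by
    rw [Finset.mul_sum]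
    refine Finset.sum_congr rfl fun i _ => ?_
    rw [← mul_div_assoc]
    congr 1
    field_simp
  rw [h1, h2]
  field_simp

theorem Min_cs {s y : I → ℝ} (hy : ∀ i, 0 < y i) :
    2 * ((∑ i, y i * s i) * (∑ i, s i / y i) - (∑ i, s i) ^ 2) =
      ∑ i, ∑ j, s i * s j * (y i - y j) ^ 2 / (y i * y j) := by
  have h1 : (∑ i, y i * s i) * (∑ i, s i / y i) = ∑ i, ∑ j, y i * s i * (s j / y j) :=
    Finset.sum_mul_sum _ _ _ _
  have h2 : (∑ i, y i * s i) * (∑ i, s i / y i) = ∑ i, ∑ j, y j * s j * (s i / y i) := by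
    rw [h1, Finset.sum_comm]
  have h3 : (∑ i, s i) ^ 2 = ∑ i, ∑ j, s i * s j := by rw [sq, Finset.sum_mul_sum]
  calc _ = (∑ i, ∑ j, y i * s i * (s j / y j)) + (∑ i, ∑ j, y j * s j * (s i / y i))
        - 2 * ∑ i, ∑ j, s i * s j := by rw [← h1, ← h2, h3]; ring
    _ = _ := by
      simp only [Finset.mul_sum, ← Finset.sum_add_distrib, ← Finset.sum_sub_distrib]
      refine Finset.sum_congr rfl fun i _ => Finset.sum_congr rfl fun j _ => ?_
      have := (hy i).ne'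
      have := (hy j).ne'
      field_simp
      ring

omit [Fintype I] in
theorem Min_wv (hr : ∀ i, 1 ≤ r i) {u : ℝ} (hu : 0 < u) (i : I) : 0 < √(wv r u i) ∧
    √(wv r u i) * (1 + r i * u) = √((1 + r i * u) * (u + r i)) ∧
    (u + r i) / √(wv r u i) = √((1 + r i * u) * (u + r i)) := by
  have h0 := hr i
  have h1 : 0 < 1 + r i * u := by positivity
  have h2 : 0 < u + r i := by positivity
  have h3 : 0 < √(1 + r i * u) := Real.sqrt_pos.2 h1
  have h4 : 0 < √(u + r i) := Real.sqrt_pos.2 h2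
  have h5 := Real.mul_self_sqrt h1.le
  have h6 := Real.mul_self_sqrt h2.le
  rw [wv, Real.sqrt_div h2.le, Real.sqrt_mul h1.le]
  refine ⟨by positivity, ?_, ?_⟩
  · rw [div_mul_eq_mul_div, div_eq_iff h3.ne']
    linear_combination (-√(u + r i)) * h5
  · rw [div_div_eq_mul_div, div_eq_iff h4.ne']
    linear_combination (-√(1 + r i * u)) * h6

theorem Min_B (hr : ∀ i, 1 ≤ r i) : 0 ≤ ∑ i, r i :=
  Finset.sum_nonneg fun i _ => zero_le_one.trans (hr i)

theorem Min_sumB (r : I → ℝ) : ∑ i, (1 + r i) = Fintype.card I + ∑ i, r i := by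
  simp [Finset.sum_add_distrib]

theorem Min_ex [Nonempty I] (hc : 1 ≤ c) (hr : ∀ i, 1 ≤ r i) : ∃ u, 1 < u ∧ 0 < Pp c r u ∧
    0 < Qp r u ∧ Pp c r u * Qp r u = c * u * (∑ i, √((1 + r i * u) * (u + r i))) ^ 2 := by
  have hB := Min_B hr
  obtain ⟨B, hBdef⟩ : ∃ B : ℝ, B = Fintype.card I + ∑ i, r i := ⟨_, rfl⟩
  have hB0 : 0 ≤ B := by rw [hBdef]; positivity
  have hc0 : 0 < c := by linarith
  have hBc : B ≤ c * (B + 1) := by
    have := mul_le_mul_of_nonneg_right hc (show 0 ≤ B + 1 by linarith)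
    linarith
  have hA : (Fintype.card I + 1 + ∑ i, r i : ℝ) = B + 1 := by rw [hBdef]; ring
  let g : ℝ → ℝ := fun u =>
    max (Pp c r u) 0 * Qp r u - c * u * (∑ i, √((1 + r i * u) * (u + r i))) ^ 2
  have hg : Continuous g := by
    simp only [g, Pp, Qp]
    fun_prop
  have hS : ∀ u, 0 < u → 0 < ∑ i, √((1 + r i * u) * (u + r i)) := fun u hu =>
    Finset.sum_pos (fun i _ => by have := hr i; positivity) Finset.univ_nonempty
  obtain ⟨M, hM⟩ : ∃ M : ℝ, M = 4 * c * B ^ 2 + 2 * (2 + c * (B + 1)) + 1 := ⟨_, rfl⟩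
  have hcB : 0 ≤ c * B ^ 2 := by positivity
  have hcB' : 0 ≤ c * (B + 1) := by positivity
  have hM1 : 1 ≤ M := by linarith only [hB, hBdef, hBc, hM, hcB]
  have hM0 : 0 < M := by linarith only [hB, hBdef, hBc, hM, hcB]
  have g1 : g 1 < 0 := by
    have h1 : Pp c r 1 ≤ 0 := by
      rw [Pp, hA]; linarith
    have := hS 1 one_pos
    simp only [g, max_eq_right h1, zero_mul, zero_sub, neg_lt_zero]
    positivity
  have gM : 0 < g M := by
    have h1 : M ^ 2 / 2 ≤ Pp c r M := by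
      have := mul_nonneg hM0.le (show 0 ≤ M - 2 * (2 + c * (B + 1)) by linarith only [hM, hcB])
      rw [Pp, hA]; linarith only [this]
    have h2 : M ^ 2 / 2 ≤ Qp r M := by
      refine h1.trans ?_
      rw [Pp, Qp, hA, ← hBdef]
      have : M * B ≤ M * (c * (B + 1)) := mul_le_mul_of_nonneg_left hBc hM0.le
      linarith only [this]
    have h3 : ∑ i, √((1 + r i * M) * (M + r i)) ≤ B * M := by
      rw [hBdef, ← Min_sumB, Finset.sum_mul]
      refine Finset.sum_le_sum fun i _ => ?_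
      have := hr i
      rw [Real.sqrt_le_left (by positivity), sq]
      have h0 := mul_le_mul_of_nonneg_left hM1 (show 0 ≤ r i by linarith only [this])
      exact mul_le_mul (by linarith only [hB, hBdef, hBc, hM, hcB]) (by linarith only [h0]) (by positivity) (by positivity)
    have h4 : (∑ i, √((1 + r i * M) * (M + r i))) ^ 2 ≤ (B * M) ^ 2 :=
      pow_le_pow_left₀ (hS M (by linarith only [hB, hBdef, hBc, hM, hcB])).le h3 2
    have h5 : M ^ 2 / 2 * (M ^ 2 / 2) ≤ Pp c r M * Qp r M :=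
      mul_le_mul h1 h2 (by positivity) (le_trans (by positivity) h1)
    have h6 : c * M * (∑ i, √((1 + r i * M) * (M + r i))) ^ 2 ≤ c * M * (B * M) ^ 2 :=
      mul_le_mul_of_nonneg_left h4 (by positivity)
    have h7 : c * M * (B * M) ^ 2 < M ^ 2 / 2 * (M ^ 2 / 2) := by
      have : 0 < M ^ 3 * (M - 4 * (c * B ^ 2)) := mul_pos (by positivity) (by linarith only [hB, hBdef, hBc, hM])
      linarith only [this]
    simp only [g, max_eq_left (le_trans (by positivity) h1)]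
    linarith only [h5, h6, h7]
  obtain ⟨u, hu, hu0⟩ := intermediate_value_Ioo hM1 hg.continuousOn ⟨g1, gM⟩
  have hu1 : 1 < u := hu.1
  have h1 : max (Pp c r u) 0 * Qp r u = c * u * (∑ i, √((1 + r i * u) * (u + r i))) ^ 2 :=
    sub_eq_zero.1 hu0
  have h2 : 0 < c * u * (∑ i, √((1 + r i * u) * (u + r i))) ^ 2 := by
    have := hS u (by linarith)
    positivity
  have h3 : 0 < Pp c r u := by
    by_contra h
    rw [max_eq_right (not_lt.1 h), zero_mul] at h1
    linarith only [h1, h2]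
  rw [max_eq_left h3.le] at h1
  exact ⟨u, hu1, h3, (mul_pos_iff_of_pos_left h3).1 (h1 ▸ h2), h1⟩

end Aux

theorem exists_min {I : Type} [Fintype I] [Nonempty I] {c : ℝ} {r : I → ℝ} (hc : 1 ≤ c)
    (hr : ∀ i, 1 ≤ r i) : ∃ u, TE c r u (fun i => √(wv r u i)) ∧
      ∀ u' t, TE c r u' t → u ≤ u' ∧
        (u' = u → ∀ i j, t i / t j = √(wv r u i) / √(wv r u j)) := by
  obtain ⟨u, hu1, hP, hQ, hE⟩ := Min_ex hc hr
  have hu0 : 0 < u := by linarith
  have hw := Min_wv hr hu0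
  set s : I → ℝ := fun i => √((1 + r i * u) * (u + r i)) with hs
  have hs0 : ∀ i, 0 < s i := fun i => by have := hr i; simp only [hs]; positivity
  refine ⟨u, ⟨hu1, fun i => (hw i).1, hP, hQ, ?_⟩, fun u' t ht => ?_⟩
  · rw [hE, Finset.sum_congr rfl fun i _ => (hw i).2.1, Finset.sum_congr rfl fun i _ => (hw i).2.2]
    ring
  obtain ⟨hu', ht0, hP', hQ', hE'⟩ := ht
  let y : I → ℝ := fun i => t i / √(wv r u i)
  have hy : ∀ i, 0 < y i := fun i => div_pos (ht0 i) (hw i).1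
  have e1 : ∑ i, t i * (1 + r i * u) = ∑ i, y i * s i := by
    refine Finset.sum_congr rfl fun i _ => ?_
    have := (hw i).1.ne'
    simp only [y, hs, ← (hw i).2.1]
    field_simp
  have e2 : ∑ i, (u + r i) / t i = ∑ i, s i / y i := by
    refine Finset.sum_congr rfl fun i _ => ?_
    have := (hw i).1.ne'
    have := (ht0 i).ne'
    simp only [y, hs, ← (hw i).2.2]
    field_simp
  have hcs := Min_cs (s := s) hy
  have hnn : ∀ i j, 0 ≤ s i * s j * (y i - y j) ^ 2 / (y i * y j) := fun i j => by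
    have := hs0 i
    have := hs0 j
    have := hy i
    have := hy j
    positivity
  have hnn' : 0 ≤ ∑ i, ∑ j, s i * s j * (y i - y j) ^ 2 / (y i * y j) :=
    Finset.sum_nonneg fun i _ => Finset.sum_nonneg fun j _ => hnn i j
  constructor
  · by_contra hlt
    have hlt : u' < u := not_le.1 hlt
    have hu0' : 0 < u' := by linarith only [hu']
    have hle : Pp c r u * Qp r u ≤ c * u * (∑ i, t i * (1 + r i * u)) * ∑ i, (u + r i) / t i := by
      rw [hE, e1, e2, mul_assoc (c * u)]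
      exact mul_le_mul_of_nonneg_left (by linarith only [hcs, hnn']) (by positivity)
    rw [Min_rhs c r t hu0.ne', Min_Pp c r hu0.ne', Min_Qp r hu0.ne'] at hle
    rw [Min_rhs c r t hu0'.ne', Min_Pp c r hu0'.ne', Min_Qp r hu0'.ne'] at hE'
    rw [Min_Pp c r hu0'.ne'] at hP'
    rw [Min_Qp r hu0'.ne'] at hQ'
    have hz : u⁻¹ < u'⁻¹ := (inv_lt_inv₀ hu0 hu0').2 hlt
    have hz0 : 0 < u⁻¹ := inv_pos.2 hu0
    have hz1 : u'⁻¹ < 1 := inv_lt_one_of_one_lt₀ hu'
    have hB := Min_B hr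
    have hc0 : 0 < c := by linarith only [hc, hz, hz0, hz1]
    clear hE e1 e2 hcs hnn hnn' hy hs0 hw hP hQ
    generalize u⁻¹ = z at *
    generalize u'⁻¹ = z' at *
    obtain ⟨p, hp⟩ : ∃ p, p = (1 - z) ^ 2 - c * z * (Fintype.card I + 1 + ∑ i, r i) := ⟨_, rfl⟩
    obtain ⟨q, hq⟩ : ∃ q, q = (1 - z) ^ 2 - z * (Fintype.card I + ∑ i, r i) := ⟨_, rfl⟩
    obtain ⟨p', hp'⟩ : ∃ p', p' = (1 - z') ^ 2 - c * z' * (Fintype.card I + 1 + ∑ i, r i) :=
      ⟨_, rfl⟩
    obtain ⟨q', hq'⟩ : ∃ q', q' = (1 - z') ^ 2 - z' * (Fintype.card I + ∑ i, r i) := ⟨_, rfl⟩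
    rw [← hp, ← hq] at hle
    rw [← hp', ← hq'] at hE'
    rw [← hp'] at hP'
    rw [← hq'] at hQ'
    have hp0 : 0 < p' := (mul_pos_iff_of_pos_left (by positivity)).1 hP'
    have hq0 : 0 < q' := (mul_pos_iff_of_pos_left (by positivity)).1 hQ'
    have hsq : (1 - z') ^ 2 < (1 - z) ^ 2 :=
      pow_lt_pow_left₀ (sub_lt_sub_left hz 1) (sub_nonneg.2 hz1.le) two_ne_zero
    have hpp : p' < p := by
      have : c * z * (Fintype.card I + 1 + ∑ i, r i) ≤ c * z' * (Fintype.card I + 1 + ∑ i, r i) := by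
        gcongr
      linarith only [hp, hp', hsq, this]
    have hqq : q' < q := by
      have : z * (Fintype.card I + ∑ i, r i) ≤ z' * (Fintype.card I + ∑ i, r i) := by gcongr
      linarith only [hq, hq', hsq, this]
    have h1 : p * q ≤ c * z * (∑ i, t i * (z + r i)) * ∑ i, (1 + r i * z) / t i :=
      le_of_mul_le_mul_left (a := u ^ 4) (by linarith only [hle]) (by positivity)
    have h2 : p' * q' = c * z' * (∑ i, t i * (z' + r i)) * ∑ i, (1 + r i * z') / t i :=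
      mul_left_cancel₀ (a := u' ^ 4) (by positivity) (by linarith only [hE'])
    have h3 : c * z * (∑ i, t i * (z + r i)) * ∑ i, (1 + r i * z) / t i ≤
        c * z' * (∑ i, t i * (z' + r i)) * ∑ i, (1 + r i * z') / t i := by
      have ha : 0 ≤ ∑ i, t i * (z + r i) :=
        Finset.sum_nonneg fun i _ => by have := hr i; have := ht0 i; positivity
      have hb : 0 ≤ ∑ i, (1 + r i * z) / t i :=
        Finset.sum_nonneg fun i _ => by have := hr i; have := ht0 i; positivity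
      have ha' : ∑ i, t i * (z + r i) ≤ ∑ i, t i * (z' + r i) :=
        Finset.sum_le_sum fun i _ => by have := ht0 i; gcongr
      have hb' : ∑ i, (1 + r i * z) / t i ≤ ∑ i, (1 + r i * z') / t i :=
        Finset.sum_le_sum fun i _ => by have := hr i; have := ht0 i; gcongr
      have : 0 < z' := hz0.trans hz
      have := ha.trans ha'
      gcongr
    have h4 : p' * q' < p * q := mul_lt_mul'' hpp hqq hp0.le hq0.le
    linarith only [h1, h2, h3, h4]
  · rintro rfl i j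
    rw [hE, e1, e2, mul_assoc (c * u')] at hE'
    have h1 := mul_left_cancel₀ (by positivity) hE'
    have h2 : ∑ i, ∑ j, s i * s j * (y i - y j) ^ 2 / (y i * y j) = 0 := by linarith only [hnn', hcs, h1]
    have h3 := (Finset.sum_eq_zero_iff_of_nonneg fun j _ => hnn i j).1
      ((Finset.sum_eq_zero_iff_of_nonneg fun i _ => Finset.sum_nonneg fun j _ => hnn i j).1 h2 i
        (Finset.mem_univ _)) j (Finset.mem_univ _)
    have h4 : y i = y j := by
      rw [div_eq_zero_iff, or_iff_left (mul_pos (hy i) (hy j)).ne', mul_eq_zero,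
        or_iff_right (mul_pos (hs0 i) (hs0 j)).ne'] at h3
      exact sub_eq_zero.1 (pow_eq_zero_iff two_ne_zero |>.1 h3)
    have := (hw i).1.ne'
    have := (hw j).1.ne'
    have := (ht0 j).ne'
    simp only [y] at h4
    field_simp at h4 ⊢
    linarith only [h4]

theorem wv_ratio {I : Type} {r : I → ℝ} (hr : ∀ i, 1 ≤ r i) {u : ℝ} (hu : 1 < u) (i j : I) :
    √(wv r u i) / √(wv r u j) < u := by
  have hu0 : 0 < u := by linarith
  have h1 : √(wv r u i) ≤ 1 := by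
    have := hr i
    rw [Real.sqrt_le_one, wv, div_le_one (by positivity)]
    linarith only [hu, this, mul_nonneg_of_nonpos_of_nonpos (le_of_lt (Mathlib.Tactic.Linarith.sub_neg_of_lt hu)) (Mathlib.Tactic.Linarith.sub_nonpos_of_le this)]
  have h2 : 1 / u < √(wv r u j) := by
    have := hr j
    refine Real.lt_sqrt_of_sq_lt ?_
    rw [wv, div_pow, div_lt_div_iff₀ (by positivity) (by positivity)]
    have h3 : 1 < u ^ 3 := one_lt_pow₀ hu (by norm_num)
    have h4 : 0 ≤ r j * u * (u - 1) := by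
      have : 0 ≤ u - 1 := by linarith
      positivity
    linarith only [h3, h4]
  rw [div_lt_iff₀ (Min_wv hr hu0 j).1]
  rw [div_lt_iff₀ hu0] at h2
  linarith

theorem bdry {I : Type} [Fintype I] {c : ℝ} {r : I → ℝ} (hc : 1 ≤ c) (hr : ∀ i, 1 ≤ r i)
    (U : ℤ) (τ : I → ℤ) (hU : 0 < U) (hle : ∀ i j, τ i - τ j ≤ U) (heq : ∃ i j, τ i - τ j = U) :
    ∃ a b : ℝ, 0 < a ∧ ∀ R : ℝ, ∃ θ u' : ℝ, R < θ ∧ a ≤ u' ∧ u' ≤ b ∧
      TE c r (u' * θ ^ U) fun i => θ ^ τ i := by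
  have hB := Min_B hr
  obtain ⟨B, hBdef⟩ : ∃ B : ℝ, B = Fintype.card I + ∑ i, r i := ⟨_, rfl⟩
  have hB0 : 0 ≤ B := by rw [hBdef]; positivity
  have hc0 : 0 < c := by linarith only [hc]
  have hBc : B ≤ c * (B + 1) := by
    have := mul_le_mul_of_nonneg_right hc (show 0 ≤ B + 1 by linarith)
    linarith
  have hA : (Fintype.card I + 1 + ∑ i, r i : ℝ) = B + 1 := by rw [hBdef]; ring
  refine ⟨1, 4 * c * B ^ 2 + 1, one_pos, fun R => ?_⟩
  have hcB : 0 ≤ c * B ^ 2 := by positivity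
  have hcB' : 0 ≤ c * (B + 1) := by positivity
  obtain ⟨θ, hθ, hθ2⟩ : ∃ θ : ℝ, R + 1 ≤ θ ∧ 2 * (2 + c * (B + 1)) ≤ θ :=
    ⟨max _ _, le_max_left _ _, le_max_right _ _⟩
  have hθ1 : 1 < θ := by linarith only [hB, hBdef, hBc, hθ2]
  have hθ0 : 0 < θ := by linarith only [hB, hBdef, hBc, hθ2]
  have hθU : θ ≤ θ ^ U := by
    calc θ = θ ^ (1 : ℤ) := (zpow_one θ).symm
      _ ≤ θ ^ U := zpow_le_zpow_right₀ hθ1.le hU
  have hW : 0 < θ ^ U := zpow_pos hθ0 U
  have key : ∀ v, 1 ≤ v → 0 < (v * θ ^ U)⁻¹ ∧ (v * θ ^ U)⁻¹ ≤ 1 ∧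
      (1 / 2 ≤ (1 - (v * θ ^ U)⁻¹) ^ 2 - c * (v * θ ^ U)⁻¹ * (B + 1) ∧
        (1 - (v * θ ^ U)⁻¹) ^ 2 - c * (v * θ ^ U)⁻¹ * (B + 1) < 1) ∧
      (1 / 2 ≤ (1 - (v * θ ^ U)⁻¹) ^ 2 - (v * θ ^ U)⁻¹ * B ∧
        (1 - (v * θ ^ U)⁻¹) ^ 2 - (v * θ ^ U)⁻¹ * B < 1) := by
    intro v hv
    have h1 : θ ≤ v * θ ^ U := hθU.trans (le_mul_of_one_le_left hW.le hv)
    have h2 : 0 < (v * θ ^ U)⁻¹ := by positivity
    have h3 : (v * θ ^ U)⁻¹ * θ ≤ 1 := by
      rw [inv_mul_le_iff₀ (by positivity), mul_one]; exact h1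
    generalize (v * θ ^ U)⁻¹ = z at h2 h3 ⊢
    have h4 : z * (2 * (2 + c * (B + 1))) ≤ 1 := (mul_le_mul_of_nonneg_left hθ2 h2.le).trans h3
    have h5 : 0 ≤ z * (c * (B + 1)) := by positivity
    have h6 : z * B ≤ z * (c * (B + 1)) := mul_le_mul_of_nonneg_left hBc h2.le
    have h7 : 0 ≤ z * B := by positivity
    have h8 : z ≤ 1 / 4 := by linarith only [h4, h5]
    have h9 : 0 ≤ z * z := mul_self_nonneg z
    have h10 : z * z ≤ z * (1 / 4) := mul_le_mul_of_nonneg_left h8 h2.le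
    refine ⟨h2, by linarith only [h2, h4, h5], ⟨by linarith only [h4, h9], by linarith only [h2, h5, h10]⟩, by linarith only [h4, h6, h9], by linarith only [h2, h7, h10]⟩
  have expand : ∀ v z : ℝ, c * (v * θ ^ U)⁻¹ * (∑ i, θ ^ τ i * (z + r i)) *
      ∑ i, (1 + r i * z) / θ ^ τ i =
      c * v⁻¹ * ∑ i, ∑ j, θ ^ (τ i - τ j - U) * ((z + r i) * (1 + r j * z)) := by
    intro v z
    rw [mul_assoc (c * _), Finset.sum_mul_sum, mul_inv, ← mul_assoc c, mul_assoc (c * v⁻¹),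
      Finset.mul_sum]
    refine congrArg _ (Finset.sum_congr rfl fun i _ => ?_)
    rw [Finset.mul_sum]
    refine Finset.sum_congr rfl fun j _ => ?_
    rw [zpow_sub₀ hθ0.ne', zpow_sub₀ hθ0.ne']
    field_simp
  let g : ℝ → ℝ := fun v => Pp c r (v * θ ^ U) * Qp r (v * θ ^ U) - c * (v * θ ^ U) *
    (∑ i, θ ^ τ i * (1 + r i * (v * θ ^ U))) * ∑ i, (v * θ ^ U + r i) / θ ^ τ i
  have hg : Continuous g := by
    simp only [g, Pp, Qp]
    fun_prop
  have hgv : ∀ v, 1 ≤ v → g v = (v * θ ^ U) ^ 4 *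
      (((1 - (v * θ ^ U)⁻¹) ^ 2 - c * (v * θ ^ U)⁻¹ * (B + 1)) *
        ((1 - (v * θ ^ U)⁻¹) ^ 2 - (v * θ ^ U)⁻¹ * B) - c * v⁻¹ * ∑ i, ∑ j,
          θ ^ (τ i - τ j - U) * (((v * θ ^ U)⁻¹ + r i) * (1 + r j * (v * θ ^ U)⁻¹))) := by
    intro v hv
    have h0 : v * θ ^ U ≠ 0 := by positivity
    simp only [g]
    rw [Min_rhs c r _ h0, Min_Pp c r h0, Min_Qp r h0, expand, hA, ← hBdef]
    ring
  have g1 : g 1 ≤ 0 := by
    obtain ⟨h2, -, ⟨h3, h4⟩, h5, h6⟩ := key 1 le_rfl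
    rw [hgv 1 le_rfl]
    refine mul_nonpos_of_nonneg_of_nonpos (by positivity) ?_
    generalize (1 * θ ^ U)⁻¹ = z at h2 h3 h4 h5 h6 ⊢
    obtain ⟨i, j, hij⟩ := heq
    have hnn : ∀ i j, 0 ≤ θ ^ (τ i - τ j - U) * ((z + r i) * (1 + r j * z)) := fun i j => by
      have := hr i
      have := hr j
      positivity
    have h7 : θ ^ (τ i - τ j - U) * ((z + r i) * (1 + r j * z)) ≤
        ∑ i, ∑ j, θ ^ (τ i - τ j - U) * ((z + r i) * (1 + r j * z)) :=
      (Finset.single_le_sum (fun j _ => hnn i j) (Finset.mem_univ j)).trans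
        (Finset.single_le_sum (f := fun i => ∑ j, θ ^ (τ i - τ j - U) * ((z + r i) * (1 + r j * z)))
          (fun i _ => Finset.sum_nonneg fun j _ => hnn i j) (Finset.mem_univ i))
    rw [hij, sub_self, zpow_zero, one_mul] at h7
    have h8 : 1 ≤ (z + r i) * (1 + r j * z) := by
      have := hr i
      have := hr j
      exact one_le_mul_of_one_le_of_one_le (by linarith) (le_add_of_nonneg_right (by positivity))
    have h9 := mul_lt_one_of_nonneg_of_lt_one_left (by linarith only [h3, h4]) h4 h6.le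
    have h10 := one_le_mul_of_one_le_of_one_le hc (h8.trans h7)
    rw [inv_one, mul_one]
    linarith only [h9, h10]
  have hb1 : 1 ≤ 4 * c * B ^ 2 + 1 := by linarith only [hcB]
  have gb : 0 ≤ g (4 * c * B ^ 2 + 1) := by
    obtain ⟨h2, h2', ⟨h3, h4⟩, h5, h6⟩ := key _ hb1
    rw [hgv _ hb1]
    refine mul_nonneg (by positivity) ?_
    generalize ((4 * c * B ^ 2 + 1) * θ ^ U)⁻¹ = z at h2 h2' h3 h4 h5 h6 ⊢
    have h7 : ∑ i, ∑ j, θ ^ (τ i - τ j - U) * ((z + r i) * (1 + r j * z)) ≤ B ^ 2 := by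
      rw [hBdef, ← Min_sumB, sq, Finset.sum_mul_sum]
      refine Finset.sum_le_sum fun i _ => Finset.sum_le_sum fun j _ => ?_
      have := hr i
      have := hr j
      refine (mul_le_of_le_one_left (by positivity)
        (zpow_le_one_of_nonpos₀ hθ1.le (by have := hle i j; omega))).trans ?_
      have h0 := mul_le_mul_of_nonneg_left h2' (show 0 ≤ r j by linarith only [h3, h4, this])
      exact mul_le_mul (by linarith only [h2']) (by linarith only [h0]) (by positivity) (by positivity)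
    have h8 : c * (4 * c * B ^ 2 + 1)⁻¹ * B ^ 2 ≤ 1 / 4 := by
      rw [mul_right_comm, mul_inv_le_iff₀ (by positivity)]
      linarith only [h3, h4]
    have h9 := mul_le_mul_of_nonneg_left h7 (show 0 ≤ c * (4 * c * B ^ 2 + 1)⁻¹ by positivity)
    have h10 := mul_le_mul h3 h5 (by norm_num) (by linarith only [h3, h4])
    linarith only [h8, h9, h10]
  obtain ⟨v, hv, hv0⟩ := intermediate_value_Icc hb1 hg.continuousOn ⟨g1, gb⟩
  obtain ⟨-, -, ⟨h3, -⟩, h5, -⟩ := key v hv.1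
  have hv1 := hv.1
  have h0 : v * θ ^ U ≠ 0 := by positivity
  refine ⟨θ, v, lt_of_lt_of_le (lt_add_one R) hθ, hv.1, hv.2,
    hθ1.trans_le (hθU.trans (le_mul_of_one_le_left hW.le hv.1)), fun i => zpow_pos hθ0 _, ?_, ?_,
    sub_eq_zero.1 hv0⟩
  · rw [Min_Pp c r h0, hA]
    exact mul_pos (by positivity) (by linarith only [h3])
  · rw [Min_Qp r h0, ← hBdef]
    exact mul_pos (by positivity) (by linarith only [h5])

end Pool.Agent.Work.MP_1b9dce_gt
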