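import Pool.Agent.Work.MP_1b9dce_gt.Unbundle
import Mathlib
import Pool.Agent.Work.MP_1b9dce_gt.Min

-- merged part: Pool.Agent.Work.MP_1b9dce_gt.PA2
section
-- merged part: Pool.Agent.Work.MP_1b9dce_gt.Fiber
section
namespace Pool.Agent.Work.MP_1b9dce_gt

open Equiv
open FreeGroup (of)

namespace TD
variable {V : Type} {D : TD V} {U : ℕ} {f : V → ℤ}

theorem Fiber_time (C : D.CutSys U f) (σ j : ℤ) (x : V × ℤ) (w : F2) :
    C.E (σ + 4 * U * j) x w = ap (D.Φ 4 ^ j) x.1 (C.E σ x w) := by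
  induction j using Int.induction_on with
  | zero => simp
  | succ n ih =>
    rw [show σ + 4 * U * ((n : ℤ) + 1) = σ + 4 * U * n + 4 * U by ring, C.time, ih, ← ap_mul,
      add_comm, zpow_one_add]
  | pred n ih =>
    have h := C.time (σ + 4 * U * (-(n : ℤ) - 1)) x w
    rw [show σ + 4 * U * (-(n : ℤ) - 1) + 4 * U = σ + 4 * U * -n by ring, ih] at h
    apply ap_injective (D.Φ 4) x.1
    rw [← h, ← ap_mul, ← zpow_one_add]
    congr 2
    ring

theorem Fiber_shift (C : D.CutSys U f) (σ : ℤ) (s : V) (n m : ℤ) (w : F2) :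
    C.E (σ + 4 * m) (s, n + m) w = C.E σ (s, n) w := by
  induction m using Int.induction_on with
  | zero => simp
  | succ m ih =>
    rw [show σ + 4 * ((m : ℤ) + 1) = σ + 4 * m + 4 by ring, ← add_assoc, C.shift, ih]
  | pred m ih =>
    have h := C.shift (σ + 4 * (-(m : ℤ) - 1)) s (n + (-(m : ℤ) - 1)) w
    rw [show σ + 4 * (-(m : ℤ) - 1) + 4 = σ + 4 * -m by ring,
      show n + (-(m : ℤ) - 1) + 1 = n + -m by ring, ih] at h
    exact h.symm

theorem Fiber_act (C : D.CutSys U f) (σ : ℤ) (x : V × ℤ) (w : F2) :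
    act D.p x.1 (C.E σ x w) = act D.p x.1 w ∧
      tau D.p f x.1 (C.E σ x w) = tau D.p f x.1 w := by
  have h := C.act_E σ x w
  rw [act_pc, act_pc, Prod.mk.injEq] at h
  exact ⟨h.1, add_left_cancel h.2⟩

theorem Fiber_mem {s₀ : V} {w : F2} : w ∈ stab (D.pm f U) (s₀, 0) ↔
    act D.p s₀ w = s₀ ∧ ∃ j : ℤ, U * j + tau D.p f s₀ w = 0 := by
  rw [mem_stab, act_pm, Prod.mk.injEq, zero_add, ZMod.intCast_zmod_eq_zero_iff_dvd]
  refine and_congr_right fun _ => ⟨?_, ?_⟩
  · rintro ⟨j, hj⟩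
    exact ⟨-j, by rw [hj]; ring⟩
  · rintro ⟨j, hj⟩
    exact ⟨-j, by linear_combination hj⟩

theorem Fiber_ker {s₀ : V} {g : D.G s₀} : g ∈ ker (D.cls s₀ U fun s => (f s : ℝ)) ↔
    U * jf g + tau D.p f s₀ (kf g) = 0 := by
  have h := D.cls_int s₀ U f g
  rw [Int.cast_natCast] at h
  change (D.cls s₀ U fun s => (f s : ℝ)).1 g = 0 ↔ _
  rw [h, Int.cast_eq_zero]

theorem Fiber_level (C : D.CutSys U f) {s₀ : V} {n j : ℤ} (h : U * j + n = 0) (w : F2) :
    C.E 0 (s₀, n) w = ap (D.Φ 4 ^ j) s₀ (C.E 0 (s₀, 0) w) := by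
  rw [← Fiber_shift C 0 s₀ n (U * j) w, add_comm n, h, ← mul_assoc]
  exact Fiber_time C 0 j (s₀, 0) w

theorem fiber_iso (C : D.CutSys U f) (hU : 0 < U) (s₀ : V) :
    ∃ Ψ : stab (D.pm f U) (s₀, 0) ≃* ker (D.cls s₀ U fun s => (f s : ℝ)),
      ∀ w, kf (Ψ w : D.G s₀) = C.E 0 (s₀, 0) w := by
  have hU' : (U : ℤ) ≠ 0 := by exact_mod_cast hU.ne'
  choose j hj using fun w : stab (D.pm f U) (s₀, 0) => (Fiber_mem.mp w.2).2
  have ha : ∀ w : stab (D.pm f U) (s₀, 0), act D.p s₀ w = s₀ := fun w => (Fiber_mem.mp w.2).1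
  have ha' : ∀ w : stab (D.pm f U) (s₀, 0), act D.p s₀ (C.E 0 (s₀, 0) w) = s₀ := fun w =>
    (Fiber_act C 0 (s₀, 0) w).1.trans (ha w)
  have ht : ∀ w : F2, tau D.p f s₀ (C.E 0 (s₀, 0) w) = tau D.p f s₀ w := fun w =>
    (Fiber_act C 0 (s₀, 0) w).2
  let ψ : stab (D.pm f U) (s₀, 0) → ker (D.cls s₀ U fun s => (f s : ℝ)) := fun w =>
    ⟨mkG (C.E 0 (s₀, 0) w) (ha' w) (j w), Fiber_ker.mpr (by rw [kf_mkG, jf_mkG, ht]; exact hj w)⟩
  have hk : ∀ w, kf (ψ w : D.G s₀) = C.E 0 (s₀, 0) w := fun _ => rfl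
  have hext : ∀ g g' : ker (D.cls s₀ U fun s => (f s : ℝ)),
      kf (g : D.G s₀) = kf (g' : D.G s₀) → g = g' := by
    intro g g' h
    refine Subtype.ext (G_ext h (mul_left_cancel₀ hU' ?_))
    have h1 := Fiber_ker.mp g.2
    have h2 := Fiber_ker.mp g'.2
    rw [h] at h1
    linear_combination h1 - h2
  have hmul : ∀ w w', ψ (w * w') = ψ w * ψ w' := by
    intro w w'
    apply hext
    rw [Subgroup.coe_mul, kf_mul, hk, hk, hk, Subgroup.coe_mul, C.coc, act_pc, ha w, zero_add,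
      Fiber_level C (hj w)]
    rfl
  have hbij : Function.Bijective ψ := by
    constructor
    · intro w w' h
      have h1 := congrArg (fun g : ker (D.cls s₀ U fun s => (f s : ℝ)) => kf (g : D.G s₀)) h
      simp only [hk] at h1
      exact Subtype.ext ((C.bij 0 (s₀, 0)).1 h1)
    · intro g
      obtain ⟨w, hw⟩ := (C.bij 0 (s₀, 0)).2 (kf (g : D.G s₀))
      have h1 : w ∈ stab (D.pm f U) (s₀, 0) := by
        refine Fiber_mem.mpr ⟨?_, jf (g : D.G s₀), ?_⟩
        · rw [← (Fiber_act C 0 (s₀, 0) w).1, hw]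
          exact act_kf _
        · rw [← ht, hw]
          exact Fiber_ker.mp g.2
      exact ⟨⟨w, h1⟩, hext _ _ (by rw [hk]; exact hw)⟩
  exact ⟨MulEquiv.ofBijective (MonoidHom.mk' ψ hmul) hbij, hk⟩

theorem trans_pm {s₀ : V} (htr : Trans D.p s₀) (hprim : Prim (D.cls s₀ U fun s => (f s : ℝ))) :
    Trans (D.pm f U) (s₀, 0) := by
  obtain ⟨t, ht⟩ : (1 : ℝ) ∈ Set.range (D.cls s₀ U fun s => (f s : ℝ)).1 := by
    rw [hprim]
    exact ⟨1, Int.cast_one⟩
  have h := D.cls_int s₀ U f t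
  rw [Int.cast_natCast, ht] at h
  have h1 : U * jf t + tau D.p f s₀ (kf t) = 1 := by exact_mod_cast h.symm
  have h2 : ((tau D.p f s₀ (kf t) : ℤ) : ZMod U) = 1 := by
    have := congrArg (Int.cast : ℤ → ZMod U) h1
    simpa using this
  have h3 : ∀ n : ZMod U, act (D.pm f U) (s₀, n) (kf t) = (s₀, n + 1) := by
    intro n
    rw [act_pm, act_kf, h2]
  have h4 : ∀ m : ℤ, act (D.pm f U) (s₀, 0) (kf t ^ m) = (s₀, (m : ZMod U)) := by
    intro m
    induction m using Int.induction_on with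
    | zero => simp
    | succ n ih => rw [zpow_add_one, act_mul, ih, h3]; simp
    | pred n ih =>
      apply act_inj (D.pm f U) (kf t)
      simp only
      rw [← act_mul, ← zpow_add_one, sub_add_cancel, ih, h3]
      simp
  rintro ⟨s, n⟩
  obtain ⟨w, hw⟩ := htr s
  obtain ⟨m, hm⟩ := ZMod.intCast_surjective (n - ((tau D.p f s₀ w : ℤ) : ZMod U))
  refine ⟨kf t ^ m * w, ?_⟩
  rw [act_mul, h4, act_pm, hw, hm, sub_add_cancel]

end TD

end Pool.Agent.Work.MP_1b9dce_gt
end

-- merged part: Pool.Agent.Work.MP_1b9dce_gt.Grow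
section
namespace Pool.Agent.Work.MP_1b9dce_gt

open Equiv
open FreeGroup (of)

section WL
variable {G : Type} [Group G] {B : Finset G}

theorem Grow_list {g : G} (hg : g ∈ Subgroup.closure (B : Set G)) :
    ∃ l : List G, l.length = wl B g ∧ (∀ a ∈ l, a ∈ B ∨ a⁻¹ ∈ B) ∧ l.prod = g := by
  have : ∃ l : List G, (∀ a ∈ l, a ∈ B ∨ a⁻¹ ∈ B) ∧ l.prod = g := by
    induction hg using Subgroup.closure_induction with
    | mem x hx => exact ⟨[x], by simpa using Or.inl hx, by simp⟩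
    | one => exact ⟨[], by simp, rfl⟩
    | mul x y _ _ hx hy =>
      obtain ⟨l, h1, h2⟩ := hx
      obtain ⟨l', h3, h4⟩ := hy
      refine ⟨l ++ l', fun a ha => ?_, by rw [List.prod_append, h2, h4]⟩
      rcases List.mem_append.1 ha with h | h
      exacts [h1 a h, h3 a h]
    | inv x _ hx =>
      obtain ⟨l, h1, h2⟩ := hx
      refine ⟨(l.map fun a => a⁻¹).reverse, fun a ha => ?_, by rw [← List.prod_inv_reverse, h2]⟩
      obtain ⟨b, hb, rfl⟩ := List.mem_map.1 (List.mem_reverse.1 ha)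
      simpa [or_comm] using h1 b hb
  obtain ⟨l, h1, h2⟩ := this
  exact Nat.sInf_mem (s := {n | ∃ l : List G, l.length = n ∧ (∀ a ∈ l, a ∈ B ∨ a⁻¹ ∈ B) ∧
    l.prod = g}) ⟨_, l, rfl, h1, h2⟩

theorem Grow_wl_le {g : G} {l : List G} (h1 : ∀ a ∈ l, a ∈ B ∨ a⁻¹ ∈ B) (h2 : l.prod = g) :
    wl B g ≤ l.length := Nat.sInf_le ⟨l, rfl, h1, h2⟩

theorem Grow_wl_one : wl B (1 : G) = 0 :=
  Nat.le_zero.1 (Grow_wl_le (l := []) (by simp) rfl)

theorem Grow_wl_mul {g g' : G} (hg : g ∈ Subgroup.closure (B : Set G))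
    (hg' : g' ∈ Subgroup.closure (B : Set G)) : wl B (g * g') ≤ wl B g + wl B g' := by
  obtain ⟨l, h0, h1, h2⟩ := Grow_list hg
  obtain ⟨l', h5, h3, h4⟩ := Grow_list hg'
  rw [← h0, ← h5, ← List.length_append]
  refine Grow_wl_le (fun a ha => ?_) (by rw [List.prod_append, h2, h4])
  rcases List.mem_append.1 ha with h | h
  exacts [h1 a h, h3 a h]

theorem Grow_wl_inv {g : G} (hg : g ∈ Subgroup.closure (B : Set G)) : wl B g⁻¹ ≤ wl B g := by
  obtain ⟨l, h0, h1, h2⟩ := Grow_list hg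
  have := Grow_wl_le (B := B) (g := g⁻¹) (l := (l.map fun a => a⁻¹).reverse) (fun a ha => by
    obtain ⟨b, hb, rfl⟩ := List.mem_map.1 (List.mem_reverse.1 ha)
    simpa [or_comm] using h1 b hb) (by rw [← List.prod_inv_reverse, h2])
  simpa [h0] using this

theorem Grow_add_le {K : Subgroup G} (hB : Subgroup.closure (B : Set G) = K) {φ : G → ℝ}
    (hφ : ∀ g ∈ K, ∀ g', φ (g * g') = φ g + φ g') :
    ∃ M : ℝ, 0 < M ∧ ∀ g ∈ K, φ g ≤ M * wl B g := by
  have h1 : φ 1 = 0 := by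
    have := hφ 1 K.one_mem 1
    rw [mul_one] at this
    linarith
  have hK : ∀ a ∈ B, a ∈ K := fun a ha => hB ▸ Subgroup.subset_closure ha
  have s0 : 0 ≤ ∑ b ∈ B, |φ b| := Finset.sum_nonneg fun _ _ => abs_nonneg _
  have hb : ∀ a ∈ B, |φ a| ≤ 1 + ∑ b ∈ B, |φ b| := fun a ha => by
    have := Finset.single_le_sum (f := fun b => |φ b|) (fun _ _ => abs_nonneg _) ha
    linarith
  refine ⟨1 + ∑ b ∈ B, |φ b|, by linarith, fun g hg => ?_⟩
  obtain ⟨l, h0, h2, rfl⟩ := Grow_list (B := B) (hB ▸ hg)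
  rw [← h0]
  clear h0 hg
  induction l with
  | nil => simp [h1]
  | cons a l ih =>
    have i1 := ih fun b hb => h2 b (List.mem_cons_of_mem _ hb)
    have i2 : a ∈ K ∧ φ a ≤ 1 + ∑ b ∈ B, |φ b| := by
      rcases h2 a List.mem_cons_self with h | h
      · exact ⟨hK a h, (le_abs_self _).trans (hb a h)⟩
      · have := hφ _ (hK _ h) a
        rw [inv_mul_cancel, h1] at this
        refine ⟨by simpa using K.inv_mem (hK _ h), le_trans ?_ (hb _ h)⟩
        have := neg_le_abs (φ a⁻¹)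
        linarith
    rw [List.prod_cons, hφ a i2.1, List.length_cons]
    push_cast
    linarith [i2.2]

end WL

/-- The path `w` from `x` can be spelled with total weight at most `b`. -/
inductive Grow_Bnd {X : Type} (p : Bool → Perm X) (wt : X → Bool → ℝ) : X → F2 → ℝ → Prop
  | one (x : X) : Grow_Bnd p wt x 1 0
  | edge (x : X) (e : Bool) : Grow_Bnd p wt x (of e) (wt x e)
  | mul {x : X} {w w' : F2} {b b' : ℝ} : Grow_Bnd p wt x w b → Grow_Bnd p wt (act p x w) w' b' →
      Grow_Bnd p wt x (w * w') (b + b')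
  | inv {x : X} {w : F2} {b : ℝ} : Grow_Bnd p wt x w b → Grow_Bnd p wt (act p x w) w⁻¹ b
  | mono {x : X} {w : F2} {b b' : ℝ} : Grow_Bnd p wt x w b → b ≤ b' → Grow_Bnd p wt x w b'

section Bnd
variable {X : Type} {p : Bool → Perm X} {wt wt' : X → Bool → ℝ}

theorem Grow_Bnd_ex (x : X) (w : F2) : ∃ b, 0 ≤ b ∧ Grow_Bnd p wt x w b := by
  have : ∃ b, Grow_Bnd p wt x w b := by
    induction w using FreeGroup.induction_on generalizing x with
    | C1 => exact ⟨_, .one x⟩
    | of e => exact ⟨_, .edge x e⟩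
    | inv_of e ih =>
      obtain ⟨b, hb⟩ := ih (act p x (of e)⁻¹)
      have := hb.inv
      rw [act_inv_act] at this
      exact ⟨b, this⟩
    | mul a b ha hb =>
      obtain ⟨b1, h1⟩ := ha x
      obtain ⟨b2, h2⟩ := hb (act p x a)
      exact ⟨_, h1.mul h2⟩
  obtain ⟨b, hb⟩ := this
  exact ⟨max 0 b, le_max_left _ _, hb.mono (le_max_right _ _)⟩

theorem Grow_Bnd_map {π : X → X} {T : X → F2 → F2} (hT : IsCoc p T)
    (hπ : ∀ x w, act p (π x) (T x w) = π (act p x w)) {a : ℝ} (ha : 0 ≤ a)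
    (he : ∀ x e, Grow_Bnd p wt' (π x) (T x (of e)) (a * wt x e)) {x : X} {w : F2} {b : ℝ}
    (h : Grow_Bnd p wt x w b) : Grow_Bnd p wt' (π x) (T x w) (a * b) := by
  induction h with
  | one x => rw [hT.one, mul_zero]; exact .one _
  | edge x e => exact he x e
  | mul _ _ h1 h2 =>
    rw [hT, mul_add]
    exact h1.mul (by rwa [hπ])
  | inv _ h1 =>
    rw [hT.inv, ← hπ]
    exact h1.inv
  | mono _ hb h1 => exact h1.mono (mul_le_mul_of_nonneg_left hb ha)

theorem Grow_Bnd_le {N : X → F2 → ℝ} (h1 : ∀ x, N x 1 ≤ 0)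
    (h2 : ∀ x w w', N x (w * w') ≤ N x w + N (act p x w) w')
    (h3 : ∀ x w, N (act p x w) w⁻¹ ≤ N x w) {c : ℝ} (hc : 0 ≤ c)
    (he : ∀ x e, N x (of e) ≤ c * wt x e) {x : X} {w : F2} {b : ℝ}
    (h : Grow_Bnd p wt x w b) : N x w ≤ c * b := by
  induction h with
  | one x => simpa using h1 x
  | edge x e => exact he x e
  | mul _ _ i1 i2 => exact (h2 _ _ _).trans (by rw [mul_add]; exact add_le_add i1 i2)
  | inv _ i1 => exact (h3 _ _).trans i1
  | mono _ hb i1 => exact i1.trans (mul_le_mul_of_nonneg_left hb hc)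

theorem Grow_Bnd_pow {A : X → F2 → ℝ} (hA : IsAC p A) (x : X) (d : Bool) (n : ℕ) :
    Grow_Bnd p (fun x e => A x (of e)) x (of d ^ n) (A x (of d ^ n)) := by
  induction n with
  | zero => rw [pow_zero, hA.one]; exact .one x
  | succ n ih => rw [pow_succ, hA]; exact ih.mul (.edge _ d)

end Bnd

namespace TD
variable {V : Type} {D : TD V} {U : ℕ} {f : V → ℤ} (C : D.CutSys U f) (θ : ℝ)
  (l : V → Bool → ℝ)

/-- Lengths of paths in the marking `σ`. -/
noncomputable def Grow_A (σ : ℤ) (x : V × ℤ) (w : F2) : ℝ := D.Lc f θ l x (C.E σ x w)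

theorem Grow_A_isAC (σ : ℤ) : IsAC (D.pc f) (Grow_A C θ l σ) := by
  intro x w w'
  simp only [Grow_A]
  rw [C.coc, Lc_isAC, C.act_E]

/-- Spelling bound in the marking `σ`. -/
abbrev Grow_B (σ : ℤ) : V × ℤ → F2 → ℝ → Prop :=
  Grow_Bnd (D.pc f) fun x e => Grow_A C θ l σ x (of e)

theorem Grow_step (σ : ℤ) {x : V × ℤ} {w : F2} {b : ℝ} (h : Grow_B C θ l (σ + 1) x w b) :
    ∃ w₁, C.E (σ + 1) x w = C.E σ x w₁ ∧ Grow_B C θ l σ x w₁ b := by
  obtain ⟨d, c, hc, hE⟩ := C.step σ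
  let T : GAut (D.pc f) := tw d (fun x => (c x : ℤ)) fun x => by rw [zpow_natCast]; exact hc x
  have hT : ∀ x e, ap T x (of e) = if e = d then of e else of d ^ c x * of e := fun x e => by
    simp [T, twE]
  have h1 : IsCoc (D.pc f) fun x w => C.E σ x (ap T x w) := by
    intro x w w'
    simp only
    rw [ap_isCoc, C.coc, act_ap]
  have h2 := (C.coc (σ + 1)).ext h1 fun x e => by rw [hE, hT]
  refine ⟨ap T x w, h2 x w, ?_⟩
  have := Grow_Bnd_map (π := fun x => x) (wt' := fun x e => Grow_A C θ l σ x (of e))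
    (ap_isCoc T) (fun x w => act_ap T x w) zero_le_one (fun x e => by
      have e1 : Grow_A C θ l (σ + 1) x (of e) = Grow_A C θ l σ x (ap T x (of e)) := by
        simp only [Grow_A]; rw [h2]
      rw [one_mul, e1, hT]
      split_ifs
      · exact .edge x e
      · rw [Grow_A_isAC]
        exact (Grow_Bnd_pow (Grow_A_isAC C θ l σ) x d _).mul (.edge _ e)) h
  rwa [one_mul] at this

theorem Grow_down (n : ℕ) {x : V × ℤ} {w : F2} {b : ℝ} (h : Grow_B C θ l n x w b) :
    ∃ w₁, C.E n x w = C.E 0 x w₁ ∧ Grow_B C θ l 0 x w₁ b := by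
  induction n generalizing w with
  | zero => exact ⟨w, rfl, h⟩
  | succ n ih =>
    push_cast at h ⊢
    obtain ⟨w₁, h1, h2⟩ := Grow_step C θ l n h
    obtain ⟨w₂, h3, h4⟩ := ih h2
    exact ⟨w₂, h1.trans h3, h4⟩

theorem Grow_shift (m σ : ℤ) (s : V) (n : ℤ) (w : F2) :
    C.E (σ + 4 * m) (s, n + m) w = C.E σ (s, n) w := by
  induction m using Int.induction_on with
  | zero => simp
  | succ m ih =>
    rw [← ih, ← C.shift (σ + 4 * m), show σ + 4 * ((m : ℤ) + 1) = σ + 4 * m + 4 by ring, add_assoc n]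
  | pred m ih =>
    rw [← ih, ← C.shift (σ + 4 * (-m - 1)),
      show σ + 4 * (-(m : ℤ) - 1) + 4 = σ + 4 * -m by ring,
      show n + (-(m : ℤ) - 1) + 1 = n + -m by ring]

theorem Grow_time (j σ : ℤ) (x : V × ℤ) (w : F2) :
    C.E (σ + 4 * (U * j)) x w = ap (D.Φ 4 ^ j) x.1 (C.E σ x w) := by
  induction j using Int.induction_on with
  | zero => simp
  | succ j ih =>
    rw [add_comm (j : ℤ) 1, zpow_one_add, ap_mul, ← ih, ← C.time]
    congr 1; ring
  | pred j ih =>
    have := C.time (σ + 4 * (U * (-j - 1))) x w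
    rw [show σ + 4 * (U * (-(j : ℤ) - 1)) + 4 * U = σ + 4 * (U * -j) by ring, ih] at this
    apply ap_injective (D.Φ 4) x.1
    rw [← this, ← ap_mul, ← zpow_one_add]
    congr 2; ring

theorem Grow_E (j m σ : ℤ) (s : V) (n : ℤ) (w : F2) :
    C.E (σ + 4 * (U * j + m)) (s, n + m) w = ap (D.Φ 4 ^ j) s (C.E σ (s, n) w) := by
  rw [show σ + 4 * (U * j + m) = σ + 4 * (U * j) + 4 * m by ring, Grow_shift, Grow_time]

variable {θ l}

theorem Grow_scale (hθ : 0 < θ) (hE : D.Eig f θ (θ ^ U) l) (j m σ : ℤ) (s : V) (n : ℤ) (w : F2) :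
    Grow_A C θ l (σ + 4 * (U * j + m)) (s, n + m) w =
      θ ^ (U * j + m) * Grow_A C θ l σ (s, n) w := by
  simp only [Grow_A]
  rw [Grow_E, D.Lc_shift f hθ.ne', hE.zpow (by positivity) j (s, n), zpow_add₀ hθ.ne', zpow_mul,
    zpow_natCast]
  ring

variable (θ l)

/-- Size of a group element. -/
def Grow_Sz {s₀ : V} (g : D.G s₀) (b : ℝ) : Prop :=
  ∃ w, C.E 0 (s₀, 0) w = kf g ∧ Grow_B C θ l 0 (s₀, 0) w b

theorem Grow_Sz_ex {s₀ : V} (g : D.G s₀) : ∃ b, 0 ≤ b ∧ Grow_Sz C θ l g b := by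
  obtain ⟨w, hw⟩ := (C.bij 0 (s₀, 0)).2 (kf g)
  obtain ⟨b, h0, hb⟩ := Grow_Bnd_ex (p := D.pc f) (wt := fun x e => Grow_A C θ l 0 x (of e))
    (s₀, 0) w
  exact ⟨b, h0, w, hw, hb⟩

variable {θ l}

theorem Grow_Sz_mul (hθ : 0 < θ) (hE : D.Eig f θ (θ ^ U) l) {s₀ : V} {g g' : D.G s₀} {b b' : ℝ}
    {a : ℕ} (ha : U * jf g + tau D.p f s₀ (kf g) = a) (h : Grow_Sz C θ l g b)
    (h' : Grow_Sz C θ l g' b') : Grow_Sz C θ l (g * g') (b + θ ^ a * b') := by
  obtain ⟨w, h1, h2⟩ := h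
  obtain ⟨w', h3, h4⟩ := h'
  set m := tau D.p f s₀ (kf g) with hm
  have e1 : act (D.pc f) (s₀, 0) w = (s₀, 0 + m) := by
    rw [← C.act_E 0, h1, act_pc, act_kf]
  have e2 : ((4 * a : ℕ) : ℤ) = 0 + 4 * (U * jf g + m) := by rw [ha]; push_cast; ring
  have h5 := Grow_Bnd_map (p := D.pc f) (π := fun x => (x.1, x.2 + m)) (T := fun _ w => w)
    (wt' := fun x e => Grow_A C θ l (4 * a : ℕ) x (of e)) (fun _ _ _ => rfl)
    (fun x w => by rw [act_pc, act_pc]; congr 1; ring) (a := θ ^ a) (by positivity)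
    (fun x e => by
      have := Grow_scale C hθ hE (jf g) m 0 x.1 x.2 (of e)
      rw [← e2, ha, zpow_natCast] at this
      rw [← this]
      exact .edge _ e) h4
  obtain ⟨w₁, h6, h7⟩ := Grow_down C θ l (4 * a) h5
  refine ⟨w * w₁, ?_, h2.mul (by rw [e1]; exact h7)⟩
  rw [C.coc, h1, e1, ← h6, e2, Grow_E, h3, kf_mul]

theorem Grow_conv [Finite V] (hU : 0 < U) (hθ : 0 < θ) (hE : D.Eig f θ (θ ^ U) l) {s₀ : V}
    (htr : Trans (D.pm f U) (s₀, 0)) {B : Finset (D.G s₀)}
    (hB : Subgroup.closure (B : Set (D.G s₀)) = ker (D.cls s₀ U fun s => (f s : ℝ))) :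
    ∃ c : ℝ, 0 ≤ c ∧ ∀ g ∈ ker (D.cls s₀ U fun s => (f s : ℝ)), ∀ b, Grow_Sz C θ l g b →
      (wl B g : ℝ) ≤ c * b := by
  classical
  have : NeZero U := ⟨hU.ne'⟩
  obtain ⟨Ψ, hΨ⟩ := fiber_iso C hU s₀
  obtain ⟨δ, hδ, hδ0⟩ : ∃ δ : V × ZMod U → F2, (∀ y, act (D.pm f U) (s₀, 0) (δ y) = y) ∧
      δ (s₀, 0) = 1 := by
    choose δ hδ using htr
    refine ⟨fun y => if y = (s₀, 0) then 1 else δ y, fun y => ?_, if_pos rfl⟩
    simp only
    split_ifs with h
    · rw [act_one, h]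
    · exact hδ y
  let lp : V × ZMod U → F2 → stab (D.pm f U) (s₀, 0) := fun y w =>
    ⟨δ y * w * (δ (act (D.pm f U) y w))⁻¹, by
      rw [mem_stab, act_mul, act_mul, hδ]
      conv_lhs => enter [2]; rw [← hδ (act (D.pm f U) y w)]
      exact act_act_inv _ _ _⟩
  have c1 : IsCoc (D.pm f U) lp := fun y w w' => Subtype.ext (by
    simp only [lp, Subgroup.coe_mul, act_mul]
    group)
  have c2 := c1.comp (p := D.pc f) (fun x => (x.1, (x.2 : ZMod U))) fun e x => by
    cases e <;> simp [dl]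
  have hm : ∀ k, (Ψ k : D.G s₀) ∈ Subgroup.closure (B : Set (D.G s₀)) := fun k => by
    rw [hB]; exact (Ψ k).2
  have hp : ∀ x e, 0 < Grow_A C θ l 0 x (of e) := fun x e => by
    obtain ⟨j, hj⟩ := C.edge 0 x e
    simp only [Grow_A]
    rw [hj]
    exact hE.pos hθ (by positivity) j x e
  obtain ⟨c, hc⟩ := (Set.finite_range fun z : (V × ZMod U) × Bool =>
    (wl B (Ψ (lp z.1 (of z.2)) : D.G s₀) : ℝ) /
      Grow_A C θ l 0 (z.1.1, (z.1.2.val : ℤ)) (of z.2)).bddAbove
  refine ⟨max c 0, le_max_right _ _, fun g hg b ⟨w, h1, h2⟩ => ?_⟩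
  have key := Grow_Bnd_le
    (N := fun x w => (wl B (Ψ (lp (x.1, (x.2 : ZMod U)) w) : D.G s₀) : ℝ))
    (fun x => by
      have := c2.one x
      simp [this, Grow_wl_one])
    (fun x w w' => by
      have := c2 x w w'
      simp only at this
      simp only [this, map_mul, Subgroup.coe_mul]
      exact_mod_cast Grow_wl_mul (hm _) (hm _))
    (fun x w => by
      have := c2.inv x w
      simp only [this, map_inv, Subgroup.coe_inv]
      exact_mod_cast Grow_wl_inv (hm _))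
    (le_max_right c 0)
    (fun x e => by
      have a1 := hc ⟨((x.1, (x.2 : ZMod U)), e), rfl⟩
      simp only at a1
      have a2 := Grow_scale C hθ hE (-(x.2 / U)) (U * (x.2 / U)) 0 x.1 (x.2 % U) (of e)
      rw [show (U : ℤ) * -(x.2 / U) + U * (x.2 / U) = 0 by ring, Int.emod_add_mul_ediv,
        zpow_zero, one_mul, mul_zero, add_zero] at a2
      rw [ZMod.val_intCast, ← a2, div_le_iff₀ (hp _ _)] at a1
      exact a1.trans (mul_le_mul_of_nonneg_right (le_max_left _ _) (hp _ _).le)) h2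
  have a1 := hΨ (Ψ.symm ⟨g, hg⟩)
  rw [MulEquiv.apply_symm_apply, ← h1] at a1
  have a2 : w = Ψ.symm ⟨g, hg⟩ := (C.bij 0 (s₀, 0)).1 a1
  have a3 : lp (s₀, 0) w = Ψ.symm ⟨g, hg⟩ := Subtype.ext (by
    have := (Ψ.symm ⟨g, hg⟩).2
    rw [mem_stab, ← a2] at this
    simp only [lp]
    rw [this, hδ0, ← a2]
    simp)
  simp only [Int.cast_zero] at key
  rwa [a3, MulEquiv.apply_symm_apply] at key

end TD

theorem TD.grow {V : Type} [Finite V] {D : TD V} {U : ℕ} {f : V → ℤ} (C : D.CutSys U f)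
    (hU : 0 < U) {s₀ : V} (htr : Trans D.p s₀) (hprim : Prim (D.cls s₀ U fun s => (f s : ℝ)))
    {θ : ℝ} (hθ : 1 < θ) {l : V → Bool → ℝ} (hE : D.Eig f θ (θ ^ U) l) :
    Grow (D.cls s₀ U fun s => (f s : ℝ)) θ := by
  intro B hB t ht
  have h0 : 0 < θ := by linarith
  have hval : ∀ g : D.G s₀, (D.cls s₀ U fun s => (f s : ℝ)).1 g =
      ((U * TD.jf g + tau D.p f s₀ (TD.kf g) : ℤ) : ℝ) := fun g => by
    have := D.cls_int s₀ U f g
    rwa [Int.cast_natCast] at this
  have hK : ∀ g ∈ ker (D.cls s₀ U fun s => (f s : ℝ)),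
      U * TD.jf g + tau D.p f s₀ (TD.kf g) = (0 : ℕ) := fun g hg => by
    have : (D.cls s₀ U fun s => (f s : ℝ)).1 g = 0 := hg
    rw [hval] at this
    exact_mod_cast this
  have hT : U * TD.jf t + tau D.p f s₀ (TD.kf t) = (1 : ℕ) := by
    rw [hval] at ht
    exact_mod_cast ht
  have hconj : ∀ k ∈ ker (D.cls s₀ U fun s => (f s : ℝ)), ∀ n : ℕ,
      t ^ n * k * (t ^ n)⁻¹ ∈ ker (D.cls s₀ U fun s => (f s : ℝ)) := fun k hk n => by
    have a1 := (D.cls s₀ U fun s => (f s : ℝ)).2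
    have a2 := a1 (t ^ n * k * (t ^ n)⁻¹) (t ^ n)
    have a3 := a1 (t ^ n) k
    have a4 : (D.cls s₀ U fun s => (f s : ℝ)).1 k = 0 := hk
    rw [inv_mul_cancel_right] at a2
    change (D.cls s₀ U fun s => (f s : ℝ)).1 _ = 0
    linarith
  have hsucc : ∀ (k : D.G s₀) (n : ℕ),
      t ^ (n + 1) * k * (t ^ (n + 1))⁻¹ = t * (t ^ n * k * (t ^ n)⁻¹ * t⁻¹) := fun k n => by
    rw [pow_succ']; group
  constructor
  · intro k hk
    obtain ⟨c, hc0, hc⟩ := TD.Grow_conv C hU h0 hE (TD.trans_pm htr hprim) hB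
    obtain ⟨b₀, -, s0⟩ := TD.Grow_Sz_ex C θ l k
    obtain ⟨b₁, p1, s1⟩ := TD.Grow_Sz_ex C θ l t
    obtain ⟨b₂, p2, s2⟩ := TD.Grow_Sz_ex C θ l t⁻¹
    have q : 0 < θ - 1 := by linarith
    set γ := (b₁ + θ * b₂) / (θ - 1) with hγ
    have γ0 : 0 ≤ γ := by positivity
    have γ1 : b₁ + θ * b₂ = γ * (θ - 1) := by rw [hγ]; field_simp
    have key : ∀ n : ℕ, TD.Grow_Sz C θ l (t ^ n * k * (t ^ n)⁻¹) ((b₀ + γ) * θ ^ n - γ) := by
      intro n
      induction n with
      | zero => simpa using s0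
      | succ n ih =>
        have := TD.Grow_Sz_mul C h0 hE hT s1 (TD.Grow_Sz_mul C h0 hE (hK _ (hconj k hk n)) ih s2)
        rw [hsucc]
        convert this using 1
        rw [pow_succ]
        linear_combination -γ1
    refine ⟨c * (b₀ + γ), fun n => (hc _ (hconj k hk n) _ (key n)).trans ?_⟩
    rw [mul_assoc]
    exact mul_le_mul_of_nonneg_left (by linarith) hc0
  · have hL : ∀ (g g' : D.G s₀) (a : ℕ), U * TD.jf g + tau D.p f s₀ (TD.kf g) = a →
        D.Lg s₀ f θ l (g * g') = D.Lg s₀ f θ l g + θ ^ a * D.Lg s₀ f θ l g' := fun g g' a ha => by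
      rw [hE.Lg_mul h0.ne' (by positivity), TD.chi, ← zpow_natCast θ a, ← ha, zpow_add₀ h0.ne',
        zpow_mul, zpow_natCast]
      ring
    have hadd : ∀ g ∈ ker (D.cls s₀ U fun s => (f s : ℝ)), ∀ g',
        D.Lg s₀ f θ l (g * g') = D.Lg s₀ f θ l g + D.Lg s₀ f θ l g' := fun g hg g' => by
      rw [hL g g' 0 (hK g hg), pow_zero, one_mul]
    obtain ⟨M, hM, hle⟩ := Grow_add_le hB hadd
    obtain ⟨k, k1, k2, k3⟩ := TD.exists_row (D := D) s₀
    have hk : k ∈ ker (D.cls s₀ U fun s => (f s : ℝ)) := by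
      change (D.cls s₀ U fun s => (f s : ℝ)).1 k = 0
      rw [hval, k1, k2]
      simp
    have kp := k3 f θ l h0 hE.1
    have one : D.Lg s₀ f θ l 1 = 0 := by
      have := hadd 1 (Subgroup.one_mem _) 1
      rw [mul_one] at this
      linarith
    have hinv := hL t t⁻¹ 1 hT
    rw [mul_inv_cancel, one] at hinv
    have key : ∀ n : ℕ, D.Lg s₀ f θ l (t ^ n * k * (t ^ n)⁻¹) = θ ^ n * D.Lg s₀ f θ l k := by
      intro n
      induction n with
      | zero => simp
      | succ n ih =>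
        rw [hsucc, hL _ _ 1 hT, hadd _ (hconj k hk n), ih, pow_succ]
        linear_combination -hinv
    refine ⟨k, hk, D.Lg s₀ f θ l k / M, by positivity, fun n => ?_⟩
    have := hle _ (hconj k hk n)
    rw [key] at this
    rw [div_mul_eq_mul_div, div_le_iff₀ hM]
    linarith

end Pool.Agent.Work.MP_1b9dce_gt
end

-- merged part: Pool.Agent.Work.MP_1b9dce_gt.ExH1
section
namespace Pool.Agent.Work.MP_1b9dce_gt

open Equiv
open FreeGroup (of)

theorem ExH1_cyc_sum {Y : Type} [Fintype Y] {π : Perm Y} (h : Cyc π) (a : Y → ℝ) (s : Y) :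
    ∑ i ∈ Finset.range (Fintype.card Y), a ((π ^ i) s) = ∑ y, a y := by
  have hc := h.isCycleOn
  refine Finset.sum_nbij (fun i => (π ^ i) s) (fun _ _ => Finset.mem_univ _) ?_ ?_ fun _ _ => rfl
  · intro i hi j hj hij
    have h1 := (hc.pow_apply_eq_pow_apply (Finset.mem_univ s)).1 hij
    rw [Finset.card_univ] at h1
    exact Nat.ModEq.eq_of_lt_of_lt h1 (by simpa using hi) (by simpa using hj)
  · intro t _
    obtain ⟨k, hk⟩ := h s t
    have hpos : 0 < Fintype.card Y := Fintype.card_pos_iff.2 ⟨s⟩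
    refine ⟨k % Fintype.card Y, by simpa using Nat.mod_lt _ hpos, ?_⟩
    rw [← hk]
    refine (hc.pow_apply_eq_pow_apply (Finset.mem_univ s)).2 ?_
    rw [Finset.card_univ]
    exact Nat.mod_modEq _ _

theorem ExH1_cyc_sum_mul {Y : Type} [Fintype Y] {π : Perm Y} (h : Cyc π) (a : Y → ℝ) (s : Y)
    (c : ℕ) : ∑ i ∈ Finset.range (Fintype.card Y * c), a ((π ^ i) s) = c * ∑ y, a y := by
  induction c with
  | zero => simp
  | succ c ih =>
    rw [Nat.mul_succ, Finset.sum_range_add, ih]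
    have h1 := ExH1_cyc_sum h a ((π ^ (Fintype.card Y * c)) s)
    have h2 : ∀ i, (π ^ (Fintype.card Y * c + i)) s = (π ^ i) ((π ^ (Fintype.card Y * c)) s) := by
      intro i
      rw [add_comm, pow_add, Perm.mul_apply]
    simp only [h2]
    rw [h1]
    push_cast
    ring

theorem ExH1_potential {Y : Type} [Fintype Y] {π : Perm Y} (h : Cyc π) (a : Y → ℝ)
    (ha : ∑ y, a y = 0) : ∃ f : Y → ℝ, ∀ s, a s = f (π s) - f s := by
  refine ⟨fun s => (∑ k ∈ Finset.range (Fintype.card Y), (k : ℝ) * a ((π ^ k) s)) /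
    Fintype.card Y, fun s => ?_⟩
  have hpos : (0 : ℝ) < Fintype.card Y := by
    exact_mod_cast Fintype.card_pos_iff.2 ⟨s⟩
  have h1 := ExH1_cyc_sum h a (π s)
  have h2 := Finset.sum_range_succ' (fun k => (k : ℝ) * a ((π ^ k) s)) (Fintype.card Y)
  rw [Finset.sum_range_succ, h.pow_card] at h2
  have h3 : ∑ k ∈ Finset.range (Fintype.card Y), ((k + 1 : ℕ) : ℝ) * a ((π ^ (k + 1)) s) =
      ∑ k ∈ Finset.range (Fintype.card Y), (k : ℝ) * a ((π ^ k) (π s)) +
        ∑ k ∈ Finset.range (Fintype.card Y), a ((π ^ k) (π s)) := by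
    rw [← Finset.sum_add_distrib]
    refine Finset.sum_congr rfl fun k _ => ?_
    rw [pow_succ, Perm.mul_apply]
    push_cast
    ring
  rw [h3, h1, ha] at h2
  simp only [Nat.cast_zero, zero_mul, add_zero] at h2
  beta_reduce
  rw [← h2]
  field_simp
  ring

theorem ExH1_step {V : Type} (D : TD V) {L : V → F2 → ℝ} (hL : IsAC D.p L) (j : ℤ) (s : V)
    (e : Bool) : L s (ap (D.T j) s (of e)) =
      L s (of e) + if e = dir j then 0 else
        ∑ i ∈ Finset.range (D.c j s), L ((D.p (dir j) ^ i) s) (of (dir j)) := by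
  rw [D.ap_T_of]
  split_ifs with h
  · simp
  · rw [hL, act_of_pow, D.cyc, hL.of_pow, add_comm]

theorem ExH1_cob {V : Type} {p : Bool → Perm V} {s₀ : V} (hp : Trans p s₀) {B : V → F2 → ℝ}
    (hB : IsAC p B) (h0 : ∀ k, act p s₀ k = s₀ → B s₀ k = 0) :
    ∃ g : V → ℝ, ∀ s w, B s w = g (act p s w) - g s := by
  choose δ hδ using hp
  refine ⟨fun s => B s₀ (δ s), fun s w => ?_⟩
  have h1 := hB s₀ (δ s) w
  have hl : act p s₀ (δ s * w * (δ (act p s w))⁻¹) = s₀ := by
    rw [act_mul, act_mul, hδ]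
    conv_lhs => enter [2]; rw [← hδ (act p s w)]
    rw [act_act_inv]
  have h2 := hB s₀ (δ s * w * (δ (act p s w))⁻¹) (δ (act p s w))
  rw [h0 _ hl, hl, inv_mul_cancel_right] at h2
  rw [hδ] at h1
  linarith

theorem ExH1_mk_mul {V : Type} {D : TD V} {s₀ : V} (k k' : F2) (h : act D.p s₀ k = s₀)
    (h' : act D.p s₀ k' = s₀) (h2 : act D.p s₀ (k * k') = s₀) :
    TD.mkG (k * k') h2 0 = TD.mkG k h 0 * TD.mkG k' h' 0 := by
  refine TD.G_ext ?_ ?_
  · rw [TD.kf_mul]; simp
  · rw [TD.jf_mul]; simp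

theorem ExH1_mk_conj {V : Type} {D : TD V} {s₀ : V} (k : F2) (h : act D.p s₀ k = s₀)
    (h1 : act D.p s₀ 1 = s₀) (h2 : act D.p s₀ (ap (D.Φ 4) s₀ k) = s₀) :
    TD.mkG 1 h1 1 * TD.mkG k h 0 = TD.mkG _ h2 0 * TD.mkG 1 h1 1 := by
  refine TD.G_ext ?_ ?_
  · rw [TD.kf_mul, TD.kf_mul]; simp
  · rw [TD.jf_mul, TD.jf_mul]; simp

theorem ExH1_mk_succ {V : Type} {D : TD V} {s₀ : V} (h1 : act D.p s₀ 1 = s₀) (j : ℤ) :
    TD.mkG 1 h1 (j + 1) = TD.mkG 1 h1 j * TD.mkG 1 h1 1 := by
  refine TD.G_ext ?_ ?_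
  · rw [TD.kf_mul]
    simp [(ap_isCoc _).one]
  · rw [TD.jf_mul]; simp

theorem ExH1_mk_split {V : Type} {D : TD V} {s₀ : V} (h1 : act D.p s₀ 1 = s₀) (x : D.G s₀) :
    x = TD.mkG (TD.kf x) (TD.act_kf x) 0 * TD.mkG 1 h1 (TD.jf x) := by
  refine TD.G_ext ?_ ?_
  · rw [TD.kf_mul]; simp
  · rw [TD.jf_mul]; simp

namespace ExD
variable {I : Type} [Fintype I] (X : ExD I)

omit [Fintype I] in
theorem ExH1_colsum {L : Sq I → F2 → ℝ} (s : Sq I) (r : ℕ) :
    ∑ k ∈ Finset.range (2 * r), L ((up I ^ k) s) (of true) =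
      r * (L s (of true) + L (up I s) (of true)) := by
  induction r with
  | zero => simp
  | succ r ih =>
    rw [show 2 * (r + 1) = 2 * r + 1 + 1 by ring, Finset.sum_range_succ, Finset.sum_range_succ, ih,
      pow_succ', pow_mul, up_sq]
    simp only [one_pow, Perm.coe_one, id_eq, mul_one]
    push_cast
    ring

theorem ExH1_T0 {L : Sq I → F2 → ℝ} (hL : IsAC X.D.p L) :
    (∀ s, L s (ap (X.D.T 0) s (of false)) = L s (of false)) ∧
    (∀ o, L (.inl o) (ap (X.D.T 0) (.inl o) (of true)) =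
      L (.inl o) (of true) + X.cc * ∑ o, L (.inl o) (of false)) ∧
    ∀ i, L (.inr i) (ap (X.D.T 0) (.inr i) (of true)) = L (.inr i) (of true) := by
  have hd : dir 0 = false := rfl
  refine ⟨fun s => ?_, fun o => ?_, fun i => ?_⟩
  · rw [ExH1_step X.D hL, hd]; simp
  · rw [ExH1_step X.D hL, hd, D_c0, D_p]
    simp only [Bool.true_eq_false, if_false, c0, Sum.elim_inl, p_false_pow_inl]
    rw [← Fintype.card_option, ExH1_cyc_sum_mul X.hb (fun o => L (.inl o) (of false))]
  · rw [ExH1_step X.D hL, hd, D_c0]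
    simp [c0]

theorem ExH1_T1 {L : Sq I → F2 → ℝ} (hL : IsAC X.D.p L) :
    (∀ s, L s (ap (X.D.T 1) s (of true)) = L s (of true)) ∧
    (L (.inl none) (ap (X.D.T 1) (.inl none) (of false)) =
      L (.inl none) (of false) + L (.inl none) (of true)) ∧
    (∀ i, L (.inl (some i)) (ap (X.D.T 1) (.inl (some i)) (of false)) =
      L (.inl (some i)) (of false) + (L (.inl (some i)) (of true) + L (.inr i) (of true))) ∧
    ∀ i, L (.inr i) (ap (X.D.T 1) (.inr i) (of false)) =
      L (.inr i) (of false) + (L (.inl (some i)) (of true) + L (.inr i) (of true)) := by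
  have hd : dir 1 = true := rfl
  refine ⟨fun s => ?_, ?_, fun i => ?_, fun i => ?_⟩
  · rw [ExH1_step X.D hL, hd]; simp
  · rw [ExH1_step X.D hL, hd, D_c1]
    simp [c1]
  · rw [ExH1_step X.D hL, hd, D_c1]
    simp [c1, Finset.sum_range_succ]
  · rw [ExH1_step X.D hL, hd, D_c1]
    simp [c1, Finset.sum_range_succ, add_comm]

theorem ExH1_T2 {L : Sq I → F2 → ℝ} (hL : IsAC X.D.p L) :
    (∀ s, L s (ap (X.D.T 2) s (of false)) = L s (of false)) ∧
    (∀ o, L (.inl o) (ap (X.D.T 2) (.inl o) (of true)) = L (.inl o) (of true)) ∧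
    ∀ i, L (.inr i) (ap (X.D.T 2) (.inr i) (of true)) =
      L (.inr i) (of true) + ∑ i, L (.inr i) (of false) := by
  have hd : dir 2 = false := rfl
  refine ⟨fun s => ?_, fun o => ?_, fun i => ?_⟩
  · rw [ExH1_step X.D hL, hd]; simp
  · rw [ExH1_step X.D hL, hd, D_c2]
    simp [c2]
  · rw [ExH1_step X.D hL, hd, D_c2, D_p]
    simp only [Bool.true_eq_false, if_false, c2, Sum.elim_inr, p_false_pow_inr]
    rw [ExH1_cyc_sum X.hd (fun i => L (.inr i) (of false))]

theorem ExH1_T3 {L : Sq I → F2 → ℝ} (hL : IsAC X.D.p L) :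
    (∀ s, L s (ap (X.D.T 3) s (of true)) = L s (of true)) ∧
    (L (.inl none) (ap (X.D.T 3) (.inl none) (of false)) = L (.inl none) (of false)) ∧
    (∀ i, L (.inl (some i)) (ap (X.D.T 3) (.inl (some i)) (of false)) =
      L (.inl (some i)) (of false) +
        X.r i * (L (.inl (some i)) (of true) + L (.inr i) (of true))) ∧
    ∀ i, L (.inr i) (ap (X.D.T 3) (.inr i) (of false)) =
      L (.inr i) (of false) + X.r i * (L (.inl (some i)) (of true) + L (.inr i) (of true)) := by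
  have hd : dir 3 = true := rfl
  refine ⟨fun s => ?_, ?_, fun i => ?_, fun i => ?_⟩
  · rw [ExH1_step X.D hL, hd]; simp
  · rw [ExH1_step X.D hL, hd, D_c3]
    simp [c3]
  · rw [ExH1_step X.D hL, hd, D_c3, D_p]
    simp only [Bool.false_eq_true, if_false, c3, Sum.elim_inl, Option.elim_some, p_true]
    rw [ExH1_colsum, up_some]
  · rw [ExH1_step X.D hL, hd, D_c3, D_p]
    simp only [Bool.false_eq_true, if_false, c3, Sum.elim_inr, p_true]
    rw [ExH1_colsum, up_inr, add_comm (L (.inr i) (of true))]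

/-- An invariant cocycle vanishes on all rows and columns. -/
theorem ExH1_vanish {A : Sq I → F2 → ℝ} (hA : IsAC X.D.p A) (g : Sq I → ℝ)
    (hg : ∀ s w, A s (ap (X.D.Φ 4) s w) - A s w = g (act X.D.p s w) - g s) :
    (∑ o, A (.inl o) (of false) = 0) ∧ (∑ i, A (.inr i) (of false) = 0) ∧
      A (.inl none) (of true) = 0 ∧ ∀ i, A (.inl (some i)) (of true) + A (.inr i) (of true) = 0 := by
  have hA1 := hA.ap (X.D.T 0)
  have hA2 := hA1.ap (X.D.T 1)
  have hA3 := hA2.ap (X.D.T 2)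
  obtain ⟨a1, a2, a3⟩ := X.ExH1_T0 hA
  obtain ⟨b1, b2, b3, b4⟩ := X.ExH1_T1 hA1
  obtain ⟨c1, c2, c3⟩ := X.ExH1_T2 hA2
  obtain ⟨d1, d2, d3, d4⟩ := X.ExH1_T3 hA3
  simp only [TD.Φ_four, ap_mul] at hg
  have e1 := hg (.inl none) (of true)
  have e2 := fun i => hg (.inl (some i)) (of true)
  have e3 := fun i => hg (.inr i) (of true)
  have e4 := hg (.inl none) (of false)
  have e5 := fun i => hg (.inl (some i)) (of false)
  have e6 := fun i => hg (.inr i) (of false)
  simp only [d1, d2, d3, d4] at e1 e2 e3 e4 e5 e6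
  simp only [c1, c2, c3] at e1 e2 e3 e4 e5 e6
  simp only [b1, b2, b3, b4] at e1 e2 e3 e4 e5 e6
  simp only [a1, a2, a3] at e1 e2 e3 e4 e5 e6
  simp only [act_of, D_p, p_true, p_false, up_none, up_some, up_inr,
    Perm.sumCongr_apply, Sum.map_inl, Sum.map_inr] at e1 e2 e3 e4 e5 e6
  set η : ℝ := X.cc * ∑ o, A (.inl o) (of false) with hη
  have f1 : η = 0 := by linarith
  have f2 : ∀ i, g (.inr i) = g (.inl (some i)) := fun i => by linarith [e2 i]
  set ηd : ℝ := ∑ i, (A (.inr i) (of false) + (A (.inl (some i)) (of true) + η +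
    A (.inr i) (of true))) with hηd
  have f3 : ηd = 0 := by
    rcases isEmpty_or_nonempty I with hI | ⟨⟨i⟩⟩
    · simp [hηd]
    · linarith [e3 i, f2 i]
  have f4 := X.conn (fun o => g (.inl o)) fun i => by
    have := e5 i
    have := e6 i
    have := f2 i
    have := f2 (X.nd i)
    linarith
  have f5 : ∀ i, A (.inl (some i)) (of true) + A (.inr i) (of true) = 0 := by
    intro i
    have h1 := e6 i
    have h2 := f4 (X.nd i) i
    rw [f2, f2, h2, f1, f3] at h1
    have h3 : (1 + (X.r i : ℝ)) * (A (.inl (some i)) (of true) + A (.inr i) (of true)) = 0 := by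
      linarith
    exact (mul_eq_zero.1 h3).resolve_left (by positivity)
  have f6 : ∑ o, (g (.inl (X.nb o)) - g (.inl o)) = 0 := by
    rw [Finset.sum_sub_distrib, Equiv.sum_comp X.nb (fun o => g (.inl o)), sub_self]
  have f7 : ∀ i, g (.inl (X.nb (some i))) - g (.inl (some i)) = 0 := by
    intro i
    have h1 := e5 i
    have h2 := f5 i
    rw [f1, f3] at h1
    rw [← h1]
    have h3 : A (.inr i) (of true) = -A (.inl (some i)) (of true) := by linarith
    rw [h3]
    ring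
  rw [Fintype.sum_option, Finset.sum_eq_zero fun i _ => f7 i] at f6
  refine ⟨?_, ?_, by linarith, f5⟩
  · have h1 : (X.cc : ℝ) ≠ 0 := by
      have := X.cc_pos
      positivity
    exact (mul_eq_zero.1 (hη ▸ f1)).resolve_left h1
  · rw [← f3, hηd]
    refine Finset.sum_congr rfl fun i _ => ?_
    linarith [f5 i]

theorem ExH1_tau {A : Sq I → F2 → ℝ} (hA : IsAC X.D.p A) (g : Sq I → ℝ)
    (hg : ∀ s w, A s (ap (X.D.Φ 4) s w) - A s w = g (act X.D.p s w) - g s) :
    ∃ τ : I → ℝ, ∀ k, act X.D.p (s0 I) k = s0 I → A (s0 I) k = tau X.D.p (pot τ) (s0 I) k := by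
  obtain ⟨h1, h2, h3, h4⟩ := X.ExH1_vanish hA g hg
  obtain ⟨fb, hfb⟩ := ExH1_potential X.hb _ h1
  obtain ⟨fd, hfd⟩ := ExH1_potential X.hd _ h2
  let τ : I → ℝ := fun i => A (.inl (some i)) (of true) - (fd i - fb (some i))
  let h : Sq I → ℝ := Sum.elim fb fd
  have hC : IsAC X.D.p fun s w => tau X.D.p (pot τ) s w + (h (act X.D.p s w) - h s) := by
    intro s w w'
    simp only
    rw [tau_isAC, act_mul]
    ring
  refine ⟨τ, fun k hk => ?_⟩
  have h5 := hA.ext hC (fun s e => ?_) (s0 I) k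
  · rw [h5, hk]; ring
  · cases e
    · rcases s with o | i
      · simp [tau, dl, h, hfb]
      · simp [tau, dl, h, hfd]
    · rcases s with (_ | i) | i
      · simp [tau, dl, h, h3]
      · simp [tau, dl, h, τ]
      · have := h4 i
        simp only [tau, acoc_of, dl, if_true, D_p, p_true, up_inr, pot_inl, pot_inr, act_of, h, τ,
          Sum.elim_inl, Sum.elim_inr]
        linarith

theorem cl_surj (α : H1 X.G) : ∃ a, α = X.cl a := by
  classical
  have hα : ∀ a b, α.1 (a * b) = α.1 a + α.1 b := α.2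
  let β : F2 → ℝ := fun k => if h : act X.D.p (s0 I) k = s0 I then α.1 (TD.mkG k h 0) else 0
  have hβ : ∀ k h, β k = α.1 (TD.mkG k h 0) := fun k h => dif_pos h
  have hβm : ∀ k k', act X.D.p (s0 I) k = s0 I → act X.D.p (s0 I) k' = s0 I →
      β (k * k') = β k + β k' := by
    intro k k' h h'
    have h2 : act X.D.p (s0 I) (k * k') = s0 I := by rw [act_mul, h, h']
    rw [hβ k h, hβ k' h', hβ _ h2, ← hα, ExH1_mk_mul k k' h h' h2]
  have hone : act X.D.p (s0 I) 1 = s0 I := act_one _ _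
  have hβΦ : ∀ k, act X.D.p (s0 I) k = s0 I → β (ap (X.D.Φ 4) (s0 I) k) = β k := by
    intro k h
    have h2 : act X.D.p (s0 I) (ap (X.D.Φ 4) (s0 I) k) = s0 I := by rw [act_ap, h]
    have h4 := congrArg α.1 (ExH1_mk_conj k h hone h2)
    rw [hα, hα] at h4
    rw [hβ k h, hβ _ h2]
    linarith
  obtain ⟨δ, hδ, hδ0⟩ : ∃ δ : Sq I → F2, (∀ s, act X.D.p (s0 I) (δ s) = s) ∧ δ (s0 I) = 1 := by
    choose δ hδ using X.trans
    refine ⟨fun s => if s = s0 I then 1 else δ s, fun s => ?_, if_pos rfl⟩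
    by_cases h : s = s0 I
    · simp only [if_pos h]; rw [h, act_one]
    · simp only [if_neg h]; exact hδ s
  have hl : ∀ s w, act X.D.p (s0 I) (δ s * w * (δ (act X.D.p s w))⁻¹) = s0 I := by
    intro s w
    rw [act_mul, act_mul, hδ]
    conv_lhs => enter [2]; rw [← hδ (act X.D.p s w)]
    rw [act_act_inv]
  let A : Sq I → F2 → ℝ := fun s w => β (δ s * w * (δ (act X.D.p s w))⁻¹)
  have hA : IsAC X.D.p A := by
    intro s w w'
    simp only [A]
    rw [← hβm _ _ (hl _ _) (hl _ _), act_mul]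
    congr 1
    group
  have hA0 : ∀ k, act X.D.p (s0 I) k = s0 I → A (s0 I) k = β k := by
    intro k h
    simp only [A]
    rw [h, hδ0]
    simp
  have hB : IsAC X.D.p fun s w => A s (ap (X.D.Φ 4) s w) - A s w := by
    intro s w w'
    have h1 := hA.ap (X.D.Φ 4) s w w'
    simp only at h1 ⊢
    rw [h1, hA]
    ring
  obtain ⟨g, hg⟩ := ExH1_cob X.trans hB fun k h => by
    rw [hA0 k h, hA0 _ (by rw [act_ap, h]), hβΦ k h, sub_self]
  obtain ⟨τ, hτ⟩ := X.ExH1_tau hA g hg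
  have ht : ∀ j : ℤ, α.1 (TD.mkG (D := X.D) 1 hone j) = j * α.1 (TD.mkG (D := X.D) 1 hone 1) := by
    have hs : ∀ j : ℤ, α.1 (TD.mkG (D := X.D) 1 hone (j + 1)) =
        α.1 (TD.mkG (D := X.D) 1 hone j) + α.1 (TD.mkG (D := X.D) 1 hone 1) := by
      intro j
      rw [← hα, ← ExH1_mk_succ]
    have h0 : α.1 (TD.mkG (D := X.D) 1 hone 0) = 0 := by
      have := hs 0
      rw [zero_add] at this
      linarith
    intro j
    induction j using Int.induction_on with
    | zero => simp [h0]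
    | succ n ih => rw [hs, ih]; push_cast; ring
    | pred n ih =>
      have := hs (-(n : ℤ) - 1)
      rw [sub_add_cancel, ih] at this
      push_cast at this ⊢
      linarith
  refine ⟨(α.1 (TD.mkG (D := X.D) 1 hone 1), τ), Subtype.ext (funext fun x => ?_)⟩
  have h1 := congrArg α.1 (ExH1_mk_split hone x)
  rw [hα, ht, ← hβ, ← hA0 _ (TD.act_kf x), hτ _ (TD.act_kf x)] at h1
  rw [h1, cl, TD.cls_apply]
  ring

theorem exists_gam (i j : I) : ∃ g : X.G, ∀ a, (X.cl a).1 g = a.2 i - a.2 j := by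
  obtain ⟨a, ha⟩ := X.hb none (some i)
  obtain ⟨b, hb⟩ := X.hd i j
  obtain ⟨c, hc⟩ := X.hb (some j) none
  have h1 : act X.D.p (s0 I) (of false ^ a) = .inl (some i) := by
    rw [act_of_pow, D_p, s0, p_false_pow_inl, ha]
  have h2 : act X.D.p (.inl (some i)) (of true) = .inr i := by simp
  have h3 : act X.D.p (.inr i) (of false ^ b) = .inr j := by
    rw [act_of_pow, D_p, p_false_pow_inr, hb]
  have h4 : act X.D.p (.inr j) (of true) = .inl (some j) := by simp
  have h5 : act X.D.p (.inl (some j)) (of false ^ c) = s0 I := by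
    rw [act_of_pow, D_p, p_false_pow_inl, hc, s0]
  refine ⟨TD.mkG (of false ^ a * (of true * (of false ^ b * (of true * of false ^ c))))
    (by rw [act_mul, h1, act_mul, h2, act_mul, h3, act_mul, h4, h5]) 0, fun t => ?_⟩
  rw [cl, TD.cls_apply, TD.kf_mkG, TD.jf_mkG, tau_isAC, h1, tau_isAC, h2, tau_isAC, h3, tau_isAC,
    h4, tau_of_pow, tau_of_pow, tau_of_pow]
  simp [tau, dl, sub_eq_add_neg]

end ExD

end Pool.Agent.Work.MP_1b9dce_gt
end

-- merged part: Pool.Agent.Work.MP_1b9dce_gt.Coord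
section
/-! Coordinates on the first cohomology of the examples. -/

set_option linter.unusedSectionVars false

namespace Pool.Agent.Work.MP_1b9dce_gt

open Equiv
open FreeGroup (of)

theorem H1_one {G : Type} [Group G] (α : H1 G) : α.1 1 = 0 := (ker α).one_mem

theorem H1_inv {G : Type} [Group G] (α : H1 G) (g : G) : α.1 g⁻¹ = -α.1 g := by
  have := α.2 g g⁻¹
  rw [mul_inv_cancel, H1_one] at this
  linarith

theorem H1_zpow {G : Type} [Group G] (α : H1 G) (g : G) (n : ℤ) : α.1 (g ^ n) = n * α.1 g := by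
  induction n using Int.induction_on with
  | zero => simp [H1_one]
  | succ n ih => rw [zpow_add_one, α.2, ih]; push_cast; ring
  | pred n ih => rw [zpow_sub_one, α.2, ih, H1_inv]; push_cast; ring

/-- A nonzero integral class is a positive multiple of a primitive class. -/
theorem exists_prim {G : Type} [Group G] (α : H1 G) (hint : ∀ g, ∃ n : ℤ, α.1 g = n)
    (hne : ∃ g, α.1 g ≠ 0) : ∃ d : ℝ, 0 < d ∧ Prim (d • α) := by
  let S : AddSubgroup ℤ :=
    { carrier := {n | ∃ g, α.1 g = n}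
      add_mem' := by
        rintro a b ⟨g, hg⟩ ⟨h, hh⟩
        exact ⟨g * h, by rw [α.2, hg, hh]; push_cast; rfl⟩
      zero_mem' := ⟨1, by simp [H1_one]⟩
      neg_mem' := by
        rintro a ⟨g, hg⟩
        exact ⟨g⁻¹, by rw [H1_inv, hg]; push_cast; rfl⟩ }
  obtain ⟨a, ha⟩ := Int.subgroup_cyclic S
  have hmem : ∀ n : ℤ, (∃ g, α.1 g = n) ↔ ∃ k : ℤ, k * a = n := by
    intro n
    change n ∈ S ↔ _
    rw [ha, AddSubgroup.mem_closure_singleton]
    simp
  have ha0 : a ≠ 0 := by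
    rintro rfl
    obtain ⟨g, hg⟩ := hne
    obtain ⟨n, hn⟩ := hint g
    obtain ⟨k, hk⟩ := (hmem n).1 ⟨g, hn⟩
    apply hg
    rw [hn, ← hk]; simp
  have hpos : (0 : ℝ) < |(a : ℝ)| := abs_pos.2 (by exact_mod_cast ha0)
  refine ⟨|(a : ℝ)|⁻¹, inv_pos.2 hpos, ?_⟩
  have hs : ((a.sign : ℤ) : ℝ) * |(a : ℝ)| = a := by
    rw [← Int.cast_abs, ← Int.cast_mul, Int.sign_mul_abs]
  have hs' : ((a.sign : ℤ) : ℝ) * a = |(a : ℝ)| := by
    rw [← Int.cast_abs, ← Int.cast_mul, Int.sign_mul_self_eq_abs]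
  ext x
  constructor
  · rintro ⟨g, rfl⟩
    obtain ⟨n, hn⟩ := hint g
    obtain ⟨k, hk⟩ := (hmem n).1 ⟨g, hn⟩
    refine ⟨k * a.sign, ?_⟩
    change _ = |(a : ℝ)|⁻¹ * α.1 g
    rw [hn, ← hk]
    push_cast
    field_simp
    rw [mul_assoc, hs]
  · rintro ⟨n, rfl⟩
    obtain ⟨g, hg⟩ := (hmem (n * a.sign * a)).2 ⟨_, rfl⟩
    refine ⟨g, ?_⟩
    change |(a : ℝ)|⁻¹ * α.1 g = _
    rw [hg]
    push_cast
    rw [mul_assoc, hs']
    field_simp

theorem tau_add {V : Type} (p : Bool → Perm V) {A : Type} [AddCommGroup A] (f f' : V → A)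
    (s : V) (w : F2) : tau p (f + f') s w = tau p f s w + tau p f' s w := by
  have h : IsAC p fun s w => tau p f s w + tau p f' s w := by
    intro s w w'
    simp only
    rw [tau_isAC, tau_isAC]; abel
  refine (tau_isAC p _).ext h (fun s e => ?_) s w
  cases e <;> simp [tau, dl]
  abel

theorem tau_of_const {V : Type} (p : Bool → Perm V) {A : Type} [AddCommGroup A] (f : V → A)
    (hf : ∀ s, f (p false s) = f s) (s : V) (w : F2) : tau p f s w = f (act p s w) - f s := by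
  have h : IsAC p fun s w => f (act p s w) - f s := by
    intro s w w'
    simp only
    rw [act_mul]; abel
  refine (tau_isAC p _).ext h (fun s e => ?_) s w
  cases e <;> simp [tau, dl, hf]

theorem pot_cast {I : Type} (τ : I → ℤ) :
    (fun s => ((pot τ s : ℤ) : ℝ)) = pot fun i => (τ i : ℝ) := by
  ext s
  rcases s with o | i <;> simp

namespace ExD
variable {I : Type} [Fintype I] (X : ExD I)

theorem cl_apply (a : ℝ × (I → ℝ)) (g : X.G) :
    (X.cl a).1 g = a.1 * TD.jf g + tau X.D.p (pot a.2) (s0 I) (TD.kf g) := rfl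

/-- The classes depend linearly on the coordinates. -/
noncomputable def clL : (ℝ × (I → ℝ)) →ₗ[ℝ] H1 X.G where
  toFun := X.cl
  map_add' a b := by
    ext g
    have : pot (a + b).2 = pot a.2 + pot b.2 := by
      ext s
      rcases s with o | i <;> simp
    simp only [Submodule.coe_add, Pi.add_apply, cl_apply]
    rw [this, tau_add, Prod.fst_add]; ring
  map_smul' c a := by
    ext g
    have h1 : pot (c • a).2 = fun s => (AddMonoidHom.mulLeft c) (pot a.2 s) := by
      ext s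
      rcases s with o | i <;> simp
    simp only [Submodule.coe_smul, Pi.smul_apply, cl_apply, RingHom.id_apply]
    rw [h1, tau_map]
    simp only [Prod.smul_fst, smul_eq_mul, AddMonoidHom.coe_mulLeft]
    ring

theorem clL_apply (a : ℝ × (I → ℝ)) : X.clL a = X.cl a := rfl

theorem continuous_clL : Continuous X.clL := LinearMap.continuous_of_finiteDimensional _

theorem cl_const (κ : ℝ) : X.cl (0, fun _ => κ) = 0 := by
  ext g
  rw [cl_apply, tau_of_const, TD.act_kf]
  · simp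
  · rintro (o | i) <;> simp

/-- The generator of the base circle. -/
def t0 : X.G := TD.mkG 1 (act_one _ _) 1

theorem cl_t0 (a : ℝ × (I → ℝ)) : (X.cl a).1 X.t0 = a.1 := by
  rw [cl_apply, t0, TD.jf_mkG, TD.kf_mkG, (tau_isAC _ _).one]; simp

/-- The loops measuring `τ i - τ j`. -/
noncomputable def gam (i j : I) : X.G := (X.exists_gam i j).choose

theorem cl_gam (i j : I) (a : ℝ × (I → ℝ)) : (X.cl a).1 (X.gam i j) = a.2 i - a.2 j :=
  (X.exists_gam i j).choose_spec a

/-- The coordinates of a class. -/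
noncomputable def co (i₀ : I) : H1 X.G →ₗ[ℝ] (ℝ × (I → ℝ)) where
  toFun α := (α.1 X.t0, fun i => α.1 (X.gam i i₀))
  map_add' _ _ := rfl
  map_smul' _ _ := rfl

theorem continuous_co (i₀ : I) : Continuous (X.co i₀) := by
  refine Continuous.prodMk ?_ (continuous_pi fun i => ?_)
  · exact (continuous_apply _).comp continuous_subtype_val
  · exact (continuous_apply _).comp continuous_subtype_val

theorem co_cl (i₀ : I) (a : ℝ × (I → ℝ)) :
    X.co i₀ (X.cl a) = (a.1, fun i => a.2 i - a.2 i₀) :=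
  Prod.ext (X.cl_t0 a) (funext fun i => X.cl_gam i i₀ a)

theorem cl_co (i₀ : I) (α : H1 X.G) : X.cl (X.co i₀ α) = α := by
  obtain ⟨a, rfl⟩ := X.cl_surj α
  have : a = (a.1, fun i => a.2 i - a.2 i₀) + (0, fun _ => a.2 i₀) := by
    ext <;> simp
  rw [co_cl]
  conv_rhs => rw [this, ← clL_apply, map_add, clL_apply, clL_apply, cl_const, add_zero]

theorem co_self (i₀ : I) (α : H1 X.G) : (X.co i₀ α).2 i₀ = 0 := by
  obtain ⟨a, rfl⟩ := X.cl_surj α
  rw [co_cl]; simp

/-- A primitive class has integral coordinates. -/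
theorem prim_coord (i₀ : I) {α : H1 X.G} (h : Prim α) : ∃ (U : ℤ) (τ : I → ℤ),
    X.co i₀ α = ((U : ℝ), fun i => (τ i : ℝ)) ∧
      α = X.D.cls (s0 I) U fun s => ((pot τ s : ℤ) : ℝ) := by
  have hint : ∀ g, ∃ n : ℤ, (n : ℝ) = α.1 g := fun g => by
    have : α.1 g ∈ Set.range ((↑) : ℤ → ℝ) := h ▸ ⟨g, rfl⟩
    exact this
  choose n hn using hint
  have h1 : X.co i₀ α = ((n X.t0 : ℝ), fun i => (n (X.gam i i₀) : ℝ)) :=
    Prod.ext (hn _).symm (funext fun i => (hn _).symm)
  refine ⟨n X.t0, fun i => n (X.gam i i₀), h1, ?_⟩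
  rw [pot_cast, ← X.cl_co i₀ α, h1]
  rfl

theorem cl_one_apply (g : X.G) : (X.cl (1, 0)).1 g = TD.jf g := by
  have : pot (0 : I → ℝ) = fun _ => 0 := by
    ext s
    rcases s with o | i <;> simp
  rw [cl_apply, this, tau_of_const _ _ (fun _ => rfl)]; simp

theorem prim_one : Prim (X.cl (1, 0)) := by
  ext x
  constructor
  · rintro ⟨g, rfl⟩
    exact ⟨_, (X.cl_one_apply g).symm⟩
  · rintro ⟨n, rfl⟩
    exact ⟨TD.mkG 1 (act_one _ _) n, by rw [cl_one_apply]; rfl⟩

theorem ker_one : ker (X.cl (1, 0)) = (SemidirectProduct.inl : _ →* X.G).range := by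
  ext g
  rw [SemidirectProduct.range_inl_eq_ker_rightHom, MonoidHom.mem_ker]
  change (X.cl (1, 0)).1 g = 0 ↔ g.right = 1
  rw [cl_one_apply, Int.cast_eq_zero]
  rfl

end ExD

theorem isOpen_Cn (I : Type) [Finite I] : IsOpen (Cn I) := by
  have : Cn I = ⋂ i, ⋂ j, {a : ℝ × (I → ℝ) | a.2 i - a.2 j < a.1} := by
    ext a; simp [Cn]
  rw [this]
  exact isOpen_iInter_of_finite fun i => isOpen_iInter_of_finite fun j =>
    isOpen_lt (by fun_prop) (by fun_prop)

theorem convex_Cn (I : Type) : Convex ℝ (Cn I) := by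
  intro a ha b hb s t hs ht hst i j
  have h1 := ha i j
  have h2 := hb i j
  simp only [Prod.snd_add, Prod.smul_snd, Pi.add_apply, Pi.smul_apply, smul_eq_mul, Prod.fst_add,
    Prod.smul_fst]
  rcases hs.eq_or_lt with rfl | hs'
  · have : t = 1 := by linarith
    subst this; linarith
  · nlinarith [mul_pos hs' (sub_pos.2 h1), mul_nonneg ht (sub_pos.2 h2).le]

theorem smul_mem_Cn {I : Type} {a : ℝ × (I → ℝ)} (ha : a ∈ Cn I) {r : ℝ} (hr : 0 < r) :
    r • a ∈ Cn I := by
  intro i j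
  have := mul_lt_mul_of_pos_left (ha i j) hr
  simp only [Prod.smul_snd, Pi.smul_apply, smul_eq_mul, Prod.smul_fst]
  linarith

/-- A nonempty open cone contains an integral point. -/
theorem exists_int_point {I : Type} [Fintype I] {O : Set (ℝ × (I → ℝ))} (hO : IsOpen O)
    (hc : ∀ a ∈ O, ∀ r : ℝ, 0 < r → r • a ∈ O) {b} (hb : b ∈ O) :
    ∃ (U : ℤ) (τ : I → ℤ), ((U : ℝ), fun i => (τ i : ℝ)) ∈ O := by
  obtain ⟨ε, hε, hball⟩ := Metric.isOpen_iff.1 hO b hb
  set N : ℝ := ε⁻¹ with hN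
  have hNpos : 0 < N := inv_pos.2 hε
  have key : ∀ x : ℝ, dist (ε * (⌊N * x⌋ : ℝ)) x < ε := by
    intro x
    have h1 := Int.floor_le (N * x)
    have h2 := Int.lt_floor_add_one (N * x)
    have h3 : x = ε * (N * x) := by rw [hN]; field_simp
    rw [Real.dist_eq, abs_lt]
    constructor <;> nlinarith
  refine ⟨⌊N * b.1⌋, fun i => ⌊N * b.2 i⌋, ?_⟩
  have h1 : ε • (((⌊N * b.1⌋ : ℤ) : ℝ), fun i => ((⌊N * b.2 i⌋ : ℤ) : ℝ)) ∈ O := by
    apply hball
    rw [Metric.mem_ball, Prod.dist_eq, max_lt_iff]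
    exact ⟨key _, (dist_pi_lt_iff hε).2 fun i => key _⟩
  have := hc _ h1 N hNpos
  rwa [smul_smul, hN, inv_mul_cancel₀ hε.ne', one_smul] at this

/-- An open convex cone through `(1, 0)` that leaves `Cn` contains an integral boundary point. -/
theorem exists_bdry_point {I : Type} [Fintype I] [Nontrivial I] {O : Set (ℝ × (I → ℝ))}
    (hO : IsOpen O) (hcv : Convex ℝ O) (hc : ∀ a ∈ O, ∀ r : ℝ, 0 < r → r • a ∈ O)
    (h1 : ((1 : ℝ), (0 : I → ℝ)) ∈ O) {b} (hb : b ∈ O) (hb' : b ∉ Cn I) :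
    ∃ (U : ℤ) (τ : I → ℤ), ((U : ℝ), fun i => (τ i : ℝ)) ∈ O ∧ 0 < U ∧ (∀ i j, τ i - τ j ≤ U) ∧
      ∃ i j, τ i - τ j = U := by
  classical
  have hpair : ∃ i j, i ≠ j ∧ b.1 ≤ b.2 i - b.2 j ∧ 0 ≤ b.2 i - b.2 j := by
    simp only [Cn, Set.mem_ofPred_eq, not_forall, not_lt] at hb'
    obtain ⟨i, j, hij⟩ := hb'
    by_cases h : i = j
    · subst h
      obtain ⟨i', j', h'⟩ := exists_pair_ne I
      rcases le_total (b.2 i') (b.2 j') with h2 | h2
      · exact ⟨j', i', h'.symm, by linarith, by linarith⟩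
      · exact ⟨i', j', h', by linarith, by linarith⟩
    · rcases le_total (b.2 i) (b.2 j) with h2 | h2
      · exact ⟨j, i, Ne.symm h, by linarith, by linarith⟩
      · exact ⟨i, j, h, hij, by linarith⟩
  obtain ⟨i, j, hij, hb1, hb0⟩ := hpair
  let W : Set (ℝ × (I → ℝ)) := {a | a.1 < a.2 i - a.2 j ∧ 0 < a.2 i - a.2 j}
  have hW : IsOpen W := by
    have h1 : IsOpen {a : ℝ × (I → ℝ) | a.1 < a.2 i - a.2 j} :=
      isOpen_lt (by fun_prop) (by fun_prop)
    have h2 : IsOpen {a : ℝ × (I → ℝ) | 0 < a.2 i - a.2 j} :=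
      isOpen_lt (by fun_prop) (by fun_prop)
    exact h1.inter h2
  have hne : ∃ b', b' ∈ O ∩ W := by
    let γ : ℝ → ℝ × (I → ℝ) := fun ε => b + ε • ((0 : ℝ), (Pi.single i 1 : I → ℝ))
    have hγ : Continuous γ := by fun_prop
    have h0 : ∀ᶠ ε in nhds (0 : ℝ), γ ε ∈ O :=
      hγ.continuousAt.preimage_mem_nhds (hO.mem_nhds (by simpa only [γ, zero_smul, add_zero] using hb))
    obtain ⟨ε, hε1, hε2⟩ := ((h0.filter_mono nhdsWithin_le_nhds).and
      (self_mem_nhdsWithin (s := Set.Ioi (0 : ℝ)))).exists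
    have hε : 0 < ε := hε2
    refine ⟨γ ε, hε1, ?_, ?_⟩ <;> simp [γ, Pi.single_eq_of_ne hij.symm] <;> linarith
  obtain ⟨b', hb'⟩ := hne
  obtain ⟨U, τ, hO', hW1, hW2⟩ := exists_int_point (hO.inter hW) (fun a ha r hr => ⟨hc a ha.1 r hr, by
    have h3 := mul_lt_mul_of_pos_left ha.2.1 hr
    have h4 := mul_pos hr ha.2.2
    constructor <;> simp only [Prod.smul_snd, Pi.smul_apply, smul_eq_mul, Prod.smul_fst] <;>
      linarith⟩) hb'
  simp only at hW1 hW2
  obtain ⟨q, -, hq⟩ := Finset.exists_max_image Finset.univ (fun q : I × I => τ q.1 - τ q.2)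
    ⟨(i, j), Finset.mem_univ _⟩
  have hq' : ∀ i j, τ i - τ j ≤ τ q.1 - τ q.2 := fun i j => hq (i, j) (Finset.mem_univ _)
  have hU : U < τ q.1 - τ q.2 := lt_of_lt_of_le (by exact_mod_cast hW1) (hq' i j)
  have h0 : 0 < τ q.1 - τ q.2 := lt_of_lt_of_le (by exact_mod_cast hW2) (hq' i j)
  refine ⟨τ q.1 - τ q.2, τ, ?_, h0, hq', q.1, q.2, rfl⟩
  have hr : (0 : ℝ) < ((τ q.1 - τ q.2 - U : ℤ) : ℝ) := by exact_mod_cast sub_pos.2 hU
  have h2 := hcv (hc _ h1 _ hr) hO' (a := 1 / 2) (b := 1 / 2) (by norm_num) (by norm_num)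
    (by norm_num)
  have h3 := hc _ h2 2 (by norm_num)
  convert h3 using 1
  ext
  · simp; ring
  · simp

end Pool.Agent.Work.MP_1b9dce_gt
end

-- merged part: Pool.Agent.Work.MP_1b9dce_gt.ExEig
section
namespace Pool.Agent.Work.MP_1b9dce_gt

open Equiv
open FreeGroup (of)

theorem ExEig_step {V : Type} (D : TD V) (f : V → ℤ) {θ : ℝ} (hθ : θ ≠ 0) (l : V → Bool → ℝ)
    (j : ℤ) (d : Bool) (hd : dir j = d) (m m' : V → Bool → ℝ)
    (hm : ∀ (x : V × ℤ) e, D.Lc f θ l x (ap (D.Φ j) x.1 (of e)) = θ ^ x.2 * m x.1 e)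
    (h1 : ∀ s, m' s d = m s d)
    (h2 : ∀ s, m' s (!d) = ∑ i ∈ Finset.range (D.c j s),
      θ ^ (if d then f ((D.p true ^ i) s) - f s else 0) * m ((D.p d ^ i) s) d + m s (!d))
    (x : V × ℤ) (e : Bool) :
    D.Lc f θ l x (ap (D.Φ (j + 1)) x.1 (of e)) = θ ^ x.2 * m' x.1 e := by
  rw [TD.Φ_succ, ap_mul, TD.ap_T_of, hd]
  split_ifs with he
  · rw [hm, he, h1]
  · obtain rfl : e = !d := by cases e <;> cases d <;> simp at he ⊢
    have k1 := D.Lc_isAC_Φ f θ l j
    have k2 := k1 x (of d ^ D.c j x.1) (of !d)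
    have k3 : ∀ i : ℕ, (D.pc f d ^ i) x =
        ((D.p d ^ i) x.1, x.2 + if d then f ((D.p true ^ i) x.1) - f x.1 else 0) := by
      intro i
      rw [← act_of_pow, D.act_pc, act_of_pow, tau_of_pow]
    have k4 : act (D.pc f) x (of d ^ D.c j x.1) = x := by
      have := D.cyc j x.1
      rw [hd] at this
      rw [act_of_pow, k3, this]
      cases d
      · simp
      · simp [this]
    simp only at k2
    rw [k2, k1.of_pow, k4, hm, h2, mul_add, Finset.mul_sum]
    congr 1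
    refine Finset.sum_congr rfl fun i _ => ?_
    rw [hm, k3, zpow_add₀ hθ, mul_assoc]

theorem ExEig_per {Y : Type} (π : Perm Y) (s : Y) (N : ℕ) (h : (π ^ N) s = s) (a : Y → ℝ)
    (k : ℕ) : ∑ i ∈ Finset.range (N * k), a ((π ^ i) s) =
      k * ∑ i ∈ Finset.range N, a ((π ^ i) s) := by
  induction k with
  | zero => simp
  | succ k ih =>
    rw [Nat.mul_succ, Finset.sum_range_add, ih]
    have : ∀ i, (π ^ (N * k + i)) s = (π ^ i) s := by
      intro i
      rw [add_comm, pow_add, Perm.mul_apply, pow_mul, Perm.pow_apply_eq_self_of_apply_eq_self h]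
    simp only [this]
    push_cast
    ring

theorem ExEig_cyc {Y : Type} [Fintype Y] {π : Perm Y} (h : Cyc π) (s : Y) (a : Y → ℝ) :
    ∑ i ∈ Finset.range (Fintype.card Y), a ((π ^ i) s) = ∑ y, a y := by
  classical
  have hinj : Set.InjOn (fun i : ℕ => (π ^ i) s) (Finset.range (Fintype.card Y) : Set ℕ) := by
    intro i hi j hj hij
    have := (h.isCycleOn.pow_apply_eq_pow_apply (Finset.mem_univ s)).1 hij
    rw [Finset.card_univ] at this
    exact Nat.ModEq.eq_of_lt_of_lt this (by simpa using hi) (by simpa using hj)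
  have him : (Finset.range (Fintype.card Y)).image (fun i : ℕ => (π ^ i) s) = Finset.univ := by
    apply Finset.eq_univ_of_card
    rw [Finset.card_image_of_injOn hinj, Finset.card_range]
  rw [← him, Finset.sum_image hinj]

theorem ExEig_real {I : Type} [Fintype I] [Nonempty I] {c u : ℝ} {r t : I → ℝ}
    (hr : ∀ i, 0 ≤ r i) (h : TE c r u t) : ∃ B : ℝ, 0 < B ∧
      c * u / (u - 1) / (u - 1) + ∑ i, ((c * u + t i * B) / (u - 1) +
        r i * (u * (c + t i * B) / (u - 1))) / (u - 1) = 1 ∧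
      ∑ i, ((c * u + t i * B) / (u - 1) / t i + ((c * u + t i * B) / (u - 1) +
        r i * (u * (c + t i * B) / (u - 1))) / (u - 1) / t i) = B := by
  obtain ⟨hu, ht, hP, hQ, he⟩ := h
  have hu1 : u - 1 ≠ 0 := by linarith
  have hS : 0 < ∑ i, t i * (1 + r i * u) := Finset.sum_pos (fun i _ => by
    have := ht i
    have := hr i
    have : 0 < u := by linarith
    positivity) Finset.univ_nonempty
  obtain ⟨B, hB⟩ : ∃ B, B = Pp c r u / ∑ i, t i * (1 + r i * u) := ⟨_, rfl⟩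
  have e1 : B * ∑ i, t i * (1 + r i * u) = Pp c r u := by
    rw [hB, div_mul_cancel₀ _ hS.ne']
  have e2 : Qp r u * B = c * u * ∑ i, (u + r i) / t i := by
    apply mul_left_cancel₀ hS.ne'
    rw [← e1] at he
    linarith
  refine ⟨B, hB ▸ div_pos hP hS, ?_, ?_⟩
  · have : ∀ i, ((c * u + t i * B) / (u - 1) + r i * (u * (c + t i * B) / (u - 1))) / (u - 1) =
        (c * u + c * u * r i + B * (t i * (1 + r i * u))) / (u - 1) ^ 2 := by
      intro i
      field_simp
      ring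
    simp only [this]
    rw [← Finset.sum_div, Finset.sum_add_distrib, Finset.sum_add_distrib, ← Finset.mul_sum,
      ← Finset.mul_sum, ← Finset.mul_sum, e1, Pp]
    simp only [Finset.sum_const, Finset.card_univ, nsmul_eq_mul]
    field_simp
    ring
  · have : ∀ i, (c * u + t i * B) / (u - 1) / t i + ((c * u + t i * B) / (u - 1) +
        r i * (u * (c + t i * B) / (u - 1))) / (u - 1) / t i =
        (c * u * ((u + r i) / t i) + B * u + B * u * r i) / (u - 1) ^ 2 := by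
      intro i
      have := (ht i).ne'
      field_simp
      ring
    simp only [this]
    rw [← Finset.sum_div, Finset.sum_add_distrib, Finset.sum_add_distrib, ← Finset.mul_sum,
      ← Finset.mul_sum, ← Finset.mul_sum, ← e2, Qp]
    simp only [Finset.sum_const, Finset.card_univ, nsmul_eq_mul]
    field_simp
    ring

/-- weights given by their values on the five kinds of edges -/
def ExEig_w {I : Type} (a b z : ℝ) (y w : I → ℝ) : Sq I → Bool → ℝ
  | .inl _, true => a
  | .inr _, true => b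
  | .inl none, false => z
  | .inl (some i), false => y i
  | .inr i, false => w i

theorem ExEig_col {I : Type} (s : Sq I) (a : Sq I → ℝ) (k : ℕ) :
    ∑ i ∈ Finset.range (2 * k), a ((up I ^ i) s) = k * (a s + a (up I s)) := by
  rw [ExEig_per (up I) s 2 (by rw [up_sq]; rfl)]
  simp [Finset.sum_range_succ]

theorem ExD.eig_of_TE {I : Type} [Fintype I] [Nonempty I] (X : ExD I) {θ u : ℝ} (hθ : 0 < θ)
    (τ : I → ℤ) (h : TE (X.cc : ℝ) (fun i => (X.r i : ℝ)) u fun i => θ ^ τ i) :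
    ∃ l, X.D.Eig (pot τ) θ u l := by
  obtain ⟨B, hB, e1, e2⟩ := ExEig_real (fun i => Nat.cast_nonneg _) h
  have hu : 1 < u := h.1
  have hu1 : u - 1 ≠ 0 := by linarith
  have hu2 : 0 < u - 1 := by linarith
  have hc : (0 : ℝ) < X.cc := by exact_mod_cast X.cc_pos
  have ht : ∀ i, 0 < θ ^ τ i := fun i => zpow_pos hθ _
  obtain ⟨c, hcc⟩ : ∃ c : ℝ, c = X.cc := ⟨_, rfl⟩
  rw [← hcc] at e1 e2 hc
  obtain ⟨A1, hA1⟩ : ∃ A1 : I → ℝ, ∀ i, A1 i = (c * u + θ ^ τ i * B) / (u - 1) :=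
    ⟨_, fun _ => rfl⟩
  obtain ⟨A3, hA3⟩ : ∃ A3 : I → ℝ, ∀ i, A3 i = u * (c + θ ^ τ i * B) / (u - 1) :=
    ⟨_, fun _ => rfl⟩
  obtain ⟨As, hAs⟩ : ∃ As : ℝ, As = c * u / (u - 1) := ⟨_, rfl⟩
  simp only [← hA1, ← hA3, ← hAs] at e1 e2
  obtain ⟨y, hy⟩ : ∃ y : I → ℝ, ∀ i, y i = (A1 i + X.r i * A3 i) / (u - 1) := ⟨_, fun _ => rfl⟩
  simp only [← hy] at e1 e2
  have pA1 : ∀ i, 0 < A1 i := fun i => by
    have := ht i
    have : 0 < u := by linarith
    rw [hA1]
    positivity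
  have pA3 : ∀ i, 0 < A3 i := fun i => by
    have := ht i
    have : 0 < u := by linarith
    rw [hA3]
    positivity
  have pAs : 0 < As := by
    have : 0 < u := by linarith
    rw [hAs]
    positivity
  have py : ∀ i, 0 < y i := fun i => by
    have := pA1 i
    have := pA3 i
    rw [hy]
    positivity
  let l : Sq I → Bool → ℝ :=
    ExEig_w (c / (u - 1)) (B / (u - 1)) (As / (u - 1)) y fun i => y i / θ ^ τ i
  let l1 : Sq I → Bool → ℝ :=
    ExEig_w As (B / (u - 1)) (As / (u - 1)) y fun i => y i / θ ^ τ i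
  let l2 : Sq I → Bool → ℝ :=
    ExEig_w As (B / (u - 1)) (As + As / (u - 1)) (fun i => A1 i + y i)
      fun i => A1 i / θ ^ τ i + y i / θ ^ τ i
  let l3 : Sq I → Bool → ℝ :=
    ExEig_w As (B + B / (u - 1)) (As + As / (u - 1)) (fun i => A1 i + y i)
      fun i => A1 i / θ ^ τ i + y i / θ ^ τ i
  have s0 : ∀ (x : Sq I × ℤ) e,
      X.D.Lc (pot τ) θ l x (ap (X.D.Φ 0) x.1 (of e)) = θ ^ x.2 * l x.1 e := fun x e =>
    X.D.Lc_of (pot τ) θ l x e
  have s1 := ExEig_step X.D (pot τ) hθ.ne' l 0 false rfl l l1 s0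
    (by rintro ((_ | i) | i) <;> rfl) (by
      rintro (o | i)
      · have hb := X.hb.pow_card o
        have k1 := ExEig_cyc X.hb o fun o => l (.inl o) false
        have k2 := ExEig_per X.nb o _ hb (fun o => l (.inl o) false) X.cc
        rw [k1, Fintype.card_option, Fintype.sum_option] at k2
        have k3 : l (.inl none) false + ∑ i, l (.inl (some i)) false = 1 := e1
        simp only [ExD.D_c0, ExD.c0, Sum.elim_inl, ExD.D_p, ExD.p_false_pow_inl,
          Bool.false_eq_true, if_false, zpow_zero, one_mul]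
        rw [k2, k3, ← hcc]
        change As = c * 1 + c / (u - 1)
        rw [hAs]
        field_simp
        ring
      · simp only [ExD.D_c0, ExD.c0, Sum.elim_inr, Finset.range_zero, Finset.sum_empty, zero_add]
        rfl)
  have s2 := ExEig_step X.D (pot τ) hθ.ne' l (0 + 1) true rfl l1 l2 s1
    (by rintro ((_ | i) | i) <;> rfl) (by
      have hc1 : X.D.c (0 + 1) = ExD.c1 := rfl
      rw [hc1]
      rintro ((_ | i) | i)
      · simp [ExD.c1, l1, l2, ExEig_w]
      · simp only [ExD.c1, l1, l2, ExEig_w, Sum.elim_inl, Option.elim_some,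
          Finset.sum_range_succ, Finset.range_zero, Finset.sum_empty, pow_zero, pow_one,
          Perm.one_apply, ExD.D_p, ExD.p_true, up_some, pot_inl, pot_inr, if_true, Bool.not_true,
          sub_zero, zpow_zero]
        rw [hA1, hAs]
        field_simp
        ring
      · simp only [ExD.c1, l1, l2, ExEig_w, Sum.elim_inr,
          Finset.sum_range_succ, Finset.range_zero, Finset.sum_empty, pow_zero, pow_one,
          Perm.one_apply, ExD.D_p, ExD.p_true, up_inr, pot_inl, pot_inr, if_true, Bool.not_true,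
          sub_self, zero_sub, zpow_neg, zpow_zero]
        have := (ht i).ne'
        rw [hA1, hAs]
        field_simp
        ring)
  have s3 := ExEig_step X.D (pot τ) hθ.ne' l (0 + 1 + 1) false rfl l2 l3 s2
    (by rintro ((_ | i) | i) <;> rfl) (by
      have hc2 : X.D.c (0 + 1 + 1) = ExD.c2 := rfl
      rw [hc2]
      rintro (o | i)
      · simp only [ExD.c2, Sum.elim_inl, Finset.range_zero, Finset.sum_empty, zero_add]
        rfl
      · have k1 := ExEig_cyc X.hd i fun i => l2 (.inr i) false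
        have k3 : ∑ i, l2 (.inr i) false = B := e2
        simp only [ExD.c2, Sum.elim_inr, ExD.D_p, ExD.p_false_pow_inr,
          Bool.false_eq_true, if_false, zpow_zero, one_mul]
        rw [k1, k3]
        rfl)
  have s4 := ExEig_step X.D (pot τ) hθ.ne' l (0 + 1 + 1 + 1) true rfl l3 (fun s e => u * l s e) s3
    (by
      rintro (o | i)
      · change u * (c / (u - 1)) = As
        rw [hAs]
        ring
      · change u * (B / (u - 1)) = B + B / (u - 1)
        field_simp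
        ring) (by
      have hc3 : X.D.c (0 + 1 + 1 + 1) = X.c3 := rfl
      rw [hc3]
      rintro ((_ | i) | i)
      · simp only [ExD.c3, Sum.elim_inl, Option.elim_none, Finset.range_zero,
          Finset.sum_empty, zero_add]
        change u * (As / (u - 1)) = As + As / (u - 1)
        field_simp
        ring
      · have k := ExEig_col (.inl (some i)) (fun s => θ ^ (pot τ s - pot τ (.inl (some i))) *
          l3 s true) (X.r i)
        simp only [ExD.c3, Sum.elim_inl, Option.elim_some, ExD.D_p, ExD.p_true, if_true]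
        rw [k]
        simp only [l, l3, ExEig_w, up_some, pot_inl, pot_inr, sub_zero, zpow_zero, Bool.not_true]
        rw [hy, hA3, hAs]
        field_simp
        ring
      · have k := ExEig_col (.inr i) (fun s => θ ^ (pot τ s - pot τ (.inr i)) *
          l3 s true) (X.r i)
        simp only [ExD.c3, Sum.elim_inr, ExD.D_p, ExD.p_true, if_true]
        rw [k]
        simp only [l, l3, ExEig_w, up_inr, pot_inl, pot_inr, sub_self, zero_sub, zpow_neg,
          zpow_zero, Bool.not_true]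
        have := (ht i).ne'
        rw [hy, hA3, hAs]
        field_simp
        ring)
  refine ⟨l, ?_, fun x w => ?_⟩
  · rintro ((_ | i) | i) (_ | _)
    · exact div_pos pAs hu2
    · exact div_pos hc hu2
    · exact py i
    · exact div_pos hc hu2
    · exact div_pos (py i) (ht i)
    · exact div_pos hB hu2
  · have h2 : IsAC (X.D.pc (pot τ)) fun x w => u * X.D.Lc (pot τ) θ l x w := by
      intro x w w'
      simp only
      rw [TD.Lc_isAC]
      ring
    refine (X.D.Lc_isAC_Φ (pot τ) θ l 4).ext h2 (fun x e => ?_) x w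
    have := s4 x e
    simp only [TD.Lc_of]
    rw [show (4 : ℤ) = 0 + 1 + 1 + 1 + 1 by norm_num, this]
    ring

end Pool.Agent.Work.MP_1b9dce_gt
end

-- merged part: Pool.Agent.Work.MP_1b9dce_gt.PA2
section
namespace Pool.Agent.Work.MP_1b9dce_gt

open Equiv
open FreeGroup (of)

/-- A pair of positive words starting from a common square. -/
abbrev PA2_T (V : Type) : Type := V × List Bool × List Bool

/-- The element of a zigzag. -/
def PA2_zw {V : Type} (Z : List (PA2_T V)) : F2 :=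
  (Z.map fun t => (pw t.2.1)⁻¹ * pw t.2.2).prod

@[simp] theorem PA2_zw_nil {V : Type} : PA2_zw ([] : List (PA2_T V)) = 1 := rfl
@[simp] theorem PA2_zw_cons {V : Type} (t : PA2_T V) (Z : List (PA2_T V)) :
    PA2_zw (t :: Z) = (pw t.2.1)⁻¹ * pw t.2.2 * PA2_zw Z := by simp [PA2_zw]
@[simp] theorem PA2_zw_append {V : Type} (Z Y : List (PA2_T V)) :
    PA2_zw (Z ++ Y) = PA2_zw Z * PA2_zw Y := by simp [PA2_zw]

/-- The zigzag is a path from `v` to `v'`. -/
def PA2_Ch {V : Type} (p : Bool → Perm V) : V → List (PA2_T V) → V → Prop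
  | v, [], v' => v = v'
  | v, t :: Z, v' => act p t.1 (pw t.2.1) = v ∧ PA2_Ch p (act p t.1 (pw t.2.2)) Z v'

/-- The loop `w` at `v` is conjugate to the closed zigzag `Z`. -/
def PA2_Rep {V : Type} (p : Bool → Perm V) (v : V) (w : F2) (Z : List (PA2_T V)) : Prop :=
  ∃ g : F2, PA2_Ch p (act p v g) Z (act p v g) ∧ w = g * PA2_zw Z * g⁻¹

/-- Total length. -/
def PA2_tl {V : Type} (Z : List (PA2_T V)) : ℕ :=
  (Z.map fun t => t.2.1.length + t.2.2.length).sum

@[simp] theorem PA2_tl_nil {V : Type} : PA2_tl ([] : List (PA2_T V)) = 0 := rfl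
@[simp] theorem PA2_tl_cons {V : Type} (t : PA2_T V) (Z : List (PA2_T V)) :
    PA2_tl (t :: Z) = t.2.1.length + t.2.2.length + PA2_tl Z := by simp [PA2_tl]
@[simp] theorem PA2_tl_append {V : Type} (Z Y : List (PA2_T V)) :
    PA2_tl (Z ++ Y) = PA2_tl Z + PA2_tl Y := by simp [PA2_tl]

section Zig
variable {V : Type} {p : Bool → Perm V}

theorem PA2_ch_append {Z Y : List (PA2_T V)} {v v'' : V} :
    PA2_Ch p v (Z ++ Y) v'' ↔ ∃ v', PA2_Ch p v Z v' ∧ PA2_Ch p v' Y v'' := by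
  induction Z generalizing v with
  | nil => simp [PA2_Ch]
  | cons t Z ih =>
    simp only [List.cons_append, PA2_Ch, ih]
    constructor
    · rintro ⟨h1, v', h2, h3⟩
      exact ⟨v', ⟨h1, h2⟩, h3⟩
    · rintro ⟨v', ⟨h1, h2⟩, h3⟩
      exact ⟨h1, v', h2, h3⟩

theorem PA2_ch_act {Z : List (PA2_T V)} {v v' : V} (h : PA2_Ch p v Z v') :
    act p v (PA2_zw Z) = v' := by
  induction Z generalizing v with
  | nil => simpa [PA2_Ch] using h
  | cons t Z ih =>
    obtain ⟨h1, h2⟩ := h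
    rw [PA2_zw_cons, act_mul, act_mul, ← h1, act_act_inv]
    exact ih h2

theorem PA2_exists (v : V) (w : F2) :
    ∃ Z : List (PA2_T V), PA2_Ch p v Z (act p v w) ∧ PA2_zw Z = w := by
  induction w using FreeGroup.induction_on generalizing v with
  | C1 => exact ⟨[], by simp [PA2_Ch], rfl⟩
  | of e => exact ⟨[(v, [], [e])], by simp [PA2_Ch], by simp⟩
  | inv_of e _ => exact ⟨[(act p v (of e)⁻¹, [e], [])], by simp [PA2_Ch], by simp⟩
  | mul a b ha hb =>
    obtain ⟨Z, h1, h2⟩ := ha v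
    obtain ⟨Y, h3, h4⟩ := hb (act p v a)
    exact ⟨Z ++ Y, PA2_ch_append.2 ⟨_, h1, by rwa [act_mul]⟩, by simp [h2, h4]⟩

theorem PA2_rot {Z Y : List (PA2_T V)} {v : V} {w : F2} (h : PA2_Rep p v w (Z ++ Y)) :
    PA2_Rep p v w (Y ++ Z) := by
  obtain ⟨g, h1, h2⟩ := h
  obtain ⟨v', h3, h4⟩ := PA2_ch_append.1 h1
  have hv : act p v (g * PA2_zw Z) = v' := by rw [act_mul, PA2_ch_act h3]
  refine ⟨g * PA2_zw Z, ?_, ?_⟩
  · rw [hv]; exact PA2_ch_append.2 ⟨_, h4, h3⟩
  · rw [h2]; simp only [PA2_zw_append]; group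

theorem PA2_conj {Z : List (PA2_T V)} {v : V} {w c : F2} (h : PA2_Rep p v w Z)
    (hc : act p v c = v) : PA2_Rep p v (c * w * c⁻¹) Z := by
  obtain ⟨g, h1, h2⟩ := h
  refine ⟨c * g, ?_, ?_⟩
  · rw [act_mul, hc]; exact h1
  · rw [h2]; group

theorem PA2_congr {Z Z' Y : List (PA2_T V)} {v : V} {w : F2}
    (h1 : ∀ x x', PA2_Ch p x Z x' → PA2_Ch p x Z' x') (h2 : PA2_zw Z = PA2_zw Z')
    (h : PA2_Rep p v w (Z ++ Y)) : PA2_Rep p v w (Z' ++ Y) := by
  obtain ⟨g, h3, h4⟩ := h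
  obtain ⟨v', h5, h6⟩ := PA2_ch_append.1 h3
  exact ⟨g, PA2_ch_append.2 ⟨v', h1 _ _ h5, h6⟩, by rw [h4]; simp [h2]⟩

/-- Cancel a common initial segment. -/
theorem PA2_cancel {Y : List (PA2_T V)} {v s : V} {w : F2} {c a b : List Bool}
    (h : PA2_Rep p v w ((s, c ++ a, c ++ b) :: Y)) :
    PA2_Rep p v w ((act p s (pw c), a, b) :: Y) := by
  refine PA2_congr (Z := [(s, c ++ a, c ++ b)]) (Z' := [(act p s (pw c), a, b)]) ?_ ?_ h
  · intro x x' hx
    simpa [PA2_Ch, act_mul] using hx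
  · simp only [PA2_zw_cons, pw_append]; group

theorem PA2_mergeL {Y : List (PA2_T V)} {v s s' : V} {w : F2} {a a' b' : List Bool}
    (h : PA2_Rep p v w ((s, a, []) :: (s', a', b') :: Y)) :
    PA2_Rep p v w ((s', a' ++ a, b') :: Y) := by
  refine PA2_congr (Z := [(s, a, []), (s', a', b')]) (Z' := [(s', a' ++ a, b')]) ?_ ?_ h
  · intro x x' hx
    simp only [PA2_Ch, pw_nil, act_one] at hx
    obtain ⟨h1, h2, h3⟩ := hx
    simp only [PA2_Ch, pw_append, act_mul, h2]
    exact ⟨h1, h3⟩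
  · simp only [PA2_zw_cons, pw_append, pw_nil]; group

theorem PA2_mergeR {Y : List (PA2_T V)} {v s s' : V} {w : F2} {a b b' : List Bool}
    (h : PA2_Rep p v w ((s, a, b) :: (s', [], b') :: Y)) :
    PA2_Rep p v w ((s, a, b ++ b') :: Y) := by
  refine PA2_congr (Z := [(s, a, b), (s', [], b')]) (Z' := [(s, a, b ++ b')]) ?_ ?_ h
  · intro x x' hx
    simp only [PA2_Ch, pw_nil, act_one] at hx
    obtain ⟨h1, h2, h3⟩ := hx
    simp only [PA2_Ch, pw_append, act_mul, ← h2]
    exact ⟨h1, h3⟩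
  · simp only [PA2_zw_cons, pw_append, pw_nil]; group

theorem PA2_cancelEnd {Y : List (PA2_T V)} {v s s' : V} {w : F2} {a b a' b' c : List Bool}
    (h : PA2_Rep p v w ((s, a, b ++ c) :: (s', a' ++ c, b') :: Y)) :
    PA2_Rep p v w ((s, a, b) :: (s', a', b') :: Y) := by
  refine PA2_congr (Z := [(s, a, b ++ c), (s', a' ++ c, b')]) (Z' := [(s, a, b), (s', a', b')])
    ?_ ?_ h
  · intro x x' hx
    simp only [PA2_Ch, pw_append, act_mul] at hx
    obtain ⟨h1, h2, h3⟩ := hx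
    exact ⟨h1, act_inj p (pw c) h2, h3⟩
  · simp only [PA2_zw_cons, pw_append]; group

theorem PA2_cancelOne {v s : V} {w : F2} {a b c : List Bool}
    (h : PA2_Rep p v w [(s, a ++ c, b ++ c)]) : PA2_Rep p v w [(s, a, b)] := by
  obtain ⟨g, h1, h2⟩ := h
  simp only [PA2_Ch, pw_append, act_mul] at h1
  obtain ⟨h3, h4⟩ := h1
  refine ⟨g * (pw c)⁻¹, ?_, ?_⟩
  · simp only [PA2_Ch, act_mul]
    constructor
    · rw [← h3, act_act_inv]
    · rw [← h4, act_act_inv]
  · rw [h2]; simp only [PA2_zw_cons, pw_append, PA2_zw_nil]; group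

theorem PA2_map_congr {f f' : PA2_T V → PA2_T V} {Z : List (PA2_T V)}
    (h : ∀ t ∈ Z, act p (f t).1 (pw (f t).2.1) = act p (f' t).1 (pw (f' t).2.1) ∧
      act p (f t).1 (pw (f t).2.2) = act p (f' t).1 (pw (f' t).2.2) ∧
      (pw (f t).2.1)⁻¹ * pw (f t).2.2 = (pw (f' t).2.1)⁻¹ * pw (f' t).2.2) :
    (∀ x x', PA2_Ch p x (Z.map f) x' → PA2_Ch p x (Z.map f') x') ∧
      PA2_zw (Z.map f) = PA2_zw (Z.map f') := by
  induction Z with
  | nil => simp
  | cons t Z ih =>
    obtain ⟨h1, h2, h3⟩ := h t (by simp)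
    obtain ⟨i1, i2⟩ := ih fun t ht => h t (by simp [ht])
    refine ⟨fun x x' hx => ?_, ?_⟩
    · simp only [List.map_cons, PA2_Ch] at hx ⊢
      rw [← h1, ← h2]
      exact ⟨hx.1, i1 _ _ hx.2⟩
    · simp only [List.map_cons, PA2_zw_cons, h3, i2]

variable {θ : GAut p}

/-- The image of a pair. -/
def PA2_phi (P : PairData θ) (t : PA2_T V) : PA2_T V := (t.1, P.ph t.1 t.2.1, P.ph t.1 t.2.2)

/-- The folded image of a pair. -/
def PA2_psi (P : PairData θ) (t : PA2_T V) : PA2_T V :=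
  (t.1, (P.ph t.1 t.2.1).drop (P.gm t.1).length, (P.ph t.1 t.2.2).drop (P.gm t.1).length)

theorem PA2_ch_phi (P : PairData θ) {Z : List (PA2_T V)} {v v' : V} (h : PA2_Ch p v Z v') :
    PA2_Ch p v (Z.map (PA2_phi P)) v' ∧ ap θ v (PA2_zw Z) = PA2_zw (Z.map (PA2_phi P)) := by
  induction Z generalizing v with
  | nil => exact ⟨h, (ap_isCoc θ).one v⟩
  | cons t Z ih =>
    obtain ⟨h1, h2⟩ := h
    obtain ⟨i1, i2⟩ := ih h2
    constructor
    · simp only [List.map_cons, PA2_Ch, PA2_phi, ← P.ap_pw, act_ap]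
      exact ⟨h1, i1⟩
    · simp only [List.map_cons, PA2_zw_cons]
      rw [ap_isCoc, ap_isCoc, act_mul, ← h1, (ap_isCoc θ).inv, act_act_inv, i2]
      simp only [PA2_phi, P.ap_pw]

theorem PA2_rep_phi (P : PairData θ) {Z : List (PA2_T V)} {v : V} {w : F2}
    (h : PA2_Rep p v w Z) : PA2_Rep p v (ap θ v w) (Z.map (PA2_phi P)) := by
  obtain ⟨g, h1, h2⟩ := h
  obtain ⟨i1, i2⟩ := PA2_ch_phi P h1
  refine ⟨ap θ v g, by rwa [act_ap], ?_⟩
  rw [h2, ap_isCoc, ap_isCoc, act_mul, PA2_ch_act h1, (ap_isCoc θ).inv, i2]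

end Zig

/-! ### Lengths of positive words -/

section Len
variable {V : Type} {p : Bool → Perm V} {l : V → Bool → ℝ}

theorem PA2_L_cons (s : V) (e : Bool) (a : List Bool) :
    acoc p l s (pw (e :: a)) = l s e + acoc p l (p e s) (pw a) := by
  rw [pw_cons, acoc_isAC, acoc_of, act_of]

theorem PA2_L_nonneg (hl : ∀ s e, 0 < l s e) (s : V) (a : List Bool) :
    0 ≤ acoc p l s (pw a) := by
  induction a generalizing s with
  | nil => rw [pw_nil, (acoc_isAC p l).one]
  | cons e a ih => rw [PA2_L_cons]; exact add_nonneg (hl s e).le (ih _)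

theorem PA2_L_zero (hl : ∀ s e, 0 < l s e) {s : V} {a : List Bool}
    (h : acoc p l s (pw a) = 0) : a = [] := by
  rcases a with _ | ⟨e, a⟩
  · rfl
  · rw [PA2_L_cons] at h
    have := PA2_L_nonneg (p := p) hl (p e s) a
    have := hl s e
    linarith

theorem PA2_L_le {M : ℝ} (hM : ∀ s e, l s e ≤ M) (s : V) (a : List Bool) :
    acoc p l s (pw a) ≤ M * a.length := by
  induction a generalizing s with
  | nil => simp [(acoc_isAC p l).one]
  | cons e a ih =>
    rw [PA2_L_cons]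
    have := ih (p e s)
    have := hM s e
    simp only [List.length_cons]; push_cast; linarith

theorem PA2_L_one {v s : V} {w : F2} {a b : List Bool} (h : PA2_Rep p v w [(s, a, b)]) :
    acoc p l v w = acoc p l s (pw b) - acoc p l s (pw a) := by
  obtain ⟨g, h1, h2⟩ := h
  have h3 := PA2_ch_act h1
  have h4 : act p s (pw a) = act p v g := h1.1
  rw [h2, acoc_isAC, acoc_isAC, act_mul, h3, (acoc_isAC p l).inv]
  simp only [PA2_zw_cons, PA2_zw_nil, mul_one]
  rw [acoc_isAC, ← h4, (acoc_isAC p l).inv, act_act_inv]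
  ring

theorem PA2_cmp_eq (hl : ∀ s e, 0 < l s e) {s : V} {a b : List Bool} (h : Cmp a b)
    (hab : acoc p l s (pw a) = acoc p l s (pw b)) : a = b := by
  rcases h with ⟨c, rfl⟩ | ⟨c, rfl⟩
  · rw [pw_append, acoc_isAC] at hab
    rw [PA2_L_zero hl (s := act p s (pw a)) (a := c) (by linarith), List.append_nil]
  · rw [pw_append, acoc_isAC] at hab
    rw [PA2_L_zero hl (s := act p s (pw b)) (a := c) (by linarith), List.append_nil]

end Len

/-! ### Words -/

theorem PA2_pw_mk (a : List Bool) : pw a = FreeGroup.mk (a.map fun e => (e, true)) := by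
  induction a with
  | nil => rfl
  | cons e a ih => rw [pw_cons, ih]; rfl

theorem PA2_red_pos (a : List Bool) : FreeGroup.IsReduced (a.map fun e => (e, true)) := by
  unfold FreeGroup.IsReduced
  rw [List.isChain_map]
  exact List.isChain_iff_forall_rel_of_append_cons_cons.2 fun _ _ _ _ _ _ => rfl

theorem PA2_pw_inj {a b : List Bool} (h : pw a = pw b) : a = b := by
  have := congrArg FreeGroup.toWord h
  rw [PA2_pw_mk, PA2_pw_mk, FreeGroup.toWord_mk, FreeGroup.toWord_mk,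
    (PA2_red_pos a).reduce_eq, (PA2_red_pos b).reduce_eq] at this
  exact List.map_injective_iff.2 (fun x y hxy => (Prod.ext_iff.1 hxy).1) this

/-- The word of a pair. -/
def PA2_wt {V : Type} (t : PA2_T V) : List (Bool × Bool) :=
  (t.2.1.reverse.map fun e => (e, false)) ++ t.2.2.map fun e => (e, true)

/-- The two words begin with different letters. -/
def PA2_H {V : Type} (t : PA2_T V) : Prop :=
  ∃ d a b, t.2.1 = d :: a ∧ t.2.2 = (!d) :: b

/-- Normal zigzags. -/
def PA2_N {V : Type} (Z : List (PA2_T V)) : Prop :=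
  (∀ t ∈ Z, PA2_H t) ∧ (Z ++ Z).IsChain fun t t' => t.2.2.getLast? ≠ t'.2.1.getLast?

theorem PA2_mk_wt {V : Type} (t : PA2_T V) :
    FreeGroup.mk (PA2_wt t) = (pw t.2.1)⁻¹ * pw t.2.2 := by
  rw [PA2_pw_mk, PA2_pw_mk, FreeGroup.inv_mk, FreeGroup.mul_mk, PA2_wt]
  simp [FreeGroup.invRev, Function.comp_def]

theorem PA2_mk_wd {V : Type} (Z : List (PA2_T V)) :
    FreeGroup.mk (Z.map PA2_wt).flatten = PA2_zw Z := by
  induction Z with
  | nil => rfl
  | cons t Z ih => rw [List.map_cons, List.flatten_cons, ← FreeGroup.mul_mk, ih, PA2_mk_wt,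
      PA2_zw_cons]

theorem PA2_len_wd {V : Type} (Z : List (PA2_T V)) :
    (Z.map PA2_wt).flatten.length = PA2_tl Z := by
  induction Z with
  | nil => rfl
  | cons t Z ih => rw [List.map_cons, List.flatten_cons, List.length_append, ih]; simp [PA2_wt]

theorem PA2_red {V : Type} {Z : List (PA2_T V)} (h1 : ∀ t ∈ Z, PA2_H t)
    (h2 : Z.IsChain fun t t' => t.2.2.getLast? ≠ t'.2.1.getLast?) :
    FreeGroup.IsReduced (Z.map PA2_wt).flatten := by
  unfold FreeGroup.IsReduced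
  rw [List.isChain_flatten]
  · constructor
    · intro w hw
      obtain ⟨t, ht, rfl⟩ := List.mem_map.1 hw
      obtain ⟨d, a, b, ha, hb⟩ := h1 t ht
      unfold PA2_wt
      refine List.IsChain.append ?_ (PA2_red_pos _) ?_
      · rw [List.isChain_map]
        exact List.isChain_iff_forall_rel_of_append_cons_cons.2 fun _ _ _ _ _ _ => rfl
      · rw [ha, hb]
        simp
    · rw [List.isChain_map]
      refine h2.imp_of_mem_imp fun t t' ht ht' htt => ?_
      obtain ⟨d, a, b, ha, hb⟩ := h1 t ht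
      obtain ⟨d', a', b', ha', hb'⟩ := h1 t' ht'
      intro x hx y hy hxy
      exfalso
      apply htt
      obtain ⟨e, he⟩ : ∃ e, t.2.2.getLast? = some e := by rw [hb]; exact ⟨_, rfl⟩
      obtain ⟨e', he'⟩ : ∃ e, t'.2.1.getLast? = some e := by rw [ha']; exact ⟨_, rfl⟩
      simp only [PA2_wt, List.getLast?_append, List.getLast?_map, he, Option.map_some,
        Option.some_or, Option.mem_def, Option.some.injEq] at hx
      simp only [PA2_wt, List.head?_append, List.head?_map, List.head?_reverse, he',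
        Option.map_some, Option.some_or, Option.mem_def, Option.some.injEq] at hy
      subst hx hy
      rw [he, he']
      exact congrArg some hxy
  · intro hw
    obtain ⟨t, ht, h⟩ := List.mem_map.1 hw
    obtain ⟨d, a, b, ha, hb⟩ := h1 t ht
    simp [PA2_wt, hb] at h

theorem PA2_norm_pow (w : F2) (N : ℕ) : FreeGroup.norm (w ^ N) ≤ N * FreeGroup.norm w := by
  induction N with
  | zero => simp
  | succ N ih =>
    rw [pow_succ]
    have := FreeGroup.norm_mul_le (w ^ N) w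
    nlinarith

theorem PA2_bound {V : Type} {p : Bool → Perm V} {Z : List (PA2_T V)} {v : V} {w : F2}
    (h : PA2_Rep p v w Z) (hN : PA2_N Z) : PA2_tl Z ≤ FreeGroup.norm w := by
  obtain ⟨g, -, h2⟩ := h
  have hr := PA2_red (Z := Z ++ Z) (fun t ht => hN.1 t (by simpa using ht)) hN.2
  rw [List.map_append, List.flatten_append] at hr
  have hr' := List.isChain_append.1 hr
  have hc : FreeGroup.IsCyclicallyReduced (Z.map PA2_wt).flatten := ⟨hr'.1, hr'.2.2⟩
  have key : ∀ N : ℕ, N * PA2_tl Z ≤ 2 * FreeGroup.norm g + N * FreeGroup.norm w := by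
    intro N
    have e1 : FreeGroup.norm (PA2_zw Z ^ N) = N * PA2_tl Z := by
      rw [← PA2_mk_wd, FreeGroup.pow_mk, FreeGroup.norm, FreeGroup.toWord_mk,
        (hc.flatten_replicate N).isReduced.reduce_eq, ← PA2_len_wd]
      simp
    have e2 : PA2_zw Z ^ N = g⁻¹ * w ^ N * g := by
      rw [h2, conj_pow]; group
    have e3 := FreeGroup.norm_mul_le (g⁻¹ * w ^ N) g
    have e4 := FreeGroup.norm_mul_le g⁻¹ (w ^ N)
    have e5 := PA2_norm_pow w N
    rw [FreeGroup.norm_inv_eq] at e4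
    rw [← e1, e2]
    omega
  by_contra hlt
  have := key (2 * FreeGroup.norm g + 1)
  have h3 : FreeGroup.norm w + 1 ≤ PA2_tl Z := by omega
  nlinarith

/-! ### Folding -/

section Main
variable {V : Type} {p : Bool → Perm V} {θ : GAut p}

theorem PA2_fold (P : PairData θ) {s : V} {d : Bool} {a b : List Bool}
    (h : ¬ Cmp (P.ph s (d :: a)) (P.ph s ((!d) :: b))) :
    ∃ a' b', P.ph s (d :: a) = P.gm s ++ d :: a' ∧ P.ph s ((!d) :: b) = P.gm s ++ (!d) :: b' := by
  cases d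
  · rcases P.fold s b a with h1 | ⟨a', b', h1, h2⟩
    · exact absurd (Or.symm h1) h
    · exact ⟨b', a', h2, h1⟩
  · rcases P.fold s a b with h1 | ⟨a', b', h1, h2⟩
    · exact absurd h1 h
    · exact ⟨a', b', h1, h2⟩

theorem PA2_psi_spec (P : PairData θ) {t : PA2_T V} (ht : PA2_H t)
    (h : ¬ Cmp (PA2_phi P t).2.1 (PA2_phi P t).2.2) :
    PA2_H (PA2_psi P t) ∧ P.ph t.1 t.2.1 = P.gm t.1 ++ (PA2_psi P t).2.1 ∧
      P.ph t.1 t.2.2 = P.gm t.1 ++ (PA2_psi P t).2.2 ∧
      (PA2_psi P t).2.1.getLast? = t.2.1.getLast? ∧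
      (PA2_psi P t).2.2.getLast? = t.2.2.getLast? := by
  obtain ⟨d, a, b, ha, hb⟩ := ht
  simp only [PA2_phi, ha, hb] at h
  obtain ⟨a', b', h1, h2⟩ := PA2_fold P h
  have e1 : (PA2_psi P t).2.1 = d :: a' := by simp [PA2_psi, ha, h1]
  have e2 : (PA2_psi P t).2.2 = (!d) :: b' := by simp [PA2_psi, hb, h2]
  refine ⟨⟨d, a', b', e1, e2⟩, by rw [e1, ha, h1], by rw [e2, hb, h2], ?_, ?_⟩
  · rw [← P.last t.1 t.2.1, e1, ha, h1, List.getLast?_append]; rfl
  · rw [← P.last t.1 t.2.2, e2, hb, h2, List.getLast?_append]; rfl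

theorem PA2_final (P : PairData θ) {l : V → Bool → ℝ} (hl : ∀ s e, 0 < l s e) {u : ℝ}
    (hL : ∀ s w, acoc p l s (ap θ s w) = u * acoc p l s w) {s : V} {d : Bool} {a : List Bool}
    (h : acoc p l s (pw (d :: a)) = acoc p l s (pw [d, !d])) : a = [!d] := by
  rw [PA2_L_cons, PA2_L_cons s d, add_right_inj] at h
  rcases a with _ | ⟨e, a⟩
  · have := PA2_L_zero hl (s := p d s) (a := [!d]) (by rw [← h, pw_nil, (acoc_isAC p l).one])
    simp at this
  · by_cases he : e = d
    · subst he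
      have h1 := PA2_cmp_eq (p := p) hl (s := p e s) (P.van (p e s) e a)
        (by rw [← P.ap_pw, ← P.ap_pw, hL, hL, h])
      have h2 : pw [!e] = pw (e :: a) := by
        apply ap_injective θ (p e s)
        rw [P.ap_pw, P.ap_pw, h1]
      exact (PA2_pw_inj h2).symm
    · have he' : e = !d := by cases e <;> cases d <;> simp_all
      subst he'
      rw [PA2_L_cons, PA2_L_cons _ (!d), add_right_inj, pw_nil, (acoc_isAC p l).one] at h
      rw [PA2_L_zero hl h]

theorem PA2_noCmp {l : V → Bool → ℝ} (hl : ∀ s e, 0 < l s e) {v : V} {w : F2} (hw : w ≠ 1)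
    (h0 : acoc p l v w = 0) {Z : List (PA2_T V)} (hZ : PA2_Rep p v w Z)
    (hmin : ∀ Y, PA2_Rep p v w Y → Z.length ≤ Y.length) :
    ∀ t ∈ Z, ¬ Cmp t.2.1 t.2.2 := by
  have one : ∀ (s : V) (a b : List Bool), PA2_Rep p v w [(s, a, b)] → a = [] ∨ b = [] → False := by
    intro s a b h hab
    have h1 := PA2_L_one (l := l) h
    have h2 : a = [] ∧ b = [] := by
      rcases hab with rfl | rfl
      · rw [pw_nil, (acoc_isAC p l).one] at h1
        exact ⟨rfl, PA2_L_zero hl (s := s) (by linarith)⟩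
      · rw [pw_nil, (acoc_isAC p l).one] at h1
        exact ⟨PA2_L_zero hl (s := s) (by linarith), rfl⟩
    obtain ⟨rfl, rfl⟩ := h2
    obtain ⟨g, -, h3⟩ := h
    exact hw (by simpa using h3)
  rintro ⟨s, a, b⟩ ht hc
  obtain ⟨Z1, Z2, rfl⟩ := List.append_of_mem ht
  have h1 : PA2_Rep p v w ((s, a, b) :: (Z2 ++ Z1)) := PA2_rot hZ
  have hlen : (Z1 ++ (s, a, b) :: Z2).length = (Z2 ++ Z1).length + 1 := by
    simp only [List.length_append, List.length_cons]; omega
  rw [hlen] at hmin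
  generalize Z2 ++ Z1 = Y at h1 hmin
  rcases hc with ⟨c, hc⟩ | ⟨c, hc⟩
  · simp only at hc
    subst hc
    have h2 := PA2_cancel (c := a) (a := []) (b := c) (by simpa using h1)
    rcases List.eq_nil_or_concat Y with rfl | ⟨Y', ⟨s', a', b'⟩, rfl⟩
    · exact one _ _ _ h2 (Or.inl rfl)
    · have h3 := PA2_rot (Z := (act p s (pw a), [], c) :: Y') (Y := [(s', a', b')])
        (by simpa using h2)
      have := hmin _ (PA2_mergeR h3)
      simp at this
  · simp only at hc
    subst hc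
    have h2 := PA2_cancel (c := b) (a := c) (b := []) (by simpa using h1)
    rcases Y with _ | ⟨⟨s', a', b'⟩, Y'⟩
    · exact one _ _ _ h2 (Or.inr rfl)
    · have := hmin _ (PA2_mergeL h2)
      simp at this

theorem PA2_normal {v : V} {w : F2} {Z : List (PA2_T V)} (hZ : PA2_Rep p v w Z)
    (hc : ∀ t ∈ Z, ¬ Cmp t.2.1 t.2.2)
    (hmin : ∀ Y, PA2_Rep p v w Y → Y.length = Z.length → PA2_tl Z ≤ PA2_tl Y) : PA2_N Z := by
  have hne : ∀ t ∈ Z, t.2.1 ≠ [] := fun t ht h => hc t ht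
    (Or.inl ⟨t.2.2, by rw [h]; rfl⟩)
  have two : ∀ (t t' : PA2_T V) (Y : List (PA2_T V)), PA2_Rep p v w (t :: t' :: Y) →
      (t :: t' :: Y).length = Z.length → PA2_tl (t :: t' :: Y) = PA2_tl Z → t'.2.1 ≠ [] →
      t.2.2.getLast? ≠ t'.2.1.getLast? := by
    rintro ⟨s, a, b⟩ ⟨s', a', b'⟩ Y h1 h2 h3 h4 h5
    simp only at h4 h5
    obtain ⟨a'', e, rfl⟩ := (List.eq_nil_or_concat a').resolve_left h4
    rw [List.concat_eq_append, List.getLast?_concat] at h5
    obtain ⟨b'', rfl⟩ := List.getLast?_eq_some_iff.1 h5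
    rw [List.concat_eq_append] at h1 h3
    have := hmin _ (PA2_cancelEnd h1) (by simpa using h2)
    simp only [PA2_tl_cons, List.length_append, List.length_singleton] at this h3
    omega
  have hch : Z.IsChain fun t t' => t.2.2.getLast? ≠ t'.2.1.getLast? := by
    refine List.isChain_iff_forall_rel_of_append_cons_cons.2 fun t t' Z1 Z2 h => ?_
    subst h
    refine two t t' (Z2 ++ Z1) (PA2_rot hZ) ?_ ?_ (hne t' (by simp))
    · simp only [List.length_append, List.length_cons]; omega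
    · simp only [PA2_tl_append, PA2_tl_cons]; omega
  refine ⟨?_, List.isChain_append.2 ⟨hch, hch, ?_⟩⟩
  · rintro ⟨s, a, b⟩ ht
    have h1 := hc _ ht
    rcases a with _ | ⟨d, a⟩
    · exact absurd (Or.inl ⟨_, rfl⟩) h1
    rcases b with _ | ⟨e, b⟩
    · exact absurd (Or.inr ⟨_, rfl⟩) h1
    by_cases he : e = d
    · subst he
      exfalso
      obtain ⟨Z1, Z2, rfl⟩ := List.append_of_mem ht
      have h2 := PA2_cancel (c := [e]) (a := a) (b := b) (Y := Z2 ++ Z1) (PA2_rot hZ)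
      have := hmin _ h2 (by simp only [List.length_append, List.length_cons]; omega)
      simp only [PA2_tl_append, PA2_tl_cons, List.length_cons] at this
      omega
    · exact ⟨d, a, b, rfl, by clear * - he; cases e <;> cases d <;> simp_all⟩
  · intro t ht t' ht'
    obtain ⟨Y, rfl⟩ := List.head?_eq_some_iff.1 ht'
    rcases List.eq_nil_or_concat Y with rfl | ⟨Y', t'', rfl⟩
    · obtain ⟨s, a, b⟩ := t'
      have : (s, a, b) = t := by simpa using ht
      subst this
      intro h5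
      simp only at h5
      obtain ⟨a'', e, rfl⟩ := (List.eq_nil_or_concat a).resolve_left (hne (s, a, b) (by simp))
      rw [List.concat_eq_append, List.getLast?_concat] at h5
      obtain ⟨b'', rfl⟩ := List.getLast?_eq_some_iff.1 h5
      rw [List.concat_eq_append] at hZ hmin
      have := hmin _ (PA2_cancelOne hZ) rfl
      simp only [PA2_tl_cons, List.length_append, List.length_singleton] at this
      omega
    · have : t'' = t := by
        rw [List.concat_eq_append, ← List.cons_append, List.getLast?_concat] at ht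
        simpa using ht
      subst this
      refine two t'' t' Y' (PA2_rot (Z := t' :: Y') (Y := [t'']) (by simpa using hZ)) ?_ ?_
        (hne t' (by simp))
      · simp
      · simp only [List.concat_eq_append, PA2_tl_append, PA2_tl_cons, PA2_tl_nil]; omega

theorem PA2_step (P : PairData θ) {v : V} {w : F2} {Z : List (PA2_T V)} (hZ : PA2_Rep p v w Z)
    (hN : PA2_N Z) (hc : ∀ t ∈ Z.map (PA2_phi P), ¬ Cmp t.2.1 t.2.2) :
    PA2_Rep p v (ap θ v w) (Z.map (PA2_psi P)) ∧ PA2_N (Z.map (PA2_psi P)) := by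
  have sp := fun t ht => PA2_psi_spec P (hN.1 t ht) (hc _ (List.mem_map_of_mem ht))
  refine ⟨?_, ?_, ?_⟩
  · obtain ⟨i1, i2⟩ := PA2_map_congr (p := p) (f := PA2_phi P) (f' := PA2_psi P) (Z := Z)
      fun t ht => by
        obtain ⟨-, h1, h2, -⟩ := sp t ht
        refine ⟨?_, ?_, ?_⟩
        · change act p t.1 (pw (P.ph t.1 t.2.1)) = act p t.1 _
          rw [h1, pw_append, act_mul, P.act_gm]
        · change act p t.1 (pw (P.ph t.1 t.2.2)) = act p t.1 _
          rw [h2, pw_append, act_mul, P.act_gm]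
        · change (pw (P.ph t.1 t.2.1))⁻¹ * pw (P.ph t.1 t.2.2) = _
          rw [h1, h2, pw_append, pw_append]; group
    have := PA2_congr (Y := []) i1 i2 (by simpa using PA2_rep_phi P hZ)
    simpa using this
  · intro t' ht'
    obtain ⟨t, ht, rfl⟩ := List.mem_map.1 ht'
    exact (sp t ht).1
  · rw [← List.map_append, List.isChain_map]
    refine hN.2.imp_of_mem_imp fun t t' ht ht' h => ?_
    rw [(sp t (by simpa using ht)).2.2.2.2, (sp t' (by simpa using ht')).2.2.2.1]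
    exact h

theorem PA2_le_tl {Z : List (PA2_T V)} {t : PA2_T V} (ht : t ∈ Z) :
    t.2.1.length ≤ PA2_tl Z ∧ t.2.2.length ≤ PA2_tl Z := by
  obtain ⟨Z1, Z2, rfl⟩ := List.append_of_mem ht
  simp only [PA2_tl_append, PA2_tl_cons]; omega

theorem PA2_geom {u x c B : ℝ} (hu : 1 < u) {n : ℕ} (hn : 0 < n)
    (h : ∀ i : ℕ, 0 ≤ u ^ (n * i) * x + c ∧ u ^ (n * i) * x + c ≤ B) : x = 0 := by
  by_contra hx
  have hx' : 0 < |x| := abs_pos.2 hx
  have hun : 1 < u ^ n := one_lt_pow₀ hu hn.ne'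
  obtain ⟨i, hi⟩ := pow_unbounded_of_one_lt ((|B| + |c|) / |x|) hun
  rw [div_lt_iff₀ hx', ← pow_mul] at hi
  obtain ⟨h1, h2⟩ := h i
  have hp : 0 < u ^ (n * i) := by positivity
  have e : u ^ (n * i) * |x| = |u ^ (n * i) * x| := by rw [abs_mul, abs_of_pos hp]
  rw [e] at hi
  have := le_abs_self B
  have := le_abs_self c
  have := neg_abs_le c
  have := abs_nonneg B
  rcases abs_cases (u ^ (n * i) * x) with ⟨h3, -⟩ | ⟨h3, -⟩ <;> linarith

theorem PA2_main [Finite V] (P : PairData θ) {l : V → Bool → ℝ} (hl : ∀ s e, 0 < l s e) {u : ℝ}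
    (hu : 1 < u) (hL : ∀ s w, acoc p l s (ap θ s w) = u * acoc p l s w) {v : V} {n : ℕ}
    (hn : 0 < n) (K : ℕ → F2) (hK : ∀ m, K (m + 1) = ap θ v (K m)) (hne : ∀ m, K m ≠ 1)
    (h0 : ∀ m, acoc p l v (K m) = 0) (hloop : act p v (K 0) = v)
    (hback : ∀ i Z, PA2_Rep p v (K (n * i)) Z → PA2_Rep p v (K 0) Z) :
    ∃ (g : F2) (j : ℤ), K 0 = g * kap ^ j * g⁻¹ := by
  classical
  have ex : ∃ ν, ∃ m Z, PA2_Rep p v (K m) Z ∧ Z.length = ν := by
    obtain ⟨Z, h1, h2⟩ := PA2_exists (p := p) v (K 0)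
    exact ⟨_, 0, Z, ⟨1, by simpa [hloop] using h1, by simp [h2]⟩, rfl⟩
  have hmin : ∀ m Z, PA2_Rep p v (K m) Z → Nat.find ex ≤ Z.length :=
    fun m Z h => Nat.find_min' ex ⟨m, Z, h, rfl⟩
  have up : ∀ j m Z, PA2_Rep p v (K m) Z →
      ∃ Z', PA2_Rep p v (K (m + j)) Z' ∧ Z'.length = Z.length := by
    intro j m Z h
    induction j with
    | zero => exact ⟨Z, h, rfl⟩
    | succ j ih =>
      obtain ⟨Z', h1, h2⟩ := ih
      exact ⟨_, by rw [← add_assoc, hK]; exact PA2_rep_phi P h1, by simpa using h2⟩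
  have ex0 : ∃ τ, ∃ Z, PA2_Rep p v (K 0) Z ∧ Z.length = Nat.find ex ∧ PA2_tl Z = τ := by
    obtain ⟨m, Z, h1, h2⟩ := Nat.find_spec ex
    obtain ⟨Z', h3, h4⟩ := up (n * m - m) m Z h1
    have : m ≤ n * m := Nat.le_mul_of_pos_left m hn
    rw [show m + (n * m - m) = n * m by omega] at h3
    exact ⟨_, Z', hback _ _ h3, h4.trans h2, rfl⟩
  have noCmp : ∀ m Z, PA2_Rep p v (K m) Z → Z.length = Nat.find ex →
      ∀ t ∈ Z, ¬ Cmp t.2.1 t.2.2 := fun m Z h1 h2 =>
    PA2_noCmp hl (hne m) (h0 m) h1 fun Y hY => h2 ▸ hmin m Y hY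
  obtain ⟨Z, hZ, hlen, htl⟩ := Nat.find_spec ex0
  have hN : PA2_N Z := PA2_normal hZ (noCmp 0 Z hZ hlen) fun Y h1 h2 =>
    htl ▸ Nat.find_min' ex0 ⟨Y, h1, h2.trans hlen, rfl⟩
  have hG : ∀ s d, acoc p l s (pw (P.gm s)) = (u - 1) * acoc p l s (pw [d, !d]) := by
    intro s d
    have := hL s (pw [d, !d])
    rw [P.ap_pw, P.comm, pw_append, acoc_isAC, P.act_gm] at this
    linarith
  have prop : ∀ m, PA2_Rep p v (K m) (Z.map (PA2_psi P)^[m]) ∧ PA2_N (Z.map (PA2_psi P)^[m]) ∧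
      ∀ t ∈ Z, ((PA2_psi P)^[m] t).1 = t.1 ∧ ∀ d,
        acoc p l t.1 (pw ((PA2_psi P)^[m] t).2.1) =
          u ^ m * (acoc p l t.1 (pw t.2.1) - acoc p l t.1 (pw [d, !d])) +
            acoc p l t.1 (pw [d, !d]) ∧
        acoc p l t.1 (pw ((PA2_psi P)^[m] t).2.2) =
          u ^ m * (acoc p l t.1 (pw t.2.2) - acoc p l t.1 (pw [d, !d])) +
            acoc p l t.1 (pw [d, !d]) := by
    intro m
    induction m with
    | zero => exact ⟨by simpa using hZ, by simpa using hN, fun t _ => ⟨rfl, fun d => by simp⟩⟩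
    | succ m ih =>
      obtain ⟨i1, i2, i3⟩ := ih
      have hc := noCmp (m + 1) _ (by rw [hK]; exact PA2_rep_phi P i1) (by simpa using hlen)
      obtain ⟨j1, j2⟩ := PA2_step P i1 i2 hc
      rw [List.map_map, ← Function.iterate_succ'] at j1 j2
      refine ⟨by rw [hK]; exact j1, j2, fun t ht => ?_⟩
      obtain ⟨k1, k2⟩ := i3 t ht
      have hm : (PA2_psi P)^[m] t ∈ Z.map (PA2_psi P)^[m] := List.mem_map_of_mem ht
      obtain ⟨-, s1, s2, -⟩ := PA2_psi_spec P (i2.1 _ hm) (hc _ (List.mem_map_of_mem hm))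
      rw [Function.iterate_succ_apply']
      refine ⟨k1, fun d => ?_⟩
      obtain ⟨k3, k4⟩ := k2 d
      have e1 := hL t.1 (pw ((PA2_psi P)^[m] t).2.1)
      have e2 := hL t.1 (pw ((PA2_psi P)^[m] t).2.2)
      rw [k1] at s1 s2
      rw [P.ap_pw, s1, pw_append, acoc_isAC, P.act_gm, hG _ d, k3] at e1
      rw [P.ap_pw, s2, pw_append, acoc_isAC, P.act_gm, hG _ d, k4] at e2
      constructor
      · rw [pow_succ]; linarith
      · rw [pow_succ]; linarith
  obtain ⟨M, hM⟩ : ∃ M : ℝ, ∀ s e, l s e ≤ M := by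
    obtain ⟨M, hM⟩ := (Set.finite_range fun x : V × Bool => l x.1 x.2).bddAbove
    exact ⟨M, fun s e => hM ⟨(s, e), rfl⟩⟩
  have hM0 : 0 ≤ M := (hl v true).le.trans (hM v true)
  have bd : ∀ (s : V) (a : List Bool), a.length ≤ FreeGroup.norm (K 0) →
      acoc p l s (pw a) ≤ M * FreeGroup.norm (K 0) := fun s a ha =>
    (PA2_L_le hM s a).trans (mul_le_mul_of_nonneg_left (by exact_mod_cast ha) hM0)
  have key : ∀ t ∈ Z, (pw t.2.1)⁻¹ * pw t.2.2 ∈ Subgroup.zpowers kap := by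
    intro t ht
    have hb : ∀ i, ((PA2_psi P)^[n * i] t).2.1.length ≤ FreeGroup.norm (K 0) ∧
        ((PA2_psi P)^[n * i] t).2.2.length ≤ FreeGroup.norm (K 0) := by
      intro i
      have h1 := PA2_bound (hback i _ (prop (n * i)).1) (prop (n * i)).2.1
      have h2 := PA2_le_tl (List.mem_map_of_mem (f := (PA2_psi P)^[n * i]) ht)
      exact ⟨h2.1.trans h1, h2.2.trans h1⟩
    have ha : ∀ d, acoc p l t.1 (pw t.2.1) - acoc p l t.1 (pw [d, !d]) = 0 := fun d =>
      PA2_geom (c := acoc p l t.1 (pw [d, !d])) (B := M * FreeGroup.norm (K 0)) hu hn fun i => by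
        rw [← (((prop (n * i)).2.2 t ht).2 d).1]
        exact ⟨PA2_L_nonneg hl _ _, bd _ _ (hb i).1⟩
    have hb' : ∀ d, acoc p l t.1 (pw t.2.2) - acoc p l t.1 (pw [d, !d]) = 0 := fun d =>
      PA2_geom (c := acoc p l t.1 (pw [d, !d])) (B := M * FreeGroup.norm (K 0)) hu hn fun i => by
        rw [← (((prop (n * i)).2.2 t ht).2 d).2]
        exact ⟨PA2_L_nonneg hl _ _, bd _ _ (hb i).2⟩
    obtain ⟨d, a, b, e1, e2⟩ := hN.1 t ht
    have f1 := ha d
    have f2 := hb' (!d)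
    rw [e1, sub_eq_zero] at f1
    rw [e2, sub_eq_zero] at f2
    rw [e1, e2, PA2_final P hl hL f1, PA2_final P hl hL f2]
    cases d
    · refine ⟨-1, ?_⟩
      simp only [kap, pw_cons, pw_nil, Bool.not_false, Bool.not_true]; group
    · refine ⟨1, ?_⟩
      simp only [kap, pw_cons, pw_nil, Bool.not_false, Bool.not_true]; group
  have hz : PA2_zw Z ∈ Subgroup.zpowers kap := by
    refine Subgroup.list_prod_mem _ fun x hx => ?_
    obtain ⟨t, ht, rfl⟩ := List.mem_map.1 hx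
    exact key t ht
  obtain ⟨j, hj⟩ := hz
  obtain ⟨g, -, hg⟩ := hZ
  exact ⟨g, j, by rw [hg, ← hj]⟩

end Main

theorem PairData.periodic {V : Type} [Finite V] {p : Bool → Perm V} {θ : GAut p}
    (P : PairData θ) {l : V → Bool → ℝ} (hl : ∀ s e, 0 < l s e) {u : ℝ} (hu : 1 < u)
    (hL : ∀ s w, acoc p l s (ap θ s w) = u * acoc p l s w) {s₀ : V} {n : ℕ} (hn : 0 < n)
    (k : stab p s₀) (h : IsConj ((res s₀ θ)^[n] k) k) :
    ∃ (g : F2) (j : ℤ), (k : F2) = g * kap ^ j * g⁻¹ := by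
  by_cases hk : k = 1
  · exact ⟨1, 0, by simp [hk]⟩
  have hit : ∀ (m : ℕ) (x y : stab p s₀), IsConj x y →
      IsConj ((res s₀ θ)^[m] x) ((res s₀ θ)^[m] y) := by
    intro m x y hxy
    induction m with
    | zero => exact hxy
    | succ m ih =>
      rw [Function.iterate_succ_apply', Function.iterate_succ_apply']
      exact (res s₀ θ).toMonoidHom.map_isConj ih
  have hc : ∀ i, IsConj ((res s₀ θ)^[n * i] k) k := by
    intro i
    induction i with
    | zero => exact IsConj.refl _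
    | succ i ih =>
      rw [Nat.mul_succ, Function.iterate_add_apply]
      exact (hit _ _ _ h).trans ih
  have hc' : ∀ i, ∃ c : F2, act p s₀ c = s₀ ∧
      (k : F2) = c * ((res s₀ θ)^[n * i] k : stab p s₀) * c⁻¹ := by
    intro i
    obtain ⟨c, hc⟩ := isConj_iff.1 (hc i)
    exact ⟨c, c.2, by simpa using congrArg Subtype.val hc.symm⟩
  have hK : ∀ m, (((res s₀ θ)^[m + 1] k : stab p s₀) : F2) =
      ap θ s₀ ((res s₀ θ)^[m] k : stab p s₀) := by
    intro m
    rw [Function.iterate_succ_apply']; rfl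
  have hLm : ∀ m, acoc p l s₀ ((res s₀ θ)^[m] k : stab p s₀) = u ^ m * acoc p l s₀ k := by
    intro m
    induction m with
    | zero => simp
    | succ m ih => rw [hK, hL, ih, pow_succ]; ring
  have hL0 : acoc p l s₀ k = 0 := by
    obtain ⟨c, h1, h2⟩ := hc' 1
    have h3 := hLm (n * 1)
    have h4 : act p s₀ (((res s₀ θ)^[n * 1] k : stab p s₀) : F2) = s₀ :=
      ((res s₀ θ)^[n * 1] k).2
    have h5 : acoc p l s₀ k = acoc p l s₀ ((res s₀ θ)^[n * 1] k : stab p s₀) := by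
      have h6 := (acoc_isAC p l).inv s₀ c
      rw [h1] at h6
      conv_lhs => rw [h2]
      rw [acoc_isAC, acoc_isAC, act_mul, h1, h4, h6]
      ring
    have hun : 1 < u ^ (n * 1) := one_lt_pow₀ hu (by omega)
    have : (u ^ (n * 1) - 1) * acoc p l s₀ k = 0 := by linarith
    rcases mul_eq_zero.1 this with h7 | h7
    · linarith
    · exact h7
  refine PA2_main P hl hu hL hn (fun m => ((res s₀ θ)^[m] k : stab p s₀)) hK ?_ ?_ k.2 ?_
  · intro m hm
    apply hk
    apply (res s₀ θ).injective.iterate m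
    rw [Function.iterate_fixed (map_one _)]
    exact Subtype.ext hm
  · intro m
    simp only [hLm, hL0, mul_zero]
  · intro i Z hZ
    obtain ⟨c, h1, h2⟩ := hc' i
    have := PA2_conj hZ h1
    rw [← h2] at this
    exact this

end Pool.Agent.Work.MP_1b9dce_gt
end
end

-- merged part: Pool.Agent.Work.MP_1b9dce_gt.Main
section
-- merged part: Pool.Agent.Work.MP_1b9dce_gt.Schreier
section
namespace Pool.Agent.Work.MP_1b9dce_gt

open Equiv
open FreeGroup (of)

/-- The class defined by edge labels. -/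
def Schreier_rho {X : Type} (p : Bool → Perm X) (x₀ : X) :
    (X → Bool → ℝ) →ₗ[ℝ] H1 (stab p x₀) where
  toFun σ := ⟨fun k => acoc p σ x₀ k.1, fun a b => by
    have h := acoc_isAC p σ x₀ a.1 b.1
    rw [show act p x₀ a.1 = x₀ from a.2] at h
    exact h⟩
  map_add' σ τ := Subtype.ext (funext fun k => IsAC.ext (acoc_isAC p (σ + τ))
    (θ' := fun s w => acoc p σ s w + acoc p τ s w)
    (fun s w w' => by simp only [acoc_isAC p σ s w w', acoc_isAC p τ s w w']; ring)
    (fun s e => by simp) x₀ k.1)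
  map_smul' c σ := Subtype.ext (funext fun k => IsAC.ext (acoc_isAC p (c • σ))
    (θ' := fun s w => c * acoc p σ s w)
    (fun s w w' => by simp only [acoc_isAC p σ s w w']; ring)
    (fun s e => by simp) x₀ k.1)

/-- The coboundary. -/
def Schreier_cob {X : Type} (p : Bool → Perm X) : (X → ℝ) →ₗ[ℝ] (X → Bool → ℝ) where
  toFun g := fun x e => g (p e x) - g x
  map_add' g h := by funext x e; simp only [Pi.add_apply]; ring
  map_smul' c g := by funext x e; simp only [Pi.smul_apply, smul_eq_mul, RingHom.id_apply]; ring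

theorem Schreier_acoc_cob {X : Type} (p : Bool → Perm X) (g : X → ℝ) (x : X) (w : F2) :
    acoc p (Schreier_cob p g) x w = g (act p x w) - g x :=
  IsAC.ext (acoc_isAC p _) (θ' := fun s w => g (act p s w) - g s)
    (fun s w w' => by simp only [act_mul]; ring) (fun s e => by simp [Schreier_cob]) x w

theorem Schreier_delta {X : Type} {p : Bool → Perm X} {x₀ : X} (htr : Trans p x₀) :
    ∃ δ : X → F2, (∀ x, act p x₀ (δ x) = x) ∧ δ x₀ = 1 := by
  classical
  choose δ hδ using htr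
  refine ⟨fun x => if x = x₀ then 1 else δ x, fun x => ?_, if_pos rfl⟩
  by_cases h : x = x₀
  · simp only [if_pos h]
    rw [h, act_one]
  · simp only [if_neg h]
    exact hδ x

theorem Schreier_mem {X : Type} {p : Bool → Perm X} {x₀ : X} {δ : X → F2}
    (hδ : ∀ x, act p x₀ (δ x) = x) (x : X) (w : F2) :
    δ x * w * (δ (act p x w))⁻¹ ∈ stab p x₀ := by
  rw [mem_stab, act_mul, act_mul, hδ]
  conv_lhs => rw [← hδ (act p x w)]
  rw [hδ (act p x w)]
  conv_lhs => enter [2]; rw [← hδ (act p x w)]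
  exact act_act_inv p _ _

theorem Schreier_surj {X : Type} {p : Bool → Perm X} {x₀ : X} (htr : Trans p x₀) :
    Function.Surjective (Schreier_rho p x₀) := by
  obtain ⟨δ, hδ, h0⟩ := Schreier_delta htr
  intro α
  let θ : X → F2 → ℝ := fun x w => α.1 ⟨δ x * w * (δ (act p x w))⁻¹, Schreier_mem hδ x w⟩
  have hθ : IsAC p θ := fun s w w' => by
    simp only [θ]
    rw [← α.2]
    refine congrArg α.1 (Subtype.ext ?_)
    simp only [Subgroup.coe_mul, act_mul]
    group
  refine ⟨fun x e => θ x (of e), Subtype.ext (funext fun k => ?_)⟩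
  refine (IsAC.ext (acoc_isAC p _) hθ (fun s e => by simp) x₀ k.1).trans ?_
  simp only [θ]
  refine congrArg α.1 (Subtype.ext ?_)
  simp only [show act p x₀ k.1 = x₀ from k.2, h0, one_mul, inv_one, mul_one]

theorem Schreier_ker {X : Type} {p : Bool → Perm X} {x₀ : X} (htr : Trans p x₀) :
    LinearMap.ker (Schreier_rho p x₀) = LinearMap.range (Schreier_cob p) := by
  obtain ⟨δ, hδ, -⟩ := Schreier_delta htr
  ext σ
  constructor
  · intro h
    have h1 : ∀ k ∈ stab p x₀, acoc p σ x₀ k = 0 := fun k hk =>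
      congrFun (congrArg Subtype.val (LinearMap.mem_ker.1 h)) ⟨k, hk⟩
    refine ⟨fun x => acoc p σ x₀ (δ x), funext fun x => funext fun e => ?_⟩
    have h2 := h1 _ (Schreier_mem hδ x (of e))
    have h3 := acoc_isAC p σ x₀ (δ x * of e * (δ (act p x (of e)))⁻¹) (δ (act p x (of e)))
    rw [h2, show act p x₀ _ = x₀ from Schreier_mem hδ x (of e), inv_mul_cancel_right,
      acoc_isAC p σ, hδ, acoc_of, act_of] at h3
    change acoc p σ x₀ (δ (p e x)) - acoc p σ x₀ (δ x) = σ x e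
    linarith
  · rintro ⟨g, rfl⟩
    refine LinearMap.mem_ker.2 (Subtype.ext (funext fun k => ?_))
    change acoc p (Schreier_cob p g) x₀ k.1 = 0
    rw [Schreier_acoc_cob, show act p x₀ k.1 = x₀ from k.2, sub_self]

theorem Schreier_ker_cob {X : Type} {p : Bool → Perm X} {x₀ : X} (htr : Trans p x₀) :
    LinearMap.ker (Schreier_cob p) = Submodule.span ℝ {fun _ => (1 : ℝ)} := by
  ext g
  rw [Submodule.mem_span_singleton]
  constructor
  · intro h
    refine ⟨g x₀, funext fun x => ?_⟩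
    obtain ⟨w, rfl⟩ := htr x
    have h1 := Schreier_acoc_cob p g x₀ w
    have h2 : acoc p (0 : X → Bool → ℝ) x₀ w = 0 :=
      IsAC.ext (acoc_isAC p _) (θ' := fun _ _ => 0) (fun _ _ _ => by simp) (fun s e => by simp) x₀ w
    rw [LinearMap.mem_ker.1 h, h2] at h1
    simp only [Pi.smul_apply, smul_eq_mul, mul_one]
    linarith
  · rintro ⟨c, rfl⟩
    refine LinearMap.mem_ker.2 (funext fun x => funext fun e => ?_)
    simp [Schreier_cob]

theorem finrank_H1_stab {X : Type} [Fintype X] (p : Bool → Perm X) (x₀ : X) (htr : Trans p x₀) :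
    Module.finrank ℝ (H1 (stab p x₀)) = Fintype.card X + 1 := by
  have h1 := LinearMap.finrank_range_add_finrank_ker (Schreier_rho p x₀)
  have h2 := LinearMap.finrank_range_add_finrank_ker (Schreier_cob p)
  have h3 : (fun _ : X => (1 : ℝ)) ≠ 0 := fun h => one_ne_zero (congrFun h x₀)
  rw [LinearMap.range_eq_top.2 (Schreier_surj htr), finrank_top, Schreier_ker htr,
    Module.finrank_pi_fintype] at h1
  rw [Schreier_ker_cob htr, finrank_span_singleton h3, Module.finrank_fintype_fun_eq_card] at h2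
  simp only [Module.finrank_fintype_fun_eq_card, Fintype.card_bool, Finset.sum_const,
    Finset.card_univ, smul_eq_mul] at h1
  omega

theorem stab_fg {X : Type} [Finite X] (p : Bool → Perm X) (x₀ : X) : Group.FG (stab p x₀) := by
  have h : (FreeGroup.lift fun e => (p e)⁻¹ : F2 →* Perm X).ker ≤ stab p x₀ := fun w hw => by
    rw [mem_stab, act, MonoidHom.mem_ker.1 hw]
    rfl
  have : (stab p x₀).FiniteIndex := Subgroup.finiteIndex_of_le h
  infer_instance

theorem finrank_H1_congr {G G' : Type} [Group G] [Group G'] (e : G ≃* G') :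
    Module.finrank ℝ (H1 G) = Module.finrank ℝ (H1 G') :=
  LinearEquiv.finrank_eq
    { toFun := fun α => ⟨fun g => α.1 (e.symm g), fun a b => by simp only [map_mul, α.2 _ _]⟩
      invFun := fun α => ⟨fun g => α.1 (e g), fun a b => by simp only [map_mul, α.2 _ _]⟩
      map_add' := fun _ _ => rfl
      map_smul' := fun _ _ => rfl
      left_inv := fun α => Subtype.ext (funext fun g => by simp)
      right_inv := fun α => Subtype.ext (funext fun g => by simp) }

end Pool.Agent.Work.MP_1b9dce_gt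
end

-- merged part: Pool.Agent.Work.MP_1b9dce_gt.NFG
section
namespace Pool.Agent.Work.MP_1b9dce_gt

open Equiv
open FreeGroup (of)

theorem NFG_one {G : Type} [Group G] {χ L : G → ℝ} (h0 : ∀ g, 0 < χ g)
    (h1 : ∀ a b, χ (a * b) = χ a * χ b) (h2 : ∀ a b, L (a * b) = L a + χ a * L b) :
    χ 1 = 1 ∧ L 1 = 0 := by
  have e1 : χ 1 = 1 := by
    have := h1 1 1
    rw [mul_one] at this
    have h := (h0 1).ne'
    field_simp at this
    exact this.symm
  refine ⟨e1, ?_⟩
  have := h2 1 1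
  rw [mul_one, e1] at this
  linarith

theorem NFG_bound {G : Type} [Group G] (S : Finset G) (X : G → ℝ) (k : G)
    (hk : k ∈ Subgroup.closure (S : Set G)) :
    ∃ C : ℝ, 0 ≤ C ∧ ∀ (χ L : G → ℝ) (M : ℝ), (∀ g, 0 < χ g) →
      (∀ a b, χ (a * b) = χ a * χ b) → (∀ a b, L (a * b) = L a + χ a * L b) →
      (∀ g ∈ Subgroup.closure (S : Set G), χ g ≤ X g) → (∀ b ∈ S, |L b| ≤ M) →
      |L k| ≤ C * M := by
  induction hk using Subgroup.closure_induction with
  | mem x hx => exact ⟨1, zero_le_one, fun χ L M _ _ _ _ h => by simpa using h x hx⟩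
  | one =>
    refine ⟨0, le_rfl, fun χ L M h0 h1 h2 _ _ => ?_⟩
    rw [(NFG_one h0 h1 h2).2]; simp
  | mul a b ha hb iha ihb =>
    obtain ⟨Ca, hCa, ia⟩ := iha
    obtain ⟨Cb, hCb, ib⟩ := ihb
    refine ⟨Ca + |X a| * Cb, by positivity, fun χ L M h0 h1 h2 h3 h4 => ?_⟩
    have e1 := ia χ L M h0 h1 h2 h3 h4
    have e2 := ib χ L M h0 h1 h2 h3 h4
    have e3 : χ a ≤ |X a| := (h3 a ha).trans (le_abs_self _)
    rw [h2]
    calc |L a + χ a * L b| ≤ |L a| + χ a * |L b| := by
          refine (abs_add_le _ _).trans ?_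
          rw [abs_mul, abs_of_pos (h0 a)]
      _ ≤ Ca * M + |X a| * (Cb * M) := by
          refine add_le_add e1 (mul_le_mul e3 e2 (abs_nonneg _) (abs_nonneg _))
      _ = (Ca + |X a| * Cb) * M := by ring
  | inv a ha iha =>
    obtain ⟨Ca, hCa, ia⟩ := iha
    refine ⟨|X a⁻¹| * Ca, by positivity, fun χ L M h0 h1 h2 h3 h4 => ?_⟩
    have e1 := ia χ L M h0 h1 h2 h3 h4
    have e3 : χ a⁻¹ ≤ |X a⁻¹| := (h3 a⁻¹ (Subgroup.inv_mem _ ha)).trans (le_abs_self _)
    have e4 := h2 a⁻¹ a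
    rw [inv_mul_cancel, (NFG_one h0 h1 h2).2] at e4
    have e5 : L a⁻¹ = -(χ a⁻¹ * L a) := by linarith
    rw [e5, abs_neg, abs_mul, abs_of_pos (h0 _), mul_assoc]
    exact mul_le_mul e3 e1 (abs_nonneg _) (abs_nonneg _)

theorem not_fg_of_reps {G : Type} [Group G] (K : Subgroup G) (t k₀ : G) (hk₀ : k₀ ∈ K)
    (ht : ∀ k ∈ K, t * k * t⁻¹ ∈ K) (X : G → ℝ)
    (h : ∀ R : ℝ, ∃ χ L : G → ℝ, (∀ g, 0 < χ g) ∧ (∀ a b, χ (a * b) = χ a * χ b) ∧
      (∀ a b, L (a * b) = L a + χ a * L b) ∧ R < χ t ∧ (∀ g ∈ K, χ g ≤ X g) ∧ χ k₀ = 1 ∧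
      L k₀ ≠ 0) : ¬ K.FG := by
  rintro ⟨S, rfl⟩
  have hC : ∀ b : S, ∃ C : ℝ, 0 ≤ C ∧ ∀ (χ L : G → ℝ) (M : ℝ), (∀ g, 0 < χ g) →
      (∀ a b, χ (a * b) = χ a * χ b) → (∀ a b, L (a * b) = L a + χ a * L b) →
      (∀ g ∈ Subgroup.closure (S : Set G), χ g ≤ X g) → (∀ b ∈ S, |L b| ≤ M) →
      |L (t * b * t⁻¹)| ≤ C * M := fun b =>
    NFG_bound S X _ (ht b (Subgroup.subset_closure b.2))
  choose C hC0 hC using hC
  obtain ⟨C₀, -, hC₀⟩ := NFG_bound S X k₀ hk₀
  obtain ⟨χ, L, h0, h1, h2, h3, h4, h5, h6⟩ := h (1 + ∑ b : S, C b)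
  have hs : 0 ≤ ∑ b : S, C b := Finset.sum_nonneg fun b _ => hC0 b
  have ht1 : 1 - χ t ≠ 0 := by linarith
  set β : ℝ := L t / (1 - χ t) with hβ
  let L' : G → ℝ := fun g => L g - β * (1 - χ g)
  have h2' : ∀ a b, L' (a * b) = L' a + χ a * L' b := by
    intro a b
    simp only [L', h1, h2]; ring
  have hLt : L' t = 0 := by
    simp only [L', hβ]; field_simp; ring
  have hLt' : L' t⁻¹ = 0 := by
    have := h2' t t⁻¹
    rw [mul_inv_cancel, (NFG_one h0 h1 h2').2, hLt, zero_add] at this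
    exact (mul_eq_zero.1 this.symm).resolve_left (h0 t).ne'
  have hconj : ∀ b, L' (t * b * t⁻¹) = χ t * L' b := by
    intro b
    rw [h2', h2', hLt, hLt']; ring
  set M : ℝ := ∑ b : S, |L' b| with hM
  have hM0 : 0 ≤ M := Finset.sum_nonneg fun b _ => abs_nonneg _
  have hbM : ∀ b ∈ S, |L' b| ≤ M := fun b hb =>
    Finset.single_le_sum (f := fun b : S => |L' b|) (fun _ _ => abs_nonneg _)
      (Finset.mem_univ (⟨b, hb⟩ : S))
  have hsum : χ t * M ≤ (∑ b : S, C b) * M := by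
    rw [Finset.sum_mul]
    conv_lhs => rw [hM, Finset.mul_sum]
    refine Finset.sum_le_sum fun b _ => ?_
    have := hC b χ L' M h0 h1 h2' h4 hbM
    rwa [hconj, abs_mul, abs_of_pos (h0 t)] at this
  have hMz : M = 0 := by nlinarith
  have := hC₀ χ L' M h0 h1 h2' h4 hbM
  rw [hMz, mul_zero, abs_nonpos_iff] at this
  apply h6
  simpa [L', h5] using this

theorem NFG_zpow_le {a u b : ℝ} (ha : 0 < a) (h1 : a ≤ u) (h2 : u ≤ b) (j : ℤ) :
    u ^ j ≤ a ^ j + b ^ j ∧ min (a ^ j) (b ^ j) ≤ u ^ j := by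
  have hu : 0 < u := ha.trans_le h1
  have hb : 0 < b := hu.trans_le h2
  have pa := zpow_pos ha j
  have pb := zpow_pos hb j
  rcases le_total 0 j with hj | hj
  · have e1 := zpow_le_zpow_left₀ hj ha.le h1
    have e2 := zpow_le_zpow_left₀ hj hu.le h2
    exact ⟨by linarith, (min_le_left _ _).trans e1⟩
  · have key : ∀ x y : ℝ, 0 < x → x ≤ y → y ^ j ≤ x ^ j := by
      intro x y hx hxy
      have e := zpow_le_zpow_left₀ (neg_nonneg.2 hj) hx.le hxy
      rw [zpow_neg, zpow_neg] at e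
      exact (inv_le_inv₀ (zpow_pos hx j) (zpow_pos (hx.trans_le hxy) j)).1 e
    have e1 : u ^ j ≤ a ^ j := key a u ha h1
    have e2 : b ^ j ≤ u ^ j := key u b hu h2
    exact ⟨by linarith, (min_le_right _ _).trans e2⟩

theorem TD.not_fg {V : Type} [Finite V] {D : TD V} {U : ℤ} {f : V → ℤ} {s₀ : V}
    (hprim : Prim (D.cls s₀ U fun s => (f s : ℝ))) {a b : ℝ} (ha : 0 < a)
    (h : ∀ R : ℝ, ∃ (θ u' : ℝ) (l : V → Bool → ℝ), R < θ ∧ a ≤ u' ∧ u' ≤ b ∧
      D.Eig f θ (u' * θ ^ U) l) :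
    ¬ (ker (D.cls s₀ U fun s => (f s : ℝ))).FG := by
  have hb : 0 < b := by
    obtain ⟨θ, u', l, -, h1, h2, -⟩ := h 0
    linarith
  obtain ⟨t, ht⟩ : (1 : ℝ) ∈ Set.range (D.cls s₀ U fun s => (f s : ℝ)).1 := by
    rw [hprim]; exact ⟨1, by simp⟩
  obtain ⟨k₀, hk1, hk2, hk3⟩ := TD.exists_row (D := D) s₀
  have hmem : ∀ g : D.G s₀, g ∈ ker (D.cls s₀ U fun s => (f s : ℝ)) ↔
      U * TD.jf g + tau D.p f s₀ (TD.kf g) = 0 := by
    intro g
    change (D.cls s₀ U fun s => (f s : ℝ)).1 g = 0 ↔ _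
    rw [TD.cls_int]
    exact Int.cast_eq_zero
  have ht' : U * TD.jf t + tau D.p f s₀ (TD.kf t) = 1 := by
    rw [TD.cls_int] at ht
    exact_mod_cast ht
  refine not_fg_of_reps _ t k₀ ((hmem _).2 (by rw [hk1, hk2]; simp)) (fun k hk => ?_)
    (fun g => a ^ TD.jf g + b ^ TD.jf g) fun R => ?_
  · have hα := (D.cls s₀ U fun s => (f s : ℝ)).2
    have hk' : (D.cls s₀ U fun s => (f s : ℝ)).1 k = 0 := hk
    change (D.cls s₀ U fun s => (f s : ℝ)).1 _ = 0
    have e1 := hα t t⁻¹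
    have e2 := hα 1 1
    rw [mul_inv_cancel] at e1
    rw [mul_one] at e2
    rw [hα, hα, hk']
    linarith
  · set m : ℝ := min (a ^ TD.jf t) (b ^ TD.jf t) with hm
    have hm0 : 0 < m := lt_min (zpow_pos ha _) (zpow_pos hb _)
    obtain ⟨θ, u', l, h1, h2, h3, h4⟩ := h (max 1 (R / m))
    have hθ : 0 < θ := lt_of_lt_of_le zero_lt_one ((le_max_left _ _).trans h1.le)
    have hu' : 0 < u' := ha.trans_le h2
    have hu : 0 < u' * θ ^ U := mul_pos hu' (zpow_pos hθ _)
    have hchi : ∀ g : D.G s₀, D.chi s₀ f θ (u' * θ ^ U) g =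
        θ ^ (U * TD.jf g + tau D.p f s₀ (TD.kf g)) * u' ^ TD.jf g := by
      intro g
      rw [TD.chi, mul_zpow, ← zpow_mul, zpow_add₀ hθ.ne']; ring
    refine ⟨D.chi s₀ f θ (u' * θ ^ U), D.Lg s₀ f θ l, fun g => ?_,
      D.chi_mul s₀ f hθ.ne' hu.ne', h4.Lg_mul hθ.ne' hu.ne' s₀, ?_, fun g hg => ?_, ?_,
      (hk3 f θ l hθ h4.1).ne'⟩
    · exact mul_pos (zpow_pos hθ _) (zpow_pos hu _)
    · rw [hchi, ht', zpow_one]
      have e1 := (NFG_zpow_le ha h2 h3 (TD.jf t)).2
      have e2 : R / m < θ := (le_max_right _ _).trans_lt h1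
      rw [div_lt_iff₀ hm0] at e2
      exact e2.trans_le (mul_le_mul_of_nonneg_left e1 hθ.le)
    · rw [hchi, (hmem g).1 hg, zpow_zero, one_mul]
      exact (NFG_zpow_le ha h2 h3 _).1
    · rw [hchi, hk1, hk2]; simp

end Pool.Agent.Work.MP_1b9dce_gt
end

-- merged part: Pool.Agent.Work.MP_1b9dce_gt.Height
section
namespace Pool.Agent.Work.MP_1b9dce_gt

open Equiv
open FreeGroup (of)

theorem Height_lower {ι : Type*} (f : ι → ℂ) {c : ℝ} (hc : 0 ≤ c) (B : Multiset ι)
    (h : ∀ q ∈ B, c ≤ ‖f q‖) : c ^ B.card ≤ ‖(B.map f).prod‖ := by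
  induction B using Multiset.induction_on with
  | empty => simp
  | cons q s ih =>
    rw [Multiset.map_cons, Multiset.prod_cons, Multiset.card_cons, norm_mul, pow_succ']
    exact mul_le_mul (h q (Multiset.mem_cons_self _ _))
      (ih fun r hr => h r (Multiset.mem_cons_of_mem hr)) (pow_nonneg hc _) (norm_nonneg _)

theorem Height_upper {ι : Type*} (f : ι → ℂ) {c : ℝ} (hc : 0 ≤ c) (B : Multiset ι)
    (h : ∀ q ∈ B, ‖f q‖ ≤ c) : ‖(B.map f).prod‖ ≤ c ^ B.card := by
  induction B using Multiset.induction_on with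
  | empty => simp
  | cons q s ih =>
    rw [Multiset.map_cons, Multiset.prod_cons, Multiset.card_cons, norm_mul, pow_succ']
    exact mul_le_mul (h q (Multiset.mem_cons_self _ _))
      (ih fun r hr => h r (Multiset.mem_cons_of_mem hr)) (norm_nonneg _) hc

theorem Height_arch (l Dn : ℕ) (z : ℂ) (A B : Multiset (ℤ × ℤ)) (N : ℕ) (hN : 0 < N)
    (hc : A.card + N = B.card) (hl : B.card ≤ l * N)
    (hA : ∀ q ∈ A, |q.1| ≤ Dn ∧ |q.2| ≤ Dn) (hB : ∀ q ∈ B, q.1 ≠ 0 ∧ |q.1| ≤ Dn ∧ |q.2| ≤ Dn)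
    (he : (A.map fun q => (q.1 : ℂ) * z + q.2).prod = (B.map fun q => (q.1 : ℂ) * z + q.2).prod) :
    ‖z‖ ≤ 2 * ((Dn : ℝ) + 1) + (4 * ((Dn : ℝ) + 1)) ^ l := by
  have hD0 : (0 : ℝ) ≤ Dn := Nat.cast_nonneg _
  have hn : ∀ a : ℤ, |a| ≤ Dn → ‖(a : ℂ)‖ ≤ Dn := by
    intro a ha
    rw [Complex.norm_intCast]
    exact_mod_cast ha
  by_cases hz : ‖z‖ ≤ 2 * ((Dn : ℝ) + 1)
  · exact hz.trans (le_add_of_nonneg_right (by positivity))
  push Not at hz
  have hz0 : 0 < ‖z‖ := by linarith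
  have h1 := Height_lower (fun q : ℤ × ℤ => (q.1 : ℂ) * z + q.2) (c := ‖z‖ / 2) (by positivity) B
    fun q hq => by
      obtain ⟨a1, -, a3⟩ := hB q hq
      have b1 : (1 : ℝ) ≤ ‖(q.1 : ℂ)‖ := by
        rw [Complex.norm_intCast]
        exact_mod_cast Int.one_le_abs a1
      have b2 := hn _ a3
      have b3 := norm_sub_le ((q.1 : ℂ) * z + q.2) q.2
      rw [add_sub_cancel_right, norm_mul] at b3
      nlinarith
  have h2 := Height_upper (fun q : ℤ × ℤ => (q.1 : ℂ) * z + q.2)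
    (c := 2 * ((Dn : ℝ) + 1) * ‖z‖) (by positivity) A fun q hq => by
      obtain ⟨a1, a2⟩ := hA q hq
      have b1 := hn _ a1
      have b2 := hn _ a2
      have b3 := norm_add_le ((q.1 : ℂ) * z) q.2
      rw [norm_mul] at b3
      nlinarith
  rw [he] at h2
  have h3 := h1.trans h2
  rw [div_pow, div_le_iff₀ (by positivity), mul_pow, ← hc, pow_add ‖z‖, hc] at h3
  have h4 : ‖z‖ ^ N ≤ (2 * ((Dn : ℝ) + 1)) ^ A.card * 2 ^ B.card := by
    refine le_of_mul_le_mul_left ?_ (pow_pos hz0 A.card)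
    linarith
  have h5 : (2 * ((Dn : ℝ) + 1)) ^ A.card ≤ (2 * ((Dn : ℝ) + 1)) ^ B.card :=
    pow_le_pow_right₀ (by linarith) (by omega)
  have h6 : (4 * ((Dn : ℝ) + 1)) ^ B.card ≤ (4 * ((Dn : ℝ) + 1)) ^ (l * N) :=
    pow_le_pow_right₀ (by linarith) hl
  have h7 : (2 * ((Dn : ℝ) + 1)) ^ B.card * 2 ^ B.card = (4 * ((Dn : ℝ) + 1)) ^ B.card := by
    rw [← mul_pow]; congr 1; ring
  have h8 : ‖z‖ ^ N ≤ ((4 * ((Dn : ℝ) + 1)) ^ l) ^ N := by
    rw [← pow_mul]
    refine h4.trans (le_trans ?_ h6)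
    rw [← h7]
    exact mul_le_mul_of_nonneg_right h5 (by positivity)
  have h9 := le_of_pow_le_pow_left₀ hN.ne' (by positivity) h8
  linarith

open Polynomial in
theorem Height_integral {K : Type*} [CommRing K] (l : ℕ) (E : ℤ) (z : K)
    (A B : Multiset (ℤ × ℤ)) (N : ℕ) (hN : 0 < N)
    (hc : A.card + N = B.card) (hl : B.card ≤ l * N) (hB : ∀ q ∈ B, q.1 ∣ E)
    (he : (A.map fun q => (q.1 : K) * z + q.2).prod = (B.map fun q => (q.1 : K) * z + q.2).prod) :
    IsIntegral ℤ ((E : K) ^ (l + 1) * z) := by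
  have hmon : ∀ s : Multiset (ℤ × ℤ),
      (s.map fun q => (X : ℤ[X]) + C (E ^ l * q.2 * (E / q.1))).prod.Monic ∧
      (s.map fun q => (X : ℤ[X]) + C (E ^ l * q.2 * (E / q.1))).prod.natDegree = s.card := by
    intro s
    induction s using Multiset.induction_on with
    | empty => simp
    | cons q s ih =>
      rw [Multiset.map_cons, Multiset.prod_cons, Multiset.card_cons]
      refine ⟨(monic_X_add_C _).mul ih.1, ?_⟩
      rw [(monic_X_add_C _).natDegree_mul ih.1, natDegree_X_add_C, ih.2, add_comm]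
  have hdeg : ∀ s : Multiset (ℤ × ℤ),
      (s.map fun q : ℤ × ℤ => C q.1 * (X : ℤ[X]) + C (q.2 * E ^ (l + 1))).prod.natDegree ≤
        s.card := by
    intro s
    induction s using Multiset.induction_on with
    | empty => simp
    | cons q s ih =>
      rw [Multiset.map_cons, Multiset.prod_cons, Multiset.card_cons]
      refine natDegree_mul_le.trans ?_
      have := natDegree_linear_le (a := q.1) (b := q.2 * E ^ (l + 1))
      omega
  have hevB : ∀ s : Multiset (ℤ × ℤ), (∀ q ∈ s, q.1 ∣ E) →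
      aeval ((E : K) ^ (l + 1) * z)
        (s.map fun q => (X : ℤ[X]) + C (E ^ l * q.2 * (E / q.1))).prod =
      (((s.map fun q => E / q.1).prod : ℤ) : K) * ((E : K) ^ l) ^ s.card *
        (s.map fun q => (q.1 : K) * z + q.2).prod := by
    intro s hs
    induction s using Multiset.induction_on with
    | empty => simp
    | cons q s ih =>
      have h1 : (q.1 : K) * ((E / q.1 : ℤ) : K) = E := by
        rw [← Int.cast_mul, Int.mul_ediv_cancel' (hs q (Multiset.mem_cons_self _ _))]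
      simp only [Multiset.map_cons, Multiset.prod_cons, Multiset.card_cons]
      rw [map_mul, ih fun r hr => hs r (Multiset.mem_cons_of_mem hr), map_add, aeval_X, aeval_C,
        algebraMap_int_eq, eq_intCast, Int.cast_mul, Int.cast_mul, Int.cast_mul, Int.cast_pow]
      generalize ((E / q.1 : ℤ) : K) = e at h1 ⊢
      linear_combination (-(E : K) ^ l * z * (((s.map fun q => E / q.1).prod : ℤ) : K) *
        ((E : K) ^ l) ^ s.card * (s.map fun q => (q.1 : K) * z + q.2).prod) * h1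
  have hevA : ∀ s : Multiset (ℤ × ℤ),
      aeval ((E : K) ^ (l + 1) * z)
        (s.map fun q => C q.1 * (X : ℤ[X]) + C (q.2 * E ^ (l + 1))).prod =
      ((E : K) ^ (l + 1)) ^ s.card * (s.map fun q => (q.1 : K) * z + q.2).prod := by
    intro s
    induction s using Multiset.induction_on with
    | empty => simp
    | cons q s ih =>
      simp only [Multiset.map_cons, Multiset.prod_cons, Multiset.card_cons]
      rw [map_mul, ih, map_add, map_mul, aeval_X, aeval_C, aeval_C,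
        algebraMap_int_eq, eq_intCast, eq_intCast, Int.cast_mul, Int.cast_pow]
      ring
  obtain ⟨r, hr⟩ : ∃ r, l * N = A.card + r := ⟨l * N - A.card, by omega⟩
  refine ⟨(B.map fun q => (X : ℤ[X]) + C (E ^ l * q.2 * (E / q.1))).prod -
    C ((B.map fun q => E / q.1).prod * E ^ r) *
      (A.map fun q => C q.1 * (X : ℤ[X]) + C (q.2 * E ^ (l + 1))).prod, ?_, ?_⟩
  · refine (hmon B).1.sub_of_left (degree_lt_degree ?_)
    rw [(hmon B).2]
    have h1 := natDegree_C_mul_le ((B.map fun q => E / q.1).prod * E ^ r)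
      (A.map fun q => C q.1 * (X : ℤ[X]) + C (q.2 * E ^ (l + 1))).prod
    have h2 := hdeg A
    omega
  · rw [← aeval_def, map_sub, map_mul, hevB B hB, hevA A, aeval_C, algebraMap_int_eq, eq_intCast,
      he, Int.cast_mul, Int.cast_pow, ← pow_mul, ← pow_mul]
    have h1 : l * B.card = r + (l + 1) * A.card := by
      rw [← hc, mul_add, hr]; ring
    rw [h1, pow_add]
    ring

theorem Height_map {K L : Type*} [CommRing K] [CommRing L] (φ : K →+* L) (z : K)
    (A : Multiset (ℤ × ℤ)) :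
    φ (A.map fun q => (q.1 : K) * z + q.2).prod = (A.map fun q => (q.1 : L) * φ z + q.2).prod := by
  rw [map_multiset_prod, Multiset.map_map]
  congr 1
  refine Multiset.map_congr rfl fun q _ => ?_
  simp

theorem height_bound (l Dn d₀ : ℕ) : ∃ ε : ℝ, 0 < ε ∧
    ∀ (y : ℝ) (A B : Multiset (ℤ × ℤ)) (N : ℕ), y ≠ 0 → IsAlgebraic ℚ y →
      (minpoly ℚ y).natDegree ≤ d₀ → 0 < N → A.card + N = B.card → B.card ≤ l * N →
      (∀ q ∈ A, |q.1| ≤ Dn ∧ |q.2| ≤ Dn) → (∀ q ∈ B, q.1 ≠ 0 ∧ |q.1| ≤ Dn ∧ |q.2| ≤ Dn) →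
      (A.map fun q => (q.1 : ℝ) * y + q.2).prod = (B.map fun q => (q.1 : ℝ) * y + q.2).prod →
      ε ≤ |y| := by
  obtain ⟨E, hE⟩ : ∃ E : ℕ, E = Dn.factorial := ⟨_, rfl⟩
  have hE1 : (1 : ℝ) ≤ E := by
    rw [hE]
    exact_mod_cast Dn.factorial_pos
  obtain ⟨C, hC⟩ : ∃ C : ℝ,
      C = (E : ℝ) ^ (l + 1) * (2 * ((Dn : ℝ) + 1) + (4 * ((Dn : ℝ) + 1)) ^ l) := ⟨_, rfl⟩
  have hE2 : (1 : ℝ) ≤ (E : ℝ) ^ (l + 1) := one_le_pow₀ hE1
  have hC1 : 1 ≤ C := by
    have h1 : (0 : ℝ) ≤ Dn := Nat.cast_nonneg _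
    have h2 : (0 : ℝ) ≤ (4 * ((Dn : ℝ) + 1)) ^ l := by positivity
    rw [hC]
    exact one_le_mul_of_one_le_of_one_le hE2 (by linarith)
  refine ⟨1 / ((E : ℝ) ^ (l + 1) * C ^ d₀), by positivity, ?_⟩
  intro y A B N hy halg hd hN hc hl hA hB he
  have hint : IsIntegral ℚ y := halg.isIntegral
  let K := IntermediateField.adjoin ℚ ({y} : Set ℝ)
  have : FiniteDimensional ℚ K := IntermediateField.adjoin.finiteDimensional hint
  have hrk : Module.finrank ℚ K ≤ d₀ := (IntermediateField.adjoin.finrank hint).le.trans hd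
  let z : K := IntermediateField.AdjoinSimple.gen ℚ y
  have hz : algebraMap K ℝ z = y := rfl
  have heK : (A.map fun q => (q.1 : K) * z + q.2).prod =
      (B.map fun q => (q.1 : K) * z + q.2).prod := by
    apply (algebraMap K ℝ).injective
    rw [Height_map, Height_map, hz, he]
  have hI := Height_integral l (E : ℤ) z A B N hN hc hl (fun q hq => by
    obtain ⟨a1, a2, -⟩ := hB q hq
    rw [← Int.natAbs_dvd, Int.natCast_dvd_natCast, hE]
    refine Nat.dvd_factorial (Int.natAbs_pos.2 a1) ?_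
    rw [Int.abs_eq_natAbs] at a2
    exact_mod_cast a2) heK
  rw [Int.cast_natCast] at hI
  have hz0 : z ≠ 0 := fun h => hy (by rw [← hz, h, map_zero])
  have hE0 : (E : K) ≠ 0 := by
    have : E ≠ 0 := by rw [hE]; exact Dn.factorial_ne_zero
    exact_mod_cast this
  have hx0 : (E : K) ^ (l + 1) * z ≠ 0 := mul_ne_zero (pow_ne_zero _ hE0) hz0
  obtain ⟨n, hn⟩ := IsIntegrallyClosed.isIntegral_iff.1 (Algebra.isIntegral_norm ℚ hI)
  have hn0 : n ≠ 0 := by
    rintro rfl
    rw [map_zero] at hn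
    exact Algebra.norm_ne_zero_iff.2 hx0 hn.symm
  have hprod := Algebra.norm_eq_prod_embeddings ℚ ℂ ((E : K) ^ (l + 1) * z)
  classical
  let σ₀ : K →ₐ[ℚ] ℂ := (Complex.ofRealHom.comp (algebraMap K ℝ)).toRatAlgHom
  have hσ₀ : σ₀ z = (y : ℂ) := rfl
  have hall : ∀ σ : K →ₐ[ℚ] ℂ, ‖σ ((E : K) ^ (l + 1) * z)‖ ≤ C := by
    intro σ
    have h1 := congrArg (σ : K →+* ℂ) heK
    rw [Height_map, Height_map] at h1
    have h2 := Height_arch l Dn _ A B N hN hc hl hA hB h1
    rw [map_mul, map_pow, map_natCast, norm_mul, norm_pow, Complex.norm_natCast, hC]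
    exact mul_le_mul_of_nonneg_left h2 (by positivity)
  rw [← Finset.mul_prod_erase _ _ (Finset.mem_univ σ₀), ← hn] at hprod
  have h1 : (1 : ℝ) ≤ ‖algebraMap ℚ ℂ (algebraMap ℤ ℚ n)‖ := by
    have : algebraMap ℚ ℂ (algebraMap ℤ ℚ n) = (n : ℂ) := by simp
    rw [this, Complex.norm_intCast]
    exact_mod_cast Int.one_le_abs hn0
  have h2 : ‖∏ σ ∈ Finset.univ.erase σ₀, σ ((E : K) ^ (l + 1) * z)‖ ≤ C ^ d₀ := by
    rw [norm_prod]
    refine (Finset.prod_le_prod (g := fun _ => C) (fun σ _ => norm_nonneg _)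
      fun σ _ => hall σ).trans ?_
    rw [Finset.prod_const]
    refine pow_le_pow_right₀ hC1 (Finset.card_erase_le.trans ?_)
    rw [Finset.card_univ, AlgHom.card]
    exact hrk
  rw [hprod, norm_mul, map_mul, map_pow, map_natCast, hσ₀, norm_mul, norm_pow,
    Complex.norm_natCast, Complex.norm_real, Real.norm_eq_abs] at h1
  rw [div_le_iff₀ (by positivity)]
  have h3 := mul_le_mul_of_nonneg_left h2 (show 0 ≤ (E : ℝ) ^ (l + 1) * |y| by positivity)
  linarith

end Pool.Agent.Work.MP_1b9dce_gt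
end

-- merged part: Pool.Agent.Work.MP_1b9dce_gt.Indep
section
namespace Pool.Agent.Work.MP_1b9dce_gt

open Equiv
open FreeGroup (of)

theorem Indep_prod {I : Type} (s : Finset I) (k : I → ℕ) (q : I → ℤ × ℤ) (f : ℤ × ℤ → ℝ) :
    ((∑ i ∈ s, Multiset.replicate (k i) (q i)).map f).prod = ∏ i ∈ s, f (q i) ^ k i := by
  classical
  induction s using Finset.induction_on with
  | empty => simp
  | insert a s ha ih => simp [Finset.sum_insert ha, Finset.prod_insert ha, ih]

theorem Indep_mem {I : Type} (s : Finset I) (k : I → ℕ) (q : I → ℤ × ℤ) {x : ℤ × ℤ}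
    (h : x ∈ ∑ i ∈ s, Multiset.replicate (k i) (q i)) : ∃ i, k i ≠ 0 ∧ x = q i := by
  obtain ⟨i, -, hi⟩ := Multiset.mem_sum.1 h
  exact ⟨i, Multiset.mem_replicate.1 hi⟩

theorem Indep_alg {u : ℝ} (hu : IsAlgebraic ℚ u) (m : ℕ) :
    IsAlgebraic ℚ (u + m)⁻¹ ∧ (minpoly ℚ (u + m)⁻¹).natDegree ≤ (minpoly ℚ u).natDegree := by
  have hi : IsIntegral ℚ u := hu.isIntegral
  have fd := IntermediateField.adjoin.finiteDimensional hi
  have hm : (u + m)⁻¹ ∈ IntermediateField.adjoin ℚ {u} :=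
    inv_mem (add_mem (IntermediateField.mem_adjoin_simple_self ℚ u) (natCast_mem _ m))
  have h1 := minpoly.natDegree_le (A := ℚ) (⟨_, hm⟩ : IntermediateField.adjoin ℚ {u})
  rw [IntermediateField.adjoin.finrank hi] at h1
  have e := IntermediateField.minpoly_eq (⟨_, hm⟩ : IntermediateField.adjoin ℚ {u})
  refine ⟨?_, (congrArg Polynomial.natDegree e).symm.trans_le h1⟩
  have h2 : IsAlgebraic ℚ (⟨_, hm⟩ : IntermediateField.adjoin ℚ {u}) :=
    Algebra.IsAlgebraic.isAlgebraic _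
  exact IntermediateField.isAlgebraic_iff.1 h2

theorem Indep_core {I : Type} [Fintype I] (r : I → ℕ) (hr : ∀ i, 2 ≤ r i)
    (hinj : Function.Injective r) {u : ℝ} (hu : 1 < u) (n : I → ℤ) (j : I) (hj : 0 < n j)
    (hm : ∀ i, |n i| ≤ n j) (hs : ∑ i, (n i : ℝ) * Real.log (wv (fun i => (r i : ℝ)) u i) = 0) :
    ∃ (A B : Multiset (ℤ × ℤ)) (N : ℕ), 0 < N ∧ A.card + N = B.card ∧
      B.card ≤ Fintype.card I * N ∧
      (∀ q ∈ A, |q.1| ≤ (((∑ i, r i) ^ 2 + 1 : ℕ) : ℤ) ∧ |q.2| ≤ (((∑ i, r i) ^ 2 + 1 : ℕ) : ℤ)) ∧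
      (∀ q ∈ B, q.1 ≠ 0 ∧ |q.1| ≤ (((∑ i, r i) ^ 2 + 1 : ℕ) : ℤ) ∧
        |q.2| ≤ (((∑ i, r i) ^ 2 + 1 : ℕ) : ℤ)) ∧
      (A.map fun q => (q.1 : ℝ) * (u + r j)⁻¹ + q.2).prod =
        (B.map fun q => (q.1 : ℝ) * (u + r j)⁻¹ + q.2).prod := by
  classical
  set S : ℕ := ∑ i, r i with hS
  have hle : ∀ i, (r i : ℤ) ≤ S := fun i => by
    exact_mod_cast Finset.single_le_sum (f := r) (fun _ _ => Nat.zero_le _) (Finset.mem_univ i)
  have hr' : ∀ i, (2 : ℤ) ≤ r i := fun i => by exact_mod_cast hr i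
  let p : I → ℤ × ℤ := fun i => ((r i : ℤ) - r j, 1)
  let q : I → ℤ × ℤ := fun i => (1 - (r i : ℤ) * r j, r i)
  let a : I → ℕ := fun i => (n i).toNat
  let b : I → ℕ := fun i => (-n i).toNat
  have hp : ∀ i, |(p i).1| ≤ ((S ^ 2 + 1 : ℕ) : ℤ) ∧ |(p i).2| ≤ ((S ^ 2 + 1 : ℕ) : ℤ) := fun i => by
    have := hle i; have := hle j; have := hr' i; have := hr' j
    push_cast
    refine ⟨abs_le.2 ⟨?_, ?_⟩, abs_le.2 ⟨?_, ?_⟩⟩ <;> simp only [p] <;> nlinarith
  have hq : ∀ i, |(q i).1| ≤ ((S ^ 2 + 1 : ℕ) : ℤ) ∧ |(q i).2| ≤ ((S ^ 2 + 1 : ℕ) : ℤ) := fun i => by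
    have := hle i; have := hle j; have := hr' i; have := hr' j
    push_cast
    refine ⟨abs_le.2 ⟨?_, ?_⟩, abs_le.2 ⟨?_, ?_⟩⟩ <;> simp only [q] <;> nlinarith
  have hab : ∀ i, ((a i : ℤ) - b i = n i) ∧ (a i + b i ≤ a j) := fun i => by
    have := abs_le.1 (hm i)
    simp only [a, b]
    omega
  refine ⟨∑ i ∈ Finset.univ.erase j, Multiset.replicate (a i) (p i) +
      ∑ i, Multiset.replicate (b i) (q i),
    ∑ i, Multiset.replicate (a i) (q i) + ∑ i, Multiset.replicate (b i) (p i), a j,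
    by simp only [a]; omega, ?_, ?_, ?_, ?_, ?_⟩
  · simp only [Multiset.card_add, Multiset.card_sum, Multiset.card_replicate]
    rw [← Finset.add_sum_erase _ a (Finset.mem_univ j)]
    ring
  · simp only [Multiset.card_add, Multiset.card_sum, Multiset.card_replicate]
    rw [← Finset.sum_add_distrib]
    simpa using Finset.sum_le_card_nsmul Finset.univ (fun i => a i + b i) (a j) fun i _ => (hab i).2
  · intro x hx
    rcases Multiset.mem_add.1 hx with hx | hx <;> obtain ⟨i, -, rfl⟩ := Indep_mem _ _ _ hx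
    exacts [hp i, hq i]
  · intro x hx
    rcases Multiset.mem_add.1 hx with hx | hx <;> obtain ⟨i, hi, rfl⟩ := Indep_mem _ _ _ hx
    · refine ⟨?_, hq i⟩
      have := hr' i; have := hr' j
      simp only [q]
      nlinarith
    · refine ⟨fun h => hi ?_, hp i⟩
      have e : i = j := hinj (by simp only [p] at h; omega)
      subst e
      simp only [b]
      omega
  · have hr0 : ∀ i, (0 : ℝ) < r i := fun i => by have := hr i; positivity
    have hj0 : 0 < u + r j := by have := hr0 j; linarith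
    have eP : ∀ i, ((p i).1 : ℝ) * (u + r j)⁻¹ + (p i).2 = (u + r i) * (u + r j)⁻¹ := fun i => by
      simp only [p]; push_cast; field_simp; ring
    have eQ : ∀ i, ((q i).1 : ℝ) * (u + r j)⁻¹ + (q i).2 = (1 + r i * u) * (u + r j)⁻¹ := fun i => by
      simp only [q]; push_cast; field_simp; ring
    set P : I → ℝ := fun i => (u + r i) * (u + r j)⁻¹ with hP
    set Q : I → ℝ := fun i => (1 + r i * u) * (u + r j)⁻¹ with hQ
    have P0 : ∀ i, 0 < P i := fun i => by have := hr0 i; simp only [hP]; positivity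
    have Q0 : ∀ i, 0 < Q i := fun i => by have := hr0 i; simp only [hQ]; positivity
    have Pj : P j = 1 := mul_inv_cancel₀ hj0.ne'
    have ew : ∀ i, Real.log (wv (fun i => (r i : ℝ)) u i) = Real.log (P i) - Real.log (Q i) :=
      fun i => by
        rw [← Real.log_div (P0 i).ne' (Q0 i).ne']
        congr 1
        have := hr0 i
        simp only [wv, hP, hQ]
        field_simp
    simp only [Multiset.map_add, Multiset.prod_add, Indep_prod, eP, eQ]
    have e1 : ∏ i ∈ Finset.univ.erase j, P i ^ a i = ∏ i, P i ^ a i := by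
      rw [← Finset.mul_prod_erase _ (fun i => P i ^ a i) (Finset.mem_univ j), Pj, one_pow, one_mul]
    show (∏ i ∈ Finset.univ.erase j, P i ^ a i) * ∏ i, Q i ^ b i =
      (∏ i, Q i ^ a i) * ∏ i, P i ^ b i
    rw [e1, ← Finset.prod_mul_distrib, ← Finset.prod_mul_distrib]
    have z1 : ∀ i, 0 < P i ^ a i * Q i ^ b i := fun i => by have := P0 i; have := Q0 i; positivity
    have z2 : ∀ i, 0 < Q i ^ a i * P i ^ b i := fun i => by have := P0 i; have := Q0 i; positivity
    refine Real.log_injOn_pos (Finset.prod_pos fun i _ => z1 i) (Finset.prod_pos fun i _ => z2 i) ?_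
    rw [Real.log_prod fun i _ => (z1 i).ne', Real.log_prod fun i _ => (z2 i).ne', ← sub_eq_zero,
      ← Finset.sum_sub_distrib, ← hs]
    refine Finset.sum_congr rfl fun i _ => ?_
    have e : (n i : ℝ) = a i - b i := by exact_mod_cast (hab i).1.symm
    rw [ew, e, Real.log_mul (pow_pos (P0 i) _).ne' (pow_pos (Q0 i) _).ne',
      Real.log_mul (pow_pos (Q0 i) _).ne' (pow_pos (P0 i) _).ne']
    simp only [Real.log_pow]
    ring

theorem indep {I : Type} [Fintype I] (r : I → ℕ) (hr : ∀ i, 2 ≤ r i)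
    (hinj : Function.Injective r) : ∃ c₀ : ℕ, ∀ c : ℕ, c₀ ≤ c → ∀ u : ℝ,
      (TE (c : ℝ) (fun i => (r i : ℝ)) u fun i => √(wv (fun i => (r i : ℝ)) u i)) →
      LinearIndependent ℚ fun i => Real.log (wv (fun i => (r i : ℝ)) u i) := by
  obtain ⟨ε, hε, H⟩ := height_bound (Fintype.card I) ((∑ i, r i) ^ 2 + 1) (4 * 2 ^ Fintype.card I)
  obtain ⟨c₀, hc₀⟩ := exists_nat_gt ε⁻¹
  refine ⟨c₀, fun c hc u h => ?_⟩
  obtain ⟨alg, deg⟩ := deg_bound c r h
  have hu : 1 < u := h.1
  have hcu : (c : ℝ) < u := by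
    have h1 : 0 < Pp (c : ℝ) (fun i => (r i : ℝ)) u := h.2.2.1
    have h2 : (0 : ℝ) ≤ ∑ i, (r i : ℝ) := Finset.sum_nonneg fun i _ => Nat.cast_nonneg _
    have h3 : (0 : ℝ) ≤ Fintype.card I := Nat.cast_nonneg _
    have h4 : (0 : ℝ) ≤ c * u := by positivity
    simp only [Pp] at h1
    have h5 : c * u < (u - 1) ^ 2 := by nlinarith
    by_contra h6
    push Not at h6
    nlinarith
  have key : ∀ (n : I → ℤ) (j : I), 0 < n j → (∀ i, |n i| ≤ n j) →
      ∑ i, (n i : ℝ) * Real.log (wv (fun i => (r i : ℝ)) u i) = 0 → False := by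
    intro n j hj hm hs
    obtain ⟨A, B, N, h1, h2, h3, h4, h5, h6⟩ := Indep_core r hr hinj hu n j hj hm hs
    have hj0 : 0 < u + r j := by positivity
    obtain ⟨a1, a2⟩ := Indep_alg alg (r j)
    have h7 := H _ A B N (inv_ne_zero hj0.ne') a1 (a2.trans deg) h1 h2 h3 h4 h5 h6
    rw [abs_of_pos (inv_pos.2 hj0), le_inv_comm₀ hε hj0] at h7
    have h8 : (c₀ : ℝ) ≤ c := by exact_mod_cast hc
    have h9 : (0 : ℝ) ≤ r j := Nat.cast_nonneg _
    linarith
  rw [← LinearIndependent.iff_fractionRing ℤ ℚ, Fintype.linearIndependent_iff]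
  intro n hn i
  by_contra hi
  obtain ⟨j, -, hj⟩ := Finset.exists_max_image Finset.univ (fun i => |n i|) ⟨i, Finset.mem_univ i⟩
  have hj0 : 0 < |n j| := (abs_pos.2 hi).trans_le (hj i (Finset.mem_univ i))
  simp only [zsmul_eq_mul] at hn
  rcases le_total 0 (n j) with h0 | h0
  · rw [abs_of_nonneg h0] at hj0
    exact key n j hj0 (fun i => (hj i (Finset.mem_univ i)).trans_eq (abs_of_nonneg h0)) hn
  · rw [abs_of_nonpos h0] at hj0
    refine key (fun i => -n i) j hj0 (fun i => ?_) ?_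
    · rw [abs_neg]
      exact (hj i (Finset.mem_univ i)).trans_eq (abs_of_nonpos h0)
    · simp only [Int.cast_neg, neg_mul, Finset.sum_neg_distrib, hn, neg_zero]

end Pool.Agent.Work.MP_1b9dce_gt
end

-- merged part: Pool.Agent.Work.MP_1b9dce_gt.AlgMain
section
set_option linter.unusedSectionVars false

namespace Pool.Agent.Work.MP_1b9dce_gt

open Equiv
open FreeGroup (of)

theorem TE.div {I : Type} [Fintype I] {c : ℝ} {r : I → ℝ} {u : ℝ} {t : I → ℝ} (h : TE c r u t)
    {κ : ℝ} (hκ : 0 < κ) : TE c r u fun i => t i / κ := by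
  obtain ⟨h1, h2, h3, h4, h5⟩ := h
  refine ⟨h1, fun i => div_pos (h2 i) hκ, h3, h4, ?_⟩
  have e1 : ∑ i, t i / κ * (1 + r i * u) = (∑ i, t i * (1 + r i * u)) / κ := by
    rw [Finset.sum_div]; exact Finset.sum_congr rfl fun i _ => by ring
  have e2 : ∑ i, (u + r i) / (t i / κ) = (∑ i, (u + r i) / t i) * κ := by
    rw [Finset.sum_mul]; exact Finset.sum_congr rfl fun i _ => by field_simp
  rw [h5, e1, e2]; field_simp

namespace ExD
variable {I : Type} [Fintype I] (X : ExD I)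

theorem one_le_cc : (1 : ℝ) ≤ X.cc := by exact_mod_cast X.cc_pos
theorem one_le_r (i : I) : (1 : ℝ) ≤ X.r i := by exact_mod_cast X.r_pos i

/-- Primitive classes in the cone. -/
theorem prim_cone [Nonempty I] (i₀ : I) {α : H1 X.G} (h : Prim α) (hα : X.co i₀ α ∈ Cn I) :
    (ker α).FG ∧
      (Fintype.card (Sq I) : ℝ) * (X.co i₀ α).1 = (Module.finrank ℝ (H1 (ker α)) : ℝ) - 1 ∧
      ∀ Λ : ℝ, 0 < Λ → TEa X.cc (fun i => (X.r i : ℝ)) Λ (X.co i₀ α) → Grow α (Real.exp Λ) := by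
  obtain ⟨U', τ, hco, hcls⟩ := X.prim_coord i₀ h
  have hlt : ∀ i j, τ i - τ j < U' := fun i j => by
    have := hα i j
    rw [hco] at this
    simp only at this
    exact_mod_cast this
  have hU' : 0 < U' := by simpa using hlt i₀ i₀
  obtain ⟨U, rfl⟩ := Int.eq_ofNat_of_zero_le hU'.le
  have hU : 0 < U := by exact_mod_cast hU'
  rw [Int.cast_natCast] at hcls hco
  obtain ⟨H⟩ := X.heights U τ hlt
  obtain ⟨C⟩ := TD.cut_exists H hU
  have : NeZero U := ⟨hU.ne'⟩
  subst hcls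
  obtain ⟨Ψ, -⟩ := TD.fiber_iso C hU (s0 I)
  have htr := TD.trans_pm X.trans h
  refine ⟨?_, ?_, fun Λ hΛ hT => ?_⟩
  · have := stab_fg (X.D.pm (pot τ) U) (s0 I, 0)
    exact (Group.fg_iff_subgroup_fg _).1 (Group.fg_of_surjective (f := Ψ.toMonoidHom) Ψ.surjective)
  · rw [← finrank_H1_congr Ψ, finrank_H1_stab _ _ htr, hco, Fintype.card_prod, ZMod.card]
    push_cast; ring
  · rw [hco] at hT
    simp only [TEa] at hT
    have e1 : Real.exp (Λ * U) = Real.exp Λ ^ U := by rw [mul_comm, Real.exp_nat_mul]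
    have e2 : ∀ i, Real.exp (Λ * τ i) = Real.exp Λ ^ τ i := fun i => by
      rw [Real.exp_mul, Real.rpow_intCast]
    simp only [e1, e2] at hT
    obtain ⟨l, hl⟩ := X.eig_of_TE (Real.exp_pos Λ) τ hT
    exact TD.grow C hU X.trans h (Real.one_lt_exp_iff.2 hΛ) hl

/-- The cone is the greatest one. -/
theorem isGreatest [Nontrivial I] (i₀ : I) :
    IsGreatest {C' | Cone (X.cl (1, 0)) C'} (X.co i₀ ⁻¹' Cn I) := by
  refine ⟨⟨(isOpen_Cn I).preimage (X.continuous_co i₀), (convex_Cn I).linear_preimage _,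
    fun α hα r hr => ?_, ?_, fun α hα h => (X.prim_cone i₀ h hα).1⟩, ?_⟩
  · rw [Set.mem_preimage, map_smul]; exact smul_mem_Cn hα hr
  · rw [Set.mem_preimage, co_cl]; intro i j; simp
  · rintro C' ⟨hO, hcv, hc, h1, hfg⟩ β hβ
    by_contra hb
    obtain ⟨U, τ, hmem, hU, hle, heq⟩ := exists_bdry_point (O := X.clL ⁻¹' C')
      (hO.preimage X.continuous_clL) (hcv.linear_preimage _)
      (fun a ha r hr => by rw [Set.mem_preimage, map_smul]; exact hc _ ha r hr) h1
      (b := X.co i₀ β) (by rw [Set.mem_preimage, clL_apply, cl_co]; exact hβ) hb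
    set a : ℝ × (I → ℝ) := ((U : ℝ), fun i => (τ i : ℝ)) with ha
    have hUr : (0 : ℝ) < U := by exact_mod_cast hU
    obtain ⟨d, hd, hprim⟩ := exists_prim (X.cl a) (fun g => by
      have := X.D.cls_int (s0 I) U (pot τ) g
      rw [pot_cast] at this
      exact ⟨_, this⟩) ⟨X.t0, by rw [cl_t0]; exact hUr.ne'⟩
    have hfg' := hfg _ (hc _ hmem d hd) hprim
    obtain ⟨U', τ', hco, hcls⟩ := X.prim_coord i₀ hprim
    rw [map_smul, co_cl] at hco
    have e1 : (U' : ℝ) = d * U := (congrArg Prod.fst hco).symm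
    have e2 : ∀ i, (τ' i : ℝ) = d * (τ i - τ i₀) := fun i =>
      (congrFun (congrArg Prod.snd hco) i).symm
    have e3 : ∀ i j, ((τ' i - τ' j : ℤ) : ℝ) = d * ((τ i - τ j : ℤ) : ℝ) := fun i j => by
      push_cast; rw [e2, e2]; ring
    have hU' : 0 < U' := by
      have : (0 : ℝ) < U' := by rw [e1]; positivity
      exact_mod_cast this
    have hle' : ∀ i j, τ' i - τ' j ≤ U' := fun i j => by
      have : ((τ' i - τ' j : ℤ) : ℝ) ≤ U' := by
        rw [e3, e1]
        exact mul_le_mul_of_nonneg_left (by exact_mod_cast hle i j) hd.le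
      exact_mod_cast this
    have heq' : ∃ i j, τ' i - τ' j = U' := by
      obtain ⟨i, j, hij⟩ := heq
      refine ⟨i, j, ?_⟩
      have : ((τ' i - τ' j : ℤ) : ℝ) = U' := by rw [e3, e1, hij]
      exact_mod_cast this
    obtain ⟨a', b', ha', hR⟩ := bdry X.one_le_cc X.one_le_r U' τ' hU' hle' heq'
    rw [clL_apply, hcls] at hfg'
    rw [hcls] at hprim
    refine TD.not_fg hprim (b := b') ha' (fun R => ?_) hfg'
    obtain ⟨θ, u', h1, h2, h3, h4⟩ := hR (max R 0)
    obtain ⟨l, hl⟩ := X.eig_of_TE (lt_of_le_of_lt (le_max_right _ _) h1) τ' h4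
    exact ⟨θ, u', l, lt_of_le_of_lt (le_max_left _ _) h1, h2, h3, hl⟩

/-- The minimum point. -/
theorem minPt [Nontrivial I] (i₀ : I) : ∃ (u κ : ℝ) (m : H1 X.G),
    (TE X.cc (fun i => (X.r i : ℝ)) u fun i => √(wv (fun i => (X.r i : ℝ)) u i)) ∧ κ ≠ 0 ∧
    MinPt (SemidirectProduct.inl : _ →* X.G).range m ∧
    ∀ i, m.1 (X.gam i i₀) = κ * (Real.log (wv (fun i => (X.r i : ℝ)) u i) -
      Real.log (wv (fun i => (X.r i : ℝ)) u i₀)) := by
  set r : I → ℝ := fun i => (X.r i : ℝ) with hr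
  obtain ⟨Λ, hcont, hΛ, huniq⟩ := exists_Lam X.one_le_cc (r := r) X.one_le_r
  obtain ⟨u, hu, hmin⟩ := exists_min X.one_le_cc (r := r) X.one_le_r
  set n : ℝ := (Fintype.card (Sq I) : ℝ) with hn
  have hnpos : 0 < n := by
    rw [hn]; exact_mod_cast Fintype.card_pos_iff.2 ⟨s0 I⟩
  have hu1 : 1 < u := hu.1
  have hlog : 0 < Real.log u := Real.log_pos hu1
  set Λs : ℝ := n * Real.log u with hΛs
  have hΛpos : 0 < Λs := mul_pos hnpos hlog
  set w : I → ℝ := fun i => √(wv r u i) with hw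
  have hwpos : ∀ i, 0 < w i := hu.2.1
  set m : H1 X.G := X.cl (n⁻¹, fun i => Real.log (w i) / Λs) with hm
  have hcom : X.co i₀ m = (n⁻¹, fun i => Real.log (w i / w i₀) / Λs) := by
    rw [hm, co_cl]
    ext i
    · rfl
    · simp only
      rw [Real.log_div (hwpos _).ne' (hwpos _).ne']; ring
  have hmC : X.co i₀ m ∈ Cn I := by
    rw [hm, co_cl]
    intro i j
    have h1 : Real.log (w i / w j) < Real.log u :=
      Real.log_lt_log (div_pos (hwpos _) (hwpos _)) (wv_ratio X.one_le_r hu1 i j)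
    rw [Real.log_div (hwpos _).ne' (hwpos _).ne'] at h1
    have h2 : n⁻¹ = Real.log u / Λs := by rw [hΛs]; field_simp
    simp only
    rw [h2, sub_sub_sub_cancel_right, ← sub_div]
    exact div_lt_div_of_pos_right h1 hΛpos
  have hexp : Real.exp (Λs * n⁻¹) = u := by
    rw [hΛs, show n * Real.log u * n⁻¹ = Real.log u by field_simp, Real.exp_log (by linarith)]
  have hΛm : Λs = Λ (X.co i₀ m) := by
    refine huniq _ hmC _ hΛpos ?_
    rw [hcom]
    simp only [TEa, hexp]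
    have : ∀ i, Real.exp (Λs * (Real.log (w i / w i₀) / Λs)) = w i / w i₀ := fun i => by
      rw [mul_div_cancel₀ _ hΛpos.ne', Real.exp_log (div_pos (hwpos _) (hwpos _))]
    simp only [this]
    exact hu.div (hwpos i₀)
  refine ⟨u, (2 * Λs)⁻¹, m, hu, by positivity, ⟨X.cl (1, 0), X.co i₀ ⁻¹' Cn I,
    n • ((LinearMap.fst ℝ _ _).comp (X.co i₀)), fun α => Real.exp (Λ (X.co i₀ α)), X.prim_one,
    X.ker_one, X.isGreatest i₀, fun α hα h => ?_, ?_, fun α hα ρ hρ => ?_, hmC, ?_,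
    fun α hα hx hne => ?_⟩, fun i => ?_⟩
  · obtain ⟨-, h2, h3⟩ := X.prim_cone i₀ h hα
    exact ⟨h2, h3 _ (hΛ _ hα).1 (hΛ _ hα).2⟩
  · exact Real.continuous_exp.comp_continuousOn
      (hcont.comp (X.continuous_co i₀).continuousOn fun _ h => h)
  · simp only
    rw [map_smul, ← Real.exp_mul]
    congr 1
    refine (huniq _ (smul_mem_Cn hα hρ) _ (mul_pos (hΛ _ hα).1 (inv_pos.2 hρ)) ?_).symm
    have h2 := (hΛ _ hα).2
    simp only [TEa, Prod.smul_fst, Prod.smul_snd, Pi.smul_apply, smul_eq_mul] at h2 ⊢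
    have : ∀ x : ℝ, Λ (X.co i₀ α) * ρ⁻¹ * (ρ * x) = Λ (X.co i₀ α) * x := fun x => by field_simp
    simpa only [this] using h2
  · change n * (X.co i₀ m).1 = 1
    rw [hcom]; field_simp
  · have hx' : n * (X.co i₀ α).1 = 1 := hx
    have h1 : (X.co i₀ α).1 = n⁻¹ := by field_simp; linarith
    obtain ⟨h2, h3⟩ := hmin _ _ (hΛ _ hα).2
    rw [h1] at h2 h3
    simp only
    rw [← hΛm, Real.exp_lt_exp]
    have h4 : Λs ≤ Λ (X.co i₀ α) := by
      rw [← hexp, Real.exp_le_exp] at h2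
      exact le_of_mul_le_mul_right h2 (inv_pos.2 hnpos)
    refine lt_of_le_of_ne h4 fun h5 => hne ?_
    have h6 := h3 (by rw [← h5, hexp])
    rw [← X.cl_co i₀ α, ← X.cl_co i₀ m, hcom]
    congr 1
    refine Prod.ext h1 (funext fun i => ?_)
    have h7 := h6 i i₀
    rw [X.co_self, mul_zero, Real.exp_zero, div_one, ← h5] at h7
    change _ = Real.log (w i / w i₀) / Λs
    rw [show w i / w i₀ = Real.exp (Λs * (X.co i₀ α).2 i) from h7.symm, Real.log_exp]
    field_simp
  · rw [hm, cl_gam]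
    simp only [hw]
    have h1 : ∀ i, 0 ≤ wv r u i := fun i => (Real.sqrt_pos.1 (hwpos i)).le
    rw [Real.log_sqrt (h1 _), Real.log_sqrt (h1 _)]
    field_simp

/-- The monodromy has no periodic conjugacy class except the peripheral ones. -/
theorem pa [Nonempty I] (n : ℕ) (hn : 0 < n) (c : stab X.D.p (s0 I))
    (h : IsConj ((X.D.phi (s0 I))^[n] c) c) :
    ∃ (g : F2) (j : ℤ), (c : F2) = g * kap ^ j * g⁻¹ := by
  obtain ⟨Λ, -, hΛ, -⟩ := exists_Lam X.one_le_cc (r := fun i => (X.r i : ℝ)) X.one_le_r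
  have hT := (hΛ (1, 0) (by intro i j; simp)).2
  simp only [TEa, mul_one, Pi.zero_apply, mul_zero, Real.exp_zero] at hT
  obtain ⟨l, hl⟩ := X.eig_of_TE (θ := 1) one_pos (fun _ => 0) (by simpa using hT)
  obtain ⟨P⟩ := X.D.pairData X.hpos
  have key : ∀ x w, X.D.Lc (pot fun _ => 0) 1 l x w = acoc X.D.p l x.1 w := fun x w =>
    (X.D.Lc_isAC _ 1 l).ext ((acoc_isAC X.D.p l).comp Prod.fst fun _ _ => rfl)
      (fun x e => by simp) x w
  refine P.periodic hl.1 hT.1 (fun s w => ?_) hn c h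
  have := hl.2 (s, 0) w
  rwa [key, key] at this

end ExD

theorem alg_main (k : ℕ) : ∃ (V : Type) (_ : Fintype V) (D : TD V) (s₀ : V), Trans D.p s₀ ∧
    (∀ n, 0 < n → ∀ c : stab D.p s₀, IsConj ((D.phi s₀)^[n] c) c →
      ∃ (g : F2) (j : ℤ), (c : F2) = g * kap ^ j * g⁻¹) ∧
    ∃ m : H1 (D.G s₀), MinPt (SemidirectProduct.inl : _ →* D.G s₀).range m ∧
      ∃ g : Fin k → D.G s₀, LinearIndependent ℚ fun i => m.1 (g i) := by
  let r : ZMod (2 * (k + 1) + 1) → ℕ := fun i => i.val + 2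
  have hinj : Function.Injective r := fun a b h =>
    ZMod.val_injective _ (by simpa [r] using h)
  obtain ⟨c₀, hc₀⟩ := indep r (fun i => by simp [r]) hinj
  obtain ⟨X, hcc, hr⟩ := exists_ExD (k + 1) (c₀ + 1) (by omega) r fun i => by simp [r]
  have : Fact (1 < 2 * (k + 1) + 1) := ⟨by omega⟩
  obtain ⟨u, κ, m, hu, hκ, hm, hval⟩ := X.minPt 0
  rw [hcc, hr] at hu
  rw [hr] at hval
  have hli := hc₀ _ (by omega) u hu
  let e : Option (Fin k) → ZMod (2 * (k + 1) + 1) := fun o => o.elim 0 fun i => ((i + 1 : ℕ) : _)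
  have hval' : ∀ o, (e o).val = o.elim 0 fun i : Fin k => (i : ℕ) + 1 := by
    rintro (_ | i)
    · simp [e]
    · simp only [e, Option.elim_some]
      exact ZMod.val_cast_of_lt (by omega)
  have he : Function.Injective e := by
    intro a b h
    have := congrArg ZMod.val h
    rw [hval', hval'] at this
    rcases a with _ | a <;> rcases b with _ | b <;> simp at this ⊢
    exact Fin.ext this
  refine ⟨_, inferInstance, X.D, ExD.s0 _, X.trans, X.pa, m, hm, fun i => X.gam (e (some i)) 0, ?_⟩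
  have hli' := hli.comp e he
  rw [Fintype.linearIndependent_iff] at hli' ⊢
  intro q hq i
  refine hli' (fun o => o.elim (-∑ i, q i) q) ?_ (some i)
  simp only [hval] at hq
  rw [Fintype.sum_option]
  simp only [Option.elim_none, Option.elim_some, Function.comp, Rat.smul_def] at hq ⊢
  have h0 : e none = 0 := rfl
  rw [h0]
  apply mul_left_cancel₀ hκ
  rw [mul_zero, ← hq]
  push_cast
  rw [mul_add, Finset.mul_sum, neg_mul, Finset.sum_mul, mul_neg, Finset.mul_sum,
    neg_add_eq_sub, ← Finset.sum_sub_distrib]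
  exact Finset.sum_congr rfl fun i _ => by ring

end Pool.Agent.Work.MP_1b9dce_gt
end

-- merged part: Pool.Agent.Work.MP_1b9dce_gt.Transport
section
namespace Pool.Agent.Work.MP_1b9dce_gt

open Equiv
open FreeGroup (of)

/-- Pull back of a class along an isomorphism. -/
def pull {G G' : Type} [Group G] [Group G'] (e : G ≃* G') (α : H1 G') : H1 G :=
  ⟨fun g => α.1 (e g), fun a b => by
    change α.1 (e (a * b)) = _
    rw [map_mul]; exact α.2 _ _⟩

section Aux
variable {G G' : Type} [Group G] [Group G']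

theorem Transport_pull_symm (e : G ≃* G') (α : H1 G') : pull e.symm (pull e α) = α := by
  apply Subtype.ext; funext g
  simp [pull]

theorem Transport_pull_symm' (e : G ≃* G') (α : H1 G) : pull e (pull e.symm α) = α := by
  apply Subtype.ext; funext g
  simp [pull]

/-- The pull back as a linear map. -/
def Transport_lin (e : G ≃* G') : H1 G' →ₗ[ℝ] H1 G where
  toFun := pull e
  map_add' := fun _ _ => rfl
  map_smul' := fun _ _ => rfl

theorem Transport_smul (e : G ≃* G') (r : ℝ) (α : H1 G') : pull e (r • α) = r • pull e α := rfl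

theorem Transport_cont (e : G ≃* G') : Continuous (pull e) := by
  refine Continuous.subtype_mk ?_ _
  exact continuous_pi fun g => (continuous_apply (e g)).comp continuous_subtype_val

theorem Transport_prim (e : G ≃* G') (α : H1 G') : Prim (pull e α) ↔ Prim α := by
  have : Set.range (pull e α).1 = Set.range α.1 :=
    e.surjective.range_comp α.1
  unfold Prim; rw [this]

theorem Transport_mem_ker (e : G ≃* G') (α : H1 G') (g : G) :
    g ∈ ker (pull e α) ↔ e g ∈ ker α := Iff.rfl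

theorem Transport_ker_map (e : G ≃* G') (α : H1 G') :
    (ker (pull e α)).map (e : G →* G') = ker α := by
  ext g'
  constructor
  · rintro ⟨g, hg, rfl⟩; exact hg
  · intro h
    refine ⟨e.symm g', ?_, by simp⟩
    change e (e.symm g') ∈ ker α
    simpa using h

theorem Transport_finrank (e : G ≃* G') (α : H1 G') :
    Module.finrank ℝ (H1 (ker (pull e α))) = Module.finrank ℝ (H1 (ker α)) := by
  have φ : ker (pull e α) ≃* ker α :=
    (e.subgroupMap (ker (pull e α))).trans (MulEquiv.subgroupCongr (Transport_ker_map e α))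
  exact finrank_H1_congr φ

theorem Transport_fg (e : G ≃* G') (α : H1 G) (h : (ker α).FG) : (ker (pull e.symm α)).FG := by
  classical
  have h1 := Transport_ker_map e (pull e.symm α)
  rw [Transport_pull_symm'] at h1
  rw [← h1]
  obtain ⟨B, hB⟩ := h
  refine ⟨B.image e, ?_⟩
  rw [← hB, MonoidHom.map_closure, Finset.coe_image]
  rfl

theorem Transport_wl [DecidableEq G'] (e : G ≃* G') (B : Finset G) (g : G) :
    wl (B.image e) (e g) = wl B g := by
  unfold wl
  congr 1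
  ext n
  constructor
  · rintro ⟨l, hl, hB, hp⟩
    refine ⟨l.map e.symm, by simpa using hl, ?_, ?_⟩
    · intro a ha
      obtain ⟨b, hb, rfl⟩ := List.mem_map.1 ha
      rcases hB b hb with h | h
      · obtain ⟨c, hc, rfl⟩ := Finset.mem_image.1 h
        left; simpa using hc
      · obtain ⟨c, hc, hc'⟩ := Finset.mem_image.1 h
        right
        rw [← map_inv, ← hc']; simpa using hc
    · rw [← map_list_prod, hp]; simp
  · rintro ⟨l, hl, hB, hp⟩
    refine ⟨l.map e, by simpa using hl, ?_, ?_⟩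
    · intro a ha
      obtain ⟨b, hb, rfl⟩ := List.mem_map.1 ha
      rcases hB b hb with h | h
      · left; exact Finset.mem_image_of_mem _ h
      · right; rw [← map_inv]; exact Finset.mem_image_of_mem _ h
    · rw [← map_list_prod, hp]

theorem Transport_grow (e : G ≃* G') (α : H1 G') (L : ℝ) (h : Grow α L) :
    Grow (pull e α) L := by
  classical
  intro B hB t ht
  have hB' : Subgroup.closure ((B.image e : Finset G') : Set G') = ker α := by
    rw [← Transport_ker_map e α, ← hB, MonoidHom.map_closure, Finset.coe_image]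
    rfl
  have key : ∀ (k : G) (n : ℕ), wl (B.image e) (e t ^ n * e k * (e t ^ n)⁻¹) =
      wl B (t ^ n * k * (t ^ n)⁻¹) := by
    intro k n
    rw [← Transport_wl e B]
    simp
  obtain ⟨h1, k', hk', c, hc, h2⟩ := h (B.image e) hB' (e t) ht
  refine ⟨fun k hk => ?_, e.symm k', ?_, c, hc, fun n => ?_⟩
  · obtain ⟨c, hc⟩ := h1 (e k) hk
    exact ⟨c, fun n => by rw [← key]; exact hc n⟩
  · change e (e.symm k') ∈ ker α
    simpa using hk'
  · rw [← key]; simpa using h2 n

theorem Transport_cone (e : G ≃* G') (α₀ : H1 G') (C : Set (H1 G')) (h : Cone α₀ C) :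
    Cone (pull e α₀) (pull e.symm ⁻¹' C) := by
  obtain ⟨h1, h2, h3, h4, h5⟩ := h
  refine ⟨h1.preimage (Transport_cont e.symm), h2.linear_preimage (Transport_lin e.symm),
    fun α hα r hr => h3 _ hα r hr, ?_, fun α hα hp => ?_⟩
  · change pull e.symm (pull e α₀) ∈ C
    rw [Transport_pull_symm]; exact h4
  · have := Transport_fg e.symm _ (h5 _ hα ((Transport_prim e.symm α).2 hp))
    rwa [MulEquiv.symm_symm, Transport_pull_symm'] at this

end Aux

theorem MinPt.comap {G G' : Type} [Group G] [Group G'] (e : G ≃* G') {F : Subgroup G}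
    {F' : Subgroup G'} (hF : ∀ g, g ∈ F ↔ e g ∈ F') {m : H1 G'} (h : MinPt F' m) :
    MinPt F (pull e m) := by
  obtain ⟨α₀, C, x, lam, hp, hk, ⟨hC, hmax⟩, hx, hcont, hhom, hm, hxm, hmin⟩ := h
  refine ⟨pull e α₀, pull e.symm ⁻¹' C, x ∘ₗ Transport_lin e.symm, lam ∘ pull e.symm,
    (Transport_prim e α₀).2 hp, ?_, ⟨Transport_cone e α₀ C hC, ?_⟩, ?_, ?_, ?_, ?_, ?_, ?_⟩
  · ext g
    rw [Transport_mem_ker, hk, hF]
  · intro D hD α hα
    have h1 := Transport_cone e.symm _ D hD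
    rw [Transport_pull_symm, MulEquiv.symm_symm] at h1
    apply hmax h1
    change pull e (pull e.symm α) ∈ D
    rw [Transport_pull_symm']; exact hα
  · intro α hα hpr
    obtain ⟨h1, h2⟩ := hx _ hα ((Transport_prim e.symm α).2 hpr)
    refine ⟨?_, ?_⟩
    · rw [← Transport_finrank e.symm α]; exact h1
    · have := Transport_grow e _ _ h2
      rwa [Transport_pull_symm'] at this
  · exact hcont.comp (Transport_cont e.symm).continuousOn fun _ h => h
  · intro α hα r hr
    exact hhom _ hα r hr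
  · change pull e.symm (pull e m) ∈ C
    rw [Transport_pull_symm]; exact hm
  · change x (pull e.symm (pull e m)) = 1
    rw [Transport_pull_symm]; exact hxm
  · intro α hα hxα hne
    change lam (pull e.symm (pull e m)) < lam (pull e.symm α)
    rw [Transport_pull_symm]
    refine hmin _ hα hxα fun h => hne ?_
    rw [← h, Transport_pull_symm']

end Pool.Agent.Work.MP_1b9dce_gt
end

-- merged part: Pool.Agent.Work.MP_1b9dce_gt.Surf
section
/-! The punctured square tiled surface of `p`, as a topological space (definitions). -/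

namespace Pool.Agent.Work.MP_1b9dce_gt

open Equiv
open FreeGroup (of)

/-- The open strip `ℝ × (0, 1)`. -/
abbrev Strip : Type := ℝ × Set.Ioo (0 : ℝ) 1

theorem coe_Ioo_ne_zero (b : Set.Ioo (0 : ℝ) 1) : ((b : ℝ) : UnitAddCircle) ≠ 0 := by
  intro h
  obtain ⟨n, hn⟩ := (AddCircle.coe_eq_zero_iff (p := (1 : ℝ))).1 h
  have h0 := b.2.1
  have h1 := b.2.2
  simp only [zsmul_eq_mul, mul_one] at hn
  rw [← hn] at h0 h1
  have h0' : (0 : ℤ) < n := by exact_mod_cast h0
  have h1' : n < (1 : ℤ) := by exact_mod_cast h1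
  omega

/-- The strip in direction `d` of the punctured torus: coordinate `d` is `a.1`, the other
coordinate is `a.2`. -/
noncomputable def mu (d : Bool) (a : Strip) : T0 :=
  ⟨fun e => if e = d then (a.1 : UnitAddCircle) else ((a.2 : ℝ) : UnitAddCircle), fun h => by
    have := congrFun h (!d)
    simp only [Bool.not_eq_self, if_false] at this
    exact coe_Ioo_ne_zero a.2 this⟩

@[simp] theorem mu_same (d : Bool) (a : Strip) : (mu d a).1 d = (a.1 : UnitAddCircle) := by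
  simp [mu]
@[simp] theorem mu_not (d : Bool) (a : Strip) :
    (mu d a).1 (!d) = ((a.2 : ℝ) : UnitAddCircle) := by
  simp [mu]

/-- Points of the surface: a point `z` of the punctured torus, whose coordinates are read in
`[0, 1) ^ 2`, and a square. -/
def Surf {V : Type} (_ : Bool → Perm V) : Type := T0 × V

variable {V : Type} (p : Bool → Perm V)

/-- The cylinder in direction `d` through the square `s`. -/
noncomputable def iota (d : Bool) (s : V) (a : Strip) : Surf p := (mu d a, (p d ^ ⌊a.1⌋) s)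

/-- The final topology for the cylinders. -/
noncomputable instance : TopologicalSpace (Surf p) :=
  ⨆ x : Bool × V, TopologicalSpace.coinduced (iota p x.1 x.2) inferInstance

/-- The projection to the punctured torus. -/
def proj (x : Surf p) : T0 := x.1

/-- The point `(k + 1 / 4, 1 / 4)` of the strip. -/
noncomputable def ctr (k : ℤ) : Strip := ((k : ℝ) + 1 / 4, ⟨1 / 4, by norm_num, by norm_num⟩)

/-- The base point of the punctured torus. -/
noncomputable def z0 : T0 := mu false (ctr 0)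

/-- The base point in the square `s`. -/
noncomputable def base (s : V) : Surf p := (z0, s)

/-- The map induced by a map of squares. -/
def smap {V' : Type} (p' : Bool → Perm V') (π : V → V') (x : Surf p) : Surf p' := (x.1, π x.2)

/-- The universal square tiled surface: the squares are the elements of `F2`. -/
def pF : Bool → Perm F2 := fun e => Equiv.mulRight (of e)

@[simp] theorem pF_apply (e : Bool) (g : F2) : pF e g = g * of e := rfl

theorem act_pF (g w : F2) : act pF g w = g * w := by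
  induction w using FreeGroup.induction_on generalizing g with
  | C1 => simp
  | of e => simp
  | inv_of e _ => simp [pF]
  | mul a b ha hb => rw [act_mul, ha, hb, mul_assoc]

/-- The universal cover. -/
abbrev UC : Type := Surf pF

/-- Deck transformations. -/
instance (s₀ : V) : MulAction (stab p s₀) UC where
  smul k x := (x.1, (k : F2) * x.2)
  one_smul _ := Prod.ext rfl (one_mul _)
  mul_smul _ _ _ := Prod.ext rfl (mul_assoc _ _ _)

theorem smul_def (s₀ : V) (k : stab p s₀) (x : UC) : k • x = (x.1, (k : F2) * x.2) := rfl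

/-- The universal covering map. -/
def uq (s₀ : V) : UC → Surf p := smap pF p (act p s₀)

/-- The representative in `[0, 1)`. -/
noncomputable def rep (x : UnitAddCircle) : ℝ := (AddCircle.equivIco 1 0 x : ℝ)

/-- The cut off function: `0` on `[0, 1 / 2]`, `1` on `[3 / 4, 1]`. -/
noncomputable def psi (b : ℝ) : ℝ := max 0 (min 1 (4 * b - 2))

/-- `φ` is a homeomorphism of the surface, equal to the identity near the base point, with a lift
`φ'` to the universal cover that fixes the base point and induces `θ` on the deck group. -/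
structure Lifts (s₀ : V) (θ : GAut p) (φ : Surf p ≃ₜ Surf p) (φ' : UC ≃ₜ UC) : Prop where
  comm : ∀ x, uq p s₀ (φ' x) = φ (uq p s₀ x)
  equiv : ∀ (k : stab p s₀) x, φ' (k • x) = res s₀ θ k • φ' x
  base' : φ' (base pF 1) = base pF 1
  near : ∀ᶠ y in nhds (base p s₀), φ y = y

end Pool.Agent.Work.MP_1b9dce_gt
end

-- merged part: Pool.Agent.Work.MP_1b9dce_gt.SurfA
section
namespace Pool.Agent.Work.MP_1b9dce_gt

open Equiv
open FreeGroup (of)

variable {V : Type} (p : Bool → Perm V)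

theorem SurfA_coe_eq_iff (x y : ℝ) :
    (x : UnitAddCircle) = (y : UnitAddCircle) ↔ ∃ k : ℤ, y = x + k := by
  rw [QuotientAddGroup.eq, AddSubgroup.mem_zmultiples_iff]
  constructor
  · rintro ⟨k, hk⟩
    refine ⟨k, ?_⟩
    simp only [zsmul_eq_mul, mul_one] at hk
    linarith
  · rintro ⟨k, hk⟩
    refine ⟨k, ?_⟩
    simp only [zsmul_eq_mul, mul_one]
    linarith

theorem SurfA_T0_ext {z w : T0} (d : Bool) (h : z.1 d = w.1 d) (h' : z.1 (!d) = w.1 (!d)) :
    z = w := by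
  refine Subtype.ext (funext fun e => ?_)
  by_cases he : e = d
  · rw [he, h]
  · obtain rfl : e = !d := by
      cases e <;> cases d <;> simp_all
    exact h'

theorem SurfA_mu_not' (d : Bool) (a : Strip) :
    (mu (!d) a).1 d = ((a.2 : ℝ) : UnitAddCircle) := by
  have h := mu_not (!d) a
  rwa [Bool.not_not] at h

theorem SurfA_floor (a : Set.Ioo (0 : ℝ) 1) : ⌊(a : ℝ)⌋ = 0 :=
  Int.floor_eq_zero_iff.2 ⟨a.2.1.le, a.2.2⟩

theorem continuous_mu (d : Bool) : Continuous (mu d) := by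
  refine Continuous.subtype_mk (continuous_pi fun e => ?_) _
  by_cases he : e = d
  · simp only [he, if_true]
    exact (AddCircle.continuous_mk' (1 : ℝ)).comp continuous_fst
  · simp only [he, if_false]
    exact (AddCircle.continuous_mk' (1 : ℝ)).comp (continuous_subtype_val.comp continuous_snd)

theorem continuous_iota (d : Bool) (s : V) : Continuous (iota p d s) :=
  continuous_iSup_rng (i := (d, s)) continuous_coinduced_rng

theorem continuous_surf_iff {Y : Type} [TopologicalSpace Y] {f : Surf p → Y} :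
    Continuous f ↔ ∀ d s, Continuous (f ∘ iota p d s) := by
  constructor
  · intro hf d s
    exact hf.comp (continuous_iota p d s)
  · intro h
    exact continuous_iSup_dom.2 fun x => continuous_coinduced_dom.2 (h x.1 x.2)

theorem iota_surj (x : Surf p) : ∃ d s a, iota p d s a = x := by
  obtain ⟨z, s⟩ := x
  obtain ⟨e, he⟩ : ∃ e, z.1 e ≠ 0 := by
    by_contra h
    push Not at h
    exact z.2 (funext h)
  have hrep : ∀ y : UnitAddCircle, ((rep y : ℝ) : UnitAddCircle) = y := fun y =>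
    AddCircle.coe_equivIco
  have hmem : ∀ y : UnitAddCircle, 0 ≤ rep y ∧ rep y < 1 := fun y => by
    have h := (AddCircle.equivIco (1 : ℝ) 0 y).2
    exact ⟨h.1, lt_of_lt_of_eq h.2 (zero_add 1)⟩
  have hpos : 0 < rep (z.1 e) := by
    refine lt_of_le_of_ne (hmem _).1 fun h => he ?_
    rw [← hrep (z.1 e), ← h]
    rfl
  refine ⟨!e, s, (rep (z.1 (!e)), ⟨rep (z.1 e), hpos, (hmem _).2⟩), ?_⟩
  refine Prod.ext (SurfA_T0_ext e ?_ ?_) ?_
  · exact (SurfA_mu_not' e _).trans (hrep _)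
  · exact (mu_same (!e) _).trans (hrep _)
  · have h : ⌊rep (z.1 (!e))⌋ = 0 := Int.floor_eq_zero_iff.2 (hmem _)
    change (p (!e) ^ ⌊rep (z.1 (!e))⌋) s = s
    rw [h, zpow_zero, Perm.one_apply]

theorem mu_add_int (d : Bool) (a : Strip) (k : ℤ) : mu d (a.1 + k, a.2) = mu d a := by
  refine SurfA_T0_ext d ?_ ?_
  · rw [mu_same, mu_same]
    exact ((SurfA_coe_eq_iff _ _).2 ⟨k, rfl⟩).symm
  · rw [mu_not, mu_not]

theorem iota_add_int (d : Bool) (s : V) (a : Strip) (k : ℤ) :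
    iota p d s (a.1 + k, a.2) = iota p d ((p d ^ k) s) a := by
  refine Prod.ext (mu_add_int d a k) ?_
  change (p d ^ ⌊a.1 + k⌋) s = (p d ^ ⌊a.1⌋) ((p d ^ k) s)
  rw [Int.floor_add_intCast, zpow_add, Perm.mul_apply]

theorem mu_eq_iff (d : Bool) (a a' : Strip) :
    mu d a = mu d a' ↔ a.2 = a'.2 ∧ ∃ k : ℤ, a'.1 = a.1 + k := by
  constructor
  · intro h
    have h1 : (mu d a).1 d = (mu d a').1 d := by rw [h]
    have h2 : (mu d a).1 (!d) = (mu d a').1 (!d) := by rw [h]
    rw [mu_same, mu_same] at h1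
    rw [mu_not, mu_not] at h2
    refine ⟨Subtype.ext ?_, (SurfA_coe_eq_iff _ _).1 h1⟩
    refine (AddCircle.coe_eq_coe_iff_of_mem_Ico (p := (1 : ℝ)) (a := 0) ?_ ?_).1 h2
    · exact ⟨a.2.2.1.le, by simpa using a.2.2.2⟩
    · exact ⟨a'.2.2.1.le, by simpa using a'.2.2.2⟩
  · rintro ⟨h1, k, hk⟩
    have h : a' = (a.1 + k, a.2) := Prod.ext hk h1.symm
    rw [h, mu_add_int]

theorem mu_swap (d : Bool) (a b : Set.Ioo (0 : ℝ) 1) : mu (!d) (b.1, a) = mu d (a.1, b) := by
  refine SurfA_T0_ext d ?_ ?_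
  · rw [SurfA_mu_not', mu_same]
  · rw [mu_same, mu_not]

theorem iota_swap (d : Bool) (s : V) (a b : Set.Ioo (0 : ℝ) 1) :
    iota p (!d) s (b.1, a) = iota p d s (a.1, b) := by
  refine Prod.ext (mu_swap d a b) ?_
  change (p (!d) ^ ⌊(b : ℝ)⌋) s = (p d ^ ⌊(a : ℝ)⌋) s
  rw [SurfA_floor, SurfA_floor, zpow_zero, zpow_zero]

theorem mu_ctr (d : Bool) (k : ℤ) : mu d (ctr k) = z0 := by
  have h : ∀ (e : Bool) (j : ℤ), (mu e (ctr j)).1 = fun _ => ((1 / 4 : ℝ) : UnitAddCircle) := by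
    intro e j
    funext e'
    by_cases he : e' = e
    · rw [he, mu_same]
      exact ((SurfA_coe_eq_iff _ _).2 ⟨j, by simp [ctr, add_comm]⟩).symm
    · obtain rfl : e' = !e := by
        cases e <;> cases e' <;> simp_all
      rw [mu_not]
      rfl
  exact Subtype.ext ((h d k).trans (h false 0).symm)

theorem iota_ctr (d : Bool) (s : V) (k : ℤ) : iota p d s (ctr k) = base p ((p d ^ k) s) := by
  refine Prod.ext (mu_ctr d k) ?_
  have h : ⌊(k : ℝ) + 1 / 4⌋ = k := by
    rw [Int.floor_eq_iff]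
    constructor <;> linarith
  change (p d ^ ⌊(k : ℝ) + 1 / 4⌋) s = (p d ^ k) s
  rw [h]

theorem SurfA_iota_inj (d : Bool) {s s' : V} {a : Strip} (h : iota p d s a = iota p d s' a) :
    s = s' :=
  (p d ^ ⌊a.1⌋).injective (congrArg Prod.snd h)

theorem isOpenMap_iota (d : Bool) (s : V) : IsOpenMap (iota p d s) := by
  intro W hW
  refine isOpen_iSup_iff.2 fun x => isOpen_coinduced.2 ?_
  obtain ⟨d', s'⟩ := x
  change IsOpen (iota p d' s' ⁻¹' (iota p d s '' W))
  rw [isOpen_iff_mem_nhds]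
  rintro a' ⟨a, ha, he⟩
  have hmu : mu d a = mu d' a' := congrArg Prod.fst he
  by_cases hd : d' = d
  · subst hd
    obtain ⟨h2, k, hk⟩ := (mu_eq_iff d' a' a).1 hmu.symm
    have haa : a = (a'.1 + k, a'.2) := Prod.ext hk h2.symm
    have hs : (p d' ^ k) s = s' := by
      rw [haa, iota_add_int] at he
      exact SurfA_iota_inj p d' he
    have hg : Continuous fun y : Strip => ((y.1 + k, y.2) : Strip) := by fun_prop
    have hn : (fun y : Strip => ((y.1 + k, y.2) : Strip)) ⁻¹' W ∈ nhds a' :=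
      (hW.preimage hg).mem_nhds (by rw [Set.mem_preimage, ← haa]; exact ha)
    refine Filter.mem_of_superset hn fun y hy => ⟨_, hy, ?_⟩
    rw [iota_add_int, hs]
  · obtain rfl : d' = !d := by
      cases d <;> cases d' <;> simp_all
    have h1 : (mu d a).1 d = (mu (!d) a').1 d := by rw [hmu]
    have h2 : (mu d a).1 (!d) = (mu (!d) a').1 (!d) := by rw [hmu]
    rw [mu_same, SurfA_mu_not'] at h1
    rw [mu_not, mu_same] at h2
    obtain ⟨k, hk⟩ := (SurfA_coe_eq_iff _ _).1 h1.symm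
    obtain ⟨m, hm⟩ := (SurfA_coe_eq_iff _ _).1 h2
    have key : ∀ (t : V) (b c : Set.Ioo (0 : ℝ) 1),
        iota p (!d) t (b.1 + m, c) = iota p d ((p (!d) ^ m) t) (c.1, b) := fun t b c =>
      (iota_add_int p (!d) t (b.1, c) m).trans (iota_swap p d _ c b)
    have key' : ∀ (b c : Set.Ioo (0 : ℝ) 1),
        iota p d s (c.1 + k, b) = iota p d ((p d ^ k) s) (c.1, b) := fun b c =>
      iota_add_int p d s (c.1, b) k
    have hs : (p d ^ k) s = (p (!d) ^ m) s' := by
      have e1 : a = (a'.2.1 + k, a.2) := Prod.ext hk rfl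
      have e2 : a' = (a.2.1 + m, a'.2) := Prod.ext hm rfl
      have e3 : iota p d s (a'.2.1 + k, a.2) = iota p (!d) s' (a.2.1 + m, a'.2) := by
        rw [← e1, ← e2, he]
      rw [key, key'] at e3
      exact SurfA_iota_inj p d e3
    let O : Set Strip := {y | y.1 - m ∈ Set.Ioo (0 : ℝ) 1}
    have hO : IsOpen O := isOpen_Ioo.preimage (by fun_prop)
    let g : O → Strip := fun y => (y.1.2.1 + k, ⟨y.1.1 - m, y.2⟩)
    have hg : Continuous g := by
      refine Continuous.prodMk (by fun_prop) (Continuous.subtype_mk (by fun_prop) _)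
    have hN : IsOpen (Subtype.val '' (g ⁻¹' W)) :=
      hO.isOpenMap_subtype_val _ (hW.preimage hg)
    have ha'O : a' ∈ O := by
      change a'.1 - m ∈ Set.Ioo (0 : ℝ) 1
      rw [hm, add_sub_cancel_right]
      exact a.2.2
    have hga : g ⟨a', ha'O⟩ = a :=
      Prod.ext hk.symm (Subtype.ext (by
        change a'.1 - m = a.2.1
        rw [hm, add_sub_cancel_right]))
    refine Filter.mem_of_superset (hN.mem_nhds ⟨⟨a', ha'O⟩, ?_, rfl⟩) ?_
    · rw [Set.mem_preimage, hga]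
      exact ha
    · rintro _ ⟨y, hy, rfl⟩
      refine ⟨g y, hy, ?_⟩
      have e1 : y.1 = ((y.1.1 - m) + m, y.1.2) := Prod.ext (by simp) rfl
      have e2 := key s' ⟨y.1.1 - m, y.2⟩ y.1.2
      rw [← hs, ← key'] at e2
      rw [e1]
      exact e2.symm

theorem continuous_proj : Continuous (proj p) :=
  (continuous_surf_iff p).2 fun d _ => continuous_mu d

/-- Coordinates on the torus. -/
def SurfA_co (d : Bool) : (UnitAddCircle × UnitAddCircle) ≃ₜ (Bool → UnitAddCircle) where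
  toFun x e := if e = d then x.1 else x.2
  invFun z := (z d, z (!d))
  left_inv x := by simp
  right_inv z := by
    funext e
    cases e <;> cases d <;> simp
  continuous_toFun := by
    refine continuous_pi fun e => ?_
    by_cases he : e = d
    · simp only [he, if_true]
      exact continuous_fst
    · simp only [he, if_false]
      exact continuous_snd
  continuous_invFun := by fun_prop

theorem SurfA_isOpenMap_mu (d : Bool) : IsOpenMap (mu d) := by
  have h0 : IsOpenMap ((↑) : ℝ → UnitAddCircle) := QuotientAddGroup.isOpenMap_coe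
  have h1 : IsOpenMap (Prod.map ((↑) : ℝ → UnitAddCircle)
      (((↑) : ℝ → UnitAddCircle) ∘ (Subtype.val : Set.Ioo (0 : ℝ) 1 → ℝ))) :=
    h0.prodMap (h0.comp isOpen_Ioo.isOpenMap_subtype_val)
  have h2 := (SurfA_co d).isOpenMap.comp h1
  exact IsOpenMap.subtype_mk h2 _

theorem isCoveringMap_proj [Nonempty V] : IsCoveringMap (proj p) := by
  intro z
  let _ : TopologicalSpace V := ⊥
  have : DiscreteTopology V := ⟨rfl⟩
  have : Nonempty (T0 → Surf p) := ⟨fun w => (w, Classical.arbitrary V)⟩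
  obtain ⟨d, s₀, a₀, h₀⟩ := iota_surj p (z, Classical.arbitrary V)
  have hz : mu d a₀ = z := congrArg Prod.fst h₀
  let Bx : Set Strip := {a | |a.1 - a₀.1| < 1 / 2}
  have hBx : IsOpen Bx := isOpen_lt (by fun_prop) continuous_const
  have hinj : ∀ a ∈ Bx, ∀ a' ∈ Bx, mu d a = mu d a' → a = a' := by
    intro a ha a' ha' h
    obtain ⟨h2, k, hk⟩ := (mu_eq_iff d a a').1 h
    have h3 := abs_lt.1 (show |a.1 - a₀.1| < 1 / 2 from ha)
    have h4 := abs_lt.1 (show |a'.1 - a₀.1| < 1 / 2 from ha')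
    have h5 : (k : ℝ) < 1 := by linarith [h3.1, h4.2]
    have h6 : (-1 : ℝ) < k := by linarith [h3.2, h4.1]
    have h7 : k < 1 := by exact_mod_cast h5
    have h8 : -1 < k := by exact_mod_cast h6
    obtain rfl : k = 0 := by omega
    exact Prod.ext (by simpa using hk.symm) h2
  refine IsEvenlyCovered.to_isEvenlyCovered_preimage (I := V) (IsEvenlyCovered.of_trivialization
    (t := IsOpen.trivializationDiscrete (f := proj p) (fun s : V => iota p d s '' Bx) (mu d '' Bx)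
      (SurfA_isOpenMap_mu d _ hBx) ?_ ?_ ?_ ?_ ?_) ?_)
  · intro s W hW
    constructor
    · intro h
      exact (h.preimage (continuous_proj p)).inter (isOpenMap_iota p d s _ hBx)
    · intro h
      have e : W = mu d '' (iota p d s ⁻¹' (proj p ⁻¹' W ∩ iota p d s '' Bx)) := by
        ext w
        constructor
        · intro hw
          obtain ⟨a, ha, rfl⟩ := hW hw
          exact ⟨a, ⟨hw, a, ha, rfl⟩, rfl⟩
        · rintro ⟨a, ha, rfl⟩
          exact ha.1
      rw [e]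
      exact SurfA_isOpenMap_mu d _ (h.preimage (continuous_iota p d s))
  · rintro s _ ⟨a, ha, rfl⟩ _ ⟨a', ha', rfl⟩ h
    rw [hinj a ha a' ha' h]
  · rintro s _ ⟨a, ha, rfl⟩
    exact ⟨iota p d s a, ⟨a, ha, rfl⟩, rfl⟩
  · intro s s' hs
    refine Set.disjoint_left.2 ?_
    rintro _ ⟨a, ha, rfl⟩ ⟨a', ha', h⟩
    obtain rfl : a' = a := hinj a' ha' a ha (congrArg Prod.fst h)
    exact hs (SurfA_iota_inj p d h).symm
  · rintro x ⟨a, ha, h⟩
    refine Set.mem_iUnion.2 ⟨(p d ^ ⌊a.1⌋)⁻¹ x.2, a, ha, Prod.ext h ?_⟩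
    change (p d ^ ⌊a.1⌋) ((p d ^ ⌊a.1⌋)⁻¹ x.2) = x.2
    simp
  · exact ⟨a₀, by simp [Bx], hz⟩

theorem smap_iota {V' : Type} (p' : Bool → Perm V') (π : V → V')
    (hπ : ∀ e s, π (p e s) = p' e (π s)) (d : Bool) (s : V) (a : Strip) :
    smap p p' π (iota p d s a) = iota p' d (π s) a := by
  refine Prod.ext rfl ?_
  change π ((p d ^ ⌊a.1⌋) s) = (p' d ^ ⌊a.1⌋) (π s)
  rw [← act_of_zpow, ← act_of_zpow, act_map p p' π hπ]

theorem continuous_smap {V' : Type} (p' : Bool → Perm V') (π : V → V')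
    (hπ : ∀ e s, π (p e s) = p' e (π s)) : Continuous (smap p p' π) := by
  refine (continuous_surf_iff p).2 fun d s => ?_
  have h : smap p p' π ∘ iota p d s = iota p' d (π s) := funext (smap_iota p p' π hπ d s)
  rw [h]
  exact continuous_iota p' d (π s)

theorem SurfA_joined (d : Bool) (s : V) (a a' : Strip) :
    Joined (iota p d s a) (iota p d s a') := by
  have : PathConnectedSpace (Set.Ioo (0 : ℝ) 1) :=
    isPathConnected_iff_pathConnectedSpace.1
      ((convex_Ioo (0 : ℝ) 1).isPathConnected ⟨1 / 2, by norm_num, by norm_num⟩)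
  exact ⟨(PathConnectedSpace.somePath a a').map (continuous_iota p d s)⟩

theorem SurfA_joined_base (d : Bool) (s : V) (a : Strip) (k : ℤ) :
    Joined (iota p d s a) (base p ((p d ^ k) s)) := by
  rw [← iota_ctr]
  exact SurfA_joined p d s a _

theorem SurfA_joined_act (s : V) (w : F2) : Joined (base p s) (base p (act p s w)) := by
  have h : ∀ (e : Bool) (t : V) (k : ℤ), Joined (base p t) (base p ((p e ^ k) t)) := by
    intro e t k
    have h1 := SurfA_joined_base p e t (ctr 0) k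
    rwa [iota_ctr, zpow_zero, Perm.one_apply] at h1
  induction w using FreeGroup.induction_on generalizing s with
  | C1 =>
    rw [act_one]
  | of e => simpa using h e s 1
  | inv_of e _ => simpa using h e s (-1)
  | mul a b ha hb =>
    rw [act_mul]
    exact (ha s).trans (hb _)

theorem pathConnected_surf {s₀ : V} (htr : Trans p s₀) : PathConnectedSpace (Surf p) := by
  have h : ∀ x : Surf p, Joined (base p s₀) x := by
    intro x
    obtain ⟨d, s, a, rfl⟩ := iota_surj p x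
    obtain ⟨w, hw⟩ := htr s
    have h1 := SurfA_joined_base p d s a 0
    rw [zpow_zero, Perm.one_apply] at h1
    have h2 := SurfA_joined_act p s₀ w
    rw [hw] at h2
    exact h2.trans h1.symm
  exact ⟨⟨base p s₀⟩, fun x y => (h x).symm.trans (h y)⟩

end Pool.Agent.Work.MP_1b9dce_gt
end

-- merged part: Pool.Agent.Work.MP_1b9dce_gt.SurfTw
section
namespace Pool.Agent.Work.MP_1b9dce_gt

open Equiv
open FreeGroup (of)

theorem SurfTw_rep_coe (x : ℝ) : rep (x : UnitAddCircle) = Int.fract x := by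
  have h1 : ((Int.fract x : ℝ) : UnitAddCircle) = (x : UnitAddCircle) := by
    rw [← Int.self_sub_floor, AddCircle.coe_sub]
    have : (((⌊x⌋ : ℤ) : ℝ) : UnitAddCircle) = 0 :=
      (AddCircle.coe_eq_zero_iff (p := (1 : ℝ))).2 ⟨⌊x⌋, by simp⟩
    rw [this, sub_zero]
  have h2 : Int.fract x ∈ Set.Ico (0 : ℝ) (0 + 1) :=
    ⟨Int.fract_nonneg x, by rw [zero_add]; exact Int.fract_lt_one x⟩
  rw [← h1, rep, AddCircle.equivIco_coe_eq h2]

theorem SurfTw_coe_rep (z : UnitAddCircle) : ((rep z : ℝ) : UnitAddCircle) = z :=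
  (AddCircle.equivIco 1 0).symm_apply_apply z

theorem SurfTw_rep_nonneg (z : UnitAddCircle) : 0 ≤ rep z := (AddCircle.equivIco 1 0 z).2.1

theorem SurfTw_rep_lt (z : UnitAddCircle) : rep z < 1 := by
  have : rep z < 0 + 1 := (AddCircle.equivIco 1 0 z).2.2
  rwa [zero_add] at this

theorem SurfTw_floor_rep (z : UnitAddCircle) : ⌊rep z⌋ = 0 :=
  Int.floor_eq_zero_iff.2 ⟨SurfTw_rep_nonneg z, SurfTw_rep_lt z⟩

theorem SurfTw_rep_zero : rep (0 : UnitAddCircle) = 0 := by
  have := SurfTw_rep_coe 0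
  simpa using this

theorem SurfTw_rep_Ioo (b : Set.Ioo (0 : ℝ) 1) : rep ((b : ℝ) : UnitAddCircle) = b := by
  rw [SurfTw_rep_coe, Int.fract_eq_self.2 ⟨b.2.1.le, b.2.2⟩]

theorem SurfTw_coe_int (k : ℤ) : (((k : ℤ) : ℝ) : UnitAddCircle) = 0 :=
  (AddCircle.coe_eq_zero_iff (p := (1 : ℝ))).2 ⟨k, by simp⟩

theorem SurfTw_psi_le {b : ℝ} (h : b ≤ 1 / 2) : psi b = 0 := by
  unfold psi
  apply max_eq_left
  exact (min_le_right _ _).trans (by linarith)

theorem SurfTw_psi_ge {b : ℝ} (h : 3 / 4 ≤ b) : psi b = 1 := by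
  unfold psi
  rw [min_eq_left (by linarith)]
  norm_num

theorem SurfTw_continuous_psi : Continuous psi := by
  unfold psi
  fun_prop

theorem SurfTw_bool (d e : Bool) : e = d ∨ e = !d := by
  cases d <;> cases e <;> simp

/-- The shear of the punctured torus. -/
noncomputable def SurfTw_z (d : Bool) (z : T0) (t : ℝ) : T0 :=
  ⟨Function.update z.1 d (z.1 d + ((t * psi (rep (z.1 (!d))) : ℝ) : UnitAddCircle)), fun h => by
    have h1 := congrFun h (!d)
    have h2 := congrFun h d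
    rw [Function.update_of_ne (by simp)] at h1
    rw [Function.update_self, h1] at h2
    simp only [Pi.zero_apply] at h1 h2
    rw [SurfTw_rep_zero, SurfTw_psi_le (by norm_num)] at h2
    simp only [mul_zero, QuotientAddGroup.mk_zero, add_zero] at h2
    apply z.2
    funext e
    rcases SurfTw_bool d e with rfl | rfl
    · exact h2
    · exact h1⟩

theorem SurfTw_z_same (d : Bool) (z : T0) (t : ℝ) :
    (SurfTw_z d z t).1 d = z.1 d + ((t * psi (rep (z.1 (!d))) : ℝ) : UnitAddCircle) := by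
  simp [SurfTw_z]

theorem SurfTw_z_not (d : Bool) (z : T0) (t : ℝ) : (SurfTw_z d z t).1 (!d) = z.1 (!d) := by
  simp [SurfTw_z]

theorem SurfTw_T0_ext (d : Bool) {z z' : T0} (h1 : z.1 d = z'.1 d) (h2 : z.1 (!d) = z'.1 (!d)) :
    z = z' := by
  apply Subtype.ext
  funext e
  rcases SurfTw_bool d e with rfl | rfl
  · exact h1
  · exact h2

section General
variable {V V' : Type} (p : Bool → Perm V) (p' : Bool → Perm V') (d : Bool) (f : V → V')
  (c : V → ℤ)

/-- The twist map. -/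
noncomputable def SurfTw_TW (x : Surf p) : Surf p' :=
  (SurfTw_z d x.1 (c x.2),
    (p' d ^ ⌊rep (x.1.1 d) + c x.2 * psi (rep (x.1.1 (!d)))⌋) (f x.2))

/-- Compatibility conditions. -/
structure SurfTw_Good : Prop where
  h1 : ∀ s, f (p d s) = p' d (f s)
  h2 : ∀ s, c (p d s) = c s
  h3 : ∀ s, f (p (!d) s) = p' (!d) ((p' d ^ c s) (f s))

variable {p p' d f c}

theorem SurfTw_Good.f_zpow (h : SurfTw_Good p p' d f c) (k : ℤ) (s : V) :
    f ((p d ^ k) s) = (p' d ^ k) (f s) := by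
  induction k using Int.induction_on generalizing s with
  | zero => simp
  | succ n ih => rw [zpow_add_one, zpow_add_one, Perm.mul_apply, Perm.mul_apply, ih, h.h1]
  | pred n ih =>
    rw [zpow_sub_one, zpow_sub_one, Perm.mul_apply, Perm.mul_apply, ih]
    congr 1
    apply (p' d).injective
    rw [← h.h1]; simp

theorem SurfTw_Good.c_zpow (h : SurfTw_Good p p' d f c) (k : ℤ) (s : V) :
    c ((p d ^ k) s) = c s := by
  induction k using Int.induction_on generalizing s with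
  | zero => simp
  | succ n ih => rw [zpow_add_one, Perm.mul_apply, ih, h.h2]
  | pred n ih =>
    rw [zpow_sub_one, Perm.mul_apply, ih, ← h.h2]; simp

theorem SurfTw_A (h : SurfTw_Good p p' d f c) (s : V) (a : Strip) :
    SurfTw_TW p p' d f c (iota p d s a) =
      iota p' d (f s) (a.1 + c s * psi a.2, a.2) := by
  unfold SurfTw_TW iota
  simp only [h.c_zpow, h.f_zpow, mu_same, mu_not, SurfTw_rep_Ioo]
  refine Prod.ext ?_ ?_
  · apply SurfTw_T0_ext d
    · simp only [SurfTw_z_same, mu_same, mu_not, SurfTw_rep_Ioo, AddCircle.coe_add]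
    · simp only [SurfTw_z_not, mu_not]
  · simp only
    rw [← Perm.mul_apply, ← zpow_add, SurfTw_rep_coe, ← Int.floor_add_intCast]
    congr 3
    rw [add_right_comm, Int.fract_add_floor]

theorem SurfTw_B1 (z : T0) (s : V) (hz : rep (z.1 (!d)) ≤ 1 / 2) :
    SurfTw_TW p p' d f c (z, s) = (z, f s) := by
  unfold SurfTw_TW
  simp only [SurfTw_psi_le hz, mul_zero, add_zero, SurfTw_floor_rep, zpow_zero, Perm.one_apply]
  refine Prod.ext ?_ rfl
  apply SurfTw_T0_ext d
  · simp [SurfTw_z_same, SurfTw_psi_le hz]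
  · simp only [SurfTw_z_not]

theorem SurfTw_B2 (z : T0) (s : V) (hz : 3 / 4 ≤ rep (z.1 (!d))) :
    SurfTw_TW p p' d f c (z, s) = (z, (p' d ^ c s) (f s)) := by
  unfold SurfTw_TW
  simp only [SurfTw_psi_ge hz, mul_one, Int.floor_add_intCast, SurfTw_floor_rep, zero_add]
  refine Prod.ext ?_ rfl
  apply SurfTw_T0_ext d
  · simp only [SurfTw_z_same, SurfTw_psi_ge hz, mul_one, SurfTw_coe_int, add_zero]
  · simp only [SurfTw_z_not]

theorem SurfTw_cont_same (h : SurfTw_Good p p' d f c) (s : V) :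
    Continuous (SurfTw_TW p p' d f c ∘ iota p d s) := by
  have : SurfTw_TW p p' d f c ∘ iota p d s =
      iota p' d (f s) ∘ fun a : Strip => ((a.1 + c s * psi a.2, a.2) : Strip) := by
    funext a
    exact SurfTw_A h s a
  rw [this]
  refine (continuous_iota p' d (f s)).comp ?_
  have := SurfTw_continuous_psi
  fun_prop

theorem SurfTw_cont_mid (h : SurfTw_Good p p' d f c) (s : V) (m : ℤ) :
    ContinuousOn (SurfTw_TW p p' d f c ∘ iota p (!d) s)
      {y : Strip | (m : ℝ) < y.1 ∧ y.1 < m + 1} := by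
  rw [continuousOn_iff_continuous_domRestrict]
  let g : {y : Strip | (m : ℝ) < y.1 ∧ y.1 < m + 1} → Strip := fun y =>
    ((y.1.2 : ℝ), ⟨y.1.1 - m, by have := y.2.1; linarith, by have := y.2.2; linarith⟩)
  have hg : Continuous g := by
    refine Continuous.prodMk (by fun_prop) (Continuous.subtype_mk (by fun_prop) _)
  have : Set.domRestrict {y : Strip | (m : ℝ) < y.1 ∧ y.1 < m + 1}
      (SurfTw_TW p p' d f c ∘ iota p (!d) s) =
      (SurfTw_TW p p' d f c ∘ iota p d ((p (!d) ^ m) s)) ∘ g := by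
    funext y
    simp only [Set.domRestrict_apply, Function.comp_apply, g]
    congr 1
    rw [← iota_swap p d ((p (!d) ^ m) s) y.1.2, ← iota_add_int]
    simp
  rw [this]
  exact (SurfTw_cont_same h _).comp hg

theorem SurfTw_cont_int (h : SurfTw_Good p p' d f c) (s : V) (m : ℤ) (y : Strip)
    (h1 : (m : ℝ) - 1 / 4 < y.1) (h2 : y.1 < m + 1 / 4) :
    SurfTw_TW p p' d f c (iota p (!d) s y) =
      iota p' (!d) ((p' (!d) ^ (-m)) (f ((p (!d) ^ m) s))) y := by
  unfold iota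
  have hr : rep ((mu (!d) y).1 (!d)) = Int.fract y.1 := by rw [mu_same, SurfTw_rep_coe]
  rcases le_or_gt (m : ℝ) y.1 with h3 | h3
  · have hf : ⌊y.1⌋ = m := Int.floor_eq_iff.2 ⟨h3, by linarith⟩
    rw [SurfTw_B1, hf, ← Perm.mul_apply (p' (!d) ^ m), ← zpow_add]
    · refine Prod.ext rfl ?_
      simp
    · rw [hr, Int.fract, hf]; linarith
  · have hf : ⌊y.1⌋ = m - 1 := Int.floor_eq_iff.2 ⟨by push_cast; linarith, by push_cast; linarith⟩
    rw [SurfTw_B2, hf, ← Perm.mul_apply (p' (!d) ^ (m - 1)), ← zpow_add]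
    · have e1 : (p (!d) ^ m) s = p (!d) ((p (!d) ^ (m - 1)) s) := by
        rw [← Perm.mul_apply, ← zpow_one_add]; simp
      rw [e1, h.h3, show m - 1 + -m = -1 by ring]
      refine Prod.ext rfl ?_
      simp
    · rw [hr, Int.fract, hf]; push_cast; linarith

theorem SurfTw_continuous (h : SurfTw_Good p p' d f c) : Continuous (SurfTw_TW p p' d f c) := by
  rw [continuous_surf_iff]
  intro e s
  rcases SurfTw_bool d e with rfl | rfl
  · exact SurfTw_cont_same h s
  · rw [continuous_iff_continuousAt]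
    intro a
    rcases (Int.floor_le a.1).eq_or_lt with ha | ha
    · have hc : ContinuousAt
          (iota p' (!d) ((p' (!d) ^ (-⌊a.1⌋)) (f ((p (!d) ^ ⌊a.1⌋) s)))) a :=
        (continuous_iota p' _ _).continuousAt
      refine hc.congr ?_
      have ho : IsOpen {y : Strip | (⌊a.1⌋ : ℝ) - 1 / 4 < y.1 ∧ y.1 < ⌊a.1⌋ + 1 / 4} :=
        (isOpen_lt continuous_const continuous_fst).inter
          (isOpen_lt continuous_fst continuous_const)
      filter_upwards [ho.mem_nhds (show a ∈ _ from ⟨by linarith, by linarith⟩)] with y hy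
      exact (SurfTw_cont_int h s _ y hy.1 hy.2).symm
    · have ho : IsOpen {y : Strip | (⌊a.1⌋ : ℝ) < y.1 ∧ y.1 < ⌊a.1⌋ + 1} :=
        (isOpen_lt continuous_const continuous_fst).inter
          (isOpen_lt continuous_fst continuous_const)
      exact (SurfTw_cont_mid h s ⌊a.1⌋).continuousAt
        (ho.mem_nhds ⟨ha, Int.lt_floor_add_one a.1⟩)

theorem SurfTw_cases (p : Bool → Perm V) (d : Bool) (x : Surf p) :
    (∃ s a, iota p d s a = x) ∨ x.1.1 (!d) = 0 := by
  by_cases h : x.1.1 (!d) = 0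
  · exact Or.inr h
  · left
    have h0 : 0 < rep (x.1.1 (!d)) := by
      refine (SurfTw_rep_nonneg _).lt_of_ne fun h' => h ?_
      rw [← SurfTw_coe_rep (x.1.1 (!d)), ← h']; simp
    refine ⟨x.2, (rep (x.1.1 d), ⟨rep (x.1.1 (!d)), h0, SurfTw_rep_lt _⟩), ?_⟩
    unfold iota
    refine Prod.ext ?_ ?_
    · apply SurfTw_T0_ext d
      · simp only [mu_same, SurfTw_coe_rep]
      · simp only [mu_not, SurfTw_coe_rep]
    · simp [SurfTw_floor_rep]

theorem SurfTw_inv {f' : V' → V} {c' : V' → ℤ} (h : SurfTw_Good p p' d f c)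
    (h' : SurfTw_Good p' p d f' c') (hf : ∀ s, f' (f s) = s) (hc : ∀ s, c' (f s) = -c s)
    (x : Surf p) : SurfTw_TW p' p d f' c' (SurfTw_TW p p' d f c x) = x := by
  rcases SurfTw_cases p d x with ⟨s, a, rfl⟩ | hx
  · rw [SurfTw_A h, SurfTw_A h', hf, hc]
    congr 1
    refine Prod.ext ?_ rfl
    push_cast
    ring
  · have hz : rep (x.1.1 (!d)) ≤ 1 / 2 := by rw [hx, SurfTw_rep_zero]; norm_num
    rw [show x = (x.1, x.2) from rfl, SurfTw_B1 _ _ hz, SurfTw_B1 _ _ hz, hf]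

/-- The twist as a homeomorphism. -/
noncomputable def SurfTw_homeo {f' : V' → V} {c' : V' → ℤ} (h : SurfTw_Good p p' d f c)
    (h' : SurfTw_Good p' p d f' c') (hf : ∀ s, f' (f s) = s) (hf' : ∀ s, f (f' s) = s)
    (hc : ∀ s, c' (f s) = -c s) : Surf p ≃ₜ Surf p' where
  toFun := SurfTw_TW p p' d f c
  invFun := SurfTw_TW p' p d f' c'
  left_inv := SurfTw_inv h h' hf hc
  right_inv := SurfTw_inv h' h hf' fun s => by rw [← hf' s, hc, hf, neg_neg]
  continuous_toFun := SurfTw_continuous h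
  continuous_invFun := SurfTw_continuous h'

end General

theorem SurfTw_pF_zpow (e : Bool) (k : ℤ) (g : F2) : (pF e ^ k) g = g * of e ^ k := by
  rw [← act_of_zpow, act_pF]

theorem SurfTw_good_id {V : Type} (p : Bool → Perm V) (d : Bool) (c : V → ℤ)
    (hc : ∀ s, (p d ^ c s) s = s) (hconst : ∀ s, c (p d s) = c s) :
    SurfTw_Good p p d id c :=
  ⟨fun _ => rfl, hconst, fun s => by simp [hc]⟩

theorem SurfTw_good_uc {V : Type} (p : Bool → Perm V) (s₀ : V) (d : Bool) (c : V → ℤ)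
    (hc : ∀ s, (p d ^ c s) s = s) (hconst : ∀ s, c (p d s) = c s) :
    SurfTw_Good pF pF d (ap (tw d c hc) s₀) fun g => c (act p s₀ g) := by
  refine ⟨fun g => ?_, fun g => ?_, fun g => ?_⟩
  · rw [pF_apply, pF_apply, ap_isCoc, ap_tw_of]; simp [twE]
  · simp only [pF_apply, act_mul, act_of, hconst]
  · rw [pF_apply, pF_apply, ap_isCoc, ap_tw_of, SurfTw_pF_zpow, mul_assoc]; simp [twE]

theorem exists_lifts_tw {V : Type} (p : Bool → Perm V) (s₀ : V) (d : Bool) (c : V → ℤ)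
    (hc : ∀ s, (p d ^ c s) s = s) (hconst : ∀ s, c (p d s) = c s) :
    ∃ φ φ', Lifts p s₀ (tw d c hc) φ φ' := by
  have hc' : ∀ s, (p d ^ (-c s)) s = s := by
    intro s
    rw [zpow_neg]
    conv_lhs => enter [2]; rw [← hc s]
    simp
  have hconst' : ∀ s, -c (p d s) = -c s := fun s => by rw [hconst]
  have g1 := SurfTw_good_id p d c hc hconst
  have g2 := SurfTw_good_id p d (fun s => -c s) hc' hconst'
  have g3 := SurfTw_good_uc p s₀ d c hc hconst
  have g4 := SurfTw_good_uc p s₀ d (fun s => -c s) hc' hconst'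
  have i1 : ∀ g, ap (tw d (fun s => -c s) hc') s₀ (ap (tw d c hc) s₀ g) = g := by
    intro g
    have := coc_twE_neg (c := fun s => -c s) hc' s₀ g
    simp only [neg_neg] at this
    exact this
  have i2 : ∀ g, ap (tw d c hc) s₀ (ap (tw d (fun s => -c s) hc') s₀ g) = g :=
    fun g => coc_twE_neg hc s₀ g
  refine ⟨SurfTw_homeo g1 g2 (fun _ => rfl) (fun _ => rfl) (fun _ => rfl),
    SurfTw_homeo g3 g4 i1 i2 (fun g => by simp only [act_ap]), ?_, ?_, ?_, ?_⟩
  · intro x
    change uq p s₀ (SurfTw_TW pF pF d _ _ x) = SurfTw_TW p p d id c (uq p s₀ x)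
    unfold uq smap SurfTw_TW
    refine Prod.ext rfl ?_
    simp only [SurfTw_pF_zpow, act_mul, act_ap, act_of_zpow, id]
  · intro k x
    change SurfTw_TW pF pF d (ap (tw d c hc) s₀) (fun g => c (act p s₀ g)) (k • x) =
      res s₀ (tw d c hc) k • (SurfTw_TW pF pF d (ap (tw d c hc) s₀) (fun g => c (act p s₀ g)) x : UC)
    rw [smul_def, smul_def]
    have hk : act p s₀ (k : F2) = s₀ := k.2
    unfold SurfTw_TW
    simp only [act_mul, hk, SurfTw_pF_zpow, coe_res]
    refine Prod.ext rfl ?_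
    simp only
    rw [ap_isCoc, hk, mul_assoc]
  · change SurfTw_TW pF pF d (ap (tw d c hc) s₀) (fun g => c (act p s₀ g)) (z0, 1) = (z0, 1)
    rw [SurfTw_B1, (ap_isCoc _).one]
    rw [← mu_ctr d 0, mu_not, SurfTw_rep_Ioo]
    simp only [ctr]
    norm_num
  · have ho : IsOpen (iota p d s₀ '' {a : Strip | (a.2 : ℝ) < 1 / 2}) :=
      isOpenMap_iota p d s₀ _ (isOpen_lt (by fun_prop) continuous_const)
    have hb : base p s₀ ∈ iota p d s₀ '' {a : Strip | (a.2 : ℝ) < 1 / 2} := by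
      refine ⟨ctr 0, ?_, by rw [iota_ctr]; simp⟩
      simp only [ctr, Set.mem_ofPred_eq]
      norm_num
    filter_upwards [ho.mem_nhds hb] with y hy
    obtain ⟨a, ha, rfl⟩ := hy
    change SurfTw_TW p p d id c _ = _
    rw [SurfTw_A g1, SurfTw_psi_le (le_of_lt ha)]
    simp

end Pool.Agent.Work.MP_1b9dce_gt
end

-- merged part: Pool.Agent.Work.MP_1b9dce_gt.SurfSC
section
namespace Pool.Agent.Work.MP_1b9dce_gt

open Equiv
open FreeGroup (of)

theorem SurfSC_sc : SimplyConnectedSpace Strip := by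
  have : ContractibleSpace (Set.Ioo (0 : ℝ) 1) :=
    (convex_Ioo (0 : ℝ) 1).contractibleSpace ⟨1 / 2, by norm_num, by norm_num⟩
  infer_instance

theorem SurfSC_pc : PathConnectedSpace (Set.Ioo (0 : ℝ) 1) := by
  have : ContractibleSpace (Set.Ioo (0 : ℝ) 1) :=
    (convex_Ioo (0 : ℝ) 1).contractibleSpace ⟨1 / 2, by norm_num, by norm_num⟩
  infer_instance

/-- A path between two points of the strip. -/
noncomputable def SurfSC_seg (a a' : Strip) : Path a a' :=
  haveI := SurfSC_sc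
  PathConnectedSpace.somePath a a'

/-- The class of the image of a path of the strip. -/
noncomputable def SurfSC_cl (d : Bool) (a a' : Strip) {x y : T0} (hx : mu d a = x)
    (hy : mu d a' = y) : Path.Homotopic.Quotient x y :=
  Path.Homotopic.Quotient.mk (((SurfSC_seg a a').map (continuous_mu d)).cast hx.symm hy.symm)

theorem SurfSC_cl_eq (d : Bool) {a a' : Strip} {x y : T0} (hx : mu d a = x) (hy : mu d a' = y)
    (γ : Path x y) (δ : Path a a') (h : ∀ t, γ t = mu d (δ t)) :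
    Path.Homotopic.Quotient.mk γ = SurfSC_cl d a a' hx hy := by
  subst hx hy
  have := SurfSC_sc
  have e : γ = δ.map (continuous_mu d) := by
    ext1
    funext t
    exact h t
  rw [e, SurfSC_cl, Path.Homotopic.Quotient.eq]
  exact (SimplyConnectedSpace.paths_homotopic δ (SurfSC_seg a a')).map ⟨mu d, continuous_mu d⟩

theorem SurfSC_cl_trans (d : Bool) (a a' a'' : Strip) {x y z : T0} (hx : mu d a = x)
    (hy : mu d a' = y) (hz : mu d a'' = z) :
    (SurfSC_cl d a a' hx hy).trans (SurfSC_cl d a' a'' hy hz) = SurfSC_cl d a a'' hx hz := by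
  subst hx hy hz
  rw [SurfSC_cl, SurfSC_cl, ← Path.Homotopic.Quotient.mk_trans]
  refine SurfSC_cl_eq d rfl rfl _ ((SurfSC_seg a a').trans (SurfSC_seg a' a'')) fun t => ?_
  have := congrArg (fun γ : Path (mu d a) (mu d a'') => γ t)
    (Path.map_trans (SurfSC_seg a a') (SurfSC_seg a' a'') (continuous_mu d))
  exact this.symm

theorem SurfSC_cl_refl (d : Bool) (a : Strip) {x : T0} (hx : mu d a = x) :
    SurfSC_cl d a a hx hx = Path.Homotopic.Quotient.refl x :=
  (SurfSC_cl_eq d hx hx (Path.refl x) (Path.refl a) fun _ => hx.symm).symm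

theorem SurfSC_cl_add (d : Bool) (k : ℤ) {a a' b b' : Strip} {x y : T0} (hx : mu d a = x)
    (hy : mu d a' = y) (hx' : mu d b = x) (hy' : mu d b' = y) (hb : b = (a.1 + k, a.2))
    (hb' : b' = (a'.1 + k, a'.2)) : SurfSC_cl d a a' hx hy = SurfSC_cl d b b' hx' hy' := by
  subst hb hb'
  have hc : Continuous fun c : Strip => ((c.1 + k, c.2) : Strip) := by fun_prop
  rw [SurfSC_cl]
  exact SurfSC_cl_eq d hx' hy' _ ((SurfSC_seg a a').map hc) fun t => (mu_add_int d _ k).symm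

theorem SurfSC_cl_swap (d : Bool) (u v u' v' : Set.Ioo (0 : ℝ) 1) {x y : T0}
    (hx : mu d (u.1, v) = x) (hy : mu d (u'.1, v') = y) (hx' : mu (!d) (v.1, u) = x)
    (hy' : mu (!d) (v'.1, u') = y) :
    SurfSC_cl d (u.1, v) (u'.1, v') hx hy = SurfSC_cl (!d) (v.1, u) (v'.1, u') hx' hy' := by
  have := SurfSC_pc
  let P := PathConnectedSpace.somePath u u'
  let R := PathConnectedSpace.somePath v v'
  let δ : Path ((u.1, v) : Strip) (u'.1, v') := (P.map continuous_subtype_val).prod R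
  let δ' : Path ((v.1, u) : Strip) (v'.1, u') := (R.map continuous_subtype_val).prod P
  let γ : Path x y := (δ.map (continuous_mu d)).cast hx.symm hy.symm
  rw [← SurfSC_cl_eq d hx hy γ δ fun _ => rfl]
  exact SurfSC_cl_eq (!d) hx' hy' γ δ' fun t => (mu_swap d (P t) (R t)).symm

/-- The loops of the punctured torus attached to the words. -/
noncomputable def SurfSC_om (g : F2) : FundamentalGroup T0 z0 :=
  (FreeGroup.lift (fun d => (FundamentalGroup.fromPath
    (SurfSC_cl d (ctr 0) (ctr 1) (mu_ctr d 0) (mu_ctr d 1)))⁻¹) g)⁻¹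

/-- The same loops, as classes of paths. -/
noncomputable def SurfSC_w (g : F2) : Path.Homotopic.Quotient z0 z0 := (SurfSC_om g).toPath

theorem SurfSC_w_mul (g h : F2) : SurfSC_w (g * h) = (SurfSC_w g).trans (SurfSC_w h) := by
  have : SurfSC_om (g * h) = SurfSC_om h * SurfSC_om g := by
    simp only [SurfSC_om, map_mul, mul_inv_rev]
  unfold SurfSC_w
  rw [this]
  rfl

theorem SurfSC_w_one : SurfSC_w 1 = Path.Homotopic.Quotient.refl z0 := by
  have : SurfSC_om 1 = 1 := by simp only [SurfSC_om, map_one, inv_one]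
  unfold SurfSC_w
  rw [this]
  rfl

theorem SurfSC_w_of (d : Bool) :
    SurfSC_w (of d) = SurfSC_cl d (ctr 0) (ctr 1) (mu_ctr d 0) (mu_ctr d 1) := by
  unfold SurfSC_w SurfSC_om
  rw [FreeGroup.lift_apply_of, inv_inv]

theorem SurfSC_ctr_add (j k : ℤ) : ctr (j + k) = ((ctr j).1 + k, (ctr j).2) := by
  refine Prod.ext ?_ rfl
  simp only [ctr]
  push_cast
  ring

theorem SurfSC_cancel {X : Type} [TopologicalSpace X] {x y z : X}
    {q q' : Path.Homotopic.Quotient x y} (r : Path.Homotopic.Quotient y z)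
    (h : q.trans r = q'.trans r) : q = q' := by
  have := congrArg (fun s => Path.Homotopic.Quotient.trans s r.symm) h
  simpa using this

theorem SurfSC_w_step (d : Bool) (k : ℤ) :
    SurfSC_w (of d) = SurfSC_cl d (ctr k) (ctr (k + 1)) (mu_ctr d _) (mu_ctr d _) := by
  rw [SurfSC_w_of]
  refine SurfSC_cl_add d k _ _ _ _ ?_ ?_
  · rw [← SurfSC_ctr_add, zero_add]
  · rw [← SurfSC_ctr_add, add_comm]

theorem SurfSC_w_zpow (d : Bool) (k : ℤ) :
    SurfSC_w (of d ^ k) = SurfSC_cl d (ctr 0) (ctr k) (mu_ctr d 0) (mu_ctr d k) := by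
  induction k using Int.induction_on with
  | zero => rw [zpow_zero, SurfSC_w_one, SurfSC_cl_refl]
  | succ n ih => rw [zpow_add_one, SurfSC_w_mul, ih, SurfSC_w_step d n, SurfSC_cl_trans]
  | pred n ih =>
    apply SurfSC_cancel (SurfSC_w (of d))
    rw [← SurfSC_w_mul, ← zpow_add_one, SurfSC_w_step d (-(n : ℤ) - 1), SurfSC_cl_trans]
    have e : -(n : ℤ) - 1 + 1 = -(n : ℤ) := by ring
    simp only [e]
    exact ih

/-- The class attached to a point of a cylinder of the universal cover. -/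
noncomputable def SurfSC_val (d : Bool) (g : F2) (a : Strip) {y : T0} (hy : mu d a = y) :
    Path.Homotopic.Quotient z0 y :=
  (SurfSC_w g).trans (SurfSC_cl d (ctr 0) a (mu_ctr d 0) hy)

theorem SurfSC_val_add (d : Bool) (g : F2) (k : ℤ) {a b : Strip} {y : T0} (hy : mu d a = y)
    (hy' : mu d b = y) (hb : b = (a.1 + k, a.2)) :
    SurfSC_val d (g * of d ^ k) a hy = SurfSC_val d g b hy' := by
  rw [SurfSC_val, SurfSC_val, SurfSC_w_mul, SurfSC_w_zpow, Path.Homotopic.Quotient.trans_assoc,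
    SurfSC_cl_add d k (mu_ctr d 0) hy (mu_ctr d k) hy' (by rw [← SurfSC_ctr_add, zero_add]) hb,
    SurfSC_cl_trans]

theorem SurfSC_pF_zpow (d : Bool) (k : ℤ) (g : F2) : (pF d ^ k) g = g * of d ^ k := by
  rw [← act_of_zpow, act_pF]

theorem SurfSC_of_zpow_inj (d : Bool) {j k : ℤ} (h : (of d : F2) ^ j = of d ^ k) : j = k := by
  have := congrArg (FreeGroup.lift fun _ : Bool => Multiplicative.ofAdd (1 : ℤ)) h
  simp only [map_zpow, FreeGroup.lift_apply_of] at this
  have h2 := congrArg Multiplicative.toAdd this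
  simpa using h2

theorem SurfSC_iota_inj (d : Bool) (g : F2) : Function.Injective (iota pF d g) := by
  intro a a' h
  have h1 : mu d a = mu d a' := congrArg Prod.fst h
  have h2 : (pF d ^ ⌊a.1⌋) g = (pF d ^ ⌊a'.1⌋) g := congrArg Prod.snd h
  obtain ⟨e2, k, hk⟩ := (mu_eq_iff d a a').1 h1
  rw [SurfSC_pF_zpow, SurfSC_pF_zpow, mul_right_inj] at h2
  have h3 := SurfSC_of_zpow_inj d h2
  rw [hk, Int.floor_add_intCast] at h3
  have hk0 : k = 0 := by omega
  refine Prod.ext ?_ e2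
  rw [hk, hk0]
  simp

theorem SurfSC_norm (d : Bool) (g : F2) (a : Strip) {y : T0} (hy : mu d a = y) :
    ∃ (b : Strip) (hb : mu d b = y), 0 ≤ b.1 ∧ b.1 < 1 ∧
      SurfSC_val d g a hy = SurfSC_val d (iota pF d g a).2 b hb := by
  have e : a = ((Int.fract a.1 + (⌊a.1⌋ : ℤ), a.2) : Strip) :=
    Prod.ext (Int.fract_add_floor a.1).symm rfl
  have hb : mu d (Int.fract a.1, a.2) = y := by
    rw [← hy, ← mu_add_int d (Int.fract a.1, a.2) ⌊a.1⌋]
    exact congrArg (mu d) e.symm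
  refine ⟨(Int.fract a.1, a.2), hb, Int.fract_nonneg _, Int.fract_lt_one _, ?_⟩
  have e2 : (iota pF d g a).2 = g * of d ^ ⌊a.1⌋ := SurfSC_pF_zpow d _ g
  rw [e2]
  exact (SurfSC_val_add d g _ hb hy e).symm

theorem SurfSC_coe_inj {r s : ℝ} (hr : 0 ≤ r) (hr' : r < 1) (hs : 0 ≤ s) (hs' : s < 1)
    (h : (r : UnitAddCircle) = (s : UnitAddCircle)) : r = s := by
  have : Fact ((0 : ℝ) < 1) := ⟨one_pos⟩
  exact (AddCircle.coe_eq_coe_iff_of_mem_Ico (p := (1 : ℝ)) (a := 0) ⟨hr, by simpa using hr'⟩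
    ⟨hs, by simpa using hs'⟩).1 h

theorem SurfSC_val_eq {d d' : Bool} {g g' : F2} {a a' : Strip} {y : T0} (hy : mu d a = y)
    (hy' : mu d' a' = y) (h : iota pF d g a = iota pF d' g' a') :
    SurfSC_val d g a hy = SurfSC_val d' g' a' hy' := by
  obtain ⟨b, hb, h0, h1, e⟩ := SurfSC_norm d g a hy
  obtain ⟨b', hb', h0', h1', e'⟩ := SurfSC_norm d' g' a' hy'
  rw [e, e', h]
  have hm : mu d b = mu d' b' := hb.trans hb'.symm
  by_cases hd : d' = d
  · subst hd
    have k1 : b.1 = b'.1 := by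
      refine SurfSC_coe_inj h0 h1 h0' h1' ?_
      rw [← mu_same d' b, hm, mu_same]
    have k2 : b = b' := Prod.ext k1 ((mu_eq_iff d' b b').1 hm).1
    subst k2
    rfl
  · have hd' : d' = !d := by
      cases d <;> cases d' <;> simp_all
    subst hd'
    have k1 : b.1 = b'.2 := by
      refine SurfSC_coe_inj h0 h1 b'.2.2.1.le b'.2.2.2 ?_
      have := mu_not (!d) b'
      rw [Bool.not_not] at this
      rw [← mu_same d b, hm, this]
    have k2 : b'.1 = b.2 := by
      refine SurfSC_coe_inj h0' h1' b.2.2.1.le b.2.2.2 ?_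
      rw [← mu_same (!d) b', ← hm, mu_not]
    obtain ⟨r, v⟩ := b
    obtain ⟨r', u⟩ := b'
    simp only at k1 k2
    subst k1 k2
    let q : Set.Ioo (0 : ℝ) 1 := ⟨1 / 4, by norm_num, by norm_num⟩
    have c0 : ctr 0 = (q.1, q) := by
      refine Prod.ext ?_ rfl
      simp [ctr, q]
    have m1 : mu d (q.1, q) = z0 := c0 ▸ mu_ctr d 0
    have m2 : mu (!d) (q.1, q) = z0 := c0 ▸ mu_ctr (!d) 0
    have := SurfSC_cl_swap d q q u v m1 hb m2 hb'
    unfold SurfSC_val
    congr 1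
    simp only [c0]
    exact this

theorem SurfSC_exists_D : ∃ D : ∀ x : UC, Path.Homotopic.Quotient z0 (proj pF x),
    ∀ (d : Bool) (g : F2) (a : Strip) (x : UC) (h : iota pF d g a = x),
      D x = SurfSC_val d g a (congrArg (proj pF) h) := by
  choose d g a h using iota_surj pF
  exact ⟨fun x => SurfSC_val (d x) (g x) (a x) (congrArg (proj pF) (h x)),
    fun _ _ _ x h' => SurfSC_val_eq _ _ ((h x).trans h'.symm)⟩

theorem SurfSC_lift (d : Bool) (g : F2) {x y : UC} (γ : Path x y)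
    (hγ : ∀ t, γ t ∈ Set.range (iota pF d g)) :
    ∃ (a a' : Strip) (δ : Path a a'), ∀ t, iota pF d g (δ t) = γ t := by
  have he := Topology.IsOpenEmbedding.of_continuous_injective_isOpenMap (continuous_iota pF d g)
    (SurfSC_iota_inj d g) (isOpenMap_iota pF d g)
  choose f hf using hγ
  have hc : Continuous f := by
    rw [he.isInducing.continuous_iff]
    have : iota pF d g ∘ f = γ := funext hf
    rw [this]
    exact γ.continuous
  exact ⟨f 0, f 1, ⟨⟨f, hc⟩, rfl, rfl⟩, hf⟩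

theorem SurfSC_local {D : ∀ x : UC, Path.Homotopic.Quotient z0 (proj pF x)}
    (hD : ∀ (d : Bool) (g : F2) (a : Strip) (x : UC) (h : iota pF d g a = x),
      D x = SurfSC_val d g a (congrArg (proj pF) h))
    (d : Bool) (g : F2) {x y : UC} (γ : Path x y) (hγ : ∀ t, γ t ∈ Set.range (iota pF d g)) :
    (D x).trans (Path.Homotopic.Quotient.mk (γ.map (continuous_proj pF))) = D y := by
  obtain ⟨a, a', δ, hδ⟩ := SurfSC_lift d g γ hγ
  have hx : iota pF d g a = x := by rw [← δ.source, hδ, γ.source]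
  have hy : iota pF d g a' = y := by rw [← δ.target, hδ, γ.target]
  rw [hD d g a x hx, hD d g a' y hy, SurfSC_val, SurfSC_val, Path.Homotopic.Quotient.trans_assoc,
    SurfSC_cl_eq d (congrArg (proj pF) hx) (congrArg (proj pF) hy) (γ.map (continuous_proj pF)) δ
      fun t => (congrArg (proj pF) (hδ t)).symm, SurfSC_cl_trans]

theorem SurfSC_global {D : ∀ x : UC, Path.Homotopic.Quotient z0 (proj pF x)}
    (hD : ∀ (d : Bool) (g : F2) (a : Strip) (x : UC) (h : iota pF d g a = x),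
      D x = SurfSC_val d g a (congrArg (proj pF) h))
    {x y : UC} (γ : Path x y) :
    (D x).trans (Path.Homotopic.Quotient.mk (γ.map (continuous_proj pF))) = D y := by
  obtain ⟨t, ht0, hmono, ⟨N, hN⟩, hsub⟩ := exists_monotone_Icc_subset_open_cover_unitInterval
    (c := fun i : Bool × F2 => γ ⁻¹' Set.range (iota pF i.1 i.2))
    (fun i => (isOpenMap_iota pF i.1 i.2).isOpen_range.preimage γ.continuous)
    (fun s _ => by
      obtain ⟨d, g, a, h⟩ := iota_surj pF (γ s)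
      exact Set.mem_iUnion.2 ⟨(d, g), a, h⟩)
  have key : ∀ n, (D (γ (t 0))).trans (Path.Homotopic.Quotient.mk
      ((γ.subpath (t 0) (t n)).map (continuous_proj pF))) = D (γ (t n)) := by
    intro n
    induction n with
    | zero =>
      rw [Path.subpath_self]
      exact Path.Homotopic.Quotient.trans_refl _
    | succ n ih =>
      obtain ⟨i, hi⟩ := hsub n
      have h1 := SurfSC_local hD i.1 i.2 (γ.subpath (t n) (t (n + 1))) fun s => by
        have : γ.subpath (t n) (t (n + 1)) s ∈ γ '' Set.Icc (t n) (t (n + 1)) := by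
          rw [← Path.range_subpath_of_le γ _ _ (hmono (Nat.le_succ n))]
          exact Set.mem_range_self s
        obtain ⟨r, hr, e⟩ := this
        rw [← e]
        exact hi hr
      rw [← h1, ← ih, Path.Homotopic.Quotient.trans_assoc, ← Path.Homotopic.Quotient.mk_trans,
        ← Path.map_trans]
      congr 1
      rw [Path.Homotopic.Quotient.eq]
      exact (Path.Homotopic.map ⟨Path.Homotopy.subpathTransSubpath γ (t 0) (t n) (t (n + 1))⟩
        ⟨proj pF, continuous_proj pF⟩).symm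
  have h := key N
  rw [hN N le_rfl, ht0, Path.subpath_zero_one] at h
  have gen : ∀ (x' y' : UC) (hx : x' = x) (hy : y' = y),
      (D x').trans (Path.Homotopic.Quotient.mk ((γ.cast hx hy).map (continuous_proj pF))) = D y' →
      (D x).trans (Path.Homotopic.Quotient.mk (γ.map (continuous_proj pF))) = D y := by
    intro x' y' hx hy
    subst hx hy
    exact id
  exact gen _ _ _ _ h

theorem simplyConnected_UC : SimplyConnectedSpace UC := by
  rw [simply_connected_iff_loops_nullhomotopic]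
  refine ⟨pathConnected_surf pF (s₀ := 1) fun s => ⟨s, by rw [act_pF, one_mul]⟩, fun x γ => ?_⟩
  obtain ⟨D, hD⟩ := SurfSC_exists_D
  have h := SurfSC_global hD γ
  have h2 : Path.Homotopic.Quotient.mk (γ.map (continuous_proj pF)) =
      Path.Homotopic.Quotient.refl _ := by
    have := congrArg (fun s => Path.Homotopic.Quotient.trans (D x).symm s) h
    simpa [← Path.Homotopic.Quotient.trans_assoc] using this
  rw [← Path.Homotopic.Quotient.eq]
  apply (isCoveringMap_proj pF).injective_path_homotopic_map x x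
  exact h2

end Pool.Agent.Work.MP_1b9dce_gt
end

-- merged part: Pool.Agent.Work.MP_1b9dce_gt.SurfQ
section
namespace Pool.Agent.Work.MP_1b9dce_gt

open Equiv
open FreeGroup (of)

theorem SurfQ_equi {V : Type} (p : Bool → Perm V) (s₀ : V) (e : Bool) (g : F2) :
    act p s₀ (pF e g) = p e (act p s₀ g) := by
  rw [pF_apply, act_mul, act_of]

theorem SurfQ_uq_iota {V : Type} (p : Bool → Perm V) (s₀ : V) (d : Bool) (g : F2) (a : Strip) :
    uq p s₀ (iota pF d g a) = iota p d (act p s₀ g) a :=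
  smap_iota pF p (act p s₀) (SurfQ_equi p s₀) d g a

theorem SurfQ_continuous_uq {V : Type} (p : Bool → Perm V) (s₀ : V) : Continuous (uq p s₀) :=
  continuous_smap pF p (act p s₀) (SurfQ_equi p s₀)

theorem SurfQ_mul_equi (k : F2) (e : Bool) (g : F2) : k * pF e g = pF e (k * g) := by
  rw [pF_apply, pF_apply, mul_assoc]

theorem SurfQ_smul_iota {V : Type} (p : Bool → Perm V) (s₀ : V) (k : stab p s₀) (d : Bool)
    (g : F2) (a : Strip) : k • iota pF d g a = iota pF d ((k : F2) * g) a :=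
  smap_iota pF pF (fun g => (k : F2) * g) (SurfQ_mul_equi k) d g a

theorem SurfQ_isOpenMap_uq {V : Type} (p : Bool → Perm V) (s₀ : V) : IsOpenMap (uq p s₀) := by
  intro O hO
  have h : uq p s₀ '' O =
      ⋃ x : Bool × F2, iota p x.1 (act p s₀ x.2) '' (iota pF x.1 x.2 ⁻¹' O) := by
    ext y
    simp only [Set.mem_image, Set.mem_iUnion, Set.mem_preimage, Prod.exists]
    constructor
    · rintro ⟨x, hx, rfl⟩
      obtain ⟨d, g, a, rfl⟩ := iota_surj pF x
      exact ⟨d, g, a.1, a.2, hx, (SurfQ_uq_iota p s₀ d g a).symm⟩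
    · rintro ⟨d, g, a, b, hx, rfl⟩
      exact ⟨_, hx, SurfQ_uq_iota p s₀ d g (a, b)⟩
  rw [h]
  exact isOpen_iUnion fun x => isOpenMap_iota p _ _ _ (hO.preimage (continuous_iota pF _ _))

theorem isQuotientCoveringMap_uq {V : Type} (p : Bool → Perm V) {s₀ : V} (htr : Trans p s₀) :
    IsQuotientCoveringMap (uq p s₀) (stab p s₀) := by
  have hsurj : Function.Surjective (uq p s₀) := by
    intro y
    obtain ⟨w, hw⟩ := htr y.2
    exact ⟨(y.1, w), Prod.ext rfl hw⟩
  refine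
    { toIsQuotientMap := (SurfQ_isOpenMap_uq p s₀).isQuotientMap (SurfQ_continuous_uq p s₀) hsurj
      continuous_const_smul := fun k =>
        continuous_smap pF pF (fun g => (k : F2) * g) (SurfQ_mul_equi k)
      apply_eq_iff_mem_orbit := ?_
      disjoint := ?_ }
  · intro e₁ e₂
    constructor
    · intro h
      have h1 : e₁.1 = e₂.1 := congrArg (proj p) h
      have h2 : act p s₀ e₁.2 = act p s₀ e₂.2 := congrArg Prod.snd h
      refine ⟨⟨e₁.2 * e₂.2⁻¹, ?_⟩, ?_⟩
      · rw [mem_stab, act_mul, h2, act_act_inv]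
      · exact Prod.ext h1.symm (inv_mul_cancel_right _ _)
    · rintro ⟨k, rfl⟩
      refine Prod.ext rfl ?_
      change act p s₀ ((k : F2) * e₂.2) = act p s₀ e₂.2
      rw [act_mul, (mem_stab p).1 k.2]
  · intro x
    obtain ⟨d, g, a₀, rfl⟩ := iota_surj pF x
    refine ⟨iota pF d g '' {a : Strip | |a.1 - a₀.1| < 1 / 2}, ?_, ?_⟩
    · refine (isOpenMap_iota pF d g _ ?_).mem_nhds ⟨a₀, by simp, rfl⟩
      exact isOpen_lt (by fun_prop) continuous_const
    · rintro k ⟨_, ⟨_, ⟨a, ha, rfl⟩, rfl⟩, a', ha', h⟩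
      dsimp only at h
      rw [SurfQ_smul_iota] at h
      have h1 : mu d a' = mu d a := congrArg Prod.fst h
      obtain ⟨h2, m, h3⟩ := (mu_eq_iff d a' a).1 h1
      have hm : m = 0 := by
        have ha1 := abs_lt.1 (show |a.1 - a₀.1| < 1 / 2 from ha)
        have ha2 := abs_lt.1 (show |a'.1 - a₀.1| < 1 / 2 from ha')
        have b1 : (m : ℝ) < 1 := by linarith [ha1.1, ha1.2, ha2.1, ha2.2]
        have b2 : (-1 : ℝ) < m := by linarith [ha1.1, ha1.2, ha2.1, ha2.2]
        have b1' : m < 1 := by exact_mod_cast b1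
        have b2' : -1 < m := by exact_mod_cast b2
        omega
      have h4 : a' = a := Prod.ext (by rw [h3, hm]; simp) h2
      subst h4
      have h5 : (pF d ^ ⌊a'.1⌋) g = (pF d ^ ⌊a'.1⌋) ((k : F2) * g) := congrArg Prod.snd h
      have h6 := (pF d ^ ⌊a'.1⌋).injective h5
      exact Subtype.ext (mul_eq_right.1 h6.symm)

theorem SurfQ_norm_coe_le (r : ℝ) : ‖(r : UnitAddCircle)‖ ≤ |r| := by
  rw [UnitAddCircle.norm_eq]
  simpa using round_le r 0

theorem SurfQ_step {ε : ℝ} (hε : 0 < ε) (d : Bool) (g : F2) (b : Set.Ioo (0 : ℝ) 1)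
    (hb : ‖((b : ℝ) : UnitAddCircle)‖ ≤ ε) :
    JoinedIn {x : UC | ‖(proj pF x).1‖ ≤ ε} (iota pF d g (ε, b))
      (iota pF d (g * (of d)⁻¹) (1 - ε, b)) := by
  have h1 : iota pF d (g * (of d)⁻¹) (1 - ε, b) = iota pF d g (-ε, b) := by
    have h := iota_add_int pF d g (1 - ε, b) (-1)
    have e1 : (pF d ^ (-1 : ℤ)) g = g * (of d)⁻¹ := by
      rw [← act_of_zpow, act_pF, zpow_neg_one]
    rw [e1] at h
    rw [← h]
    congr 2
    push_cast
    ring
  rw [h1]
  have hc : Continuous fun t : ℝ => iota pF d g (t, b) :=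
    (continuous_iota pF d g).comp (by fun_prop)
  have h2 : JoinedIn (Set.Icc (-ε) ε) ε (-ε) :=
    (convex_Icc (-ε) ε).isPathConnected ⟨0, by constructor <;> linarith⟩ |>.joinedIn _
      ⟨by linarith, le_rfl⟩ _ ⟨le_rfl, by linarith⟩
  refine (h2.map hc).mono ?_
  rintro _ ⟨t, ht, rfl⟩
  change ‖(mu d (t, b)).1‖ ≤ ε
  refine (pi_norm_le_iff_of_nonneg hε.le).2 fun e => ?_
  by_cases he : e = d
  · subst he
    rw [mu_same]
    exact (SurfQ_norm_coe_le t).trans (abs_le.2 ht)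
  · have : e = !d := by cases e <;> cases d <;> simp_all
    subst this
    rw [mu_not]
    exact hb

theorem SurfQ_kap {ε : ℝ} (hε : 0 < ε) (hε1 : ε < 1) (h : F2) :
    JoinedIn {x : UC | ‖(proj pF x).1‖ ≤ ε} (iota pF false h (ε, ⟨ε, hε, hε1⟩))
      (iota pF false (h * kap) (ε, ⟨ε, hε, hε1⟩)) := by
  set e : Set.Ioo (0 : ℝ) 1 := ⟨ε, hε, hε1⟩ with he
  set e' : Set.Ioo (0 : ℝ) 1 := ⟨1 - ε, by linarith, by linarith⟩ with he'
  have n1 : ‖((e : ℝ) : UnitAddCircle)‖ ≤ ε :=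
    (SurfQ_norm_coe_le ε).trans (abs_of_pos hε).le
  have n2 : ‖((e' : ℝ) : UnitAddCircle)‖ ≤ ε := by
    have : ((e' : ℝ) : UnitAddCircle) = ((-ε : ℝ) : UnitAddCircle) := by
      change ((1 - ε : ℝ) : UnitAddCircle) = _
      rw [sub_eq_neg_add, AddCircle.coe_add_period]
    rw [this]
    exact (SurfQ_norm_coe_le _).trans (by rw [abs_neg, abs_of_pos hε])
  have s1 := SurfQ_step hε false h e n1
  have s2 := SurfQ_step hε true (h * (of false)⁻¹) e' n2
  have s3 := (SurfQ_step hε false (h * (of false)⁻¹ * (of true)⁻¹ * of false) e' n2).symm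
  have s4 := (SurfQ_step hε true (h * (of false)⁻¹ * (of true)⁻¹ * of false * of true) e n1).symm
  rw [mul_inv_cancel_right] at s3 s4
  have t1 := iota_swap pF false (h * (of false)⁻¹) e' e
  have t2 := iota_swap pF false (h * (of false)⁻¹ * (of true)⁻¹) e' e'
  have t3 := iota_swap pF false (h * (of false)⁻¹ * (of true)⁻¹ * of false) e e'
  have t4 := iota_swap pF false (h * (of false)⁻¹ * (of true)⁻¹ * of false * of true) e e
  have hk : h * kap = h * (of false)⁻¹ * (of true)⁻¹ * of false * of true := by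
    simp only [kap, mul_assoc]
  rw [hk]
  exact ((s1.trans (t1 ▸ s2)).trans (t2 ▸ s3)).trans (t3 ▸ t4 ▸ s4)

theorem joinedIn_kap {V : Type} (p : Bool → Perm V) (s₀ : V) (k : stab p s₀) (g : F2) (j : ℤ)
    (hk : (k : F2) = g * kap ^ j * g⁻¹) (K : Set (Surf p)) (hK : IsCompact K) :
    ∃ x : UC, JoinedIn (uq p s₀ ⁻¹' K)ᶜ x (k • x) := by
  have hc : Continuous fun x : Surf p => ‖(proj p x).1‖ :=
    (continuous_subtype_val.comp (continuous_proj p)).norm
  obtain ⟨δ, hδ, hδK⟩ := hK.exists_forall_le' hc.continuousOn (a := 0)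
    (fun x _ => norm_pos_iff.2 (proj p x).2)
  set ε : ℝ := min (δ / 2) (1 / 2) with hεdef
  have hε : 0 < ε := lt_min (by linarith) (by norm_num)
  have hε1 : ε < 1 := (min_le_right _ _).trans_lt (by norm_num)
  have hε2 : ε < δ := (min_le_left _ _).trans_lt (by linarith)
  have hsub : {x : UC | ‖(proj pF x).1‖ ≤ ε} ⊆ (uq p s₀ ⁻¹' K)ᶜ := by
    intro x hx hxK
    have h1 : δ ≤ ‖(proj p (uq p s₀ x)).1‖ := hδK (uq p s₀ x) hxK
    have h3 : proj p (uq p s₀ x) = proj pF x := rfl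
    rw [h3] at h1
    have h2 : ‖(proj pF x).1‖ ≤ ε := hx
    linarith
  refine ⟨iota pF false g (ε, ⟨ε, hε, hε1⟩), ?_⟩
  rw [SurfQ_smul_iota, hk, inv_mul_cancel_right]
  refine JoinedIn.mono ?_ hsub
  clear hk
  induction j using Int.induction_on with
  | zero =>
    rw [zpow_zero, mul_one]
    exact JoinedIn.refl (SurfQ_kap hε hε1 g).source_mem
  | succ n ih =>
    rw [zpow_add_one, ← mul_assoc]
    exact ih.trans (SurfQ_kap hε hε1 _)
  | pred n ih =>
    have h := (SurfQ_kap hε hε1 (g * kap ^ (-(n : ℤ) - 1))).symm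
    rw [mul_assoc, ← zpow_add_one, sub_add_cancel] at h
    exact ih.trans h

end Pool.Agent.Work.MP_1b9dce_gt
end

-- merged part: Pool.Agent.Work.MP_1b9dce_gt.Main
section
namespace Pool.Agent.Work.MP_1b9dce_gt

open Equiv
open FreeGroup (of)

theorem uq_base {V : Type} (p : Bool → Perm V) (s₀ : V) : uq p s₀ (base pF 1) = base p s₀ := by
  simp [uq, smap, base]

theorem Lifts.fix {V : Type} {p : Bool → Perm V} {s₀ : V} {θ : GAut p} {φ φ'}
    (h : Lifts p s₀ θ φ φ') : φ (base p s₀) = base p s₀ := h.near.self_of_nhds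

theorem Lifts.mul {V : Type} {p : Bool → Perm V} {s₀ : V} {θ₁ θ₂ : GAut p} {φ₁ φ₁' φ₂ φ₂'}
    (h₁ : Lifts p s₀ θ₁ φ₁ φ₁') (h₂ : Lifts p s₀ θ₂ φ₂ φ₂') :
    Lifts p s₀ (θ₁ * θ₂) (φ₂.trans φ₁) (φ₂'.trans φ₁') where
  comm x := by simp only [Homeomorph.trans_apply, h₁.comm, h₂.comm]
  equiv k x := by simp only [Homeomorph.trans_apply, h₁.equiv, h₂.equiv, map_mul, MulAut.mul_apply]
  base' := by simp only [Homeomorph.trans_apply, h₁.base', h₂.base']
  near := by
    filter_upwards [h₁.near, h₂.near] with y a b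
    simp only [Homeomorph.trans_apply, a, b]

theorem TD.exists_lifts {V : Type} (D : TD V) (s₀ : V) : ∃ φ φ', Lifts D.p s₀ (D.Φ 4) φ φ' := by
  have h : ∀ j, ∃ φ φ', Lifts D.p s₀ (D.T j) φ φ' := fun j =>
    exists_lifts_tw D.p s₀ _ _ _ fun s => by rw [D.const]
  obtain ⟨_, _, h0⟩ := h 0
  obtain ⟨_, _, h1⟩ := h 1
  obtain ⟨_, _, h2⟩ := h 2
  obtain ⟨_, _, h3⟩ := h 3
  rw [D.Φ_four]
  exact ⟨_, _, ((h0.mul h1).mul h2).mul h3⟩

theorem main (k : ℕ) : ∃ (S : Type) (_ : TopologicalSpace S) (P : S → T0) (φ : S ≃ₜ S) (x₀ : S)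
    (h : φ x₀ = x₀),
    IsCoveringMap P ∧ (∀ z, (P ⁻¹' {z}).Finite) ∧ ConnectedSpace S ∧
    (∀ᶠ y in nhds x₀, φ y = y) ∧
    (∀ n, 0 < n → ∀ c : FundamentalGroup S x₀,
      IsConj ((FundamentalGroup.mapOfEq ⟨φ, φ.continuous⟩ h)^[n] c) c → Peri c) ∧
    ∃ m : H1 (FundamentalGroup (MT φ) (fib φ x₀)),
      MinPt (FundamentalGroup.map (fib φ) x₀).range m ∧
      ∃ g : Fin k → FundamentalGroup (MT φ) (fib φ x₀), LinearIndependent ℚ fun i => m.1 (g i) := by
  obtain ⟨V, _, D, s₀, htr, hpa, m, hm, g, hg⟩ := alg_main k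
  obtain ⟨φ, φ', hL⟩ := D.exists_lifts s₀
  haveI := simplyConnected_UC
  haveI : Nonempty V := ⟨s₀⟩
  haveI := pathConnected_surf D.p htr
  obtain ⟨e, Ξ, he, hΞ, hper⟩ := cov_MT (isQuotientCoveringMap_uq D.p htr) φ φ' (D.phi s₀)
    (base pF 1) hL.comm hL.equiv hL.base' (uq_base D.p s₀) hL.fix
  refine ⟨Surf D.p, inferInstance, proj D.p, φ, base D.p s₀, hL.fix, isCoveringMap_proj D.p,
    fun z => ?_, inferInstance, hL.near, fun n hn c hc => ?_, pull Ξ m, hm.comap Ξ fun a => ?_,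
    fun i => Ξ.symm (g i), ?_⟩
  · refine Set.Finite.subset (Set.finite_range fun s : V => ((z, s) : Surf D.p)) ?_
    rintro ⟨z', s⟩ hz
    exact ⟨s, Prod.ext hz.symm rfl⟩
  · have h1 : ∀ n c, e ((FundamentalGroup.mapOfEq ⟨φ, φ.continuous⟩ hL.fix)^[n] c) =
        (D.phi s₀)^[n] (e c) := by
      intro n
      induction n with
      | zero => intro c; rfl
      | succ n ih => intro c; rw [Function.iterate_succ_apply, Function.iterate_succ_apply, ih, he]
    have h2 := e.toMonoidHom.map_isConj hc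
    simp only [MulEquiv.toMonoidHom_eq_coe, MonoidHom.coe_coe, h1] at h2
    obtain ⟨g, j, hk⟩ := hpa n hn (e c) h2
    exact hper c fun K hK => joinedIn_kap D.p s₀ (e c) g j hk K hK
  · constructor
    · rintro ⟨c, rfl⟩
      exact ⟨e c, (hΞ c).symm⟩
    · rintro ⟨k, hk⟩
      refine ⟨e.symm k, Ξ.injective ?_⟩
      rw [hΞ, MulEquiv.apply_symm_apply, hk]
  · simpa [pull] using hg

end Pool.Agent.Work.MP_1b9dce_gt
end
end
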