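import Mathlib

/-! Definitions used in the statement: mapping tori, peripheral classes, and the description of
the fibered cone, the Thurston norm and the dilatation in terms of the fundamental group. -/

namespace Pool.Agent.Work.MP_1b9dce_gt

/-- The once punctured torus. -/
abbrev T0 : Type := {z : UnitAddTorus Bool // z ≠ 0}

section Top
variable {S : Type} [TopologicalSpace S]

/-- The mapping torus `S × ℝ / (x, r) ∼ (φ x, r + 1)`. -/
abbrev MT (φ : S ≃ₜ S) : Type := Quot fun a b : S × ℝ => b = (φ a.1, a.2 + 1)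

/-- The inclusion of the fibre `x ↦ [(x, 0)]`. -/
def fib (φ : S ≃ₜ S) : C(S, MT φ) :=
  ⟨fun x => Quot.mk _ (x, 0), continuous_quot_mk.comp (Continuous.prodMk_left 0)⟩

/-- A class is peripheral (or trivial): it is freely homotopic off every compact set. -/
def Peri {x₀ : S} (c : FundamentalGroup S x₀) : Prop :=
  ∀ K : Set S, IsCompact K → ∃ (x₁ : S) (δ : Path x₀ x₁) (γ : Path x₁ x₁),
    (∀ t, γ t ∉ K) ∧ c = FundamentalGroup.fromPath ⟦δ.trans (γ.trans δ.symm)⟧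

/-- No power of `φ` fixes a free homotopy class that is not peripheral. -/
def NoPer (φ : S ≃ₜ S) {x₀ : S} (h : φ x₀ = x₀) : Prop :=
  ∀ n, 0 < n → ∀ c : FundamentalGroup S x₀,
    IsConj ((FundamentalGroup.mapOfEq ⟨φ, φ.continuous⟩ h)^[n] c) c → Peri c

end Top

section Grp

/-- `H¹(G; ℝ) = Hom(G, ℝ)`. -/
def H1 (G : Type) [Group G] : Submodule ℝ (G → ℝ) where
  carrier := {f | ∀ a b, f (a * b) = f a + f b}
  add_mem' := by
    intro f g hf hg a b
    simp only [Pi.add_apply, hf a b, hg a b]; ring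
  zero_mem' := by intro a b; simp
  smul_mem' := by
    intro c f hf a b
    simp only [Pi.smul_apply, hf a b, smul_eq_mul]; ring

/-- The first Betti number. -/
noncomputable def b1 (G : Type) [Group G] : ℕ := Module.finrank ℝ (H1 G)

variable {G : Type} [Group G]

/-- `K` is the kernel of `α`. -/
def IsKer (α : G → ℝ) (K : Subgroup G) : Prop := ∀ g, g ∈ K ↔ α g = 0

/-- Primitive integral: the image is exactly `ℤ`. -/
def Prm (α : G → ℝ) : Prop := Set.range α = Set.range ((↑) : ℤ → ℝ)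

/-- Word length with respect to `B`. -/
noncomputable def wl (B : Finset G) (g : G) : ℕ :=
  sInf {n | ∃ l : List G, l.length = n ∧ (∀ a ∈ l, a ∈ B ∨ a⁻¹ ∈ B) ∧ l.prod = g}

/-- The monodromy of `K = ker α` (conjugation by any `t` with `α t = 1`) has growth rate `L`. -/
def Growth (α : G → ℝ) (K : Subgroup G) (L : ℝ) : Prop :=
  ∀ B : Finset G, Subgroup.closure (B : Set G) = K → ∀ t : G, α t = 1 →
    (∀ k ∈ K, ∃ c : ℝ, ∀ n : ℕ, (wl B (t ^ n * k * (t ^ n)⁻¹) : ℝ) ≤ c * L ^ n) ∧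
    ∃ k ∈ K, ∃ c : ℝ, 0 < c ∧ ∀ n : ℕ, c * L ^ n ≤ wl B (t ^ n * k * (t ^ n)⁻¹)

/-- An open convex cone of `H1 G` (pointwise topology) through `α₀` whose primitive integral
classes have finitely generated kernel. -/
def FCone (α₀ : G → ℝ) (C : Set (G → ℝ)) : Prop :=
  (∃ O, IsOpen O ∧ C = O ∩ H1 G) ∧ Convex ℝ C ∧ (∀ α ∈ C, ∀ r : ℝ, 0 < r → r • α ∈ C) ∧
    α₀ ∈ C ∧ ∀ α ∈ C, Prm α → ∀ K, IsKer α K → K.FG

/-- `m` is the unique minimum point of the dilatation `lam` on the fibered face `C ∩ {x = 1}` of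
the class `α₀` with kernel `F`. -/
def MinP (F : Subgroup G) (m : G → ℝ) : Prop :=
  ∃ (α₀ : G → ℝ) (C : Set (G → ℝ)) (x : (G → ℝ) →ₗ[ℝ] ℝ) (lam : (G → ℝ) → ℝ),
    Prm α₀ ∧ IsKer α₀ F ∧ IsGreatest {C' | FCone α₀ C'} C ∧
    (∀ α ∈ C, Prm α → ∀ K, IsKer α K → x α = (b1 K : ℝ) - 1 ∧ Growth α K (lam α)) ∧
    ContinuousOn lam C ∧ (∀ α ∈ C, ∀ r : ℝ, 0 < r → lam (r • α) = lam α ^ r⁻¹) ∧
    m ∈ C ∧ x m = 1 ∧ ∀ α ∈ C, x α = 1 → α ≠ m → lam m < lam α

/-- The values on `G` of the minimum point of the fibered face of `F` span a `ℚ`-vector space of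
dimension at least `k`. -/
def RankGE (F : Subgroup G) (k : ℕ) : Prop :=
  ∃ m : G → ℝ, MinP F m ∧ ∃ g : Fin k → G, LinearIndependent ℚ fun i => m (g i)

end Grp

end Pool.Agent.Work.MP_1b9dce_gt
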